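import Mathlib

section

/-! Rational bounds for `artanh`. -/

namespace Pool.Agent.FKH

private lemma An1_geo (c : ℝ) {w : ℝ} (hw0 : 0 ≤ w) (hw1 : w < 1) :
    HasSum (fun k : ℕ => c * w ^ k) (c * (1 - w)⁻¹) :=
  (hasSum_geometric_of_lt_one hw0 hw1).mul_left c

private lemma An1_pow (k : ℕ) : (2 * (k : ℝ) + 1) ≤ 3 ^ k := by
  induction k with
  | zero => norm_num
  | succ k ih =>
    push_cast
    have : (1 : ℝ) ≤ 3 ^ k := one_le_pow₀ (by norm_num)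
    rw [pow_succ]
    nlinarith

/-- DHL TASK An1, part 1.
PROOF. `log (1+s) - log (1-s) = ∑ k, 2 * s^(2k+1)/(2k+1)`
(`Real.hasSum_log_sub_log_of_abs_lt_one`), and
`6 s/(3 - s²) = 2 s / (1 - s²/3) = ∑ k, 2 s (s²/3)^k` (geometric series, `hasSum_geometric_of_...`).
Compare term by term: `1/3^k ≤ 1/(2k+1)` (`2k+1 ≤ 3^k`), with `hasSum_le`. -/
lemma artanh_lower {s : ℝ} (h0 : 0 < s) (h1 : s < 1) :
    6 * s / (3 - s ^ 2) ≤ Real.log ((1 + s) / (1 - s)) := by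
  have hs2 : s ^ 2 < 1 := by nlinarith
  have hA := Real.hasSum_log_sub_log_of_abs_lt_one (x := s) (by rw [abs_of_pos h0]; exact h1)
  have hB := An1_geo (2 * s) (w := s ^ 2 / 3) (by positivity) (by linarith)
  rw [Real.log_div (by linarith) (by linarith)]
  have e1 : 6 * s / (3 - s ^ 2) = 2 * s * (1 - s ^ 2 / 3)⁻¹ := by
    have h3 : (3 : ℝ) - s ^ 2 ≠ 0 := by linarith
    have h4 : (1 : ℝ) - s ^ 2 / 3 ≠ 0 := by
      intro h
      apply h3
      linarith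
    field_simp
    ring
  rw [e1]
  refine hasSum_le (fun k => ?_) hB hA
  have hk := An1_pow k
  have hp : (0 : ℝ) < 2 * (k : ℝ) + 1 := by positivity
  have hp3 : (0 : ℝ) < 3 ^ k := by positivity
  have e2 : 2 * s * (s ^ 2 / 3) ^ k = 2 * (1 / 3 ^ k) * s ^ (2 * k + 1) := by
    rw [div_pow, ← pow_mul, pow_succ s (2 * k)]
    field_simp
  rw [e2]
  have : (1 : ℝ) / 3 ^ k ≤ 1 / (2 * (k : ℝ) + 1) := one_div_le_one_div_of_le hp hk
  have hs : (0 : ℝ) ≤ s ^ (2 * k + 1) := by positivity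
  nlinarith [mul_le_mul_of_nonneg_right this hs]

/-- DHL TASK An1, part 2.
PROOF. The same series for `z`: the terms with `k ≥ 1` are at most `(2/3) z^(2k+1)`, and
`2 z + ∑ k ≥ 1, (2/3) z^(2k+1) = 2 z + (2/3) z³/(1 - z²) = 2 z (3 - 2 z²)/(3 (1 - z²))`.
(E.g. compare with the sum of `k ↦ (2/3) z (z²)^k + if k = 0 then (4/3) z else 0`.) -/
lemma artanh_upper {z : ℝ} (h0 : 0 < z) (h1 : z < 1) :
    Real.log ((1 + z) / (1 - z)) ≤ 2 * z * (3 - 2 * z ^ 2) / (3 * (1 - z ^ 2)) := by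
  have hs2 : z ^ 2 < 1 := by nlinarith
  have hA := Real.hasSum_log_sub_log_of_abs_lt_one (x := z) (by rw [abs_of_pos h0]; exact h1)
  have hB := An1_geo (2 / 3 * z) (w := z ^ 2) (by positivity) hs2
  have hC : HasSum (fun k : ℕ => if k = 0 then (4 / 3 * z : ℝ) else 0) (4 / 3 * z) :=
    hasSum_ite_eq 0 (4 / 3 * z)
  have hD := hB.add hC
  rw [Real.log_div (by linarith) (by linarith)]
  have e1 : 2 * z * (3 - 2 * z ^ 2) / (3 * (1 - z ^ 2)) = 2 / 3 * z * (1 - z ^ 2)⁻¹ + 4 / 3 * z := by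
    have h3 : (1 : ℝ) - z ^ 2 ≠ 0 := by linarith
    field_simp
    ring
  rw [e1]
  refine hasSum_le (fun k => ?_) hA hD
  have hzp : (0 : ℝ) ≤ z * (z ^ 2) ^ k := by positivity
  have e2 : z ^ (2 * k + 1) = z * (z ^ 2) ^ k := by
    rw [pow_succ, pow_mul, mul_comm]
  rcases Nat.eq_zero_or_pos k with rfl | hk
  · simp
    linarith
  · have hk0 : k ≠ 0 := by omega
    simp only [hk0, if_false, add_zero]
    rw [e2]
    have hk1 : (1 : ℝ) ≤ (k : ℝ) := by exact_mod_cast hk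
    have : (1 : ℝ) / (2 * (k : ℝ) + 1) ≤ 1 / 3 :=
      one_div_le_one_div_of_le (by norm_num) (by linarith)
    nlinarith [mul_le_mul_of_nonneg_right this hzp]

end Pool.Agent.FKH
end

section

/-! The main inequality. -/

open Finset

namespace Pool.Agent.FKH

/-- DHL TASK An6a. The bounds for `f = s / (b z)`.
PROOF. Part 1: `b ≥ 2`. Part 2: take logarithms of `h`:
`b * log ((1+z)/(1-z)) = log ((1+s)/(1-s))`, and use `artanh_lower`, `artanh_upper`: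
`b * 2z(3-2z²)/(3(1-z²)) ≥ 6s/(3-s²)`, i.e. `s/(bz) ≤ (3-2z²)(3-s²)/(9(1-z²))`. -/
lemma f_bounds {b : ℕ} (hb : 2 ≤ b) {s z : ℝ} (hs0 : 0 < s) (hs1 : s < 1) (hz0 : 0 < z)
    (hz1 : z < 1) (h : ((1 + z) / (1 - z)) ^ b = (1 + s) / (1 - s)) :
    s / (b * z) ≤ s / (2 * z) ∧
      s / (b * z) ≤ (3 - s ^ 2) * (3 - 2 * z ^ 2) / (9 * (1 - z ^ 2)) := by
  have hb2 : (2 : ℝ) ≤ b := by exact_mod_cast hb
  have hb0 : (0 : ℝ) < b := by linarith
  constructor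
  · apply div_le_div_of_nonneg_left hs0.le (by positivity)
    exact mul_le_mul_of_nonneg_right hb2 hz0.le
  · have h1 := artanh_lower hs0 hs1
    have h2 := artanh_upper hz0 hz1
    have hlog : (b : ℝ) * Real.log ((1 + z) / (1 - z)) = Real.log ((1 + s) / (1 - s)) := by
      rw [← h, Real.log_pow]
    have hX : 0 < 3 - s ^ 2 := by nlinarith
    have hW : 0 < 1 - z ^ 2 := by nlinarith
    have h3 : 6 * s / (3 - s ^ 2) ≤ b * (2 * z * (3 - 2 * z ^ 2) / (3 * (1 - z ^ 2))) :=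
      le_trans h1 (le_trans hlog.symm.le (mul_le_mul_of_nonneg_left h2 hb0.le))
    rw [← mul_div_assoc, div_le_div_iff₀ hX (by positivity)] at h3
    rw [div_le_div_iff₀ (by positivity) (by positivity)]
    nlinarith [h3]

end Pool.Agent.FKH
end

section

/-! Bounds for the average of a geometric sequence. -/

open Finset

namespace Pool.Agent.FKH

/-- DHL TASK An3, part 1 (AM-GM).
PROOF. `∑ i ∈ range (n+1), (c^i - c^(n-i))^2 ≥ 0`, and with `Finset.sum_range_reflect` this is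
`2 * ∑ (c^2)^i - 2 (n+1) c^n`. -/
lemma geom_ge {c : ℝ} (h0 : 0 < c) (n : ℕ) :
    ((n : ℝ) + 1) * c ^ n ≤ ∑ i ∈ range (n + 1), (c ^ 2) ^ i := by
  have _h0 := h0
  have h1 : 0 ≤ ∑ i ∈ range (n + 1), (c ^ i - c ^ (n - i)) ^ 2 :=
    Finset.sum_nonneg fun i _ => sq_nonneg _
  have h2 : ∑ i ∈ range (n + 1), (c ^ (n - i)) ^ 2 = ∑ i ∈ range (n + 1), (c ^ i) ^ 2 := by
    have h3 := Finset.sum_range_reflect (fun i => (c ^ i) ^ 2) (n + 1)
    rw [← h3]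
    exact Finset.sum_congr rfl fun i _ => by rw [show n + 1 - 1 - i = n - i by omega]
  have h4 : ∑ i ∈ range (n + 1), (c ^ i - c ^ (n - i)) ^ 2 =
      ∑ i ∈ range (n + 1), (c ^ i) ^ 2 + ∑ i ∈ range (n + 1), (c ^ (n - i)) ^ 2 -
        ∑ i ∈ range (n + 1), 2 * c ^ n := by
    rw [← Finset.sum_add_distrib, ← Finset.sum_sub_distrib]
    refine Finset.sum_congr rfl fun i hi => ?_
    have h5 : c ^ n = c ^ i * c ^ (n - i) := by
      rw [← pow_add]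
      congr 1
      have := Finset.mem_range.1 hi
      omega
    rw [h5]
    ring
  have h6 : ∑ i ∈ range (n + 1), (c ^ 2) ^ i = ∑ i ∈ range (n + 1), (c ^ i) ^ 2 :=
    Finset.sum_congr rfl fun i _ => by rw [← pow_mul, ← pow_mul, mul_comm]
  rw [h4, h2, Finset.sum_const, Finset.card_range, nsmul_eq_mul] at h1
  rw [h6]
  push_cast at h1
  linarith

/-- Trapezoid rule. -/
private lemma An3_trap {s : ℝ} (h0 : 0 < s) (h1 : s < 1) (k : ℕ) :
    2 * ∑ i ∈ range (k + 1), s ^ i ≤ ((k : ℝ) + 1) * (1 + s ^ k) := by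
  have h2 : ∑ i ∈ range (k + 1), s ^ (k - i) = ∑ i ∈ range (k + 1), s ^ i := by
    have h3 := Finset.sum_range_reflect (fun i => s ^ i) (k + 1)
    rw [← h3]
    exact Finset.sum_congr rfl fun i _ => by rw [show k + 1 - 1 - i = k - i by omega]
  have h4 : ∑ i ∈ range (k + 1), (s ^ i + s ^ (k - i)) ≤ ∑ i ∈ range (k + 1), (1 + s ^ k) := by
    refine Finset.sum_le_sum fun i hi => ?_
    have h5 : s ^ k = s ^ i * s ^ (k - i) := by
      rw [← pow_add]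
      congr 1
      have := Finset.mem_range.1 hi
      omega
    have h6 : s ^ i ≤ 1 := pow_le_one₀ h0.le h1.le
    have h7 : s ^ (k - i) ≤ 1 := pow_le_one₀ h0.le h1.le
    rw [h5]
    nlinarith [mul_nonneg (sub_nonneg.2 h6) (sub_nonneg.2 h7)]
  rw [Finset.sum_add_distrib, h2, Finset.sum_const, Finset.card_range, nsmul_eq_mul] at h4
  push_cast at h4
  linarith

/-- The inequality of the odd case. -/
private lemma An3_odd {c y : ℝ} (h0 : 0 < c) (h1 : c < 1) (hy : 0 < y) (hyc : y ≤ c ^ 3) :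
    3 * (c + y + c ^ 2 * y + c * y ^ 2) ≤ 4 * c * (1 + y + y ^ 2) := by
  have h2 : 0 < 2 * c ^ 3 + 2 * c ^ 2 - c + 3 := by
    have := pow_pos h0 3
    have := pow_pos h0 2
    linarith
  have h3 : 2 * c ^ 4 - 3 * c ^ 2 + 4 * c - 3 ≤ 0 := by
    have h4 : 2 * c ^ 4 - 3 * c ^ 2 + 4 * c - 3 = (c - 1) * (2 * c ^ 3 + 2 * c ^ 2 - c + 3) := by
      ring
    rw [h4]
    exact mul_nonpos_of_nonpos_of_nonneg (by linarith) h2.le
  have h5 : c * (y + c ^ 3) - (3 + 3 * c ^ 2 - 4 * c) ≤ 0 := by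
    have h6 : c * (y + c ^ 3) ≤ c * (c ^ 3 + c ^ 3) :=
      mul_le_mul_of_nonneg_left (by linarith) h0.le
    nlinarith
  have h7 : 0 ≤ (y - c ^ 3) * (c * (y + c ^ 3) - (3 + 3 * c ^ 2 - 4 * c)) :=
    mul_nonneg_of_nonpos_of_nonpos (by linarith) h5
  have h8 : 0 ≤ c * ((1 - c) ^ 2 * (c ^ 4 + 2 * c ^ 3 + 2 * c + 1)) := by positivity
  have _hy := hy
  nlinarith [h7, h8]

/-- DHL TASK An3, part 2 (a Simpson type bound).
PROOF (one way). Trapezoid rule: for `0 < s < 1`, `2 ∑_{i ≤ k} s^i ≤ (k+1)(1 + s^k)`, because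
`s^i + s^(k-i) ≤ 1 + s^k` (`(1 - s^i)(1 - s^(k-i)) ≥ 0`) and `Finset.sum_range_reflect`.
Put `s = c²`.
* `n = 2k` even, `k ≥ 1`: `∑_{i ≤ 2k} s^i = ∑_{i ≤ k} s^i + s^k ∑_{i ≤ k} s^i - s^k
  ≤ [(k+1)(1 + s^k)² - 2 s^k]/2`. With `y = c^n = s^k` the claim
  `3 [(k+1)(1+y)² - 2y] ≤ 2 (2k+1)(1 + y + y²)` is `0 ≤ (k-1)(1-y)²`.
* `n = 2k+1` odd, `k ≥ 1`: `∑_{i ≤ 2k+1} s^i = (1 + s^(k+1)) ∑_{i ≤ k} s^i
  ≤ (k+1)(1 + s^k)(1 + s^(k+1))/2`. With `y = c^n = c^(2k+1)`, `c s^k = y`, `s^(k+1) = c y`, so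
  `c (1 + s^k + s^(k+1) + s^(2k+1)) = c + y + c² y + c y²`, and the claim
  `3 (c + y + c² y + c y²) ≤ 4 c (1 + y + y²)` is `3 y (1 + c²) ≤ c + 4 c y + c y²`, i.e.
  `c + 4 c y + c y² - 3 y - 3 c² y ≥ 0`. As `y ≤ c³` (`k ≥ 1`) and the left side is decreasing in
  `y` (derivative `4c + 2cy - 3 - 3c² ≤ 4c + 2c⁴ - 3 - 3c² <= 0`), it is at least its value at
  `y = c³`, which is `c (1 - 3c² + 4c³ - 3c⁴ + c⁶) = c (1-c)² (c⁴ + 2c³ + 2c + 1) ≥ 0`. -/
lemma geom_le {c : ℝ} (h0 : 0 < c) (h1 : c < 1) {n : ℕ} (hn : 2 ≤ n) :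
    3 * ∑ i ∈ range (n + 1), (c ^ 2) ^ i ≤ ((n : ℝ) + 1) * (1 + c ^ n + (c ^ n) ^ 2) := by
  have hs0 : 0 < c ^ 2 := pow_pos h0 2
  have hs1 : c ^ 2 < 1 := pow_lt_one₀ h0.le h1 (by norm_num)
  rcases Nat.even_or_odd' n with ⟨k, rfl | rfl⟩
  · have hk : 1 ≤ k := by omega
    have htr := An3_trap hs0 hs1 k
    have e1 : ∑ i ∈ range (2 * k + 1), (c ^ 2) ^ i =
        ∑ i ∈ range (k + 1), (c ^ 2) ^ i + (c ^ 2) ^ k * ∑ i ∈ range (k + 1), (c ^ 2) ^ i -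
          (c ^ 2) ^ k := by
      have e2 : ∑ i ∈ range (2 * k + 1), (c ^ 2) ^ i =
          ∑ i ∈ range k, (c ^ 2) ^ i + ∑ i ∈ range (k + 1), (c ^ 2) ^ (k + i) := by
        rw [show 2 * k + 1 = k + (k + 1) by ring, Finset.sum_range_add]
      rw [e2, Finset.sum_range_succ (fun i => (c ^ 2) ^ i) k]
      simp only [pow_add]
      rw [← Finset.mul_sum, Finset.sum_range_succ (fun i => (c ^ 2) ^ i) k]
      ring
    have e3 : c ^ (2 * k) = (c ^ 2) ^ k := by rw [pow_mul]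
    rw [e1, e3]
    set y := (c ^ 2) ^ k with hy
    have hy0 : 0 < y := pow_pos hs0 k
    set A := ∑ i ∈ range (k + 1), (c ^ 2) ^ i with hA
    have hk' : (1 : ℝ) ≤ k := by exact_mod_cast hk
    push_cast
    have h2 : (1 + y) * (2 * A) ≤ (1 + y) * (((k : ℝ) + 1) * (1 + y)) :=
      mul_le_mul_of_nonneg_left htr (by linarith)
    have h3 : 0 ≤ ((k : ℝ) - 1) * (1 - y) ^ 2 := mul_nonneg (by linarith) (sq_nonneg _)
    nlinarith [h2, h3]
  · have hk : 1 ≤ k := by omega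
    have htr := An3_trap hs0 hs1 k
    have e1 : ∑ i ∈ range (2 * k + 1 + 1), (c ^ 2) ^ i =
        (1 + (c ^ 2) ^ (k + 1)) * ∑ i ∈ range (k + 1), (c ^ 2) ^ i := by
      rw [show 2 * k + 1 + 1 = (k + 1) + (k + 1) by ring, Finset.sum_range_add]
      simp only [pow_add _ (k + 1)]
      rw [← Finset.mul_sum]
      ring
    rw [e1]
    set y := c ^ (2 * k + 1) with hy
    have hy0 : 0 < y := pow_pos h0 _
    have hyc : y ≤ c ^ 3 := pow_le_pow_of_le_one h0.le h1.le (by omega)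
    have e2 : c * (c ^ 2) ^ k = y := by
      rw [hy, ← pow_mul, pow_succ]
      ring
    have e3 : (c ^ 2) ^ (k + 1) = c * y := by
      rw [pow_succ, ← e2]
      ring
    have hodd := An3_odd h0 h1 hy0 hyc
    rw [e3]
    set A := ∑ i ∈ range (k + 1), (c ^ 2) ^ i with hA
    have hk' : (1 : ℝ) ≤ k := by exact_mod_cast hk
    push_cast
    have hcy : 0 < 1 + c * y := by positivity
    have h2 : c * (2 * A) ≤ ((k : ℝ) + 1) * (c + y) := by
      have h3 := mul_le_mul_of_nonneg_left htr h0.le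
      calc c * (2 * A) ≤ c * (((k : ℝ) + 1) * (1 + (c ^ 2) ^ k)) := h3
        _ = ((k : ℝ) + 1) * (c + c * (c ^ 2) ^ k) := by ring
        _ = ((k : ℝ) + 1) * (c + y) := by rw [e2]
    have h4 : c * (2 * (3 * ((1 + c * y) * A))) ≤
        c * (2 * ((2 * (k : ℝ) + 1 + 1) * (1 + y + y ^ 2))) := by
      have h5 : (1 + c * y) * (c * (2 * A)) ≤ (1 + c * y) * (((k : ℝ) + 1) * (c + y)) :=
        mul_le_mul_of_nonneg_left h2 hcy.le
      have h6 : ((k : ℝ) + 1) * (3 * (c + y + c ^ 2 * y + c * y ^ 2)) ≤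
          ((k : ℝ) + 1) * (4 * c * (1 + y + y ^ 2)) :=
        mul_le_mul_of_nonneg_left hodd (by linarith)
      nlinarith [h5, h6]
    have h7 : 2 * (3 * ((1 + c * y) * A)) ≤ 2 * ((2 * (k : ℝ) + 1 + 1) * (1 + y + y ^ 2)) :=
      le_of_mul_le_mul_left h4 h0
    linarith

end Pool.Agent.FKH
end

section

/-! The polynomial inequalities. -/

namespace Pool.Agent.FKH

/-- DHL TASK An4a. One variable, `31/40 ≤ y ≤ 1`. Numerically the difference of the two sides,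
divided by `12 y² (1+y+y²)`, is at least `0.023` (minimum at `y = 31/40`).
PROOF. Any way (Bernstein expansion of the polynomial on `[31/40, 1]`: write it as a combination
of `(y - 31/40)^i (1-y)^j` with nonnegative coefficients, `nlinarith`, ...). -/
lemma poly_far {y : ℝ} (h0 : 31 / 40 ≤ y) (h1 : y ≤ 1) :
    (4 * y ^ 2 + 1) * (1 - y) * ((1 + 2 * y) * (1 + y + y ^ 2) + y ^ 2 * (1 - y) * (2 + y) ^ 2) +
      2 * (1 + y + y ^ 2) ^ 2 < 12 * y ^ 2 * (1 + y + y ^ 2) := by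
  have ha : 0 ≤ y - 31 / 40 := sub_nonneg.2 h0
  have hb : 0 ≤ 1 - y := sub_nonneg.2 h1
  have key : 4782969 * (12 * y ^ 2 * (1 + y + y ^ 2) -
      ((4 * y ^ 2 + 1) * (1 - y) * ((1 + 2 * y) * (1 + y + y ^ 2) +
        y ^ 2 * (1 - y) * (2 + y) ^ 2) + 2 * (1 + y + y ^ 2) ^ 2)) =
      291835492124 * ((y - 31 / 40) ^ 0 * (1 - y) ^ 8) +
      9687802302400 * ((y - 31 / 40) ^ 1 * (1 - y) ^ 7) +
      64117955998400 * ((y - 31 / 40) ^ 2 * (1 - y) ^ 6) +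
      198629044480000 * ((y - 31 / 40) ^ 3 * (1 - y) ^ 5) +
      350036495360000 * ((y - 31 / 40) ^ 4 * (1 - y) ^ 4) +
      373442867200000 * ((y - 31 / 40) ^ 5 * (1 - y) ^ 3) +
      239894528000000 * ((y - 31 / 40) ^ 6 * (1 - y) ^ 2) +
      85688320000000 * ((y - 31 / 40) ^ 7 * (1 - y) ^ 1) +
      13107200000000 * ((y - 31 / 40) ^ 8 * (1 - y) ^ 0) := by
    ring
  have hpos : ∀ i j : ℕ, 0 ≤ (y - 31 / 40) ^ i * (1 - y) ^ j := fun i j =>
    mul_nonneg (pow_nonneg ha i) (pow_nonneg hb j)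
  have h2 : 0 < (y - 31 / 40) ^ 0 * (1 - y) ^ 8 + (y - 31 / 40) ^ 8 * (1 - y) ^ 0 := by
    rcases lt_or_ge y 1 with h | h
    · have : 0 < (1 - y) ^ 8 := pow_pos (sub_pos.2 h) 8
      have h3 := hpos 8 0
      rw [pow_zero, one_mul]
      linarith
    · have : 0 < (y - 31 / 40) ^ 8 := pow_pos (by linarith) 8
      have h3 := hpos 0 8
      rw [pow_zero (1 - y), mul_one]
      linarith
  have g0 := hpos 0 8
  have g1 := hpos 1 7
  have g2 := hpos 2 6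
  have g3 := hpos 3 5
  have g4 := hpos 4 4
  have g5 := hpos 5 3
  have g6 := hpos 6 2
  have g7 := hpos 7 1
  have g8 := hpos 8 0
  linarith

end Pool.Agent.FKH
end

section

/-! The polynomial inequalities. -/

namespace Pool.Agent.FKH

/-- DHL TASK An4b. One variable, `0 ≤ y ≤ 31/40`, with `k = 1/3 - (1043/2000) y⁴`
(numerically the difference is at least `0.045`, minimum at `y = 31/40`).
PROOF. Bernstein expansion of degree ten on `[0, 31/40]`. -/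
lemma poly_near {y k : ℝ} (h0 : 0 ≤ y) (h1 : y ≤ 31 / 40) (hk : k = 1 / 3 - 1043 / 2000 * y ^ 4) :
    (3 - k) * (1 - y) * ((1 + 2 * y) * (1 + y + y ^ 2) + y ^ 2 * (1 - y) * (2 + y) ^ 2) +
      2 * (1 + y + y ^ 2) ^ 2 * (1 - k) < 6 * (1 + y + y ^ 2) := by
  obtain ⟨z, hz⟩ : ∃ z : ℝ, z = 31 / 40 - y := ⟨_, rfl⟩
  have hz0 : 0 ≤ z := by
    rw [hz]
    linarith
  have key : 6 * (1 + y + y ^ 2) -
      ((3 - k) * (1 - y) * ((1 + 2 * y) * (1 + y + y ^ 2) + y ^ 2 * (1 - y) * (2 + y) ^ 2) +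
      2 * (1 + y + y ^ 2) ^ 2 * (1 - k)) = 1 / 100 + (
      20866662400000000 / 819628286980801 * y ^ 0 * z ^ 10 +
      192413696000000000 / 819628286980801 * y ^ 1 * z ^ 9 +
      2214422118400000000 / 2458884860942403 * y ^ 2 * z ^ 8 +
      4602886881280000000 / 2458884860942403 * y ^ 3 * z ^ 7 +
      1892355782227968000 / 819628286980801 * y ^ 4 * z ^ 6 +
      4377812724564275200 / 2458884860942403 * y ^ 5 * z ^ 5 +
      2357204092547468800 / 2458884860942403 * y ^ 6 * z ^ 4 +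
      375045232950303136 / 819628286980801 * y ^ 7 * z ^ 3 +
      801982321444790596 / 4098141434904005 * y ^ 8 * z ^ 2 +
      931818264860950907 / 20490707174520025 * y ^ 9 * z ^ 1 +
      752892216846730717 / 1639256573961602000 * y ^ 10 * z ^ 0) := by
    rw [hk, hz]
    ring
  have hpos : (0 : ℝ) ≤
      20866662400000000 / 819628286980801 * y ^ 0 * z ^ 10 +
      192413696000000000 / 819628286980801 * y ^ 1 * z ^ 9 +
      2214422118400000000 / 2458884860942403 * y ^ 2 * z ^ 8 +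
      4602886881280000000 / 2458884860942403 * y ^ 3 * z ^ 7 +
      1892355782227968000 / 819628286980801 * y ^ 4 * z ^ 6 +
      4377812724564275200 / 2458884860942403 * y ^ 5 * z ^ 5 +
      2357204092547468800 / 2458884860942403 * y ^ 6 * z ^ 4 +
      375045232950303136 / 819628286980801 * y ^ 7 * z ^ 3 +
      801982321444790596 / 4098141434904005 * y ^ 8 * z ^ 2 +
      931818264860950907 / 20490707174520025 * y ^ 9 * z ^ 1 +
      752892216846730717 / 1639256573961602000 * y ^ 10 * z ^ 0 := by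
    positivity
  linarith

end Pool.Agent.FKH
end

section

/-! The polynomial inequalities. -/

namespace Pool.Agent.FKH

private lemma An4c_zero {y k : ℝ} (h0 : 0 ≤ y) (h1 : y ≤ 31 / 40)
    (hk : k = 1 / 3 - 1043 / 2000 * y ^ 4) :
    0 ≤ (1 - y) * ((1 - k) * ((1 + 2 * y) * (1 + y + y ^ 2) +
        y ^ 2 * (1 - y) * (2 + y) ^ 2) + 2 * ((1 + 2 * y) * (1 + y + y ^ 2))) -
      2 * (1 + y + y ^ 2) ^ 2 * k := by
  have hw : 0 ≤ 31 / 40 - y := by linarith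
  have e : (1 - y) * ((1 - k) * ((1 + 2 * y) * (1 + y + y ^ 2) +
        y ^ 2 * (1 - y) * (2 + y) ^ 2) + 2 * ((1 + 2 * y) * (1 + y + y ^ 2))) -
      2 * (1 + y + y ^ 2) ^ 2 * k =
      20971520000000000 / 819628286980801 * (y ^ 0 * (31 / 40 - y) ^ 10) +
      242221056000000000 / 819628286980801 * (y ^ 1 * (31 / 40 - y) ^ 9) +
      3721409331200000000 / 2458884860942403 * (y ^ 2 * (31 / 40 - y) ^ 8) +
      11063528652800000000 / 2458884860942403 * (y ^ 3 * (31 / 40 - y) ^ 7) +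
      6999952099756032000 / 819628286980801 * (y ^ 4 * (31 / 40 - y) ^ 6) +
      26398114250718924800 / 2458884860942403 * (y ^ 5 * (31 / 40 - y) ^ 5) +
      22105167602848371200 / 2458884860942403 * (y ^ 6 * (31 / 40 - y) ^ 4) +
      4039786631246816864 / 819628286980801 * (y ^ 7 * (31 / 40 - y) ^ 3) +
      6945544158273609404 / 4098141434904005 * (y ^ 8 * (31 / 40 - y) ^ 2) +
      6873921776867049093 / 20490707174520025 * (y ^ 9 * (31 / 40 - y) ^ 1) +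
      51429732438513269283 / 1639256573961602000 * (y ^ 10 * (31 / 40 - y) ^ 0) := by
    subst hk
    ring
  rw [e]
  generalize 31 / 40 - y = w at hw ⊢
  positivity

private lemma An4c_one {y k : ℝ} (h0 : 0 ≤ y) (h1 : y ≤ 31 / 40)
    (hk : k = 1 / 3 - 1043 / 2000 * y ^ 4) :
    0 ≤ (1 - y) * ((1 - 2 * k) * ((1 + 2 * y) * (1 + y + y ^ 2) +
        y ^ 2 * (1 - y) * (2 + y) ^ 2) + (3 - k) * ((1 + 2 * y) * (1 + y + y ^ 2))) -
      4 * (1 + y + y ^ 2) ^ 2 * k := by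
  have hw : 0 ≤ 31 / 40 - y := by linarith
  have e : (1 - y) * ((1 - 2 * k) * ((1 + 2 * y) * (1 + y + y ^ 2) +
        y ^ 2 * (1 - y) * (2 + y) ^ 2) + (3 - k) * ((1 + 2 * y) * (1 + y + y ^ 2))) -
      4 * (1 + y + y ^ 2) ^ 2 * k =
      52428800000000000 / 2458884860942403 * (y ^ 0 * (31 / 40 - y) ^ 10) +
      201850880000000000 / 819628286980801 * (y ^ 1 * (31 / 40 - y) ^ 9) +
      3040293683200000000 / 2458884860942403 * (y ^ 2 * (31 / 40 - y) ^ 8) +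
      8711410319360000000 / 2458884860942403 * (y ^ 3 * (31 / 40 - y) ^ 7) +
      5218293671569408000 / 819628286980801 * (y ^ 4 * (31 / 40 - y) ^ 6) +
      18228615234755891200 / 2458884860942403 * (y ^ 5 * (31 / 40 - y) ^ 5) +
      4587204043678796800 / 819628286980801 * (y ^ 6 * (31 / 40 - y) ^ 4) +
      2210590481091336992 / 819628286980801 * (y ^ 7 * (31 / 40 - y) ^ 3) +
      3372486054566440064 / 4098141434904005 * (y ^ 8 * (31 / 40 - y) ^ 2) +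
      3397810088103365946 / 20490707174520025 * (y ^ 9 * (31 / 40 - y) ^ 1) +
      18314734395930192483 / 819628286980801000 * (y ^ 10 * (31 / 40 - y) ^ 0) := by
    subst hk
    ring
  rw [e]
  generalize 31 / 40 - y = w at hw ⊢
  positivity

/-- DHL TASK An4c. Monotonicity in `s`, same `k` (numerically the left side is at least `1.5`,
for all `0 ≤ s ≤ 1`). -/
lemma poly_mono {y k s : ℝ} (h0 : 0 ≤ y) (h1 : y ≤ 31 / 40) (hk : k = 1 / 3 - 1043 / 2000 * y ^ 4)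
    (hs0 : 0 ≤ s) (hs1 : s ≤ 1) :
    0 ≤ (1 - y) * ((1 - k * (1 + s)) * ((1 + 2 * y) * (1 + y + y ^ 2) +
        y ^ 2 * (1 - y) * (2 + y) ^ 2) + (2 + s - k * s ^ 2) * ((1 + 2 * y) * (1 + y + y ^ 2))) -
      2 * (1 + y + y ^ 2) ^ 2 * k * (1 + s) := by
  have hA := An4c_zero h0 h1 hk
  have hB := An4c_one h0 h1 hk
  have hy4 : y ^ 4 ≤ (31 / 40 : ℝ) ^ 4 := pow_le_pow_left₀ h0 h1 4
  have hk0 : 0 ≤ k := by rw [hk]; norm_num at hy4; linarith
  have hy1 : 0 ≤ 1 - y := by linarith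
  have hs : 0 ≤ 1 - s := by linarith
  have hC : 0 ≤ (1 - y) * k * ((1 + 2 * y) * (1 + y + y ^ 2)) * (s * (1 - s)) := by
    generalize 1 - y = v at hy1 ⊢
    generalize 1 - s = r at hs ⊢
    positivity
  have hA' := mul_nonneg hs hA
  have hB' := mul_nonneg hs0 hB
  have e : (1 - y) * ((1 - k * (1 + s)) * ((1 + 2 * y) * (1 + y + y ^ 2) +
        y ^ 2 * (1 - y) * (2 + y) ^ 2) + (2 + s - k * s ^ 2) * ((1 + 2 * y) * (1 + y + y ^ 2))) -
      2 * (1 + y + y ^ 2) ^ 2 * k * (1 + s) =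
      (1 - s) * ((1 - y) * ((1 - k) * ((1 + 2 * y) * (1 + y + y ^ 2) +
        y ^ 2 * (1 - y) * (2 + y) ^ 2) + 2 * ((1 + 2 * y) * (1 + y + y ^ 2))) -
      2 * (1 + y + y ^ 2) ^ 2 * k) +
      s * ((1 - y) * ((1 - 2 * k) * ((1 + 2 * y) * (1 + y + y ^ 2) +
        y ^ 2 * (1 - y) * (2 + y) ^ 2) + (3 - k) * ((1 + 2 * y) * (1 + y + y ^ 2))) -
      4 * (1 + y + y ^ 2) ^ 2 * k) +
      (1 - y) * k * ((1 + 2 * y) * (1 + y + y ^ 2)) * (s * (1 - s)) := by ring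
  rw [e]
  linarith

end Pool.Agent.FKH
end

section

/-! The inequality in two variables. -/

namespace Pool.Agent.FKH

/-- The bound for the excess `d - A`. -/
noncomputable def QQ (s y A : ℝ) : ℝ := (s * A - s * y ^ 2) / 2 + y ^ 2 * (1 - A) ^ 2 / (2 * A)

private lemma An5_step {s y A f F : ℝ} (hy0 : 0 < y) (hys : y ≤ s) (hs1 : s < 1) (hA0 : y ≤ A)
    (hA1 : 3 * A ≤ 1 + y + y ^ 2) (hf0 : 0 < f) (hfF : f ≤ F) (hF : 1 - s ≤ F) :
    (1 + s + f) * QQ s y A + A * f ≤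
      (1 + s + F) * QQ s y ((1 + y + y ^ 2) / 3) + (1 + y + y ^ 2) / 3 * F := by
  obtain ⟨A', hA'⟩ : ∃ A', A' = (1 + y + y ^ 2) / 3 := ⟨_, rfl⟩
  rw [← hA']
  have hAA' : A ≤ A' := by linarith
  have hA : 0 < A := by linarith
  have hA'0 : 0 < A' := by linarith
  have hy1 : y < 1 := by linarith
  have hyA' : y ≤ A' := by linarith
  have hs0 : 0 < s := by linarith
  have hQ0 : 0 ≤ QQ s y A := by
    unfold QQ
    have h1 : 0 ≤ s * A - s * y ^ 2 := by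
      have : y ^ 2 ≤ A := by nlinarith
      nlinarith
    have h2 : 0 ≤ y ^ 2 * (1 - A) ^ 2 / (2 * A) := by positivity
    linarith
  obtain ⟨w, hw⟩ : ∃ w, w = y ^ 2 / (A * A') := ⟨_, rfl⟩
  have hw1 : w ≤ 1 := by
    rw [hw, div_le_one (by positivity)]
    nlinarith
  have hdiff : QQ s y A' - QQ s y A = (A' - A) / 2 * (s + y ^ 2 - w) := by
    unfold QQ
    rw [hw]
    field_simp
    ring
  have hF0 : 0 < F := by linarith
  have h1 : (1 + s + f) * QQ s y A + A * f ≤ (1 + s + F) * QQ s y A + A * F := by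
    have : (F - f) * (QQ s y A + A) ≥ 0 := mul_nonneg (by linarith) (by linarith)
    nlinarith
  have h2 : (1 + s + F) * QQ s y A + A * F ≤ (1 + s + F) * QQ s y A' + A' * F := by
    have h3 : (1 + s + F) * (QQ s y A' - QQ s y A) + (A' - A) * F =
        (A' - A) * ((1 + s + F) * (s + y ^ 2 - w) / 2 + F) := by
      rw [hdiff]; ring
    have h4 : 0 ≤ (1 + s + F) * (s + y ^ 2 - w) / 2 + F := by
      have h5 : (1 + s + F) * (s - 1) ≤ (1 + s + F) * (s + y ^ 2 - w) := by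
        apply mul_le_mul_of_nonneg_left _ (by linarith)
        have : 0 < y ^ 2 := by positivity
        linarith
      have h6 : 0 ≤ (1 + s) * (F - 1 + s) := mul_nonneg (by linarith) (by linarith)
      nlinarith
    have h5 : 0 ≤ (A' - A) * ((1 + s + F) * (s + y ^ 2 - w) / 2 + F) :=
      mul_nonneg (by linarith) h4
    rw [← h3] at h5
    linarith
  exact h1.trans h2

private lemma An5_val {s y F : ℝ} (hy0 : 0 < y) :
    (1 + s + F) * QQ s y ((1 + y + y ^ 2) / 3) + (1 + y + y ^ 2) / 3 * F =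
      ((1 + s + F) * (1 - y) * (s * ((1 + 2 * y) * (1 + y + y ^ 2)) +
        y ^ 2 * (1 - y) * (2 + y) ^ 2) + 2 * (1 + y + y ^ 2) ^ 2 * F) /
        (6 * (1 + y + y ^ 2)) := by
  have hB : 0 < 1 + y + y ^ 2 := by positivity
  unfold QQ
  field_simp
  ring

private lemma An5_far {s y : ℝ} (hy : 31 / 40 ≤ y) (hys : y ≤ s) (hs1 : s < 1) :
    (1 + s + 1 / (2 * y ^ 2)) * QQ s y ((1 + y + y ^ 2) / 3) +
      (1 + y + y ^ 2) / 3 * (1 / (2 * y ^ 2)) < 1 := by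
  have hy0 : 0 < y := by linarith
  have hy1 : y < 1 := by linarith
  have hB : 0 < 1 + y + y ^ 2 := by positivity
  have hp := poly_far hy hy1.le
  rw [An5_val hy0, div_lt_one (by positivity)]
  obtain ⟨a, ha⟩ : ∃ a, a = (1 + 2 * y) * (1 + y + y ^ 2) := ⟨_, rfl⟩
  obtain ⟨b, hb⟩ : ∃ b, b = y ^ 2 * (1 - y) * (2 + y) ^ 2 := ⟨_, rfl⟩
  obtain ⟨B, hBd⟩ : ∃ B, B = 1 + y + y ^ 2 := ⟨_, rfl⟩
  have ha0 : 0 < a := by rw [ha]; positivity
  have hb0 : 0 ≤ b := by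
    rw [hb]
    exact mul_nonneg (mul_nonneg (by positivity) (by linarith)) (by positivity)
  rw [← ha, ← hb, ← hBd] at hp ⊢
  have hy2 : 0 < 2 * y ^ 2 := by positivity
  have h1 : (2 * y ^ 2 * (1 + s) + 1) * (s * a + b) ≤ (4 * y ^ 2 + 1) * (a + b) := by
    apply mul_le_mul _ _ (by nlinarith) (by positivity)
    · nlinarith
    · nlinarith
  have h2 : (1 - y) * ((2 * y ^ 2 * (1 + s) + 1) * (s * a + b)) ≤
      (1 - y) * ((4 * y ^ 2 + 1) * (a + b)) :=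
    mul_le_mul_of_nonneg_left h1 (by linarith)
  have h3 : 2 * y ^ 2 * ((1 + s + 1 / (2 * y ^ 2)) * (1 - y) * (s * a + b) +
      2 * B ^ 2 * (1 / (2 * y ^ 2))) =
      (1 - y) * ((2 * y ^ 2 * (1 + s) + 1) * (s * a + b)) + 2 * B ^ 2 := by
    field_simp
  have h4 : 2 * y ^ 2 * ((1 + s + 1 / (2 * y ^ 2)) * (1 - y) * (s * a + b) +
      2 * B ^ 2 * (1 / (2 * y ^ 2))) < 2 * y ^ 2 * (6 * B) := by
    rw [h3]
    nlinarith
  exact lt_of_mul_lt_mul_left h4 hy2.le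

private lemma An5_near {s y k : ℝ} (hy0 : 0 < y) (hy : y ≤ 31 / 40) (hys : y ≤ s) (hs1 : s < 1)
    (hk : k = 1 / 3 - 1043 / 2000 * y ^ 4) :
    (1 + s + (1 - k * s ^ 2)) * QQ s y ((1 + y + y ^ 2) / 3) +
      (1 + y + y ^ 2) / 3 * (1 - k * s ^ 2) < 1 := by
  have hB : 0 < 1 + y + y ^ 2 := by positivity
  have hp := poly_near hy0.le hy hk
  have hm := poly_mono hy0.le hy hk (by linarith : 0 ≤ s) hs1.le
  rw [An5_val hy0, div_lt_one (by positivity)]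
  obtain ⟨a, ha⟩ : ∃ a, a = (1 + 2 * y) * (1 + y + y ^ 2) := ⟨_, rfl⟩
  obtain ⟨b, hb⟩ : ∃ b, b = y ^ 2 * (1 - y) * (2 + y) ^ 2 := ⟨_, rfl⟩
  obtain ⟨B, hBd⟩ : ∃ B, B = 1 + y + y ^ 2 := ⟨_, rfl⟩
  rw [← ha, ← hb, ← hBd] at hp hm ⊢
  have h1 : 0 ≤ (1 - s) * ((1 - y) * ((1 - k * (1 + s)) * (a + b) + (2 + s - k * s ^ 2) * a) -
      2 * B ^ 2 * k * (1 + s)) := mul_nonneg (by linarith) hm
  have h2 : (3 - k) * (1 - y) * (a + b) + 2 * B ^ 2 * (1 - k) -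
      ((1 + s + (1 - k * s ^ 2)) * (1 - y) * (s * a + b) + 2 * B ^ 2 * (1 - k * s ^ 2)) =
      (1 - s) * ((1 - y) * ((1 - k * (1 + s)) * (a + b) + (2 + s - k * s ^ 2) * a) -
      2 * B ^ 2 * k * (1 + s)) := by ring
  linarith

private lemma An5_f3 {s y k : ℝ} (hy0 : 0 < y) (hy : y ≤ 31 / 40) (hys : y ≤ s) (hs1 : s < 1)
    (hk : k = 1 / 3 - 1043 / 2000 * y ^ 4) :
    (3 - s ^ 2) * (3 - 2 * (s * y ^ 2) ^ 2) / (9 * (1 - (s * y ^ 2) ^ 2)) ≤ 1 - k * s ^ 2 := by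
  have hs0 : 0 < s := by linarith
  have hy4 : y ^ 4 ≤ (31 / 40) ^ 4 := pow_le_pow_left₀ hy0.le hy 4
  have hy40 : 0 < y ^ 4 := by positivity
  have hs2 : s ^ 2 < 1 := by nlinarith
  have hs20 : 0 < s ^ 2 := by positivity
  have hz : (s * y ^ 2) ^ 2 = s ^ 2 * y ^ 4 := by ring
  obtain ⟨Z, hZ⟩ : ∃ Z, Z = s ^ 2 * y ^ 4 := ⟨_, rfl⟩
  have hZ0 : 0 < Z := by rw [hZ]; positivity
  have hZ1 : Z ≤ (31 / 40) ^ 4 := by
    rw [hZ]
    nlinarith
  rw [hz, ← hZ]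
  have hd : 0 < 9 * (1 - Z) := by
    have : (31 / 40 : ℝ) ^ 4 < 1 := by norm_num
    linarith
  rw [div_le_iff₀ hd]
  have h1 : 3 - 2 * Z ≤ 3 * (1 - Z) * (1 + 1043 / 2000 * Z) := by
    have h2 : 1 ≤ 3129 / 2000 * (1 - Z) := by
      have : (31 / 40 : ℝ) ^ 4 ≤ 1129 / 3129 := by norm_num
      linarith
    nlinarith
  have h3 : (3 - s ^ 2) * (3 - 2 * Z) ≤ (3 - s ^ 2) * (3 * (1 - Z) * (1 + 1043 / 2000 * Z)) :=
    mul_le_mul_of_nonneg_left h1 (by linarith)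
  have h4 : (3 - s ^ 2) * (1 + 1043 / 2000 * Z) ≤ 3 * (1 - k * s ^ 2) := by
    have h5 : 3 * (1 - k * s ^ 2) = 3 - s ^ 2 + 3 * (1043 / 2000) * Z := by
      rw [hk, hZ]; ring
    rw [h5]
    nlinarith [mul_pos hs20 hZ0]
  have h5 : 3 * (1 - Z) * ((3 - s ^ 2) * (1 + 1043 / 2000 * Z)) ≤
      3 * (1 - Z) * (3 * (1 - k * s ^ 2)) := mul_le_mul_of_nonneg_left h4 (by linarith)
  nlinarith

/-- DHL TASK An5. The inequality in two variables.
PROOF. Notation: `z = s y²`, `f3 = (3 - s²)(3 - 2 z²)/(9 (1 - z²))`, `f2 = 1/(2 y²)`,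
`B = 1 + y + y²`, `A' = B/3`.
(1) `QQ ≥ 0` (as `A ≥ y ≥ y²`), so the left side `(1+s+f) Q + A f` is nondecreasing in `f`:
replace `f` by `F = f2` if `y ≥ 31/40`, and by `F = f3` if `y ≤ 31/40`.
(2) It is nondecreasing in `A` for `y ≤ A ≤ A'` if `F ≥ 1 - s`: with `Q(A) = QQ s y A`,
`Q(A') - Q(A) = (A' - A)/2 * (s + y² (1 - 1/(A A')))` and `y²/(A A') ≤ 1`, so
`LHS(A') - LHS(A) ≥ (A' - A) [(1+s+F)(s - 1 + y²)/2 + F] ≥ (A' - A)(1+s)(F - 1 + s)/2 ≥ 0`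
(the bracket is `≥ (1+s+F)(s-1)/2 + F = (1+s)(F-1+s)/2`).
`F ≥ 1 - s`: `f3 ≥ (3-s²)/3 ≥ 1 - s`; for `f2` (`s ≥ y ≥ 31/40`): `f2 ≥ 1/2 ≥ 1 - s`.
So one may take `A = A' = B/3`; then
`Q(A') = (1-y)/6 * (s (1+2y) + y² (1-y)(2+y)²/B)` (`A' - y² = (1-y)(1+2y)/3`,
`1 - A' = (1-y)(2+y)/3`).
(3) Case `y ≥ 31/40`, `F = 1/(2y²)`: the left side is nondecreasing in `s ≤ 1`; at `s = 1` the
inequality is `poly_far` divided by `12 y² B`.
(4) Case `y ≤ 31/40`, `F = f3`: `z² ≤ y⁴ ≤ (31/40)⁴ < 0.3609` gives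
`(3 - 2z²)/(3(1 - z²)) = 1 + z²/(3(1-z²)) ≤ 1 + (1043/2000) z²` and `z² = s² y⁴`, hence
`F ≤ (1 - s²/3)(1 + (1043/2000) s² y⁴) ≤ 1 - k s²` with `k = 1/3 - (1043/2000) y⁴ ≥ 0`; use
monotonicity in `f` once more (it is better to replace `f` by `1 - k s²` at once; then (2) needs
`1 - k s² ≥ 1 - s`, true as `k ≤ 1`). Put `a = (1+2y) B`, `b = y² (1-y)(2+y)²`. Multiply by `6B`: the
inequality becomes `h(s) := (2 + s - k s²)(1-y)(s a + b) + 2 B² (1 - k s²) < 6 B`. Now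
`h(1) - h(s) = (1-s) * {expression of poly_mono} ≥ 0` and `h(1) < 6B` is `poly_near`. -/
lemma two_var {s y A f : ℝ} (hy0 : 0 < y) (hys : y ≤ s) (hs1 : s < 1) (hA0 : y ≤ A)
    (hA1 : 3 * A ≤ 1 + y + y ^ 2) (hf0 : 0 < f) (hf2 : f * (2 * y ^ 2) ≤ 1)
    (hf3 : f ≤ (3 - s ^ 2) * (3 - 2 * (s * y ^ 2) ^ 2) / (9 * (1 - (s * y ^ 2) ^ 2))) :
    (1 + s + f) * QQ s y A + A * f < 1 := by
  rcases le_total (31 / 40) y with hy | hy
  · have hf : f ≤ 1 / (2 * y ^ 2) := by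
      rw [le_div_iff₀ (by positivity)]
      exact hf2
    have hF : 1 - s ≤ 1 / (2 * y ^ 2) := by
      have hy1 : y < 1 := by linarith
      rw [le_div_iff₀ (by positivity)]
      have h1 : 1 - s ≤ 1 / 2 := by linarith
      have h2 : 2 * y ^ 2 ≤ 2 := by nlinarith
      have h3 : 0 < 2 * y ^ 2 := by positivity
      nlinarith
    exact (An5_step hy0 hys hs1 hA0 hA1 hf0 hf hF).trans_lt (An5_far hy hys hs1)
  · obtain ⟨k, hk⟩ : ∃ k : ℝ, k = 1 / 3 - 1043 / 2000 * y ^ 4 := ⟨_, rfl⟩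
    have hf := hf3.trans (An5_f3 hy0 hy hys hs1 hk)
    have hF : 1 - s ≤ 1 - k * s ^ 2 := by
      have hs0 : 0 < s := by linarith
      have hy4 : 0 < y ^ 4 := by positivity
      have hk1 : k ≤ 1 := by rw [hk]; linarith
      have : k * s ^ 2 ≤ 1 * s ^ 2 := mul_le_mul_of_nonneg_right hk1 (by positivity)
      nlinarith
    exact (An5_step hy0 hys hs1 hA0 hA1 hf0 hf hF).trans_lt (An5_near hy0 hy hys hs1 hk)

end Pool.Agent.FKH
end
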