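import Pool.Agent.Lib.MP_a14fda_pr.Mg.G001
import Pool.Agent.Lib.MP_a14fda_pr.Mg.G002
import Pool.Agent.Lib.MP_a14fda_pr.DHL.Vec1

section

/-! The main inequality. -/

open Finset

namespace Pool.Agent.FKH

/-- DHL TASK An6b. The case of two parallel edges.
PROOF. `KK 1 u = 2u + u²`, `SS 1 u = 1 + u/4`, so with `s = 1/(1+u)`:
`dd 1 u = (1+3s)/(2(1+s))`, `aa 1 u = (1+s)/2`, `z = s²`. As `b ≥ 2` and `(1+z)/(1-z) > 1`,
`(1+s)/(1-s) ≥ ((1+z)/(1-z))²`, which is `(1+s)³(1-s) ≥ (1+s²)²`, i.e. `s + s² + s³ ≤ 1`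
(`(1+s²)² - (1+s)³(1-s) = 2s(s - 1 + s² + s³)`). Next `f := s/(bz) ≤ 1`: by `f_bounds`,
`f ≤ (3-s²)(3-2s⁴)/(9(1-s⁴)) ≤ 1` iff `(3-s²)(3-2s⁴) ≤ 9(1-s⁴)`, i.e.
`0 ≤ 3s² - 3s⁴ - 2s⁶`, true for `s² ≤ 1/2` (say).
Finally `(1+s)(d - A) + d f ≤ (1+3s)/2 - (1+s)²/2 + (1+3s)/(2(1+s)) < 1`, which after
multiplication with `2(1+s)` is `-1 + 2s - s³ < 0`, i.e. `(1-s)(1-s-s²) > 0`. -/
lemma main_two {b : ℕ} (hb : 2 ≤ b) {u s z : ℝ} (hu : 0 < u) (hs : s = 1 / (1 + u))
    (hz : z = s ^ 2) (h : ((1 + z) / (1 - z)) ^ b = (1 + s) / (1 - s)) :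
    (1 + s) * (dd 1 u - aa 1 u) + dd 1 u * (s / (b * z)) < 1 := by
  have hs0 : 0 < s := by rw [hs]; positivity
  have hs1 : s < 1 := by
    rw [hs, div_lt_one (by linarith)]
    linarith
  have hu1 : s * (1 + u) = 1 := by
    rw [hs]; field_simp
  -- the two quantities
  have hK : KK 1 u = u * (2 + u) := by unfold KK; ring
  have hS : SS 1 u = 1 + u / 4 := by
    unfold SS
    rw [Finset.sum_range_succ, Finset.sum_range_one]
    norm_num
  have hd : dd 1 u = (1 + 3 * s) / (2 * (1 + s)) := by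
    unfold dd
    rw [hK, hS]
    rw [div_eq_div_iff (by positivity) (by positivity)]
    push_cast
    linear_combination (-2 * u) * hu1
  have hA : aa 1 u = (1 + s) / 2 := by
    unfold aa
    rw [hK]
    have e1 : (1 : ℝ) + u * (2 + u) = (1 + u) ^ 2 := by ring
    rw [e1]
    push_cast
    rw [div_eq_div_iff (by positivity) (by positivity)]
    linear_combination (-2 * u * (1 + u)) * hu1
  have hz0 : 0 < z := by rw [hz]; positivity
  have hz1 : z < 1 := by rw [hz]; nlinarith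
  -- the inequality s + s² + s³ ≤ 1
  have hq : 1 ≤ (1 + z) / (1 - z) := by
    rw [le_div_iff₀ (by linarith)]
    linarith
  have h2 : ((1 + z) / (1 - z)) ^ 2 ≤ (1 + s) / (1 - s) := by
    rw [← h]
    exact pow_le_pow_right₀ hq hb
  have h3 : (1 + z) ^ 2 * (1 - s) ≤ (1 + s) * (1 - z) ^ 2 := by
    rw [div_pow, div_le_div_iff₀ (by nlinarith) (by linarith)] at h2
    exact h2
  have h4 : (1 + s ^ 2) ^ 2 ≤ (1 + s) ^ 3 * (1 - s) := by
    rw [hz] at h3
    have e : (1 + s) * (1 - s ^ 2) ^ 2 = ((1 + s) ^ 3 * (1 - s)) * (1 - s) := by ring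
    rw [e] at h3
    exact le_of_mul_le_mul_right h3 (by linarith)
  have h5 : s + s ^ 2 + s ^ 3 ≤ 1 := by
    have e : (1 + s ^ 2) ^ 2 - (1 + s) ^ 3 * (1 - s) = 2 * s * (s - 1 + s ^ 2 + s ^ 3) := by ring
    have h6 : 2 * s * (s - 1 + s ^ 2 + s ^ 3) ≤ 0 := by linarith
    by_contra hc
    have h7 : 0 < s - 1 + s ^ 2 + s ^ 3 := by linarith
    have := mul_pos (mul_pos (two_pos) hs0) h7
    linarith
  have hs3 : 0 < s ^ 3 := by positivity
  have hss : s ^ 2 ≤ s := by nlinarith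
  have hhalf : s ^ 2 ≤ 1 / 2 := by linarith
  -- f ≤ 1
  have hf := (f_bounds hb hs0 hs1 hz0 hz1 h).2
  have hf1 : s / (b * z) ≤ 1 := by
    refine hf.trans ?_
    rw [div_le_one (by nlinarith)]
    rw [hz]
    have e : 9 * (1 - (s ^ 2) ^ 2) - (3 - s ^ 2) * (3 - 2 * (s ^ 2) ^ 2)
        = s ^ 2 * (3 - 3 * s ^ 2 - 2 * (s ^ 2) ^ 2) := by ring
    have h8 : 0 ≤ s ^ 2 * (3 - 3 * s ^ 2 - 2 * (s ^ 2) ^ 2) := by
      apply mul_nonneg (by positivity)
      nlinarith [sq_nonneg s]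
    linarith
  have hd0 : 0 ≤ dd 1 u := by rw [hd]; positivity
  have h9 : dd 1 u * (s / (b * z)) ≤ dd 1 u := by
    calc dd 1 u * (s / (b * z)) ≤ dd 1 u * 1 := mul_le_mul_of_nonneg_left hf1 hd0
      _ = dd 1 u := mul_one _
  have h10 : (1 + s) * (dd 1 u - aa 1 u) + dd 1 u < 1 := by
    rw [hd, hA]
    have e : (1 + s) * ((1 + 3 * s) / (2 * (1 + s)) - (1 + s) / 2) + (1 + 3 * s) / (2 * (1 + s))
        = 1 - (1 - s) * (1 - s - s ^ 2) / (2 * (1 + s)) := by
      field_simp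
      ring
    rw [e]
    have : 0 < (1 - s) * (1 - s - s ^ 2) / (2 * (1 + s)) := by
      apply div_pos (mul_pos (by linarith) (by linarith)) (by linarith)
    linarith
  linarith

end Pool.Agent.FKH
end

section

/-! The main inequality. -/

open Finset

namespace Pool.Agent.FKH

lemma main_ineq {n b : ℕ} (hn : 1 ≤ n) (hb : 2 ≤ b) {u s z : ℝ} (hu : 0 < u)
    (hs : s = 1 / (1 + u)) (hz : z = s ^ (n + 1))
    (h : ((1 + z) / (1 - z)) ^ b = (1 + s) / (1 - s)) :
    (1 + s) * (dd n u - aa n u) + dd n u * (s / (b * z)) < 1 := by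
  rcases hn.eq_or_lt with h1 | h1
  · subst h1
    exact main_two hb hu hs hz h
  · exact main_three h1 hb hu hs hz h

end Pool.Agent.FKH
end

section

/-! The contraction of the pair (wired, free) for the diamonds, `q = 2`. -/

open Finset

namespace Pool.Agent.FKH

/-- One half of the computation: the relations between the constants. -/
private lemma Vec2_aux {n : ℕ} {u v : ℝ} (hu : 0 < u)
    (h1 : v * KK n u = 2) {s z : ℝ} (hs : s = 1 / (1 + u)) (hz : z = s ^ (n + 1)) :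
    z = 1 / (1 + KK n u) ∧ 1 / (1 + v) = (1 - z) / (1 + z) ∧ 0 < s ∧ s < 1 ∧ 0 < z ∧ z < 1 := by
  have hK : 0 < KK n u := KK_pos hu
  have hs0 : 0 < s := by rw [hs]; positivity
  have hs1 : s < 1 := by
    rw [hs, div_lt_one (by linarith)]
    linarith
  have hz1 : z = 1 / (1 + KK n u) := by
    rw [hz, hs, div_pow, one_pow]
    congr 1
    unfold KK
    ring
  have hz0 : 0 < z := by rw [hz1]; positivity
  have hz2 : z < 1 := by
    rw [hz1, div_lt_one (by linarith)]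
    linarith
  refine ⟨hz1, ?_, hs0, hs1, hz0, hz2⟩
  have hv2 : v = 2 / KK n u := by
    rw [eq_div_iff hK.ne']
    exact h1
  rw [hz1, hv2]
  field_simp
  ring

/-- DHL TASK Vec2.
PROOF. Put `s = 1/(1+u)`, `z = s^(n+1) = 1/(1 + KK n u)`, `ŝ = 1/(1+v)`,
`ẑ = ŝ^(m+1) = 1/(1 + KK m v)`. The relations `v * KK n u = 2`, `u * KK m v = 2` give
`ŝ = (1-z)/(1+z)` (`v = 2/K = 2z/(1-z)`) and `ẑ = (1-s)/(1+s)` (`K̂ = 2/u = 2s/(1-s)`), hence
`((1+z)/(1-z))^(m+1) = (1+v)^(m+1) = 1 + K̂ = (1+s)/(1-s)` and dually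
`((1+ẑ)/(1-ẑ))^(n+1) = (1+u)^(n+1) = 1 + K = (1+ŝ)/(1-ŝ)` (as `(1+ẑ)/(1-ẑ) = 1/s`,
`(1+ŝ)/(1-ŝ) = 1/z`).
So `main_ineq` holds for `(n, b = m+1, u, s, z)` and for `(m, b = n+1, v, ŝ, ẑ)`:
(P) `(1+s)(d - A) + d * (s/((m+1) z)) < 1`, (P̂) `(1+ŝ)(d̂ - Â) + d̂ * (ŝ/((n+1) ẑ)) < 1`.
The coefficients of `parX 2`, `serX 2`, with `(1+K)/(2+K) = 1/(1+z) = (1+ŝ)/2`,
`(2+u)/(1+u) = 1 + s`, and dually, are
`e = (1+K)/(2+K) * 2(d-A) = (1+ŝ)(d-A)`, `f = (1+K)/(2+K) * A * (2+u)/(1+u) = A(1+s)/(1+z)`,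
`E = (1+s)(d̂-Â)`, `F = Â(1+ŝ)/(1+ẑ)`, and
`F = s/((m+1) z)`: `Â = (1-ẑ)/((m+1)(1-ŝ))`, `1-ẑ = 2s/(1+s)`, `1-ŝ = 2z/(1+z)`,
`1+ŝ = 2/(1+z)`, `1+ẑ = 2/(1+s)`; dually `f = ŝ/((n+1) ẑ)`.
So (P) says `(1+s)(d-A) < 1 - F d` and (P̂) says `(1+ŝ)(d̂-Â) < 1 - f d̂`; as `d ≥ A`, `d̂ ≥ Â`
(`dd_bounds`), multiplication gives `e E < (1 - F d)(1 - f d̂)`. Apply `exists_vec_alg`
(`d > 0` since `d ≥ A > 0`). -/
lemma exists_vec {m n : ℕ} (hm : 1 ≤ m) (hn : 1 ≤ n) {u v : ℝ} (hu : 0 < u) (hv : 0 < v)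
    (h1 : v * KK n u = 2) (h2 : u * KK m v = 2) :
    ∃ (V W : Bool → ℝ) (θ : ℝ), 0 < θ ∧ θ < 1 ∧ (∀ τ, 0 < V τ) ∧ (∀ τ, 0 < W τ) ∧
      (∀ τ, serX 2 m v V τ ≤ θ * W τ) ∧ (∀ τ, parX 2 n u W τ ≤ V τ) := by
  obtain ⟨s, hs⟩ : ∃ s : ℝ, s = 1 / (1 + u) := ⟨_, rfl⟩
  obtain ⟨z, hz⟩ : ∃ z : ℝ, z = s ^ (n + 1) := ⟨_, rfl⟩
  obtain ⟨t, ht⟩ : ∃ t : ℝ, t = 1 / (1 + v) := ⟨_, rfl⟩
  obtain ⟨w, hw⟩ : ∃ w : ℝ, w = t ^ (m + 1) := ⟨_, rfl⟩
  obtain ⟨z1, z2, s0, s1, z0, z3⟩ := Vec2_aux hu h1 hs hz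
  obtain ⟨w1, w2, t0, t1, w0, w3⟩ := Vec2_aux hv h2 ht hw
  rw [← ht] at z2
  rw [← hs] at w2
  have hKn : 0 < KK n u := KK_pos hu
  have hKm : 0 < KK m v := KK_pos hv
  have hu' : 1 + u = 1 / s := by
    rw [hs]
    field_simp
  have hv' : 1 + v = 1 / t := by
    rw [ht]
    field_simp
  have hKn' : 1 + KK n u = 1 / z := by
    rw [z1]
    field_simp
  have hKm' : 1 + KK m v = 1 / w := by
    rw [w1]
    field_simp
  -- the relations of the main inequality
  have e1 : (1 + z) / (1 - z) = 1 / t := by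
    rw [z2]
    have : 1 - z ≠ 0 := by linarith
    field_simp
  have e2 : (1 + w) / (1 - w) = 1 / s := by
    rw [w2]
    have : 1 - w ≠ 0 := by linarith
    field_simp
  have e3 : (1 + s) / (1 - s) = 1 / w := by
    have h3 : 1 - s ≠ 0 := by linarith
    have h4 : 1 + w ≠ 0 := by linarith
    rw [div_eq_div_iff h3 w0.ne', w2]
    field_simp
    ring
  have e4 : (1 + t) / (1 - t) = 1 / z := by
    have h3 : 1 - t ≠ 0 := by linarith
    have h4 : 1 + z ≠ 0 := by linarith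
    rw [div_eq_div_iff h3 z0.ne', z2]
    field_simp
    ring
  have hP := main_ineq (n := n) (b := m + 1) hn (by omega) hu hs hz (by
    rw [e1, e3, hw, div_pow, one_pow])
  have hQ := main_ineq (n := m) (b := n + 1) hm (by omega) hv ht hw (by
    rw [e2, e4, hz, div_pow, one_pow])
  obtain ⟨hd, _⟩ := dd_bounds hu hs hz
  obtain ⟨hdh, _⟩ := dd_bounds hv ht hw
  have hAval : aa n u = (1 - z) / (((n : ℝ) + 1) * (1 - s)) := by
    unfold aa
    have h3 : KK n u = (1 - z) / z := by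
      have : KK n u = 1 / z - 1 := by linarith
      rw [this]
      field_simp
    have h4 : u = (1 - s) / s := by
      have : u = 1 / s - 1 := by linarith
      rw [this]
      field_simp
    have h5 : 1 - s ≠ 0 := by linarith
    rw [hKn', hu', h3]
    nth_rewrite 1 [h4]
    field_simp
  have hBval : aa m v = (1 - w) / (((m : ℝ) + 1) * (1 - t)) := by
    unfold aa
    have h3 : KK m v = (1 - w) / w := by
      have : KK m v = 1 / w - 1 := by linarith
      rw [this]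
      field_simp
    have h4 : v = (1 - t) / t := by
      have : v = 1 / t - 1 := by linarith
      rw [this]
      field_simp
    have h5 : 1 - t ≠ 0 := by linarith
    rw [hKm', hv', h3]
    nth_rewrite 1 [h4]
    field_simp
  have hA0 : 0 < aa n u := by
    rw [hAval]
    have : 0 < 1 - z := by linarith
    have : 0 < 1 - s := by linarith
    positivity
  have hB0 : 0 < aa m v := by
    rw [hBval]
    have : 0 < 1 - w := by linarith
    have : 0 < 1 - t := by linarith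
    positivity
  have hd0 : 0 < dd n u := lt_of_lt_of_le hA0 hd
  have hdh0 : 0 < dd m v := lt_of_lt_of_le hB0 hdh
  -- the coefficients
  have c1 : (1 + KK n u) / (2 + KK n u) = (1 + t) / 2 := by
    have h3 : 2 + KK n u = (1 + z) / z := by
      have : 2 + KK n u = 1 / z + 1 := by linarith
      rw [this]
      field_simp
    rw [hKn', h3, z2]
    have : 1 + z ≠ 0 := by linarith
    field_simp
    ring
  have c2 : (1 + KK m v) / (2 + KK m v) = (1 + s) / 2 := by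
    have h3 : 2 + KK m v = (1 + w) / w := by
      have : 2 + KK m v = 1 / w + 1 := by linarith
      rw [this]
      field_simp
    rw [hKm', h3, w2]
    have : 1 + w ≠ 0 := by linarith
    field_simp
    ring
  have c3 : (2 + u) / (1 + u) = 1 + s := by
    have : 2 + u = 1 / s + 1 := by linarith
    rw [hu', this]
    field_simp
  have c4 : (2 + v) / (1 + v) = 1 + t := by
    have : 2 + v = 1 / t + 1 := by linarith
    rw [hv', this]
    field_simp
  -- `f` and `F`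
  have m0 : (0 : ℝ) < (m : ℝ) + 1 := by positivity
  have n0 : (0 : ℝ) < (n : ℝ) + 1 := by positivity
  have hF : (1 + s) / 2 * (aa m v * (1 + t)) = s / (((m + 1 : ℕ) : ℝ) * z) := by
    have a1 : 1 - w = 2 * s / (1 + s) := by
      rw [w2]
      have : 1 + w ≠ 0 := by linarith
      field_simp
      ring
    have a2 : 1 - t = 2 * z / (1 + z) := by
      rw [z2]
      have : 1 + z ≠ 0 := by linarith
      field_simp
      ring
    have a3 : 1 + t = 2 / (1 + z) := by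
      rw [z2]
      have : 1 + z ≠ 0 := by linarith
      field_simp
      ring
    rw [hBval, a1, a2, a3]
    push_cast
    have : 1 + z ≠ 0 := by linarith
    have : 1 + s ≠ 0 := by linarith
    field_simp
  have hf : (1 + t) / 2 * (aa n u * (1 + s)) = t / (((n + 1 : ℕ) : ℝ) * w) := by
    have a1 : 1 - z = 2 * t / (1 + t) := by
      rw [z2]
      have : 1 + z ≠ 0 := by linarith
      field_simp
      ring
    have a2 : 1 - s = 2 * w / (1 + w) := by
      rw [w2]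
      have : 1 + w ≠ 0 := by linarith
      field_simp
      ring
    have a3 : 1 + s = 2 / (1 + w) := by
      rw [w2]
      have : 1 + w ≠ 0 := by linarith
      field_simp
      ring
    rw [hAval, a1, a2, a3]
    push_cast
    have : 1 + w ≠ 0 := by linarith
    have : 1 + t ≠ 0 := by linarith
    field_simp
  rw [← hF] at hP
  rw [← hf] at hQ
  set e : ℝ := (1 + t) * (dd n u - aa n u) with he
  set E : ℝ := (1 + s) * (dd m v - aa m v) with hE
  set f : ℝ := (1 + t) / 2 * (aa n u * (1 + s)) with hfd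
  set F : ℝ := (1 + s) / 2 * (aa m v * (1 + t)) with hFd
  have f0 : 0 < f := by
    have : 0 < 1 + t := by linarith
    have : 0 < 1 + s := by linarith
    rw [hfd]
    positivity
  have F0 : 0 < F := by
    have : 0 < 1 + t := by linarith
    have : 0 < 1 + s := by linarith
    rw [hFd]
    positivity
  have e0 : 0 ≤ e := mul_nonneg (by linarith) (by linarith)
  have E0 : 0 ≤ E := mul_nonneg (by linarith) (by linarith)
  have p0 : 0 ≤ (1 + s) * (dd n u - aa n u) := mul_nonneg (by linarith) (by linarith)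
  have q0 : 0 ≤ (1 + t) * (dd m v - aa m v) := mul_nonneg (by linarith) (by linarith)
  have g1 : f * dd m v < 1 := by linarith
  have g2 : F * dd n u < 1 := by linarith
  have g3 : e * E < (1 - f * dd m v) * (1 - F * dd n u) := by
    have k1 : (1 + s) * (dd n u - aa n u) < 1 - F * dd n u := by linarith
    have k2 : (1 + t) * (dd m v - aa m v) < 1 - f * dd m v := by linarith
    have k3 : e * E = ((1 + t) * (dd m v - aa m v)) * ((1 + s) * (dd n u - aa n u)) := by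
      rw [he, hE]
      ring
    rw [k3]
    exact mul_lt_mul'' k2 k1 q0 p0
  obtain ⟨V, W, θ, θ0, θ1, V0, W0, ⟨r1, r2⟩, r3, r4⟩ := exists_vec_alg hd0 hdh0 e0 E0 f0 F0 g1 g2 g3
  refine ⟨V, W, θ, θ0, θ1, V0, W0, ?_, ?_⟩
  · intro τ
    cases τ with
    | false => exact r2
    | true =>
      change (1 + KK m v) / (2 + KK m v) *
        (2 * (dd m v - aa m v) * V false + aa m v * (2 + v) / (1 + v) * V true) ≤ θ * W true
      rw [c2, mul_div_assoc, c4]
      refine le_trans (le_of_eq ?_) r1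
      rw [hFd, hE]
      ring
  · intro τ
    cases τ with
    | true => exact r3
    | false =>
      change (1 + KK n u) / (2 + KK n u) *
        (2 * (dd n u - aa n u) * W true + aa n u * (2 + u) / (1 + u) * W false) ≤ V false
      rw [c1, mul_div_assoc, c3]
      refine le_trans (le_of_eq ?_) r4
      rw [hfd, he]
      ring

end Pool.Agent.FKH
end
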