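import Pool.Agent.Lib.MP_a14fda_pr.FKH.Defs
import Pool.Agent.Lib.MP_a14fda_pr.FKH.Graph

section

/-! The Dirichlet form of the heat-bath dynamics; the block inequality. -/

open Finset

namespace Pool.Agent.FKH

/-- The parallel sum. -/
noncomputable def par (a b : ℝ) : ℝ := a * b / (a + b)

lemma par_comm (a b : ℝ) : par a b = par b a := by
  unfold par
  rw [mul_comm, add_comm]

lemma par_mul {c : ℝ} (hc : c ≠ 0) (a b : ℝ) : par (c * a) (c * b) = c * par a b := by
  unfold par
  rw [← mul_add, show c * a * (c * b) = c * (c * (a * b)) by ring, mul_div_mul_left _ _ hc,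
    mul_div_assoc]

lemma par_nonneg {a b : ℝ} (ha : 0 ≤ a) (hb : 0 ≤ b) : 0 ≤ par a b :=
  div_nonneg (mul_nonneg ha hb) (add_nonneg ha hb)

lemma par_pos {a b : ℝ} (ha : 0 < a) (hb : 0 < b) : 0 < par a b :=
  div_pos (mul_pos ha hb) (add_pos ha hb)

lemma jensen_sq {ι : Type*} [Fintype ι] {k : ι → ℝ} (hk : ∀ i, 0 ≤ k i) (h1 : ∑ i, k i = 1)
    (x : ι → ℝ) : (∑ i, k i * x i) ^ 2 ≤ ∑ i, k i * x i ^ 2 := by
  have := sum_sq_le_sum_mul_sum_of_sq_le_mul univ (r := fun i => k i * x i) (f := k)
    (g := fun i => k i * x i ^ 2) (fun i _ => hk i)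
    (fun i _ => mul_nonneg (hk i) (sq_nonneg _)) (fun i _ => le_of_eq (by ring))
  rwa [h1, one_mul] at this

section dir

variable {E : Type} [Fintype E] [DecidableEq E]

/-- The contribution of the pair of configurations which differ from `ω` at most at `e`. -/
noncomputable def pd (w : (E → Bool) → ℝ) (h : (E → Bool) → ℝ) (e : E) (ω : E → Bool) : ℝ :=
  par (w (Function.update ω e true)) (w (Function.update ω e false)) *
    (h (Function.update ω e true) - h (Function.update ω e false)) ^ 2

/-- The Dirichlet form of the heat-bath dynamics for the (unnormalised) weight `w`. -/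
noncomputable def dir (w : (E → Bool) → ℝ) (h : (E → Bool) → ℝ) : ℝ :=
  ∑ e, 1 / 2 * ∑ ω, pd w h e ω

omit [Fintype E] in
lemma pd_nonneg {w : (E → Bool) → ℝ} (hw : ∀ ω, 0 ≤ w ω) (h : (E → Bool) → ℝ) (e : E)
    (ω : E → Bool) : 0 ≤ pd w h e ω :=
  mul_nonneg (par_nonneg (hw _) (hw _)) (sq_nonneg _)

lemma dir_nonneg {w : (E → Bool) → ℝ} (hw : ∀ ω, 0 ≤ w ω) (h : (E → Bool) → ℝ) :
    0 ≤ dir w h :=
  sum_nonneg fun _ _ => mul_nonneg (by norm_num) (sum_nonneg fun _ _ => pd_nonneg hw _ _ _)

lemma dir_mul {c : ℝ} (hc : c ≠ 0) (w : (E → Bool) → ℝ) (h : (E → Bool) → ℝ) :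
    dir (fun ω => c * w ω) h = c * dir w h := by
  simp only [dir, pd, par_mul hc, mul_sum]
  refine sum_congr rfl fun e _ => sum_congr rfl fun ω _ => ?_
  ring

end dir

section ins

variable {α β : Type} [Fintype α] {n : ℕ}

lemma sum_ins (e : Fin (n + 1)) (Φ : (Fin (n + 1) → α) → ℝ) :
    ∑ c, Φ c = ∑ x : α, ∑ ξ : Fin n → α, Φ (Fin.insertNth e x ξ) := by
  rw [← Fintype.sum_prod_type', ← (Fin.insertNthEquiv (fun _ => α) e).sum_comp]
  rfl

omit [Fintype α] in
lemma prod_ins (e : Fin (n + 1)) (f : Fin (n + 1) → α → ℝ) (x : α) (ξ : Fin n → α) :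
    ∏ j, f j ((Fin.insertNth e x ξ : Fin (n + 1) → α) j) =
      f e x * ∏ j, f (e.succAbove j) (ξ j) := by
  rw [Fin.prod_univ_succAbove _ e]
  simp

omit [Fintype α] in
lemma comp_ins (γ : α → β) (e : Fin (n + 1)) (x : α) (ξ : Fin n → α) :
    (fun j => γ ((Fin.insertNth e x ξ : Fin (n + 1) → α) j)) =
      (Fin.insertNth e (γ x) fun j => γ (ξ j) : Fin (n + 1) → β) := by
  funext j
  refine Fin.succAboveCases e ?_ ?_ j
  · simp
  · intro i
    simp

omit [Fintype α] in
lemma upd_ins (e : Fin (n + 1)) (x y : α) (ξ : Fin n → α) :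
    Function.update (Fin.insertNth e x ξ : Fin (n + 1) → α) e y = Fin.insertNth e y ξ :=
  Fin.update_insertNth _ _ _ _

/-- The Dirichlet form in the coordinate `e` of a cube. -/
lemma half_sum_pd (V H : (Fin (n + 1) → Bool) → ℝ) (e : Fin (n + 1)) :
    1 / 2 * ∑ c, pd V H e c = ∑ ξ : Fin n → Bool,
      par (V (Fin.insertNth e true ξ)) (V (Fin.insertNth e false ξ)) *
        (H (Fin.insertNth e true ξ) - H (Fin.insertNth e false ξ)) ^ 2 := by
  rw [sum_ins e, Fintype.sum_bool]
  simp only [pd, upd_ins]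
  rw [← two_mul, ← mul_assoc]
  norm_num

end ins

section block

variable {F : Type} [Fintype F] [DecidableEq F] {n : ℕ}

/-- Uncurrying of the block configurations. -/
def unc (η : Fin (n + 1) → F → Bool) : Fin (n + 1) × F → Bool := fun x => η x.1 x.2

lemma sum_unc (Φ : (Fin (n + 1) × F → Bool) → ℝ) :
    ∑ ω, Φ ω = ∑ η : Fin (n + 1) → F → Bool, Φ (unc η) := by
  rw [← (Equiv.curry (Fin (n + 1)) F Bool).symm.sum_comp]
  rfl

omit [Fintype F] in
lemma upd_unc (e : Fin (n + 1)) (z : F → Bool) (ζ : Fin n → F → Bool) (f : F) (b : Bool) :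
    Function.update (unc (Fin.insertNth e z ζ : Fin (n + 1) → F → Bool)) (e, f) b =
      unc (Fin.insertNth e (Function.update z f b) ζ) := by
  funext x
  obtain ⟨j, g⟩ := x
  simp only [unc, Function.update_apply, Prod.mk.injEq]
  refine Fin.succAboveCases e ?_ ?_ j
  · by_cases hg : g = f
    · simp [hg]
    · simp [hg]
  · intro i
    simp

/-- Splitting of the Dirichlet form into the blocks. -/
lemma dir_split (w h : (Fin (n + 1) × F → Bool) → ℝ) :
    dir w h = ∑ e : Fin (n + 1), ∑ ζ : Fin n → F → Bool,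
      dir (fun z => w (unc (Fin.insertNth e z ζ))) (fun z => h (unc (Fin.insertNth e z ζ))) := by
  simp only [dir]
  rw [Fintype.sum_prod_type]
  refine sum_congr rfl fun e _ => ?_
  have h1 : ∀ f : F, ∑ ω, pd w h (e, f) ω = ∑ z : F → Bool, ∑ ζ : Fin n → F → Bool,
      pd (fun z => w (unc (Fin.insertNth e z ζ))) (fun z => h (unc (Fin.insertNth e z ζ))) f z := by
    intro f
    rw [sum_unc, sum_ins e]
    refine sum_congr rfl fun z _ => sum_congr rfl fun ζ _ => ?_
    simp only [pd, upd_unc]
  have h2 : ∀ f : F, 1 / 2 * ∑ ω, pd w h (e, f) ω = ∑ ζ : Fin n → F → Bool, 1 / 2 *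
      ∑ z : F → Bool, pd (fun z => w (unc (Fin.insertNth e z ζ)))
        (fun z => h (unc (Fin.insertNth e z ζ))) f z := by
    intro f
    rw [h1, sum_comm, mul_sum]
  simp only [h2]
  rw [sum_comm]

/-- The block kernel: the law of a block configuration given its bit. -/
noncomputable def kern (u : (F → Bool) → ℝ) (γ : (F → Bool) → Bool) (A : Bool → ℝ) (b : Bool)
    (z : F → Bool) : ℝ := (if γ z = b then u z else 0) / A b

/-- The conditional expectation given the bits. -/
noncomputable def cond (u : (F → Bool) → ℝ) (γ : (F → Bool) → Bool) (A : Bool → ℝ)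
    (h : (Fin (n + 1) × F → Bool) → ℝ) (c : Fin (n + 1) → Bool) : ℝ :=
  ∑ η : Fin (n + 1) → F → Bool, (∏ j, kern u γ A (c j) (η j)) * h (unc η)

/-- The difference of the two conditional expectations. -/
noncomputable def jump (u : (F → Bool) → ℝ) (γ : (F → Bool) → Bool) (A : Bool → ℝ)
    (g : (F → Bool) → ℝ) : ℝ :=
  ∑ z, (kern u γ A true z - kern u γ A false z) * g z

variable {u : (F → Bool) → ℝ} {γ : (F → Bool) → Bool} {A : Bool → ℝ}

lemma sum_kern (hA : ∀ b, A b = ∑ z, if γ z = b then u z else 0) (hA0 : ∀ b, 0 < A b) (b : Bool) :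
    ∑ z, kern u γ A b z = 1 := by
  simp only [kern]
  rw [← sum_div, ← hA, div_self (hA0 b).ne']

omit [Fintype F] [DecidableEq F] in
lemma A_mul_kern (hA0 : ∀ b, 0 < A b) (b : Bool) (z : F → Bool) :
    A b * kern u γ A b z = if γ z = b then u z else 0 := by
  rw [kern, mul_div_cancel₀ _ (hA0 b).ne']

omit [Fintype F] [DecidableEq F] in
lemma prod_A_kern (hA0 : ∀ b, 0 < A b) {m : ℕ} (ξ : Fin m → Bool) (ζ : Fin m → F → Bool) :
    (∏ j, A (ξ j)) * ∏ j, kern u γ A (ξ j) (ζ j) =
      if (fun j => γ (ζ j)) = ξ then ∏ j, u (ζ j) else 0 := by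
  rw [← prod_mul_distrib]
  simp only [A_mul_kern hA0]
  split_ifs with h
  · refine prod_congr rfl fun j _ => ?_
    rw [if_pos (congrFun h j)]
  · have : ∃ j, γ (ζ j) ≠ ξ j := by
      by_contra hc
      push Not at hc
      exact h (funext hc)
    obtain ⟨j, hj⟩ := this
    exact prod_eq_zero (mem_univ j) (if_neg hj)

/-- Summation over the block configurations. -/
lemma tower (hA0 : ∀ b, 0 < A b) (W : (Fin (n + 1) → Bool) → ℝ)
    (h : (Fin (n + 1) × F → Bool) → ℝ) :
    ∑ η : Fin (n + 1) → F → Bool, W (fun j => γ (η j)) * (∏ j, u (η j)) * h (unc η) =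
      ∑ c, W c * (∏ j, A (c j)) * cond u γ A h c := by
  simp only [cond, mul_sum]
  rw [sum_comm]
  refine sum_congr rfl fun η _ => ?_
  have h1 : ∀ c : Fin (n + 1) → Bool, W c * (∏ j, A (c j)) *
      ((∏ j, kern u γ A (c j) (η j)) * h (unc η)) =
      if (fun j => γ (η j)) = c then W c * (∏ j, u (η j)) * h (unc η) else 0 := by
    intro c
    have := prod_A_kern (u := u) (γ := γ) hA0 c η
    calc _ = W c * ((∏ j, A (c j)) * ∏ j, kern u γ A (c j) (η j)) * h (unc η) := by ring
      _ = _ := by rw [this]; split_ifs <;> ring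
  simp only [h1]
  rw [sum_ite_eq]
  simp

lemma cond_ins (e : Fin (n + 1)) (h : (Fin (n + 1) × F → Bool) → ℝ) (b : Bool)
    (ξ : Fin n → Bool) :
    cond u γ A h (Fin.insertNth e b ξ) = ∑ ζ : Fin n → F → Bool,
      (∏ j, kern u γ A (ξ j) (ζ j)) *
        ∑ z, kern u γ A b z * h (unc (Fin.insertNth e z ζ)) := by
  simp only [cond]
  rw [sum_ins e, sum_comm]
  refine sum_congr rfl fun ζ _ => ?_
  rw [mul_sum]
  refine sum_congr rfl fun z _ => ?_
  rw [Fin.prod_univ_succAbove _ e]
  simp only [Fin.insertNth_apply_same, Fin.insertNth_apply_succAbove]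
  ring

lemma cond_jump (e : Fin (n + 1)) (h : (Fin (n + 1) × F → Bool) → ℝ) (ξ : Fin n → Bool) :
    cond u γ A h (Fin.insertNth e true ξ) - cond u γ A h (Fin.insertNth e false ξ) =
      ∑ ζ : Fin n → F → Bool, (∏ j, kern u γ A (ξ j) (ζ j)) *
        jump u γ A (fun z => h (unc (Fin.insertNth e z ζ))) := by
  rw [cond_ins, cond_ins, ← sum_sub_distrib]
  refine sum_congr rfl fun ζ _ => ?_
  rw [← mul_sub, jump, ← sum_sub_distrib]
  congr 1
  refine sum_congr rfl fun z _ => ?_
  ring

/-- The block inequality `BH`: integrated autocorrelation at most `X` with free and wired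
boundary conditions. -/
def BH (q X : ℝ) (u : (F → Bool) → ℝ) (γ : (F → Bool) → Bool) (A : Bool → ℝ) : Prop :=
  ∀ ρ : ℝ, (ρ = 1 ∨ ρ = q⁻¹) → ∀ g : (F → Bool) → ℝ,
    par (A false) (ρ * A true) * jump u γ A g ^ 2 ≤
      X * dir (fun z => u z * if γ z = true then ρ else 1) g

lemma block_ineq (hA : ∀ b, A b = ∑ z, if γ z = b then u z else 0) (hA0 : ∀ b, 0 < A b)
    (hu : ∀ z, 0 < u z) {q X : ℝ} (hBH : BH q X u γ A)
    (W : (Fin (n + 1) → Bool) → ℝ) (hW : ∀ c, 0 < W c)
    (hR : ∀ e ξ, W (Fin.insertNth e true ξ) = W (Fin.insertNth e false ξ) ∨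
      W (Fin.insertNth e true ξ) = q⁻¹ * W (Fin.insertNth e false ξ))
    (h : (Fin (n + 1) × F → Bool) → ℝ) :
    dir (fun c => W c * ∏ j, A (c j)) (cond u γ A h) ≤
      X * dir (fun ω => W (fun j => γ fun f => ω (j, f)) * ∏ j, u fun f => ω (j, f)) h := by
  rw [dir_split, mul_sum]
  conv_lhs => rw [dir]
  refine sum_le_sum fun e _ => ?_
  rw [half_sum_pd, mul_sum]
  -- the block estimate for fixed outside
  have h1 : ∀ ζ : Fin n → F → Bool,
      (∏ j, u (ζ j)) * par (W (Fin.insertNth e false fun j => γ (ζ j)) * A false)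
        (W (Fin.insertNth e true fun j => γ (ζ j)) * A true) *
        jump u γ A (fun z => h (unc (Fin.insertNth e z ζ))) ^ 2 ≤
      X * dir (fun z => (fun ω : Fin (n + 1) × F → Bool =>
        W (fun j => γ fun f => ω (j, f)) * ∏ j, u fun f => ω (j, f))
          (unc (Fin.insertNth e z ζ))) (fun z => h (unc (Fin.insertNth e z ζ))) := by
    intro ζ
    set ξ : Fin n → Bool := fun j => γ (ζ j) with hξ
    obtain ⟨ρ, hρ, hρ2⟩ : ∃ ρ : ℝ, (ρ = 1 ∨ ρ = q⁻¹) ∧
        W (Fin.insertNth e true ξ) = ρ * W (Fin.insertNth e false ξ) := by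
      rcases hR e ξ with h | h
      · exact ⟨1, Or.inl rfl, by rw [h, one_mul]⟩
      · exact ⟨q⁻¹, Or.inr rfl, h⟩
    have hU : 0 < ∏ j, u (ζ j) := prod_pos fun j _ => hu _
    set K := W (Fin.insertNth e false ξ) * ∏ j, u (ζ j) with hK
    have hK0 : 0 < K := mul_pos (hW _) hU
    have h2 : (fun z => (fun ω : Fin (n + 1) × F → Bool =>
        W (fun j => γ fun f => ω (j, f)) * ∏ j, u fun f => ω (j, f))
          (unc (Fin.insertNth e z ζ))) =
        fun z => K * (u z * if γ z = true then ρ else 1) := by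
      funext z
      simp only [unc]
      have h3 := comp_ins γ e z ζ
      have h4 := prod_ins e (fun _ => u) z ζ
      rw [h3, h4, ← hξ, hK]
      cases hz : γ z
      · simp
        ring
      · simp only [if_true]
        rw [hρ2]
        ring
    rw [h2, dir_mul hK0.ne']
    have h5 := hBH ρ hρ (fun z => h (unc (Fin.insertNth e z ζ)))
    rw [hρ2]
    have h6 : par (W (Fin.insertNth e false ξ) * A false)
        (ρ * W (Fin.insertNth e false ξ) * A true) =
        W (Fin.insertNth e false ξ) * par (A false) (ρ * A true) := by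
      rw [← par_mul (hW _).ne']
      congr 1
      ring
    rw [h6]
    calc _ = K * (par (A false) (ρ * A true) *
          jump u γ A (fun z => h (unc (Fin.insertNth e z ζ))) ^ 2) := by rw [hK]; ring
      _ ≤ K * (X * dir (fun z => u z * if γ z = true then ρ else 1)
          (fun z => h (unc (Fin.insertNth e z ζ)))) := mul_le_mul_of_nonneg_left h5 hK0.le
      _ = _ := by ring
  refine le_trans ?_ (sum_le_sum fun ζ _ => h1 ζ)
  -- group by the bits of the outside
  have h7 : ∀ ξ : Fin n → Bool,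
      par ((fun c => W c * ∏ j, A (c j)) (Fin.insertNth e true ξ))
        ((fun c => W c * ∏ j, A (c j)) (Fin.insertNth e false ξ)) *
        (cond u γ A h (Fin.insertNth e true ξ) - cond u γ A h (Fin.insertNth e false ξ)) ^ 2 ≤
      ∑ ζ : Fin n → F → Bool, (if (fun j => γ (ζ j)) = ξ then ∏ j, u (ζ j) else 0) *
        (par (W (Fin.insertNth e false ξ) * A false) (W (Fin.insertNth e true ξ) * A true) *
        jump u γ A (fun z => h (unc (Fin.insertNth e z ζ))) ^ 2) := by
    intro ξ
    have hAξ : 0 < ∏ j, A (ξ j) := prod_pos fun j _ => hA0 _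
    have h8 : par ((fun c => W c * ∏ j, A (c j)) (Fin.insertNth e true ξ))
        ((fun c => W c * ∏ j, A (c j)) (Fin.insertNth e false ξ)) = (∏ j, A (ξ j)) *
        par (W (Fin.insertNth e false ξ) * A false) (W (Fin.insertNth e true ξ) * A true) := by
      rw [← par_mul hAξ.ne', par_comm]
      simp only [prod_ins e (fun _ => A)]
      congr 1 <;> ring
    rw [h8, cond_jump]
    have h9 : (∑ ζ : Fin n → F → Bool, (∏ j, kern u γ A (ξ j) (ζ j)) *
        jump u γ A (fun z => h (unc (Fin.insertNth e z ζ)))) ^ 2 ≤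
        ∑ ζ : Fin n → F → Bool, (∏ j, kern u γ A (ξ j) (ζ j)) *
        jump u γ A (fun z => h (unc (Fin.insertNth e z ζ))) ^ 2 := by
      have hk : ∀ b z, 0 ≤ kern u γ A b z := by
        intro b z
        unfold kern
        refine div_nonneg ?_ (hA0 b).le
        split_ifs
        · exact (hu z).le
        · exact le_rfl
      refine jensen_sq (fun ζ => prod_nonneg fun j _ => hk _ _) ?_ _
      rw [← Fintype.prod_sum fun j => kern u γ A (ξ j)]
      exact prod_eq_one fun j _ => sum_kern hA hA0 _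
    have hP : 0 ≤ par (W (Fin.insertNth e false ξ) * A false)
        (W (Fin.insertNth e true ξ) * A true) :=
      (par_pos (mul_pos (hW _) (hA0 _)) (mul_pos (hW _) (hA0 _))).le
    calc _ ≤ (∏ j, A (ξ j)) *
        par (W (Fin.insertNth e false ξ) * A false) (W (Fin.insertNth e true ξ) * A true) *
          ∑ ζ : Fin n → F → Bool, (∏ j, kern u γ A (ξ j) (ζ j)) *
            jump u γ A (fun z => h (unc (Fin.insertNth e z ζ))) ^ 2 :=
          mul_le_mul_of_nonneg_left h9 (mul_nonneg hAξ.le hP)
      _ = _ := by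
        rw [mul_sum]
        refine sum_congr rfl fun ζ _ => ?_
        rw [← prod_A_kern hA0 ξ ζ]
        ring
  refine le_trans (sum_le_sum fun ξ _ => h7 ξ) (le_of_eq ?_)
  rw [sum_comm]
  refine sum_congr rfl fun ζ _ => ?_
  simp only [ite_mul, zero_mul]
  rw [sum_ite_eq]
  simp only [mem_univ, if_true]
  ring

end block

end Pool.Agent.FKH
end

section

/-! The induction step: the block inequality for the substituted network. -/

open Finset

namespace Pool.Agent.FKH

/-- The mass of the configurations with a given bit. -/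
noncomputable def aval {F : Type} [Fintype F] [DecidableEq F] (u : (F → Bool) → ℝ)
    (γ : (F → Bool) → Bool) (b : Bool) : ℝ := ∑ z, if γ z = b then u z else 0

namespace Net

variable {I E J F : Type} {n : ℕ}

/-- The weight of a block configuration. -/
noncomputable def uw (G : Net I E) [Fintype E] (p q : ℝ) (ω : E → Bool) : ℝ :=
  G.weight p q ω * q ^ (G.bit ω).toNat / q ^ 2

/-- The weight of the configuration of the bits. -/
noncomputable def wb (H : Net I E) (q : ℝ) (c : E → Bool) : ℝ :=
  q ^ (H.numComp c + (H.bit c).toNat) / q ^ 2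

/-- The weight of the configuration of the bits, with the edge weights. -/
noncomputable def vb (H : Net I E) [Fintype E] (x q : ℝ) (c : E → Bool) : ℝ :=
  H.wb q c * ∏ e, if c e = true then x else 1

lemma weight_pos (G : Net I E) [Fintype E] {p q : ℝ} (hp0 : 0 < p) (hp1 : p < 1) (hq : 0 < q)
    (ω : E → Bool) : 0 < G.weight p q ω := by
  unfold weight
  refine mul_pos (prod_pos fun e _ => ?_) (pow_pos hq _)
  split_ifs
  · exact hp0
  · linarith

lemma uw_pos (G : Net I E) [Fintype E] {p q : ℝ} (hp0 : 0 < p) (hp1 : p < 1) (hq : 0 < q)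
    (ω : E → Bool) : 0 < G.uw p q ω := by
  unfold uw
  have := weight_pos G hp0 hp1 hq ω
  positivity

lemma wb_pos (H : Net I E) {q : ℝ} (hq : 0 < q) (c : E → Bool) : 0 < H.wb q c := by
  unfold wb
  positivity

lemma weight_subst [Finite I] [Finite J] [Fintype F] (H : Net I (Fin (n + 1))) (G : Net J F)
    (p : ℝ) {q : ℝ} (hq : 0 < q) (ω : Fin (n + 1) × F → Bool) :
    (H.subst G).weight p q ω = q ^ H.numComp (G.bits ω) *
      ∏ e, G.uw p q (fun f => ω (e, f)) := by
  have h1 := numComp_subst H G ω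
  have h2 : q ^ (H.subst G).numComp ω * q ^ (2 * (n + 1)) = q ^ H.numComp (G.bits ω) *
      ∏ e, q ^ (G.numComp (fun f => ω (e, f)) + (G.bits ω e).toNat) := by
    rw [prod_pow_eq_pow_sum, ← pow_add, ← pow_add, ← h1]
    simp
  have h3 : ∏ e, G.uw p q (fun f => ω (e, f)) =
      (∏ e, ∏ f, if ω (e, f) = true then p else 1 - p) *
        (∏ e, q ^ (G.numComp (fun f => ω (e, f)) + (G.bits ω e).toNat)) /
          q ^ (2 * (n + 1)) := by
    rw [pow_mul, ← prod_mul_distrib]
    have : (q ^ 2) ^ (n + 1) = ∏ _e : Fin (n + 1), q ^ 2 := by simp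
    rw [this, ← prod_div_distrib]
    refine prod_congr rfl fun e _ => ?_
    simp only [uw, weight, bits, pow_add]
    ring
  rw [h3, weight, Fintype.prod_prod_type]
  have hq' : q ^ (2 * (n + 1)) ≠ 0 := (pow_pos hq _).ne'
  field_simp
  linear_combination (∏ e, ∏ f, if ω (e, f) = true then p else 1 - p) * h2

lemma uw_subst [Finite I] [Finite J] [Fintype F] (H : Net I (Fin (n + 1))) (G : Net J F)
    (p : ℝ) {q : ℝ} (hq : 0 < q) (ω : Fin (n + 1) × F → Bool) :
    (H.subst G).uw p q ω = H.wb q (G.bits ω) * ∏ e, G.uw p q (fun f => ω (e, f)) := by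
  rw [uw, weight_subst H G p hq, bit_subst, wb, pow_add]
  ring

/-- Opening an edge multiplies the weight by `1` or by `1 / q`. -/
lemma wb_ratio [Finite I] (H : Net I (Fin (n + 1))) {q : ℝ} (hq : 0 < q) {ρ : ℝ}
    (hρ : ρ = 1 ∨ ρ = q⁻¹) (e : Fin (n + 1)) (ξ : Fin n → Bool) :
    (H.wb q (Fin.insertNth e true ξ) *
        if H.bit (Fin.insertNth e true ξ) = true then ρ else 1) =
      (H.wb q (Fin.insertNth e false ξ) *
        if H.bit (Fin.insertNth e false ξ) = true then ρ else 1) ∨
    (H.wb q (Fin.insertNth e true ξ) *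
        if H.bit (Fin.insertNth e true ξ) = true then ρ else 1) =
      q⁻¹ * (H.wb q (Fin.insertNth e false ξ) *
        if H.bit (Fin.insertNth e false ξ) = true then ρ else 1) := by
  have h1 := numComp_update H (Fin.insertNth e true ξ) e
  have h2 := bit_update_mono H (Fin.insertNth e true ξ) e
  rw [upd_ins, upd_ins] at h1 h2
  set c1 : Fin (n + 1) → Bool := Fin.insertNth e true ξ
  set c0 : Fin (n + 1) → Bool := Fin.insertNth e false ξ
  have hq' := hq.ne'
  unfold wb
  rcases h1 with ⟨h3, h4⟩ | h3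
  · left
    rw [h3, h4]
  · rw [← h3]
    cases hb1 : H.bit c1 <;> cases hb0 : H.bit c0
    · right
      simp only [Bool.toNat_false, add_zero, pow_succ]
      field_simp
    · rw [hb0, hb1] at h2
      simp at h2
    · rcases hρ with rfl | rfl
      · left
        simp [pow_succ]
      · right
        simp only [Bool.toNat_true, Bool.toNat_false, add_zero, pow_succ, if_true]
        field_simp
        simp
    · right
      simp only [Bool.toNat_true, pow_succ, if_true]
      field_simp

end Net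

section step

variable {I J F : Type} [Fintype F] [DecidableEq F] {n : ℕ}

lemma aval_subst [Finite I] [Finite J] (H : Net I (Fin (n + 1))) (G : Net J F)
    (p : ℝ) {q : ℝ} (hq : 0 < q) (hA0 : ∀ b, 0 < aval (G.uw p q) G.bit b) (b : Bool) :
    aval ((H.subst G).uw p q) (H.subst G).bit b =
      ∑ c, if H.bit c = b then H.wb q c * ∏ j, aval (G.uw p q) G.bit (c j) else 0 := by
  have h1 := tower (n := n) (u := G.uw p q) (γ := G.bit) hA0
    (fun c => if H.bit c = b then H.wb q c else 0) (fun _ => 1)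
  have h2 : ∀ c : Fin (n + 1) → Bool,
      cond (G.uw p q) G.bit (aval (G.uw p q) G.bit) (fun _ => 1) c = 1 := by
    intro c
    simp only [cond, mul_one]
    rw [← Fintype.prod_sum fun j => kern (G.uw p q) G.bit (aval (G.uw p q) G.bit) (c j)]
    exact prod_eq_one fun j _ => sum_kern (fun _ => rfl) hA0 _
  simp only [h2, mul_one] at h1
  calc _ = ∑ η : Fin (n + 1) → F → Bool,
        (if H.bit (fun j => G.bit (η j)) = b then H.wb q (fun j => G.bit (η j)) else 0) *
          ∏ j, G.uw p q (η j) := by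
        rw [aval, sum_unc]
        refine sum_congr rfl fun η _ => ?_
        rw [Net.bit_subst, Net.uw_subst H G p hq]
        have hb : G.bits (unc η) = fun j => G.bit (η j) := rfl
        rw [hb]
        split_ifs
        · rfl
        · simp
    _ = ∑ c, (if H.bit c = b then H.wb q c else 0) * ∏ j, aval (G.uw p q) G.bit (c j) := h1
    _ = _ := sum_congr rfl fun c _ => by split_ifs <;> simp

/-- The jump functional of the substituted network. -/
lemma jump_subst [Finite I] [Finite J] (H : Net I (Fin (n + 1))) (G : Net J F)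
    (p : ℝ) {q : ℝ} (hq : 0 < q) (hA0 : ∀ b, 0 < aval (G.uw p q) G.bit b) (A' : Bool → ℝ)
    (h : (Fin (n + 1) × F → Bool) → ℝ) :
    jump ((H.subst G).uw p q) (H.subst G).bit A' h =
      jump (fun c => H.wb q c * ∏ j, aval (G.uw p q) G.bit (c j)) H.bit A'
        (cond (G.uw p q) G.bit (aval (G.uw p q) G.bit) h) := by
  have key : ∀ b : Bool, ∑ ω, kern ((H.subst G).uw p q) (H.subst G).bit A' b ω * h ω =
      ∑ c, kern (fun c => H.wb q c * ∏ j, aval (G.uw p q) G.bit (c j)) H.bit A' b c *
        cond (G.uw p q) G.bit (aval (G.uw p q) G.bit) h c := by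
    intro b
    have h1 := tower (n := n) (u := G.uw p q) (γ := G.bit) hA0
      (fun c => (if H.bit c = b then H.wb q c else 0) / A' b) h
    rw [sum_unc]
    calc _ = ∑ η : Fin (n + 1) → F → Bool,
          (if H.bit (fun j => G.bit (η j)) = b then H.wb q (fun j => G.bit (η j)) else 0) /
            A' b * (∏ j, G.uw p q (η j)) * h (unc η) := by
          refine sum_congr rfl fun η _ => ?_
          rw [kern, Net.bit_subst, Net.uw_subst H G p hq]
          have hb : G.bits (unc η) = fun j => G.bit (η j) := rfl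
          have hb2 : ∏ e, G.uw p q (fun f => unc η (e, f)) = ∏ e, G.uw p q (η e) := rfl
          rw [hb, hb2]
          split_ifs
          · ring
          · simp
      _ = _ := h1
      _ = _ := by
          refine sum_congr rfl fun c _ => ?_
          rw [kern]
          split_ifs
          · ring
          · simp
  simp only [jump, sub_mul, sum_sub_distrib]
  rw [key, key]

lemma BH_step [Finite I] [Finite J] (H : Net I (Fin (n + 1))) (G : Net J F)
    {p q : ℝ} (hp0 : 0 < p) (hp1 : p < 1) (hq : 0 < q)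
    (hA0 : ∀ b, 0 < aval (G.uw p q) G.bit b) {X θ : ℝ}
    (hX : BH q X (G.uw p q) G.bit (aval (G.uw p q) G.bit)) (hθ : 0 ≤ θ)
    (hH : BH q θ (fun c => H.wb q c * ∏ j, aval (G.uw p q) G.bit (c j)) H.bit
      (aval (fun c => H.wb q c * ∏ j, aval (G.uw p q) G.bit (c j)) H.bit)) :
    BH q (θ * X) ((H.subst G).uw p q) (H.subst G).bit
      (aval ((H.subst G).uw p q) (H.subst G).bit) := by
  intro ρ hρ h
  have hA' : aval ((H.subst G).uw p q) (H.subst G).bit =
      aval (fun c => H.wb q c * ∏ j, aval (G.uw p q) G.bit (c j)) H.bit := by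
    funext b
    rw [aval_subst H G p hq hA0]
    rfl
  rw [hA', jump_subst H G p hq hA0]
  have h1 := hH ρ hρ (cond (G.uw p q) G.bit (aval (G.uw p q) G.bit) h)
  refine h1.trans ?_
  rw [mul_assoc]
  refine mul_le_mul_of_nonneg_left ?_ hθ
  have hρ0 : 0 < ρ := by
    rcases hρ with rfl | rfl
    · norm_num
    · positivity
  have h2 := block_ineq (n := n) (u := G.uw p q) (γ := G.bit) (A := aval (G.uw p q) G.bit)
    (fun _ => rfl) hA0 (fun z => Net.uw_pos G hp0 hp1 hq z) hX
    (fun c => H.wb q c * if H.bit c = true then ρ else 1)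
    (fun c => mul_pos (Net.wb_pos H hq c) (by split_ifs <;> norm_num [hρ0]))
    (fun e ξ => Net.wb_ratio H hq hρ e ξ) h
  have h3 : (fun c => H.wb q c * (if H.bit c = true then ρ else 1) *
      ∏ j, aval (G.uw p q) G.bit (c j)) =
      fun c => H.wb q c * (∏ j, aval (G.uw p q) G.bit (c j)) *
        if H.bit c = true then ρ else 1 := by
    funext c
    ring
  have h4 : (fun ω : Fin (n + 1) × F → Bool =>
      H.wb q (fun j => G.bit fun f => ω (j, f)) *
        (if H.bit (fun j => G.bit fun f => ω (j, f)) = true then ρ else 1) *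
        ∏ j, G.uw p q fun f => ω (j, f)) =
      fun ω => (H.subst G).uw p q ω * if (H.subst G).bit ω = true then ρ else 1 := by
    funext ω
    rw [Net.uw_subst H G p hq, Net.bit_subst]
    have hb : G.bits ω = fun j => G.bit fun f => ω (j, f) := rfl
    rw [hb]
    ring
  rw [h3, h4] at h2
  exact h2

end step

end Pool.Agent.FKH
end

section

/-! The block inequality at all levels of the hierarchical lattice. -/

open Finset

namespace Pool.Agent.FKH

section scaling

variable {F : Type} [Fintype F] [DecidableEq F]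

lemma aval_smul (c : ℝ) (u : (F → Bool) → ℝ) (γ : (F → Bool) → Bool) (b : Bool) :
    aval (fun z => c * u z) γ b = c * aval u γ b := by
  simp only [aval, mul_sum]
  refine sum_congr rfl fun z _ => ?_
  split_ifs <;> simp

lemma kern_smul {c : ℝ} (hc : c ≠ 0) (u : (F → Bool) → ℝ) (γ : (F → Bool) → Bool) (b : Bool)
    (z : F → Bool) :
    kern (fun z => c * u z) γ (aval (fun z => c * u z) γ) b z = kern u γ (aval u γ) b z := by
  simp only [kern, aval_smul]
  split_ifs
  · rw [mul_div_mul_left _ _ hc]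
  · simp

lemma BH_smul {q X c : ℝ} (hc : 0 < c) {u : (F → Bool) → ℝ} {γ : (F → Bool) → Bool}
    (h : BH q X u γ (aval u γ)) :
    BH q X (fun z => c * u z) γ (aval (fun z => c * u z) γ) := by
  intro ρ hρ g
  have h1 := h ρ hρ g
  have h2 : jump (fun z => c * u z) γ (aval (fun z => c * u z) γ) g =
      jump u γ (aval u γ) g := by
    simp only [jump, kern_smul hc.ne']
  have h3 : (fun z => c * u z * if γ z = true then ρ else 1) =
      fun z => c * (u z * if γ z = true then ρ else 1) := by
    funext z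
    ring
  rw [h2, aval_smul, aval_smul, h3, dir_mul hc.ne',
    show ρ * (c * aval u γ true) = c * (ρ * aval u γ true) by ring, par_mul hc.ne']
  nlinarith [h1]

end scaling

section base

variable {I E : Type} [Fintype E] [DecidableEq E]

lemma compat_zero (H : Net I E) (ω : LEdge E 0 → Bool) (σ : Bool ⊕ LInt I E 0 → Bool) :
    (H.lattice 0).Compat ω σ ↔ (ω () = true → σ (Sum.inl false) = σ (Sum.inl true)) := by
  constructor
  · intro h hω
    exact h () hω
  · intro h e he
    cases e
    exact h he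

lemma bit_zero (H : Net I E) (ω : LEdge E 0 → Bool) : (H.lattice 0).bit ω = ω () := by
  rw [Bool.eq_iff_iff, Net.bit_eq_true, Net.Crossed, Net.reachable_iff]
  constructor
  · intro h
    by_contra hc
    have := h (fun v => match v with
      | Sum.inl b => b
      | Sum.inr _ => true) (by
        rw [compat_zero]
        intro h2
        exact absurd h2 hc)
    simp at this
  · intro h σ hσ
    exact (compat_zero H ω σ).mp hσ h

lemma numComp_zero [Finite I] (H : Net I E) (ω : LEdge E 0 → Bool) :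
    (H.lattice 0).numComp ω + ((H.lattice 0).bit ω).toNat = 2 := by
  have h1 := Net.cnt_eq (H.lattice 0) ω true true
  have h2 : (H.lattice 0).cnt ω true true = 1 := by
    rw [Net.cnt, Net.cntAt, Nat.card_eq_one_iff_unique]
    constructor
    · constructor
      rintro ⟨σ, h1, h2, h3⟩ ⟨τ, h4, h5, h6⟩
      apply Subtype.ext
      funext v
      rcases v with (b | i)
      · cases b
        · simp only [h2, h5]
        · simp only [h3, h6]
      · exact i.elim
    · exact ⟨⟨fun _ => true, fun _ _ => rfl, rfl, rfl⟩⟩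
  rw [h2, if_pos (fun _ => rfl), mul_one, mul_one] at h1
  have h3 : (2 : ℕ) ^ 2 = 2 ^ ((H.lattice 0).numComp ω + ((H.lattice 0).bit ω).toNat) := by
    rw [← h1]
    norm_num
  exact (Nat.pow_right_injective le_rfl h3).symm

lemma uw_zero [Finite I] (H : Net I E) (p : ℝ) {q : ℝ} (hq : 0 < q) (ω : LEdge E 0 → Bool) :
    (H.lattice 0).uw p q ω = if ω () = true then p else 1 - p := by
  unfold Net.uw Net.weight
  rw [mul_assoc, ← pow_add, numComp_zero, mul_div_assoc, div_self (pow_pos hq _).ne', mul_one]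
  exact Fintype.prod_unique (ι := Unit) (fun e => if ω e = true then p else 1 - p)

lemma sum_zero (φ : (LEdge E 0 → Bool) → ℝ) :
    ∑ z, φ z = φ (fun _ => true) + φ (fun _ => false) := by
  have h1 := (Equiv.funUnique Unit Bool).symm.sum_comp φ
  rw [Fintype.sum_bool] at h1
  exact h1.symm

lemma aval_zero [Finite I] (H : Net I E) (p : ℝ) {q : ℝ} (hq : 0 < q) (b : Bool) :
    aval ((H.lattice 0).uw p q) (H.lattice 0).bit b = if b = true then p else 1 - p := by
  unfold aval
  rw [sum_zero]
  simp only [bit_zero, uw_zero H p hq]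
  cases b <;> simp

lemma BH_zero [Finite I] (H : Net I E) {p q : ℝ} (hp0 : 0 < p) (hp1 : p < 1) (hq : 0 < q) :
    BH q 1 ((H.lattice 0).uw p q) (H.lattice 0).bit
      (aval ((H.lattice 0).uw p q) (H.lattice 0).bit) := by
  intro ρ hρ g
  have hp2 : 1 - p ≠ 0 := by linarith
  have h1 : jump ((H.lattice 0).uw p q) (H.lattice 0).bit
      (aval ((H.lattice 0).uw p q) (H.lattice 0).bit) g =
      g (fun _ => true) - g (fun _ => false) := by
    unfold jump
    rw [sum_zero]
    simp only [kern, aval_zero H p hq, bit_zero, uw_zero H p hq]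
    simp [hp0.ne', hp2]
    ring
  have h2 : dir (fun z => (H.lattice 0).uw p q z * if (H.lattice 0).bit z = true then ρ else 1)
      g = par (ρ * p) (1 - p) * (g (fun _ => true) - g (fun _ => false)) ^ 2 := by
    unfold dir
    have h3 : ∀ φ : LEdge E 0 → ℝ, ∑ e, φ e = φ () := fun φ => Fintype.sum_unique (ι := Unit) φ
    rw [h3, sum_zero]
    have h4 : ∀ (ω : LEdge E 0 → Bool) (b : Bool),
        Function.update ω () b = fun _ => b := by
      intro ω b
      funext e
      cases e
      simp
    simp only [pd, h4, uw_zero H p hq, bit_zero]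
    simp [mul_comm p ρ]
    ring
  rw [h1, h2, aval_zero H p hq, aval_zero H p hq, one_mul, par_comm]
  simp

end base

section levels

variable {I : Type} [Finite I] {n : ℕ}

/-- The weight of the bit configuration when the block masses have ratio `x`. -/
lemma vb_scale (H : Net I (Fin (n + 1))) (x q : ℝ) (A : Bool → ℝ) (hA : A true = x * A false) :
    (fun c => H.wb q c * ∏ j, A (c j)) = fun c => A false ^ (n + 1) * H.vb x q c := by
  funext c
  have : ∏ j, A (c j) = A false ^ (n + 1) * ∏ j, if c j = true then x else 1 := by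
    have h1 : A false ^ (n + 1) = ∏ _j : Fin (n + 1), A false := by simp
    rw [h1, ← prod_mul_distrib]
    refine prod_congr rfl fun j _ => ?_
    cases c j
    · simp
    · simp [hA, mul_comm]
  rw [this, Net.vb]
  ring

/-- The data of a critical gadget: the crossing odds are preserved, and the integrated
autocorrelation of the crossing is at most `θ`. -/
structure Critical (H : Net I (Fin (n + 1))) (p q θ : ℝ) : Prop where
  hp0 : 0 < p
  hp1 : p < 1
  hq : 0 < q
  hθ : 0 ≤ θ
  pos : 0 < aval (H.vb (p / (1 - p)) q) H.bit false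
  fix : aval (H.vb (p / (1 - p)) q) H.bit true =
    p / (1 - p) * aval (H.vb (p / (1 - p)) q) H.bit false
  cert : BH q θ (H.vb (p / (1 - p)) q) H.bit (aval (H.vb (p / (1 - p)) q) H.bit)

variable {H : Net I (Fin (n + 1))} {p q θ : ℝ}

lemma levels (hc : Critical H p q θ) (k : ℕ) :
    0 < aval ((H.lattice k).uw p q) (H.lattice k).bit false ∧
    aval ((H.lattice k).uw p q) (H.lattice k).bit true =
      p / (1 - p) * aval ((H.lattice k).uw p q) (H.lattice k).bit false ∧
    BH q (θ ^ k) ((H.lattice k).uw p q) (H.lattice k).bit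
      (aval ((H.lattice k).uw p q) (H.lattice k).bit) := by
  have hp1 : 0 < 1 - p := by linarith [hc.hp1]
  have hx : 0 < p / (1 - p) := div_pos hc.hp0 hp1
  induction k with
  | zero =>
    refine ⟨?_, ?_, ?_⟩
    · rw [aval_zero H p hc.hq]
      simpa using hc.hp1
    · rw [aval_zero H p hc.hq, aval_zero H p hc.hq]
      simp only [if_true, Bool.false_eq_true, if_false]
      field_simp
    · rw [pow_zero]
      exact BH_zero H hc.hp0 hc.hp1 hc.hq
  | succ k ih =>
    obtain ⟨h1, h2, h3⟩ := ih
    have hA0 : ∀ b, 0 < aval ((H.lattice k).uw p q) (H.lattice k).bit b := by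
      intro b
      cases b
      · exact h1
      · rw [h2]
        positivity
    have h4 := vb_scale H (p / (1 - p)) q _ h2
    have h5 : ∀ b, aval ((H.lattice (k + 1)).uw p q) (H.lattice (k + 1)).bit b =
        aval ((H.lattice k).uw p q) (H.lattice k).bit false ^ (n + 1) *
          aval (H.vb (p / (1 - p)) q) H.bit b := by
      intro b
      have h6 := aval_subst H (H.lattice k) p hc.hq hA0 b
      have h7 : (∑ c, if H.bit c = b then H.wb q c *
          ∏ j, aval ((H.lattice k).uw p q) (H.lattice k).bit (c j) else 0) =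
          aval (fun c => H.wb q c * ∏ j, aval ((H.lattice k).uw p q) (H.lattice k).bit (c j))
            H.bit b := rfl
      rw [h7, h4, aval_smul] at h6
      exact h6
    refine ⟨?_, ?_, ?_⟩
    · rw [h5]
      exact mul_pos (pow_pos h1 _) hc.pos
    · rw [h5, h5, hc.fix]
      ring
    · rw [pow_succ, mul_comm]
      refine BH_step H (H.lattice k) hc.hp0 hc.hp1 hc.hq hA0 h3 hc.hθ ?_
      rw [h4]
      exact BH_smul (pow_pos h1 _) hc.cert

end levels

end Pool.Agent.FKH
end

section

/-! The Wheatstone bridge: explicit values. -/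

open Finset

namespace Pool.Agent.FKH

/-- The crossing bit of the bridge. -/
def gB (a b c d e : Bool) : Bool := (a && d) || (b && e) || (a && c && e) || (b && c && d)

/-- The cycle rank of the bridge. -/
def cycB (a b c d e : Bool) : ℕ :=
  (a && b && c).toNat + (c && d && e).toNat + (a && b && d && e && !c).toNat

/-- The number of open edges. -/
def numB (a b c d e : Bool) : ℕ := a.toNat + b.toNat + c.toNat + d.toNat + e.toNat

/-- The constraints of a colouring of the bridge. -/
def okB (a b c d e : Bool) (z : Bool × Bool × Bool × Bool) : Bool :=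
  (!a || (z.1 == z.2.2.1)) && (!b || (z.1 == z.2.2.2)) && (!c || (z.2.2.1 == z.2.2.2)) &&
    (!d || (z.2.2.1 == z.2.1)) && (!e || (z.2.2.2 == z.2.1))

lemma compat_bridge (c : Fin 5 → Bool) (σ : Bool ⊕ Bool → Bool) :
    bridge.Compat c σ ↔ okB (c 0) (c 1) (c 2) (c 3) (c 4)
      (σ (Sum.inl false), σ (Sum.inl true), σ (Sum.inr false), σ (Sum.inr true)) = true := by
  unfold Net.Compat okB
  simp only [Fin.forall_fin_succ, bridge, Matrix.cons_val_zero, Matrix.cons_val_succ,
    Fin.succ_zero_eq_one, Bool.and_eq_true, Bool.or_eq_true, Bool.not_eq_true', beq_iff_eq]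
  simp only [Matrix.cons_val_zero, Matrix.cons_val_one, Fin.isValue, IsEmpty.forall_iff, and_true]
  have key : ∀ (b : Bool) (P : Prop), (b = true → P) ↔ (b = false ∨ P) := by
    intro b P
    cases b <;> simp
  simp only [key]
  constructor
  · rintro ⟨h0, h1, h2, h3, h4⟩
    exact ⟨⟨⟨⟨h0, h1⟩, h2⟩, h3⟩, h4⟩
  · rintro ⟨⟨⟨⟨h0, h1⟩, h2⟩, h3⟩, h4⟩
    exact ⟨h0, h1, h2, h3, h4⟩

lemma gB_iff : ∀ a b c d e : Bool, (∀ z : Bool × Bool × Bool × Bool,
    okB a b c d e z = true → z.1 = z.2.1) ↔ gB a b c d e = true := by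
  decide

lemma card_okB : ∀ a b c d e : Bool,
    (univ.filter fun z : Bool × Bool × Bool × Bool => okB a b c d e z = true).card *
      2 ^ numB a b c d e = 2 ^ (4 + cycB a b c d e) := by
  decide

lemma bit_bridge (c : Fin 5 → Bool) :
    bridge.bit c = gB (c 0) (c 1) (c 2) (c 3) (c 4) := by
  rw [Bool.eq_iff_iff, Net.bit_eq_true, Net.Crossed, Net.reachable_iff, ← gB_iff]
  constructor
  · intro h z hz
    have := h (Sum.elim (fun b => _root_.cond b z.2.1 z.1) (fun b => _root_.cond b z.2.2.2 z.2.2.1)) (by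
      rw [compat_bridge]
      exact hz)
    exact this
  · intro h σ hσ
    rw [compat_bridge] at hσ
    exact h _ hσ

lemma numComp_bridge (c : Fin 5 → Bool) :
    bridge.numComp c + numB (c 0) (c 1) (c 2) (c 3) (c 4) =
      4 + cycB (c 0) (c 1) (c 2) (c 3) (c 4) := by
  have h1 := Net.card_compat bridge c
  have e1 : {σ : Bool ⊕ Bool → Bool // bridge.Compat c σ} ≃
      {z : Bool × Bool × Bool × Bool // okB (c 0) (c 1) (c 2) (c 3) (c 4) z = true} :=
    { toFun := fun σ => ⟨(σ.1 (Sum.inl false), σ.1 (Sum.inl true), σ.1 (Sum.inr false),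
        σ.1 (Sum.inr true)), (compat_bridge c σ.1).mp σ.2⟩
      invFun := fun z => ⟨Sum.elim (fun b => _root_.cond b z.1.2.1 z.1.1)
        (fun b => _root_.cond b z.1.2.2.2 z.1.2.2.1), by
          rw [compat_bridge]
          exact z.2⟩
      left_inv := by
        intro σ
        apply Subtype.ext
        funext v
        rcases v with (b | b) <;> cases b <;> rfl
      right_inv := by
        intro z
        apply Subtype.ext
        rfl }
  rw [Nat.card_congr e1, Nat.card_eq_fintype_card, Fintype.card_subtype] at h1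
  have h2 := card_okB (c 0) (c 1) (c 2) (c 3) (c 4)
  rw [h1, ← pow_add] at h2
  exact Nat.pow_right_injective le_rfl h2

/-- The weights of the bit configurations are powers of `s = √q`. -/
lemma vb_bridge {s : ℝ} (hs : 0 < s) (c : Fin 5 → Bool) :
    bridge.vb s (s ^ 2) c * s ^ numB (c 0) (c 1) (c 2) (c 3) (c 4) =
      s ^ (4 + 2 * cycB (c 0) (c 1) (c 2) (c 3) (c 4) +
        2 * (gB (c 0) (c 1) (c 2) (c 3) (c 4)).toNat) := by
  have h1 := numComp_bridge c
  have h2 : ∏ e, (if c e = true then s else 1) = s ^ numB (c 0) (c 1) (c 2) (c 3) (c 4) := by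
    rw [Fin.prod_univ_five]
    unfold numB
    simp only [pow_add]
    have : ∀ b : Bool, (if b = true then s else 1) = s ^ b.toNat := by
      intro b
      cases b <;> simp
    simp only [this]
  unfold Net.vb Net.wb
  rw [h2, bit_bridge]
  set m := numB (c 0) (c 1) (c 2) (c 3) (c 4)
  set g := (gB (c 0) (c 1) (c 2) (c 3) (c 4)).toNat
  set y := cycB (c 0) (c 1) (c 2) (c 3) (c 4)
  have h3 : (s ^ 2) ^ (bridge.numComp c + g) * s ^ m * s ^ m = s ^ (4 + 2 * y + 2 * g) *
      (s ^ 2) ^ 2 := by
    rw [← pow_mul, ← pow_mul, ← pow_add, ← pow_add, ← pow_add]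
    congr 1
    omega
  have h4 : ((s ^ 2) ^ 2) ≠ 0 := by positivity
  field_simp
  linear_combination h3

end Pool.Agent.FKH
end

section

/-! The heat-bath semigroup: symmetry, decay of the Dirichlet form, bounds for `autoCov`. -/

open Finset

namespace Pool.Agent.FKH

variable {E : Type} [Fintype E] [DecidableEq E]

/-- Pairing of the configurations which differ at `e`. -/
lemma sum_pair (e : E) (Φ : (E → Bool) → ℝ) :
    ∑ ω, Φ ω = 1 / 2 * ∑ ω, (Φ (Function.update ω e true) + Φ (Function.update ω e false)) := by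
  have hinv : Function.Involutive (fun ω : E → Bool => Function.update ω e (!(ω e))) := by
    intro ω
    simp
  have h1 : ∑ ω, Φ (Function.update ω e (!(ω e))) = ∑ ω, Φ ω :=
    Equiv.sum_comp (hinv.toPerm _) Φ
  have h2 : ∀ ω : E → Bool, Φ (Function.update ω e true) + Φ (Function.update ω e false) =
      Φ ω + Φ (Function.update ω e (!(ω e))) := by
    intro ω
    cases hω : ω e
    · rw [← hω, Function.update_eq_self, hω, add_comm]
      simp
    · rw [← hω, Function.update_eq_self, hω]
      simp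
  simp only [h2]
  rw [sum_add_distrib, h1]
  ring

/-- The bilinear Dirichlet form. -/
noncomputable def dirB (w f g : (E → Bool) → ℝ) : ℝ :=
  ∑ e, 1 / 2 * ∑ ω, par (w (Function.update ω e true)) (w (Function.update ω e false)) *
    ((f (Function.update ω e true) - f (Function.update ω e false)) *
      (g (Function.update ω e true) - g (Function.update ω e false)))

lemma dirB_self (w f : (E → Bool) → ℝ) : dirB w f f = dir w f := by
  simp only [dirB, dir, pd, pow_two]

lemma dirB_comm (w f g : (E → Bool) → ℝ) : dirB w f g = dirB w g f := by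
  simp only [dirB]
  refine sum_congr rfl fun e _ => ?_
  congr 1
  refine sum_congr rfl fun ω _ => ?_
  ring

lemma ip_heatBath {π : (E → Bool) → ℝ} (hπ : ∀ ω, 0 < π ω) (f g : (E → Bool) → ℝ) :
    ∑ ω, π ω * (f ω * heatBath π g ω) = - dirB π f g := by
  have h0 : ∀ ω, π ω * (f ω * heatBath π g ω) =
      ∑ e, π ω * (f ω * (resample π e g ω - g ω)) := by
    intro ω
    show π ω * (f ω * ∑ e, (resample π e g ω - g ω)) = _
    rw [mul_sum, mul_sum]
  simp only [h0]
  rw [sum_comm, dirB, ← sum_neg_distrib]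
  refine sum_congr rfl fun e _ => ?_
  rw [sum_pair e, ← mul_neg, ← sum_neg_distrib]
  congr 1
  refine sum_congr rfl fun ω _ => ?_
  simp only [resample, Function.update_idem, par]
  have h1 := hπ (Function.update ω e true)
  have h2 := hπ (Function.update ω e false)
  have h3 : π (Function.update ω e true) + π (Function.update ω e false) ≠ 0 := by positivity
  field_simp
  ring

lemma hasDerivAt_evolve (π : (E → Bool) → ℝ) (f : (E → Bool) → ℝ) (t : ℝ) :
    HasDerivAt (fun s => evolve π s f) (heatBath π (evolve π t f)) t := by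
  have h1 := hasDerivAt_exp_smul_const' (𝕂 := ℝ) (LinearMap.toContinuousLinearMap (heatBath π)) t
  have h2 := h1.clm_apply (hasDerivAt_const t f)
  simpa [evolve] using h2

lemma evolve_zero (π : (E → Bool) → ℝ) (f : (E → Bool) → ℝ) : evolve π 0 f = f := by
  simp [evolve]

lemma evolve_add (π : (E → Bool) → ℝ) (f : (E → Bool) → ℝ) (s t : ℝ) :
    evolve π (s + t) f = evolve π s (evolve π t f) := by
  letI : NormedAlgebra ℚ (((E → Bool) → ℝ) →L[ℝ] ((E → Bool) → ℝ)) :=
    NormedAlgebra.restrictScalars ℚ ℝ _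
  unfold evolve
  rw [add_smul, NormedSpace.exp_add_of_commute]
  · rfl
  · exact ((Commute.refl _).smul_left _).smul_right _

/-- The scalar product of `L²(π)`. -/
noncomputable def ip (π f g : (E → Bool) → ℝ) : ℝ := ∑ ω, π ω * (f ω * g ω)

lemma ip_comm (π f g : (E → Bool) → ℝ) : ip π f g = ip π g f := by
  simp only [ip, mul_comm]

lemma ip_symm {π : (E → Bool) → ℝ} (hπ : ∀ ω, 0 < π ω) (f g : (E → Bool) → ℝ) :
    ip π f (heatBath π g) = ip π (heatBath π f) g := by
  rw [ip_comm π (heatBath π f) g]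
  simp only [ip]
  rw [ip_heatBath hπ, ip_heatBath hπ, dirB_comm]

lemma hasDerivAt_ip {π : (E → Bool) → ℝ} {v w : ℝ → (E → Bool) → ℝ} {v' w' : (E → Bool) → ℝ}
    {t : ℝ} (hv : HasDerivAt v v' t) (hw : HasDerivAt w w' t) :
    HasDerivAt (fun s => ip π (v s) (w s)) (ip π v' (w t) + ip π (v t) w') t := by
  have h1 : ∀ ω, HasDerivAt (fun s => π ω * (v s ω * w s ω))
      (π ω * (v' ω * w t ω + v t ω * w' ω)) t := fun ω =>
    ((hasDerivAt_pi.mp hv ω).mul (hasDerivAt_pi.mp hw ω)).const_mul (π ω)
  have h2 := HasDerivAt.fun_sum (u := univ) fun ω _ => h1 ω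
  refine HasDerivAt.congr_deriv h2 ?_
  simp only [ip]
  rw [← sum_add_distrib]
  refine sum_congr rfl fun ω _ => ?_
  ring

lemma ip_evolve {π : (E → Bool) → ℝ} (hπ : ∀ ω, 0 < π ω) (f g : (E → Bool) → ℝ) (t : ℝ) :
    ip π f (evolve π t g) = ip π (evolve π t f) g := by
  have hd : ∀ s, HasDerivAt (fun s => ip π (evolve π s f) (evolve π (t - s) g)) 0 s := by
    intro s
    have h1 := hasDerivAt_evolve π f s
    have h2 : HasDerivAt (fun s => evolve π (t - s) g)
        (-(heatBath π (evolve π (t - s) g))) s := by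
      have h3 := (hasDerivAt_evolve π g (t - s)).scomp s
        ((hasDerivAt_const s t).sub (hasDerivAt_id s))
      simpa [Function.comp_def] using h3
    have h4 := hasDerivAt_ip (π := π) h1 h2
    refine HasDerivAt.congr_deriv h4 ?_
    have h5 : ip π (evolve π s f) (-(heatBath π (evolve π (t - s) g))) =
        - ip π (evolve π s f) (heatBath π (evolve π (t - s) g)) := by
      simp only [ip, Pi.neg_apply, mul_neg, sum_neg_distrib]
    rw [h5, ip_symm hπ]
    simp
  have h6 := is_const_of_deriv_eq_zero (fun s => (hd s).differentiableAt)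
    (fun s => (hd s).deriv) 0 t
  simp only [sub_zero, sub_self, evolve_zero] at h6
  exact h6

lemma ip_evolve_half {π : (E → Bool) → ℝ} (hπ : ∀ ω, 0 < π ω) (f : (E → Bool) → ℝ) (t : ℝ) :
    ip π f (evolve π t f) = ip π (evolve π (t / 2) f) (evolve π (t / 2) f) := by
  have h1 : evolve π t f = evolve π (t / 2) (evolve π (t / 2) f) := by
    rw [← evolve_add]
    congr 1
    ring
  rw [h1, ip_evolve hπ]

lemma ip_self_nonneg {π : (E → Bool) → ℝ} (hπ : ∀ ω, 0 < π ω) (f : (E → Bool) → ℝ) :
    0 ≤ ip π f f :=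
  sum_nonneg fun ω _ => mul_nonneg (hπ ω).le (mul_self_nonneg _)

lemma ip_heatBath_self {π : (E → Bool) → ℝ} (hπ : ∀ ω, 0 < π ω) (f : (E → Bool) → ℝ) :
    ip π f (heatBath π f) = - dir π f := by
  rw [ip, ip_heatBath hπ, dirB_self]

lemma hasDerivAt_norm {π : (E → Bool) → ℝ} (hπ : ∀ ω, 0 < π ω) (f : (E → Bool) → ℝ) (t : ℝ) :
    HasDerivAt (fun s => ip π (evolve π s f) (evolve π s f)) (-2 * dir π (evolve π t f)) t := by
  have h1 := hasDerivAt_ip (π := π) (hasDerivAt_evolve π f t) (hasDerivAt_evolve π f t)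
  refine HasDerivAt.congr_deriv h1 ?_
  rw [← ip_symm hπ, ip_heatBath_self hπ]
  ring

lemma dir_antitone {π : (E → Bool) → ℝ} (hπ : ∀ ω, 0 < π ω) (f : (E → Bool) → ℝ) :
    Antitone fun s => dir π (evolve π s f) := by
  have hd : ∀ t, HasDerivAt (fun s => dir π (evolve π s f))
      (-2 * ip π (heatBath π (evolve π t f)) (heatBath π (evolve π t f))) t := by
    intro t
    have h1 : HasDerivAt (fun s => heatBath π (evolve π s f))
        (heatBath π (heatBath π (evolve π t f))) t := by
      have := (LinearMap.toContinuousLinearMap (heatBath π)).hasFDerivAt.comp_hasDerivAt t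
        (hasDerivAt_evolve π f t)
      simpa [Function.comp_def] using this
    have h2 := hasDerivAt_ip (π := π) (hasDerivAt_evolve π f t) h1
    have h3 := h2.neg
    have h4 : (fun s => -(ip π (evolve π s f) (heatBath π (evolve π s f)))) =
        fun s => dir π (evolve π s f) := by
      funext s
      rw [ip_heatBath_self hπ, neg_neg]
    rw [← h4]
    refine HasDerivAt.congr_deriv h3 ?_
    rw [ip_symm hπ (evolve π t f)]
    ring
  refine antitone_of_deriv_nonpos (fun t => (hd t).differentiableAt) fun t => ?_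
  rw [(hd t).deriv]
  nlinarith [ip_self_nonneg hπ (heatBath π (evolve π t f))]

/-- The loss of the norm bounds the Dirichlet form. -/
lemma dir_le_norm {π : (E → Bool) → ℝ} (hπ : ∀ ω, 0 < π ω) (f : (E → Bool) → ℝ) {t : ℝ}
    (ht : 0 ≤ t) :
    t * dir π (evolve π t f) ≤ ip π (evolve π (t / 2) f) (evolve π (t / 2) f) -
      ip π (evolve π t f) (evolve π t f) := by
  set D := dir π (evolve π t f) with hD
  have h1 : AntitoneOn (fun s => ip π (evolve π s f) (evolve π s f) + 2 * D * s)
      (Set.Icc (t / 2) t) := by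
    refine antitoneOn_of_deriv_nonpos (convex_Icc _ _) ?_ ?_ ?_
    · exact fun s _ => ((hasDerivAt_norm hπ f s).add
        ((hasDerivAt_id s).const_mul (2 * D))).continuousAt.continuousWithinAt
    · exact fun s _ => ((hasDerivAt_norm hπ f s).add
        ((hasDerivAt_id s).const_mul (2 * D))).differentiableAt.differentiableWithinAt
    · intro s hs
      rw [interior_Icc] at hs
      have h2 := ((hasDerivAt_norm hπ f s).add ((hasDerivAt_id s).const_mul (2 * D))).deriv
      have h3 : deriv (fun s => ip π (evolve π s f) (evolve π s f) + 2 * D * s) s =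
          -2 * dir π (evolve π s f) + 2 * D * 1 := h2
      rw [h3]
      have h4 := dir_antitone hπ f hs.2.le
      simp only at h4
      linarith
  have h2 := h1 (Set.left_mem_Icc.mpr (by linarith)) (Set.right_mem_Icc.mpr (by linarith))
    (by linarith)
  simp only at h2
  linarith

/-- The loss of the norm is bounded by the Dirichlet form. -/
lemma norm_le_dir {π : (E → Bool) → ℝ} (hπ : ∀ ω, 0 < π ω) (f : (E → Bool) → ℝ) {t : ℝ}
    (ht : 0 ≤ t) :
    ip π f f - ip π (evolve π t f) (evolve π t f) ≤ 2 * t * dir π f := by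
  set D := dir π f with hD
  have h1 : MonotoneOn (fun s => ip π (evolve π s f) (evolve π s f) + 2 * D * s)
      (Set.Icc 0 t) := by
    refine monotoneOn_of_deriv_nonneg (convex_Icc _ _) ?_ ?_ ?_
    · exact fun s _ => ((hasDerivAt_norm hπ f s).add
        ((hasDerivAt_id s).const_mul (2 * D))).continuousAt.continuousWithinAt
    · exact fun s _ => ((hasDerivAt_norm hπ f s).add
        ((hasDerivAt_id s).const_mul (2 * D))).differentiableAt.differentiableWithinAt
    · intro s hs
      rw [interior_Icc] at hs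
      have h2 := ((hasDerivAt_norm hπ f s).add ((hasDerivAt_id s).const_mul (2 * D))).deriv
      have h3 : deriv (fun s => ip π (evolve π s f) (evolve π s f) + 2 * D * s) s =
          -2 * dir π (evolve π s f) + 2 * D * 1 := h2
      rw [h3]
      have h4 := dir_antitone hπ f hs.1.le
      simp only [evolve_zero] at h4
      linarith
  have h2 := h1 (Set.left_mem_Icc.mpr ht) (Set.right_mem_Icc.mpr ht) ht
  simp only [evolve_zero] at h2
  linarith

lemma heatBath_const {π : (E → Bool) → ℝ} (hπ : ∀ ω, 0 < π ω) (c : ℝ) :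
    heatBath π (fun _ => c) = 0 := by
  funext ω
  show ∑ e, (resample π e (fun _ => c) ω - c) = 0
  refine sum_eq_zero fun e _ => ?_
  have h1 := hπ (Function.update ω e true)
  have h2 := hπ (Function.update ω e false)
  have h3 : π (Function.update ω e true) + π (Function.update ω e false) ≠ 0 := by positivity
  simp only [resample]
  field_simp
  ring

lemma ip_evolve_one {π : (E → Bool) → ℝ} (hπ : ∀ ω, 0 < π ω) (f : (E → Bool) → ℝ) (t : ℝ) :
    ip π (fun _ => 1) (evolve π t f) = ip π (fun _ => 1) f := by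
  have hd : ∀ s, HasDerivAt (fun s => ip π (fun _ => 1) (evolve π s f)) 0 s := by
    intro s
    have h1 := hasDerivAt_ip (π := π) (hasDerivAt_const s (fun _ : E → Bool => (1 : ℝ)))
      (hasDerivAt_evolve π f s)
    refine HasDerivAt.congr_deriv h1 ?_
    rw [ip_symm hπ, heatBath_const hπ]
    simp [ip]
  have h6 := is_const_of_deriv_eq_zero (fun s => (hd s).differentiableAt)
    (fun s => (hd s).deriv) t 0
  rwa [evolve_zero] at h6

lemma evolve_sub_const {π : (E → Bool) → ℝ} (hπ : ∀ ω, 0 < π ω) (f : (E → Bool) → ℝ) (c : ℝ)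
    (t : ℝ) : evolve π t (fun ω => f ω - c) = fun ω => evolve π t f ω - c := by
  have h1 : evolve π t (fun _ => c) = fun _ => c := by
    have hd : ∀ s, HasDerivAt (fun s => evolve π s (fun _ => c)) 0 s := by
      intro s
      have h1 := hasDerivAt_evolve π (fun _ => c) s
      have h2 : heatBath π (evolve π s fun _ => c) = 0 := by
        have h3 : heatBath π (evolve π s fun _ => c) = evolve π s (heatBath π fun _ => c) := by
          have hcomm : Commute (LinearMap.toContinuousLinearMap (heatBath π))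
              (NormedSpace.exp (s • LinearMap.toContinuousLinearMap (heatBath π))) :=
            ((Commute.refl _).smul_right s).exp_right
          exact congrArg (fun A : ((E → Bool) → ℝ) →L[ℝ] ((E → Bool) → ℝ) => A fun _ => c)
            hcomm.eq
        rw [h3, heatBath_const hπ]
        simp [evolve]
      rwa [h2] at h1
    have h6 := is_const_of_deriv_eq_zero (fun s => (hd s).differentiableAt)
      (fun s => (hd s).deriv) t 0
    rwa [evolve_zero] at h6
  have h2 : (fun ω => f ω - c) = f - fun _ => c := rfl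
  rw [h2]
  unfold evolve at h1 ⊢
  rw [map_sub, h1]
  rfl

variable {π : (E → Bool) → ℝ}

lemma autoCov_eq (hπ : ∀ ω, 0 < π ω) (h1 : ∑ ω, π ω = 1) (f : (E → Bool) → ℝ) (t : ℝ) :
    autoCov π t f = ip π (fun ω => f ω - ip π (fun _ => 1) f)
      (evolve π t fun ω => f ω - ip π (fun _ => 1) f) := by
  have h2 := ip_evolve_one hπ f t
  rw [evolve_sub_const hπ]
  set c := ip π (fun _ => 1) f with hc
  have h3 : ∑ ω, π ω * f ω = c := by
    rw [hc]
    simp [ip]
  have h4 : ∑ ω, π ω * evolve π t f ω = c := by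
    rw [← h2]
    simp [ip]
  rw [autoCov, h3, ip]
  have h5 : ∀ ω, π ω * ((f ω - c) * (evolve π t f ω - c)) =
      π ω * (f ω * evolve π t f ω) - c * (π ω * f ω) - c * (π ω * evolve π t f ω) +
        c ^ 2 * π ω := by
    intro ω
    ring
  simp only [h5, sum_add_distrib, sum_sub_distrib, ← mul_sum]
  rw [h3, h4, h1]
  ring

lemma autoCov_nonneg (hπ : ∀ ω, 0 < π ω) (h1 : ∑ ω, π ω = 1) (f : (E → Bool) → ℝ) (t : ℝ) :
    0 ≤ autoCov π t f := by
  rw [autoCov_eq hπ h1, ip_evolve_half hπ]
  exact ip_self_nonneg hπ _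

/-- Upper bound for the covariance from an `H^{-1}` bound. -/
lemma autoCov_le (hπ : ∀ ω, 0 < π ω) (h1 : ∑ ω, π ω = 1) (f : (E → Bool) → ℝ) {L : ℝ}
    (hL0 : 0 ≤ L) (hL : ∀ h : (E → Bool) → ℝ,
      (∑ ω, π ω * (f ω * h ω) - (∑ ω, π ω * f ω) * ∑ ω, π ω * h ω) ^ 2 ≤ L * dir π h)
    {t : ℝ} (ht : 0 < t) : autoCov π t f ≤ L / t := by
  rw [autoCov_eq hπ h1]
  set c := ip π (fun _ => 1) f with hc
  set g : (E → Bool) → ℝ := fun ω => f ω - c with hg
  have h3 : ∑ ω, π ω * f ω = c := by
    rw [hc]
    simp [ip]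
  have h4 := hL (evolve π t g)
  have h5 : ip π g (evolve π t g) = ∑ ω, π ω * (f ω * evolve π t g ω) -
      (∑ ω, π ω * f ω) * ∑ ω, π ω * evolve π t g ω := by
    rw [h3, mul_sum, ← sum_sub_distrib, ip]
    refine sum_congr rfl fun ω _ => ?_
    have : g ω = f ω - c := rfl
    rw [this]
    ring
  rw [← h5] at h4
  have h6 := dir_le_norm hπ g ht.le
  rw [← ip_evolve_half hπ] at h6
  have h7 := ip_self_nonneg hπ (evolve π t g)
  have h8 : 0 ≤ ip π g (evolve π t g) := by
    rw [ip_evolve_half hπ]
    exact ip_self_nonneg hπ _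
  set ψ := ip π g (evolve π t g) with hψ
  rw [le_div_iff₀ ht]
  have h10 : t * dir π (evolve π t g) ≤ ψ := by linarith
  have h11 : t * ψ ^ 2 ≤ L * ψ := by nlinarith
  rcases h8.eq_or_lt with h0 | h0
  · rw [← h0, zero_mul]
    exact hL0
  · by_contra hcon
    push Not at hcon
    nlinarith

end Pool.Agent.FKH
end

section

/-! The certificate for the Wheatstone bridge: a unit flow of energy less than one. -/

open Finset

namespace Pool.Agent.FKH

section flow

variable {E : Type} [Fintype E] [DecidableEq E]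

/-- Thomson's principle. -/
lemma flow_bound {w : (E → Bool) → ℝ} (hw : ∀ ω, 0 < w ω) {K : (E → Bool) → ℝ}
    {ψ : E → (E → Bool) → ℝ} (hψ : ∀ e ω b, ψ e (Function.update ω e b) = ψ e ω)
    (hK : ∀ ω, ∑ e, (if ω e = true then ψ e ω else - ψ e ω) = K ω) (g : (E → Bool) → ℝ) :
    (∑ ω, K ω * g ω) ^ 2 ≤ (∑ e, 1 / 2 * ∑ ω, ψ e ω ^ 2 /
      par (w (Function.update ω e true)) (w (Function.update ω e false))) * dir w g := by
  have h1 : ∑ ω, K ω * g ω = ∑ x : E × (E → Bool), 1 / 2 * (ψ x.1 x.2 *
      (g (Function.update x.2 x.1 true) - g (Function.update x.2 x.1 false))) := by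
    rw [Fintype.sum_prod_type]
    have h2 : ∀ ω, K ω * g ω = ∑ e, (if ω e = true then ψ e ω else - ψ e ω) * g ω := by
      intro ω
      rw [← hK ω, sum_mul]
    simp only [h2]
    rw [sum_comm]
    refine sum_congr rfl fun e _ => ?_
    rw [sum_pair e, ← mul_sum]
    congr 1
    refine sum_congr rfl fun ω _ => ?_
    simp only [Function.update_self, hψ]
    simp
    ring
  rw [h1]
  have h3 := sum_sq_le_sum_mul_sum_of_sq_le_mul (univ : Finset (E × (E → Bool)))
    (r := fun x => 1 / 2 * (ψ x.1 x.2 *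
      (g (Function.update x.2 x.1 true) - g (Function.update x.2 x.1 false))))
    (f := fun x => 1 / 2 * (ψ x.1 x.2 ^ 2 /
      par (w (Function.update x.2 x.1 true)) (w (Function.update x.2 x.1 false))))
    (g := fun x => 1 / 2 * pd w g x.1 x.2)
    (fun x _ => by
      have := par_pos (hw (Function.update x.2 x.1 true)) (hw (Function.update x.2 x.1 false))
      positivity)
    (fun x _ => mul_nonneg (by norm_num) (pd_nonneg (fun ω => (hw ω).le) _ _ _))
    (fun x _ => by
      have := par_pos (hw (Function.update x.2 x.1 true)) (hw (Function.update x.2 x.1 false))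
      unfold pd
      rw [le_iff_eq_or_lt]
      left
      field_simp)
  refine h3.trans (le_of_eq ?_)
  rw [Fintype.sum_prod_type, Fintype.sum_prod_type, dir]
  simp only [mul_sum]

end flow

/-- The weights of the bit configurations of the bridge. -/
noncomputable def wB (s : ℝ) : Bool → Bool → Bool → Bool → Bool → ℝ
  | false, false, false, false, false => s ^ 4
  | false, false, false, false, true => s ^ 3
  | false, false, false, true, false => s ^ 3
  | false, false, false, true, true => s ^ 2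
  | false, false, true, false, false => s ^ 3
  | false, false, true, false, true => s ^ 2
  | false, false, true, true, false => s ^ 2
  | false, false, true, true, true => s ^ 3
  | false, true, false, false, false => s ^ 3
  | false, true, false, false, true => s ^ 4
  | false, true, false, true, false => s ^ 2
  | false, true, false, true, true => s ^ 3
  | false, true, true, false, false => s ^ 2
  | false, true, true, false, true => s ^ 3
  | false, true, true, true, false => s ^ 3
  | false, true, true, true, true => s ^ 4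
  | true, false, false, false, false => s ^ 3
  | true, false, false, false, true => s ^ 2
  | true, false, false, true, false => s ^ 4
  | true, false, false, true, true => s ^ 3
  | true, false, true, false, false => s ^ 2
  | true, false, true, false, true => s ^ 3
  | true, false, true, true, false => s ^ 3
  | true, false, true, true, true => s ^ 4
  | true, true, false, false, false => s ^ 2
  | true, true, false, false, true => s ^ 3
  | true, true, false, true, false => s ^ 3
  | true, true, false, true, true => s ^ 4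
  | true, true, true, false, false => s ^ 3
  | true, true, true, false, true => s ^ 4
  | true, true, true, true, false => s ^ 4
  | true, true, true, true, true => s ^ 5

/-- The flow through an outer edge. -/
noncomputable def flP (s : ℝ) : Bool → Bool → Bool → Bool → ℝ
  | false, false, false, false => 1 / 4 * s ^ 2
  | false, false, false, true => 1 / 8 + 1 / 8 * s
  | false, false, true, false => 3 / 8 * s + 1 / 4 * s ^ 2
  | false, false, true, true => 1 / 2 + 1 / 8 * s
  | false, true, false, false => 1 / 4 * s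
  | false, true, false, true => 3 / 8 + 1 / 4 * s
  | false, true, true, false => 1 / 2 + 1 / 8 * s
  | false, true, true, true => 3 / 4 * s
  | true, false, false, false => 1 / 4 * s
  | true, false, false, true => 1 / 8 * s ^ 2
  | true, false, true, false => 1 / 2 + 1 / 8 * s
  | true, false, true, true => 1 / 4 * s
  | true, true, false, false => 1 / 8 * s
  | true, true, false, true => 1 / 8 * s ^ 2
  | true, true, true, false => 1 / 4 * s
  | true, true, true, true => 1 / 4 * s ^ 2

/-- The flow through the middle edge. -/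
noncomputable def flB (s : ℝ) : Bool → Bool → Bool → Bool → ℝ
  | false, false, false, false => 0
  | false, false, false, true => -1 / 8 + 1 / 4 * s
  | false, false, true, false => -1 / 8 + 1 / 4 * s
  | false, false, true, true => 1 / 4 * s
  | false, true, false, false => -1 / 8 + 1 / 4 * s
  | false, true, false, true => -1 / 4 * s + 1 / 4 * s ^ 2
  | false, true, true, false => 1 / 4
  | false, true, true, true => 1 / 8 * s ^ 2
  | true, false, false, false => -1 / 8 + 1 / 4 * s
  | true, false, false, true => 1 / 4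
  | true, false, true, false => -1 / 4 * s + 1 / 4 * s ^ 2
  | true, false, true, true => 1 / 8 * s ^ 2
  | true, true, false, false => 1 / 4 * s
  | true, true, false, true => 1 / 8 * s ^ 2
  | true, true, true, false => 1 / 8 * s ^ 2
  | true, true, true, true => 0

/-- Summation over the configurations of the bridge. -/
lemma sum_five (Φ : (Fin 5 → Bool) → ℝ) :
    ∑ c, Φ c = ∑ a : Bool, ∑ b : Bool, ∑ c : Bool, ∑ d : Bool, ∑ e : Bool,
      Φ ![a, b, c, d, e] := by
  rw [sum_ins (0 : Fin 5)]
  refine sum_congr rfl fun a _ => ?_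
  rw [sum_ins (0 : Fin 4)]
  refine sum_congr rfl fun b _ => ?_
  rw [sum_ins (0 : Fin 3)]
  refine sum_congr rfl fun c _ => ?_
  rw [sum_ins (0 : Fin 2)]
  refine sum_congr rfl fun d _ => ?_
  rw [sum_ins (0 : Fin 1)]
  refine sum_congr rfl fun e _ => ?_
  rw [Fintype.sum_unique]
  congr 1
  funext i
  fin_cases i <;> rfl

lemma wB_eq {s : ℝ} (hs : 0 < s) (c : Fin 5 → Bool) :
    bridge.vb s (s ^ 2) c = wB s (c 0) (c 1) (c 2) (c 3) (c 4) := by
  have h1 := vb_bridge hs c
  have h2 : ∀ a b c d e : Bool, wB s a b c d e * s ^ numB a b c d e =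
      s ^ (4 + 2 * cycB a b c d e + 2 * (gB a b c d e).toNat) := by
    intro a b c d e
    cases a <;> cases b <;> cases c <;> cases d <;> cases e <;>
      simp [wB, numB, cycB, gB] <;> ring
  rw [← h2] at h1
  exact mul_right_cancel₀ (pow_pos hs _).ne' h1

lemma aval_bridge {s : ℝ} (hs : 0 < s) (b : Bool) :
    aval (bridge.vb s (s ^ 2)) bridge.bit b =
      (if b = true then s ^ 3 else s ^ 2) * (s ^ 2 + 7 * s + 8) := by
  unfold aval
  simp only [bit_bridge, wB_eq hs]
  rw [sum_five]
  cases b <;> simp [wB, gB] <;> ring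

/-- The flow, without normalisation. -/
noncomputable def flow (s : ℝ) (e : Fin 5) (c : Fin 5 → Bool) : ℝ :=
  ![flP s (c 1) (c 2) (c 3) (c 4), flP s (c 0) (c 2) (c 4) (c 3), flB s (c 0) (c 1) (c 3) (c 4),
    flP s (c 4) (c 2) (c 0) (c 1), flP s (c 3) (c 2) (c 1) (c 0)] e

/-- The dual flow. -/
noncomputable def flowD (s : ℝ) (e : Fin 5) (c : Fin 5 → Bool) : ℝ :=
  ![flP s (!(c 3)) (!(c 2)) (!(c 1)) (!(c 4)), flP s (!(c 4)) (!(c 2)) (!(c 0)) (!(c 3)),
    flB s (!(c 0)) (!(c 3)) (!(c 1)) (!(c 4)),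
    flP s (!(c 0)) (!(c 2)) (!(c 4)) (!(c 1)), flP s (!(c 1)) (!(c 2)) (!(c 3)) (!(c 0))] e

lemma flow_update (s : ℝ) (e : Fin 5) (c : Fin 5 → Bool) (b : Bool) :
    flow s e (Function.update c e b) = flow s e c := by
  fin_cases e <;> simp [flow]

lemma flowD_update (s : ℝ) (e : Fin 5) (c : Fin 5 → Bool) (b : Bool) :
    flowD s e (Function.update c e b) = flowD s e c := by
  fin_cases e <;> simp [flowD]

/-- The divergence of the flow. -/
noncomputable def tgt (s : ℝ) (a b c d e : Bool) : ℝ :=
  if gB a b c d e = true then wB s a b c d e / s ^ 3 else - (wB s a b c d e / s ^ 2)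

lemma div_flow {s : ℝ} (hs : 0 < s) (c : Fin 5 → Bool) :
    ∑ e, (if c e = true then flow s e c else - flow s e c) =
      tgt s (c 0) (c 1) (c 2) (c 3) (c 4) := by
  rw [Fin.sum_univ_five]
  simp only [flow, Matrix.cons_val]
  generalize c 0 = x0
  generalize c 1 = x1
  generalize c 2 = x2
  generalize c 3 = x3
  generalize c 4 = x4
  cases x0 <;> cases x1 <;> cases x2 <;> cases x3 <;> cases x4 <;>
    simp only [flP, flB, tgt, wB, gB, Bool.and_true, Bool.and_false, Bool.or_false,
      Bool.or_true, Bool.true_and, Bool.false_and, Bool.false_or, Bool.true_or, if_true,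
      Bool.false_eq_true, if_false] <;> field_simp <;> ring

lemma div_flowD {s : ℝ} (hs : 0 < s) (c : Fin 5 → Bool) :
    ∑ e, (if c e = true then flowD s e c else - flowD s e c) =
      tgt s (c 0) (c 1) (c 2) (c 3) (c 4) := by
  rw [Fin.sum_univ_five]
  simp only [flowD, Matrix.cons_val]
  generalize c 0 = x0
  generalize c 1 = x1
  generalize c 2 = x2
  generalize c 3 = x3
  generalize c 4 = x4
  cases x0 <;> cases x1 <;> cases x2 <;> cases x3 <;> cases x4 <;>
    simp only [flP, flB, tgt, wB, gB, Bool.and_true, Bool.and_false, Bool.or_false,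
      Bool.or_true, Bool.true_and, Bool.false_and, Bool.false_or, Bool.true_or, if_true,
      Bool.false_eq_true, if_false, Bool.not_true, Bool.not_false] <;> field_simp <;> ring

/-- The weight with boundary factor. -/
noncomputable def wR (s ρ : ℝ) (a b c d e : Bool) : ℝ :=
  wB s a b c d e * if gB a b c d e = true then ρ else 1

/-- The energy polynomial. -/
noncomputable def enP (s : ℝ) : ℝ := (61 + 89 * s + 35 * s ^ 2 + 13 * s ^ 3) / 16

lemma par_succ {s : ℝ} (hs : 0 < s) (m : ℕ) :
    par (s ^ (m + 1)) (s ^ m) = s ^ (m + 1) / (1 + s) := by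
  unfold par
  have h1 : s ^ m ≠ 0 := (pow_pos hs _).ne'
  have h2 : 1 + s ≠ 0 := by positivity
  rw [pow_succ]
  field_simp
  ring

end Pool.Agent.FKH
end

section

/-! Functions of a block inside a larger lattice. -/

open Finset

namespace Pool.Agent.FKH

section defs

variable {F : Type} [Fintype F] [DecidableEq F]

/-- The weight with boundary factor `ρ`. -/
noncomputable def bw (u : (F → Bool) → ℝ) (γ : (F → Bool) → Bool) (ρ : ℝ) (z : F → Bool) : ℝ :=
  u z * if γ z = true then ρ else 1

/-- An `H^{-1}` bound for a function of mean zero, with free and wired boundary conditions. -/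
def MZ (q K : ℝ) (u : (F → Bool) → ℝ) (γ : (F → Bool) → Bool) (M : (F → Bool) → ℝ) : Prop :=
  ∀ ρ : ℝ, (ρ = 1 ∨ ρ = q⁻¹) → ∀ h : (F → Bool) → ℝ,
    (∑ z, bw u γ ρ z * (M z * h z)) ^ 2 ≤ K * (∑ z, bw u γ ρ z) * dir (bw u γ ρ) h

/-- Bounds for the mean value, with free and wired boundary conditions. -/
def MB (q a b : ℝ) (u : (F → Bool) → ℝ) (γ : (F → Bool) → Bool) (M : (F → Bool) → ℝ) : Prop :=
  ∀ ρ : ℝ, (ρ = 1 ∨ ρ = q⁻¹) → a * (∑ z, bw u γ ρ z) ≤ ∑ z, bw u γ ρ z * M z ∧
    ∑ z, bw u γ ρ z * M z ≤ b * ∑ z, bw u γ ρ z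

end defs

section embed

variable {I J F : Type} [Fintype F] [DecidableEq F] {n : ℕ} [Finite I] [Finite J]

/-- The weight as a function of one block. -/
lemma slice (H : Net I (Fin (n + 1))) (G : Net J F) {p q : ℝ} (hp0 : 0 < p) (hp1 : p < 1)
    (hq : 0 < q) {ρ : ℝ} (hρ : ρ = 1 ∨ ρ = q⁻¹) (e : Fin (n + 1)) (ζ : Fin n → F → Bool) :
    ∃ ρ' K : ℝ, (ρ' = 1 ∨ ρ' = q⁻¹) ∧ 0 < K ∧ ∀ z,
      bw ((H.subst G).uw p q) (H.subst G).bit ρ (unc (Fin.insertNth e z ζ)) =
        K * bw (G.uw p q) G.bit ρ' z := by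
  set ξ : Fin n → Bool := fun j => G.bit (ζ j) with hξ
  set W : (Fin (n + 1) → Bool) → ℝ := fun c => H.wb q c * if H.bit c = true then ρ else 1
    with hW
  have hρ0 : 0 < ρ := by
    rcases hρ with rfl | rfl
    · norm_num
    · positivity
  have hWpos : ∀ c, 0 < W c := fun c =>
    mul_pos (Net.wb_pos H hq c) (by split_ifs <;> norm_num [hρ0])
  obtain ⟨ρ', hρ', hρ2⟩ : ∃ ρ' : ℝ, (ρ' = 1 ∨ ρ' = q⁻¹) ∧
      W (Fin.insertNth e true ξ) = ρ' * W (Fin.insertNth e false ξ) := by
    rcases Net.wb_ratio H hq hρ e ξ with h | h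
    · exact ⟨1, Or.inl rfl, by rw [one_mul]; exact h⟩
    · exact ⟨q⁻¹, Or.inr rfl, h⟩
  refine ⟨ρ', W (Fin.insertNth e false ξ) * ∏ j, G.uw p q (ζ j), hρ',
    mul_pos (hWpos _) (prod_pos fun j _ => Net.uw_pos G hp0 hp1 hq _), fun z => ?_⟩
  unfold bw
  rw [Net.uw_subst H G p hq, Net.bit_subst]
  have hb : G.bits (unc (Fin.insertNth e z ζ : Fin (n + 1) → F → Bool)) =
      fun j => G.bit ((Fin.insertNth e z ζ : Fin (n + 1) → F → Bool) j) := rfl
  have hb2 : ∏ j, G.uw p q (fun f => unc (Fin.insertNth e z ζ : Fin (n + 1) → F → Bool) (j, f)) =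
      ∏ j, G.uw p q ((Fin.insertNth e z ζ : Fin (n + 1) → F → Bool) j) := rfl
  rw [hb, hb2, comp_ins, prod_ins e (fun _ => G.uw p q), ← hξ]
  have hWz : ∀ c, H.wb q c * (if H.bit c = true then ρ else 1) = W c := fun c => rfl
  calc _ = W (Fin.insertNth e (G.bit z) ξ) * (G.uw p q z * ∏ j, G.uw p q (ζ j)) := by
        rw [← hWz]
        ring
    _ = _ := by
        cases hz : G.bit z
        · simp only [Bool.false_eq_true, if_false]
          ring
        · rw [hρ2]
          simp only [if_true]
          ring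

lemma sum_slice (e : Fin (n + 1)) (Φ : (Fin (n + 1) × F → Bool) → ℝ) :
    ∑ ω, Φ ω = ∑ ζ : Fin n → F → Bool, ∑ z, Φ (unc (Fin.insertNth e z ζ)) := by
  rw [sum_unc, sum_ins e, sum_comm]

omit [Fintype F] [DecidableEq F] in
lemma unc_ins_self (e : Fin (n + 1)) (z : F → Bool) (ζ : Fin n → F → Bool) :
    (fun f => unc (Fin.insertNth e z ζ : Fin (n + 1) → F → Bool) (e, f)) = z := by
  funext f
  simp [unc]

lemma bw_pos {G : Net J F} {p q : ℝ} (hp0 : 0 < p) (hp1 : p < 1) (hq : 0 < q) {ρ : ℝ}
    (hρ : ρ = 1 ∨ ρ = q⁻¹) (z : F → Bool) : 0 < bw (G.uw p q) G.bit ρ z := by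
  refine mul_pos (Net.uw_pos G hp0 hp1 hq z) ?_
  rcases hρ with rfl | rfl <;> split_ifs <;> positivity

lemma MZ_embed (H : Net I (Fin (n + 1))) (G : Net J F) {p q : ℝ} (hp0 : 0 < p) (hp1 : p < 1)
    (hq : 0 < q) {K : ℝ} (hK : 0 ≤ K) {M : (F → Bool) → ℝ}
    (hM : MZ q K (G.uw p q) G.bit M) (e : Fin (n + 1)) :
    MZ q K ((H.subst G).uw p q) (H.subst G).bit (fun ω => M fun f => ω (e, f)) := by
  intro ρ hρ h
  set w := bw ((H.subst G).uw p q) (H.subst G).bit ρ with hw
  have hwpos : ∀ ω, 0 < w ω := fun ω => bw_pos hp0 hp1 hq hρ ω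
  rw [sum_slice e, sum_slice e w]
  simp only [unc_ins_self]
  have h1 : ∀ ζ : Fin n → F → Bool,
      (∑ z, w (unc (Fin.insertNth e z ζ)) * (M z * h (unc (Fin.insertNth e z ζ)))) ^ 2 ≤
      (K * ∑ z, w (unc (Fin.insertNth e z ζ))) *
        dir (fun z => w (unc (Fin.insertNth e z ζ))) (fun z => h (unc (Fin.insertNth e z ζ))) := by
    intro ζ
    obtain ⟨ρ', κ, hρ', hκ, hz⟩ := slice H G hp0 hp1 hq hρ e ζ
    have hz' : ∀ z, w (unc (Fin.insertNth e z ζ)) = κ * bw (G.uw p q) G.bit ρ' z := hz
    simp only [hz']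
    rw [dir_mul hκ.ne']
    have h2 := hM ρ' hρ' (fun z => h (unc (Fin.insertNth e z ζ)))
    have h3 : ∑ z, κ * bw (G.uw p q) G.bit ρ' z * (M z * h (unc (Fin.insertNth e z ζ))) =
        κ * ∑ z, bw (G.uw p q) G.bit ρ' z * (M z * h (unc (Fin.insertNth e z ζ))) := by
      rw [mul_sum]
      refine sum_congr rfl fun z _ => ?_
      ring
    rw [h3, ← mul_sum]
    calc _ = κ ^ 2 * (∑ z, bw (G.uw p q) G.bit ρ' z *
          (M z * h (unc (Fin.insertNth e z ζ)))) ^ 2 := by ring
      _ ≤ κ ^ 2 * _ := mul_le_mul_of_nonneg_left h2 (by positivity)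
      _ = _ := by ring
  have h4 := sum_sq_le_sum_mul_sum_of_sq_le_mul (univ : Finset (Fin n → F → Bool))
    (r := fun ζ => ∑ z, w (unc (Fin.insertNth e z ζ)) * (M z * h (unc (Fin.insertNth e z ζ))))
    (f := fun ζ => K * ∑ z, w (unc (Fin.insertNth e z ζ)))
    (g := fun ζ => dir (fun z => w (unc (Fin.insertNth e z ζ)))
      (fun z => h (unc (Fin.insertNth e z ζ))))
    (fun ζ _ => mul_nonneg hK (sum_nonneg fun z _ => (hwpos _).le))
    (fun ζ _ => dir_nonneg (fun z => (hwpos _).le) _) (fun ζ _ => h1 ζ)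
  refine h4.trans ?_
  rw [← mul_sum]
  refine mul_le_mul_of_nonneg_left ?_
    (mul_nonneg hK (sum_nonneg fun ζ _ => sum_nonneg fun z _ => (hwpos _).le))
  rw [dir_split]
  exact single_le_sum (f := fun e : Fin (n + 1) => ∑ ζ : Fin n → F → Bool,
      dir (fun z => w (unc (Fin.insertNth e z ζ))) (fun z => h (unc (Fin.insertNth e z ζ))))
    (fun e _ => sum_nonneg fun ζ _ => dir_nonneg (fun z => (hwpos _).le) _) (mem_univ e)

lemma MB_embed (H : Net I (Fin (n + 1))) (G : Net J F) {p q : ℝ} (hp0 : 0 < p) (hp1 : p < 1)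
    (hq : 0 < q) {a b : ℝ} {M : (F → Bool) → ℝ}
    (hM : MB q a b (G.uw p q) G.bit M) (e : Fin (n + 1)) :
    MB q a b ((H.subst G).uw p q) (H.subst G).bit (fun ω => M fun f => ω (e, f)) := by
  intro ρ hρ
  rw [sum_slice e, sum_slice e]
  simp only [unc_ins_self]
  rw [mul_sum, mul_sum]
  constructor
  · refine sum_le_sum fun ζ _ => ?_
    obtain ⟨ρ', κ, hρ', hκ, hz⟩ := slice H G hp0 hp1 hq hρ e ζ
    simp only [hz, mul_assoc]
    rw [← mul_sum, ← mul_sum]
    have := (hM ρ' hρ').1
    nlinarith
  · refine sum_le_sum fun ζ _ => ?_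
    obtain ⟨ρ', κ, hρ', hκ, hz⟩ := slice H G hp0 hp1 hq hρ e ζ
    simp only [hz, mul_assoc]
    rw [← mul_sum, ← mul_sum]
    have := (hM ρ' hρ').2
    nlinarith

/-- Lifting of an `H^{-1}` bound for a function of the bits. -/
lemma MZ_lift (H : Net I (Fin (n + 1))) (G : Net J F) {p q : ℝ} (hp0 : 0 < p) (hp1 : p < 1)
    (hq : 0 < q) (hA0 : ∀ b, 0 < aval (G.uw p q) G.bit b)
    (hx : aval (G.uw p q) G.bit true = p / (1 - p) * aval (G.uw p q) G.bit false) {X : ℝ}
    (hX : BH q X (G.uw p q) G.bit (aval (G.uw p q) G.bit)) {K : ℝ} (hK : 0 ≤ K)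
    {m : (Fin (n + 1) → Bool) → ℝ} (hm : MZ q K (H.vb (p / (1 - p)) q) H.bit m) :
    MZ q (K * X) ((H.subst G).uw p q) (H.subst G).bit (fun ω => m (G.bits ω)) := by
  intro ρ hρ h
  have hρ0 : 0 < ρ := by
    rcases hρ with rfl | rfl
    · norm_num
    · positivity
  set x := p / (1 - p)
  set A := aval (G.uw p q) G.bit with hA
  set a := A false ^ (n + 1) with ha
  have ha0 : 0 < a := pow_pos (hA0 _) _
  have hsc := vb_scale H x q A hx
  have hsc' : ∀ c, H.wb q c * ∏ j, A (c j) = a * H.vb x q c := fun c => congrFun hsc c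
  set Hf := cond (G.uw p q) G.bit A h with hHf
  have hw : ∀ η : Fin (n + 1) → F → Bool,
      bw ((H.subst G).uw p q) (H.subst G).bit ρ (unc η) =
        (H.wb q (fun j => G.bit (η j)) * if H.bit (fun j => G.bit (η j)) = true then ρ else 1) *
          ∏ j, G.uw p q (η j) := by
    intro η
    unfold bw
    rw [Net.uw_subst H G p hq, Net.bit_subst]
    have hb : G.bits (unc η) = fun j => G.bit (η j) := rfl
    have hb2 : ∏ j, G.uw p q (fun f => unc η (j, f)) = ∏ j, G.uw p q (η j) := rfl
    rw [hb, hb2]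
    ring
  -- the linear functional
  have h1 : ∑ ω, bw ((H.subst G).uw p q) (H.subst G).bit ρ ω * (m (G.bits ω) * h ω) =
      a * ∑ c, bw (H.vb x q) H.bit ρ c * (m c * Hf c) := by
    have t1 := tower (n := n) (u := G.uw p q) (γ := G.bit) hA0
      (fun c => H.wb q c * (if H.bit c = true then ρ else 1) * m c) h
    rw [sum_unc]
    calc _ = ∑ η : Fin (n + 1) → F → Bool,
          (fun c => H.wb q c * (if H.bit c = true then ρ else 1) * m c) (fun j => G.bit (η j)) *
            (∏ j, G.uw p q (η j)) * h (unc η) := by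
          refine sum_congr rfl fun η _ => ?_
          rw [hw η]
          have hb : G.bits (unc η) = fun j => G.bit (η j) := rfl
          rw [hb]
          ring
      _ = _ := t1
      _ = _ := by
          rw [mul_sum]
          refine sum_congr rfl fun c _ => ?_
          have := hsc' c
          unfold bw
          rw [← hHf]
          calc _ = (H.wb q c * ∏ j, A (c j)) *
                ((if H.bit c = true then ρ else 1) * m c * Hf c) := by ring
            _ = _ := by rw [this]; ring
  -- the total mass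
  have h2 : ∑ ω, bw ((H.subst G).uw p q) (H.subst G).bit ρ ω =
      a * ∑ c, bw (H.vb x q) H.bit ρ c := by
    have t1 := tower (n := n) (u := G.uw p q) (γ := G.bit) hA0
      (fun c => H.wb q c * (if H.bit c = true then ρ else 1)) (fun _ => 1)
    have t2 : ∀ c : Fin (n + 1) → Bool, cond (G.uw p q) G.bit A (fun _ => 1) c = 1 := by
      intro c
      simp only [cond, mul_one]
      rw [← Fintype.prod_sum fun j => kern (G.uw p q) G.bit A (c j)]
      exact prod_eq_one fun j _ => sum_kern (fun _ => rfl) hA0 _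
    simp only [t2, mul_one] at t1
    rw [sum_unc]
    simp only [hw]
    rw [t1, mul_sum]
    refine sum_congr rfl fun c _ => ?_
    have := hsc' c
    unfold bw
    calc _ = (H.wb q c * ∏ j, A (c j)) * (if H.bit c = true then ρ else 1) := by ring
      _ = _ := by rw [this]; ring
  -- the Dirichlet form
  have h3 : a * dir (bw (H.vb x q) H.bit ρ) Hf ≤
      X * dir (bw ((H.subst G).uw p q) (H.subst G).bit ρ) h := by
    have t := block_ineq (n := n) (u := G.uw p q) (γ := G.bit) (A := A)
      (fun _ => rfl) hA0 (fun z => Net.uw_pos G hp0 hp1 hq z) hX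
      (fun c => H.wb q c * if H.bit c = true then ρ else 1)
      (fun c => mul_pos (Net.wb_pos H hq c) (by split_ifs <;> norm_num [hρ0]))
      (fun e ξ => Net.wb_ratio H hq hρ e ξ) h
    have t3 : (fun c => H.wb q c * (if H.bit c = true then ρ else 1) * ∏ j, A (c j)) =
        fun c => a * bw (H.vb x q) H.bit ρ c := by
      funext c
      have := hsc' c
      unfold bw
      calc _ = (H.wb q c * ∏ j, A (c j)) * (if H.bit c = true then ρ else 1) := by ring
        _ = _ := by rw [this]; ring
    have t4 : (fun ω : Fin (n + 1) × F → Bool =>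
        H.wb q (fun j => G.bit fun f => ω (j, f)) *
          (if H.bit (fun j => G.bit fun f => ω (j, f)) = true then ρ else 1) *
          ∏ j, G.uw p q fun f => ω (j, f)) = bw ((H.subst G).uw p q) (H.subst G).bit ρ := by
      funext ω
      unfold bw
      rw [Net.uw_subst H G p hq, Net.bit_subst]
      have hb : G.bits ω = fun j => G.bit fun f => ω (j, f) := rfl
      rw [hb]
      ring
    rw [t3, t4, dir_mul ha0.ne'] at t
    exact t
  rw [h1, h2]
  have h4 := hm ρ hρ Hf
  have hvpos : ∀ c, 0 ≤ bw (H.vb x q) H.bit ρ c := by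
    intro c
    unfold bw Net.vb
    have hp1' : 0 < 1 - p := by linarith
    refine mul_nonneg (mul_nonneg (Net.wb_pos H hq c).le (prod_nonneg fun j _ => ?_)) ?_
    · split_ifs
      · exact (div_pos hp0 hp1').le
      · norm_num
    · split_ifs
      · exact hρ0.le
      · norm_num
  have hS : 0 ≤ ∑ c, bw (H.vb x q) H.bit ρ c := sum_nonneg fun c _ => hvpos c
  calc _ = a ^ 2 * (∑ c, bw (H.vb x q) H.bit ρ c * (m c * Hf c)) ^ 2 := by ring
    _ ≤ a ^ 2 * (K * (∑ c, bw (H.vb x q) H.bit ρ c) * dir (bw (H.vb x q) H.bit ρ) Hf) :=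
        mul_le_mul_of_nonneg_left h4 (by positivity)
    _ = K * (a * ∑ c, bw (H.vb x q) H.bit ρ c) * (a * dir (bw (H.vb x q) H.bit ρ) Hf) := by ring
    _ ≤ K * (a * ∑ c, bw (H.vb x q) H.bit ρ c) *
        (X * dir (bw ((H.subst G).uw p q) (H.subst G).bit ρ) h) :=
        mul_le_mul_of_nonneg_left h3 (by positivity)
    _ = _ := by ring

end embed

end Pool.Agent.FKH
end

section

/-! A Poincaré inequality for a finite system, and the bound for functions of mean zero. -/

open Finset

namespace Pool.Agent.FKH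

variable {E : Type} [Fintype E] [DecidableEq E]

lemma step_le {w : (E → Bool) → ℝ} (hw : ∀ ω, 0 < w ω) {κ : ℝ} (hκ : 0 < κ)
    (hκw : ∀ e ω, κ ≤ par (w (Function.update ω e true)) (w (Function.update ω e false)))
    (h : (E → Bool) → ℝ) (e : E) (ω : E → Bool) :
    |h (Function.update ω e true) - h (Function.update ω e false)| ≤
      √(2 / κ * dir w h) := by
  have h1 : 1 / 2 * pd w h e ω ≤ dir w h := by
    unfold dir
    have h2 : 1 / 2 * pd w h e ω ≤ 1 / 2 * ∑ ω, pd w h e ω :=
      mul_le_mul_of_nonneg_left (single_le_sum (f := fun ω => pd w h e ω)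
        (fun ω _ => pd_nonneg (fun ω => (hw ω).le) h e ω) (mem_univ ω)) (by norm_num)
    exact h2.trans (single_le_sum (f := fun e => 1 / 2 * ∑ ω, pd w h e ω)
      (fun e _ => mul_nonneg (by norm_num)
        (sum_nonneg fun ω _ => pd_nonneg (fun ω => (hw ω).le) h e ω)) (mem_univ e))
  apply Real.abs_le_sqrt
  have h3 : κ * (h (Function.update ω e true) - h (Function.update ω e false)) ^ 2 ≤
      pd w h e ω := mul_le_mul_of_nonneg_right (hκw e ω) (sq_nonneg _)
  rw [div_mul_eq_mul_div, le_div_iff₀ hκ]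
  linarith

lemma osc_le {w : (E → Bool) → ℝ} (hw : ∀ ω, 0 < w ω) {κ : ℝ} (hκ : 0 < κ)
    (hκw : ∀ e ω, κ ≤ par (w (Function.update ω e true)) (w (Function.update ω e false)))
    (h : (E → Bool) → ℝ) (S : Finset E) : ∀ ω ω' : E → Bool, (∀ e, e ∉ S → ω e = ω' e) →
    |h ω - h ω'| ≤ S.card * √(2 / κ * dir w h) := by
  induction S using Finset.induction_on with
  | empty =>
    intro ω ω' h1
    have : ω = ω' := funext fun e => h1 e (by simp)
    rw [this]
    simp
  | insert a S ha ih =>
    intro ω ω' h1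
    have h2 : |h ω - h (Function.update ω a (ω' a))| ≤ √(2 / κ * dir w h) := by
      have h3 := step_le hw hκ hκw h a ω
      cases hb : ω a <;> cases hb' : ω' a
      · rw [← hb, Function.update_eq_self, sub_self, abs_zero]
        exact Real.sqrt_nonneg _
      · have h4 : h ω = h (Function.update ω a false) := by rw [← hb, Function.update_eq_self]
        rw [h4, abs_sub_comm]
        exact h3
      · have h4 : h ω = h (Function.update ω a true) := by rw [← hb, Function.update_eq_self]
        rw [h4]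
        exact h3
      · rw [← hb, Function.update_eq_self, sub_self, abs_zero]
        exact Real.sqrt_nonneg _
    have h5 := ih (Function.update ω a (ω' a)) ω' (by
      intro e he
      by_cases hea : e = a
      · subst hea
        simp
      · rw [Function.update_of_ne hea]
        exact h1 e (by simp [he, hea]))
    rw [card_insert_of_notMem ha]
    push_cast
    calc |h ω - h ω'| ≤ |h ω - h (Function.update ω a (ω' a))| +
          |h (Function.update ω a (ω' a)) - h ω'| := abs_sub_le _ _ _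
      _ ≤ √(2 / κ * dir w h) + S.card * √(2 / κ * dir w h) := add_le_add h2 h5
      _ = _ := by ring

/-- Oscillation bound. -/
lemma exists_osc {w : (E → Bool) → ℝ} (hw : ∀ ω, 0 < w ω) :
    ∃ C : ℝ, 0 ≤ C ∧ ∀ (h : (E → Bool) → ℝ) (ω ω' : E → Bool),
      (h ω - h ω') ^ 2 ≤ C * dir w h := by
  obtain ⟨κ, hκ, hκw⟩ : ∃ κ : ℝ, 0 < κ ∧ ∀ e ω,
      κ ≤ par (w (Function.update ω e true)) (w (Function.update ω e false)) := by
    by_cases hE : Nonempty (E × (E → Bool))
    · obtain ⟨x, -, hx⟩ := exists_min_image (univ : Finset (E × (E → Bool)))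
        (fun x => par (w (Function.update x.2 x.1 true)) (w (Function.update x.2 x.1 false)))
        univ_nonempty
      exact ⟨_, par_pos (hw _) (hw _), fun e ω => hx (e, ω) (mem_univ _)⟩
    · exact ⟨1, one_pos, fun e ω => absurd ⟨(e, ω)⟩ hE⟩
  refine ⟨(Fintype.card E : ℝ) ^ 2 * (2 / κ), by positivity, fun h ω ω' => ?_⟩
  have h1 := osc_le hw hκ hκw h univ ω ω' (fun e he => absurd (mem_univ e) he)
  have h2 : 0 ≤ 2 / κ * dir w h := mul_nonneg (by positivity) (dir_nonneg (fun ω => (hw ω).le) h)
  rw [← sq_abs]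
  calc |h ω - h ω'| ^ 2 ≤ ((univ : Finset E).card * √(2 / κ * dir w h)) ^ 2 :=
        pow_le_pow_left₀ (abs_nonneg _) h1 2
    _ = _ := by
        rw [mul_pow, Real.sq_sqrt h2, card_univ]
        ring

/-- The `H^{-1}` bound for bounded functions of mean zero. -/
lemma exists_MZ {q : ℝ} (hq : 0 < q) {u : (E → Bool) → ℝ} (hu : ∀ ω, 0 < u ω)
    (γ : (E → Bool) → Bool) :
    ∃ K : ℝ, 0 ≤ K ∧ ∀ m : (E → Bool) → ℝ, (∀ ω, |m ω| ≤ 1) →
      (∀ ρ : ℝ, (ρ = 1 ∨ ρ = q⁻¹) → ∑ ω, bw u γ ρ ω * m ω = 0) → MZ q K u γ m := by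
  have key : ∀ ρ : ℝ, 0 < ρ → ∃ K : ℝ, 0 ≤ K ∧ ∀ m : (E → Bool) → ℝ, (∀ ω, |m ω| ≤ 1) →
      ∑ ω, bw u γ ρ ω * m ω = 0 → ∀ h : (E → Bool) → ℝ,
      (∑ z, bw u γ ρ z * (m z * h z)) ^ 2 ≤ K * (∑ z, bw u γ ρ z) * dir (bw u γ ρ) h := by
    intro ρ hρ
    have hw : ∀ ω, 0 < bw u γ ρ ω := fun ω => mul_pos (hu ω) (by split_ifs <;> positivity)
    obtain ⟨C, hC, hosc⟩ := exists_osc hw
    have hS : 0 ≤ ∑ z, bw u γ ρ z := sum_nonneg fun z _ => (hw z).le
    refine ⟨C * ∑ z, bw u γ ρ z, mul_nonneg hC hS, fun m hm h0 h => ?_⟩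
    have hd : 0 ≤ dir (bw u γ ρ) h := dir_nonneg (fun ω => (hw ω).le) h
    have hCd : 0 ≤ C * dir (bw u γ ρ) h := mul_nonneg hC hd
    have h1 : ∑ z, bw u γ ρ z * (m z * h z) =
        ∑ z, bw u γ ρ z * (m z * (h z - h fun _ => true)) := by
      have h2 : ∀ z, bw u γ ρ z * (m z * (h z - h fun _ => true)) =
          bw u γ ρ z * (m z * h z) - bw u γ ρ z * m z * h (fun _ => true) := fun z => by ring
      simp only [h2]
      rw [sum_sub_distrib, ← sum_mul, h0]
      ring
    have h2 : |∑ z, bw u γ ρ z * (m z * h z)| ≤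
        (∑ z, bw u γ ρ z) * √(C * dir (bw u γ ρ) h) := by
      rw [h1, sum_mul]
      refine (abs_sum_le_sum_abs _ _).trans (sum_le_sum fun z _ => ?_)
      rw [abs_mul, abs_of_pos (hw z), abs_mul]
      refine mul_le_mul_of_nonneg_left ?_ (hw z).le
      have h3 : |h z - h fun _ => true| ≤ √(C * dir (bw u γ ρ) h) :=
        Real.abs_le_sqrt (hosc h z _)
      calc |m z| * |h z - h fun _ => true| ≤ 1 * √(C * dir (bw u γ ρ) h) :=
            mul_le_mul (hm z) h3 (abs_nonneg _) zero_le_one
        _ = _ := one_mul _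
    rw [← sq_abs]
    calc _ ≤ ((∑ z, bw u γ ρ z) * √(C * dir (bw u γ ρ) h)) ^ 2 :=
          pow_le_pow_left₀ (abs_nonneg _) h2 2
      _ = _ := by
          rw [mul_pow, Real.sq_sqrt hCd]
          ring
  obtain ⟨K1, hK1, h1⟩ := key 1 one_pos
  obtain ⟨K2, hK2, h2⟩ := key q⁻¹ (by positivity)
  refine ⟨K1 + K2, by positivity, fun m hm h0 => ?_⟩
  intro ρ hρ h
  have hw : ∀ ω, 0 < bw u γ ρ ω := fun ω => mul_pos (hu ω) (by
    rcases hρ with rfl | rfl <;> split_ifs <;> positivity)
  have hd : 0 ≤ dir (bw u γ ρ) h := dir_nonneg (fun ω => (hw ω).le) h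
  have hS : 0 ≤ ∑ z, bw u γ ρ z := sum_nonneg fun z _ => (hw z).le
  rcases hρ with rfl | rfl
  · refine (h1 m hm (h0 1 (Or.inl rfl)) h).trans ?_
    exact mul_le_mul_of_nonneg_right (mul_le_mul_of_nonneg_right (by linarith) hS) hd
  · refine (h2 m hm (h0 _ (Or.inr rfl)) h).trans ?_
    exact mul_le_mul_of_nonneg_right (mul_le_mul_of_nonneg_right (by linarith) hS) hd

end Pool.Agent.FKH
end
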