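import Pool.Agent.Lib.MP_a14fda_pr.Mg.G004
import Pool.Agent.Lib.MP_a14fda_pr.DHL.Defs
import Pool.Agent.Lib.MP_a14fda_pr.Mg.G002

section

/-! The block inequality with separate constants for wired and free surroundings. -/

open Finset

namespace Pool.Agent.FKH

/-- The boundary factor: `1` for a wired outside (`true`), `q⁻¹` for a free one (`false`). -/
noncomputable def rho (q : ℝ) (τ : Bool) : ℝ := if τ = true then 1 else q⁻¹

lemma rho_pos {q : ℝ} (hq : 0 < q) (τ : Bool) : 0 < rho q τ := by
  unfold rho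
  split_ifs <;> positivity

section block

variable {F : Type} [Fintype F] [DecidableEq F] {n : ℕ}

/-- The block inequality with the constants `X true` for the wired and `X false` for the free
outside. -/
def BH2 (q : ℝ) (X : Bool → ℝ) (u : (F → Bool) → ℝ) (γ : (F → Bool) → Bool) (A : Bool → ℝ) :
    Prop :=
  ∀ (τ : Bool) (g : (F → Bool) → ℝ),
    par (A false) (rho q τ * A true) * jump u γ A g ^ 2 ≤
      X τ * dir (fun z => u z * if γ z = true then rho q τ else 1) g

variable {u : (F → Bool) → ℝ} {γ : (F → Bool) → Bool} {A : Bool → ℝ}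

lemma BH2.mono {q : ℝ} (hq : 0 < q) (hu : ∀ z, 0 < u z) {X Y : Bool → ℝ}
    (h : BH2 q X u γ A) (hXY : ∀ τ, X τ ≤ Y τ) : BH2 q Y u γ A := by
  intro τ g
  refine (h τ g).trans (mul_le_mul_of_nonneg_right (hXY τ) (dir_nonneg (fun z => ?_) _))
  refine mul_nonneg (hu z).le ?_
  split_ifs
  · exact (rho_pos hq τ).le
  · exact zero_le_one

lemma BH2.toBH {q : ℝ} (hq : 0 < q) (hu : ∀ z, 0 < u z) {X : Bool → ℝ} {Y : ℝ}
    (h : BH2 q X u γ A) (hXY : ∀ τ, X τ ≤ Y) : BH q Y u γ A := by
  intro ρ hρ g
  rcases hρ with rfl | rfl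
  · have h1 := h.mono hq hu (Y := fun _ => Y) hXY true g
    simpa [rho] using h1
  · have h1 := h.mono hq hu (Y := fun _ => Y) hXY false g
    simpa [rho] using h1

lemma block_ineq2 (hA : ∀ b, A b = ∑ z, if γ z = b then u z else 0) (hA0 : ∀ b, 0 < A b)
    (hu : ∀ z, 0 < u z) {q : ℝ} {X : Bool → ℝ} (hX : ∀ τ, 0 < X τ) (hBH : BH2 q X u γ A)
    (W : (Fin (n + 1) → Bool) → ℝ) (hW : ∀ c, 0 < W c) (τ : Fin (n + 1) → (Fin n → Bool) → Bool)
    (hR : ∀ e ξ, W (Fin.insertNth e true ξ) = rho q (τ e ξ) * W (Fin.insertNth e false ξ))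
    (h : (Fin (n + 1) × F → Bool) → ℝ) :
    ∑ e, ∑ ξ : Fin n → Bool, (X (τ e ξ))⁻¹ *
      (par ((fun c => W c * ∏ j, A (c j)) (Fin.insertNth e true ξ))
        ((fun c => W c * ∏ j, A (c j)) (Fin.insertNth e false ξ)) *
        (cond u γ A h (Fin.insertNth e true ξ) - cond u γ A h (Fin.insertNth e false ξ)) ^ 2) ≤
      dir (fun ω => W (fun j => γ fun f => ω (j, f)) * ∏ j, u fun f => ω (j, f)) h := by
  rw [dir_split]
  refine sum_le_sum fun e _ => ?_
  -- the block estimate for fixed outside
  have h1 : ∀ ζ : Fin n → F → Bool,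
      (∏ j, u (ζ j)) * ((X (τ e fun j => γ (ζ j)))⁻¹ *
        (par (W (Fin.insertNth e false fun j => γ (ζ j)) * A false)
        (W (Fin.insertNth e true fun j => γ (ζ j)) * A true) *
        jump u γ A (fun z => h (unc (Fin.insertNth e z ζ))) ^ 2)) ≤
      dir (fun z => (fun ω : Fin (n + 1) × F → Bool =>
        W (fun j => γ fun f => ω (j, f)) * ∏ j, u fun f => ω (j, f))
          (unc (Fin.insertNth e z ζ))) (fun z => h (unc (Fin.insertNth e z ζ))) := by
    intro ζ
    set ξ : Fin n → Bool := fun j => γ (ζ j) with hξ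
    have hρ2 := hR e ξ
    set ρ := rho q (τ e ξ) with hρ
    have hXp := hX (τ e ξ)
    have hU : 0 < ∏ j, u (ζ j) := prod_pos fun j _ => hu _
    set K := W (Fin.insertNth e false ξ) * ∏ j, u (ζ j) with hK
    have hK0 : 0 < K := mul_pos (hW _) hU
    have h2 : (fun z => (fun ω : Fin (n + 1) × F → Bool =>
        W (fun j => γ fun f => ω (j, f)) * ∏ j, u fun f => ω (j, f))
          (unc (Fin.insertNth e z ζ))) =
        fun z => K * (u z * if γ z = true then ρ else 1) := by
      funext z
      simp only [unc]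
      have h3 := comp_ins γ e z ζ
      have h4 := prod_ins e (fun _ => u) z ζ
      rw [h3, h4, ← hξ, hK]
      cases hz : γ z
      · simp
        ring
      · simp only [if_true]
        rw [hρ2]
        ring
    rw [h2, dir_mul hK0.ne']
    have h5 := hBH (τ e ξ) (fun z => h (unc (Fin.insertNth e z ζ)))
    rw [← hρ] at h5
    rw [hρ2]
    have h6 : par (W (Fin.insertNth e false ξ) * A false)
        (ρ * W (Fin.insertNth e false ξ) * A true) =
        W (Fin.insertNth e false ξ) * par (A false) (ρ * A true) := by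
      rw [← par_mul (hW _).ne']
      congr 1
      ring
    rw [h6]
    have h7 : (X (τ e ξ))⁻¹ * (par (A false) (ρ * A true) *
        jump u γ A (fun z => h (unc (Fin.insertNth e z ζ))) ^ 2) ≤
        dir (fun z => u z * if γ z = true then ρ else 1)
          (fun z => h (unc (Fin.insertNth e z ζ))) := by
      rw [inv_mul_le_iff₀ hXp]
      exact h5
    calc _ = K * ((X (τ e ξ))⁻¹ * (par (A false) (ρ * A true) *
          jump u γ A (fun z => h (unc (Fin.insertNth e z ζ))) ^ 2)) := by rw [hK]; ring
      _ ≤ K * _ := mul_le_mul_of_nonneg_left h7 hK0.le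
  refine le_trans ?_ (sum_le_sum fun ζ _ => h1 ζ)
  -- group by the bits of the outside
  have h7 : ∀ ξ : Fin n → Bool, (X (τ e ξ))⁻¹ *
      (par ((fun c => W c * ∏ j, A (c j)) (Fin.insertNth e true ξ))
        ((fun c => W c * ∏ j, A (c j)) (Fin.insertNth e false ξ)) *
        (cond u γ A h (Fin.insertNth e true ξ) - cond u γ A h (Fin.insertNth e false ξ)) ^ 2) ≤
      ∑ ζ : Fin n → F → Bool, (if (fun j => γ (ζ j)) = ξ then ∏ j, u (ζ j) else 0) *
        ((X (τ e ξ))⁻¹ *
        (par (W (Fin.insertNth e false ξ) * A false) (W (Fin.insertNth e true ξ) * A true) *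
        jump u γ A (fun z => h (unc (Fin.insertNth e z ζ))) ^ 2)) := by
    intro ξ
    have hAξ : 0 < ∏ j, A (ξ j) := prod_pos fun j _ => hA0 _
    have h8 : par ((fun c => W c * ∏ j, A (c j)) (Fin.insertNth e true ξ))
        ((fun c => W c * ∏ j, A (c j)) (Fin.insertNth e false ξ)) = (∏ j, A (ξ j)) *
        par (W (Fin.insertNth e false ξ) * A false) (W (Fin.insertNth e true ξ) * A true) := by
      rw [← par_mul hAξ.ne', par_comm]
      simp only [prod_ins e (fun _ => A)]
      congr 1 <;> ring
    rw [h8, cond_jump]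
    have h9 : (∑ ζ : Fin n → F → Bool, (∏ j, kern u γ A (ξ j) (ζ j)) *
        jump u γ A (fun z => h (unc (Fin.insertNth e z ζ)))) ^ 2 ≤
        ∑ ζ : Fin n → F → Bool, (∏ j, kern u γ A (ξ j) (ζ j)) *
        jump u γ A (fun z => h (unc (Fin.insertNth e z ζ))) ^ 2 := by
      have hk : ∀ b z, 0 ≤ kern u γ A b z := by
        intro b z
        unfold kern
        refine div_nonneg ?_ (hA0 b).le
        split_ifs
        · exact (hu z).le
        · exact le_rfl
      refine jensen_sq (fun ζ => prod_nonneg fun j _ => hk _ _) ?_ _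
      rw [← Fintype.prod_sum fun j => kern u γ A (ξ j)]
      exact prod_eq_one fun j _ => sum_kern hA hA0 _
    have hP : 0 ≤ par (W (Fin.insertNth e false ξ) * A false)
        (W (Fin.insertNth e true ξ) * A true) :=
      (par_pos (mul_pos (hW _) (hA0 _)) (mul_pos (hW _) (hA0 _))).le
    have hXi : 0 ≤ (X (τ e ξ))⁻¹ := (inv_pos.mpr (hX _)).le
    calc _ ≤ (X (τ e ξ))⁻¹ * ((∏ j, A (ξ j)) *
        par (W (Fin.insertNth e false ξ) * A false) (W (Fin.insertNth e true ξ) * A true) *
          ∑ ζ : Fin n → F → Bool, (∏ j, kern u γ A (ξ j) (ζ j)) *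
            jump u γ A (fun z => h (unc (Fin.insertNth e z ζ))) ^ 2) :=
          mul_le_mul_of_nonneg_left
            (mul_le_mul_of_nonneg_left h9 (mul_nonneg hAξ.le hP)) hXi
      _ = _ := by
        rw [mul_sum, mul_sum]
        refine sum_congr rfl fun ζ _ => ?_
        rw [← prod_A_kern hA0 ξ ζ]
        ring
  refine le_trans (sum_le_sum fun ξ _ => h7 ξ) (le_of_eq ?_)
  rw [sum_comm]
  refine sum_congr rfl fun ζ _ => ?_
  simp only [ite_mul, zero_mul]
  rw [sum_ite_eq]
  simp only [mem_univ, if_true]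

end block

end Pool.Agent.FKH
end

section

/-! The crossing bit and the cluster weight of chains and bundles. -/

open Finset

namespace Pool.Agent.FKH

/-- The position of a vertex in the chain. -/
private def Nets2_pos (b : ℕ) : Bool ⊕ {j : Fin b // 0 < (j : ℕ)} → ℕ
  | Sum.inl false => 0
  | Sum.inl true => b
  | Sum.inr j => (j.1 : ℕ)

private lemma Nets2_pos_node {b : ℕ} (hb : 0 < b) {k : ℕ} (hk : k ≤ b) :
    Nets2_pos b (node b k) = k := by
  unfold node
  split_ifs with h
  · rfl
  · rcases Nat.eq_zero_or_pos k with h0 | h0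
    · subst h0
      simp [Nets2_pos]
    · have : k = b := by
        by_contra hne
        exact h ⟨h0, by omega⟩
      subst this
      simp [Nets2_pos, hb]

private lemma Nets2_node_pos {b : ℕ} (hb : 0 < b) (v : Bool ⊕ {j : Fin b // 0 < (j : ℕ)}) :
    node b (Nets2_pos b v) = v := by
  rcases v with (s | j)
  · cases s
    · simp [Nets2_pos, node]
    · simp [Nets2_pos, node, hb]
  · obtain ⟨j, hj⟩ := j
    unfold node Nets2_pos
    rw [dif_pos ⟨hj, j.2⟩]

private lemma Nets2_pos_le {b : ℕ} (v : Bool ⊕ {j : Fin b // 0 < (j : ℕ)}) :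
    Nets2_pos b v ≤ b := by
  rcases v with (s | j)
  · cases s
    · simp [Nets2_pos]
    · simp [Nets2_pos]
  · obtain ⟨j, hj⟩ := j
    exact j.2.le

private lemma Nets2_sep {b : ℕ} (hb : 0 < b) (c : Fin b → Bool) (e : Fin b) (he : c e = false) :
    (chain b).Compat c (fun v => decide (Nets2_pos b v ≤ (e : ℕ))) := by
  intro f hf
  have hne : (f : ℕ) ≠ (e : ℕ) := by
    intro h
    have h2 : f = e := Fin.ext h
    rw [h2, he] at hf
    exact Bool.noConfusion hf
  have hfb := f.2
  show decide (Nets2_pos b (node b f) ≤ (e : ℕ)) = decide (Nets2_pos b (node b (f + 1)) ≤ (e : ℕ))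
  rw [decide_eq_decide, Nets2_pos_node hb (show (f : ℕ) ≤ b by omega),
    Nets2_pos_node hb (show (f : ℕ) + 1 ≤ b by omega)]
  omega

private lemma Nets2_const {b : ℕ} (c : Fin b → Bool) (hc : ∀ e, c e = true)
    {σ : Bool ⊕ {j : Fin b // 0 < (j : ℕ)} → Bool} (hσ : (chain b).Compat c σ) {k : ℕ}
    (hk : k ≤ b) : σ (node b k) = σ (node b 0) := by
  induction k with
  | zero => rfl
  | succ k ih =>
    rw [← ih (by omega)]
    exact (hσ ⟨k, by omega⟩ (hc _)).symm

private lemma Nets2_all {b : ℕ} (hb : 0 < b) (c : Fin b → Bool) (hc : ∀ e, c e = true)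
    (x y : Bool ⊕ {j : Fin b // 0 < (j : ℕ)}) : ((chain b).openGraph c).Reachable x y := by
  rw [Net.reachable_iff]
  intro σ hσ
  have h1 := Nets2_const c hc hσ (Nets2_pos_le x)
  have h2 := Nets2_const c hc hσ (Nets2_pos_le y)
  rw [Nets2_node_pos hb] at h1 h2
  rw [h1, h2]

/-- DHL TASK Nets2, part 1: a chain is crossed iff all its edges are open.
PROOF. `Net.reachable_iff` again. If all edges are open, a compatible colouring `σ` has
`σ (node b k) = σ (node b 0)` for all `k ≤ b` by induction, and `node b 0 = inl false`,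
`node b b = inl true` (`b ≥ 1`). If the edge `e` is closed, the colouring
`σ v = decide (position of v ≤ e)` is compatible and separates the terminals, where the position
of `inl false` is `0`, of `inl true` is `b`, of `inr j` is `j`; note `position (node b k) = k` for
`k ≤ b`. -/
lemma chain_bit {b : ℕ} (hb : 0 < b) (c : Fin b → Bool) :
    (chain b).bit c = true ↔ ∀ e, c e = true := by
  rw [Net.bit_eq_true]
  constructor
  · intro h e
    rw [Net.Crossed, Net.reachable_iff] at h
    by_contra he
    have he' : c e = false := by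
      cases hce : c e
      · rfl
      · exact absurd hce he
    have h1 := h _ (Nets2_sep hb c e he')
    have h2 : (0 ≤ (e : ℕ) ↔ b ≤ (e : ℕ)) := decide_eq_decide.mp h1
    have := e.2
    omega
  · intro h
    exact Nets2_all hb c h _ _

private lemma Nets2_numComp {b : ℕ} (hb : 0 < b) (S : Finset (Fin b)) :
    (chain b).numComp (fun e => decide (e ∉ S)) = 1 + S.card := by
  induction S using Finset.induction_on with
  | empty =>
    have h : Subsingleton
        ((chain b).openGraph (fun e => decide (e ∉ (∅ : Finset (Fin b))))).ConnectedComponent := by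
      constructor
      intro x y
      induction x using SimpleGraph.ConnectedComponent.ind
      induction y using SimpleGraph.ConnectedComponent.ind
      rw [SimpleGraph.ConnectedComponent.eq]
      exact Nets2_all hb _ (fun e => by simp) _ _
    have h2 : Nonempty
        ((chain b).openGraph (fun e => decide (e ∉ (∅ : Finset (Fin b))))).ConnectedComponent :=
      ⟨((chain b).openGraph _).connectedComponentMk (Sum.inl false)⟩
    rw [Net.numComp, Finset.card_empty, add_zero]
    exact Nat.card_eq_one_iff_unique.mpr ⟨h, h2⟩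
  | insert e S heS ih =>
    have e1 : (fun f : Fin b => decide (f ∉ S)) =
        Function.update (fun f => decide (f ∉ S)) e true := by
      rw [← Function.update_eq_self e (fun f : Fin b => decide (f ∉ S))]
      simp [heS]
    have e2 : (fun f : Fin b => decide (f ∉ insert e S)) =
        Function.update (fun f => decide (f ∉ S)) e false := by
      funext f
      by_cases hf : f = e
      · subst hf
        simp
      · rw [Function.update_of_ne hf]
        simp [hf]
    rw [e1] at ih
    rw [e2, Finset.card_insert_of_notMem heS]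
    rcases (chain b).numComp_update (fun f => decide (f ∉ S)) e with ⟨h1, -⟩ | h1
    · exfalso
      have hsub : {σ | (chain b).Compat (Function.update (fun f => decide (f ∉ S)) e true) σ} ⊆
          {σ | (chain b).Compat (Function.update (fun f => decide (f ∉ S)) e false) σ} := by
        intro σ hσ
        exact ((Net.compat_update _ _ _ _).mp hσ).1
      have hc1 := (chain b).card_compat (Function.update (fun f => decide (f ∉ S)) e true)
      have hc2 := (chain b).card_compat (Function.update (fun f => decide (f ∉ S)) e false)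
      rw [h1, ← hc2] at hc1
      have hle : {σ | (chain b).Compat
          (Function.update (fun f => decide (f ∉ S)) e false) σ}.ncard ≤
          {σ | (chain b).Compat
          (Function.update (fun f => decide (f ∉ S)) e true) σ}.ncard := by
        exact hc1.ge
      have heq := Set.eq_of_subset_of_ncard_le hsub hle (Set.toFinite _)
      have hsep := Nets2_sep hb (Function.update (fun f => decide (f ∉ S)) e false) e (by simp)
      have hmem : (fun v => decide (Nets2_pos b v ≤ (e : ℕ))) ∈
          {σ | (chain b).Compat (Function.update (fun f => decide (f ∉ S)) e true) σ} := by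
        rw [heq]
        exact hsep
      have hmem' : (chain b).Compat (Function.update (fun f => decide (f ∉ S)) e true)
          (fun v => decide (Nets2_pos b v ≤ (e : ℕ))) := hmem
      have h3 := ((Net.compat_update _ _ _ _).mp hmem').2
      have h4 : (Nets2_pos b (node b e) ≤ (e : ℕ) ↔ Nets2_pos b (node b (e + 1)) ≤ (e : ℕ)) :=
        decide_eq_decide.mp h3
      have hfb := e.2
      rw [Nets2_pos_node hb (show (e : ℕ) ≤ b by omega),
        Nets2_pos_node hb (show (e : ℕ) + 1 ≤ b by omega)] at h4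
      omega
    · rw [← h1, ih]
      ring

/-- DHL TASK Nets2, part 2: the cluster weight of a chain.
PROOF. `numComp` of the fully open chain is `1` (then `wb = q^(1+1)/q^2 = 1`): every compatible
colouring is constant, so `Net.card_compat` gives `2 ^ numComp = 2`. Closing one edge `e` adds
one component: `Net.numComp_update` (in `FKH/Graph.lean`): either the number of components and the
bit do not change, or `numComp (open) + 1 = numComp (closed)`; the first case is impossible for a
chain, since in the configuration with `e` closed the ends of `e` are not connected (colouring of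
part 1), or use: for all `ω` with `ω e = false`, the proof of `numComp_update` by cases on
`Reachable (ends e).1 (ends e).2`. Hence `numComp c = 1 + #closed edges`, and for `c` not fully
open the bit is `false`, so `wb = q^(1 + #closed) / q^2 = q⁻¹ * q^#closed`.
(Alternatively count the compatible colourings: `2 ^ numComp c = 2 * 2 ^ #closed`.) -/
lemma chain_wb {b : ℕ} (hb : 0 < b) {q : ℝ} (hq : 0 < q) (c : Fin b → Bool) :
    (chain b).wb q c =
      if c = (fun _ => true) then 1 else q⁻¹ * ∏ j, (if c j = true then 1 else q) := by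
  classical
  set S : Finset (Fin b) := Finset.univ.filter fun e => c e = false with hS
  have hcS : c = fun e => decide (e ∉ S) := by
    funext e
    cases hce : c e <;> simp [hS, hce]
  have hn : (chain b).numComp c = 1 + S.card := by
    rw [hcS]
    exact Nets2_numComp hb S
  have hprod : ∏ j, (if c j = true then (1 : ℝ) else q) = q ^ S.card := by
    rw [← Finset.prod_const, hS, Finset.prod_filter]
    refine Finset.prod_congr rfl fun j _ => ?_
    cases hcj : c j <;> simp
  unfold Net.wb
  split_ifs with hall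
  · have hbit : (chain b).bit c = true := (chain_bit hb c).mpr fun e => by rw [hall]
    have hS0 : S = ∅ := by
      rw [hS, Finset.filter_eq_empty_iff]
      intro e _
      rw [hall]
      simp
    rw [hn, hbit, hS0, Finset.card_empty]
    have : q ^ (1 + 0 + true.toNat) = q ^ 2 := by simp
    rw [this, div_self (by positivity)]
  · have hbit : (chain b).bit c = false := by
      cases hb' : (chain b).bit c
      · rfl
      · exact absurd (funext ((chain_bit hb c).mp hb')) hall
    rw [hn, hbit, hprod]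
    simp only [Bool.toNat_false, add_zero]
    field_simp
    ring

end Pool.Agent.FKH
end

section

/-! Definitions for the optimal flow on the cube. -/

open Finset

namespace Pool.Agent.FKH

/-- `u` to the number of open coordinates. -/
noncomputable def wt (u : ℝ) {m : ℕ} (ξ : Fin m → Bool) : ℝ := ∏ j, if ξ j = true then u else 1

/-- The odds of `n + 1` parallel edges of odds `u`. -/
noncomputable def KK (n : ℕ) (u : ℝ) : ℝ := (1 + u) ^ (n + 1) - 1

/-- The sum `∑ C(n,k) u^k / (k+1)²`. -/
noncomputable def SS (n : ℕ) (u : ℝ) : ℝ :=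
  ∑ k ∈ range (n + 1), (n.choose k : ℝ) * u ^ k / ((k : ℝ) + 1) ^ 2

/-- The mean of `1 / N` for a binomial variable `N` conditioned to be positive. -/
noncomputable def dd (n : ℕ) (u : ℝ) : ℝ := ((n : ℝ) + 1) * u * SS n u / KK n u

/-- The inverse of the mean of a binomial variable conditioned to be positive. -/
noncomputable def aa (n : ℕ) (u : ℝ) : ℝ :=
  KK n u * (1 + u) / ((1 + KK n u) * (((n : ℝ) + 1) * u))

/-- One factor of the flow. -/
noncomputable def fac (u σ : ℝ) (b : Bool) : ℝ := if b = true then u * (1 - σ) else 1 + u * σ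

/-- The flow through the edge `(e, ξ)` of the cube (the same for all directions `e`). -/
noncomputable def fl (u : ℝ) {n : ℕ} (ξ : Fin n → Bool) : ℝ :=
  u / KK n u * ∫ σ in (0 : ℝ)..1, ∏ j, fac u σ (ξ j)

lemma KK_pos {n : ℕ} {u : ℝ} (hu : 0 < u) : 0 < KK n u := by
  unfold KK
  have : (1 : ℝ) < (1 + u) ^ (n + 1) := one_lt_pow₀ (by linarith) (by omega)
  linarith

lemma wt_pos {u : ℝ} (hu : 0 < u) {m : ℕ} (ξ : Fin m → Bool) : 0 < wt u ξ :=
  prod_pos fun j _ => by split_ifs <;> positivity

end Pool.Agent.FKH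
end

section

/-! The divergence of the flow. -/

open Finset

namespace Pool.Agent.FKH

private lemma CubeDiv_cont (u : ℝ) (b : Bool) : Continuous fun σ => fac u σ b := by
  cases b
  · simp only [fac, Bool.false_eq_true, if_false]
    fun_prop
  · simp only [fac, if_true]
    fun_prop

private lemma CubeDiv_deriv (u : ℝ) (b : Bool) (σ : ℝ) :
    HasDerivAt (fun σ => fac u σ b) (if b = true then -u else u) σ := by
  cases b
  · simp only [fac, Bool.false_eq_true, if_false]
    have h := ((hasDerivAt_id σ).const_mul u).const_add 1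
    simpa using h
  · simp only [fac, if_true]
    have h := ((hasDerivAt_id σ).const_sub 1).const_mul u
    simpa using h

private lemma CubeDiv_erase {n : ℕ} (e : Fin (n + 1)) (g : Fin (n + 1) → ℝ) :
    ∏ j ∈ univ.erase e, g j = ∏ j : Fin n, g (e.succAbove j) := by
  have h1 : (univ.erase e : Finset (Fin (n + 1))) = univ.image e.succAbove := by
    rw [Fin.image_succAbove_univ]
    ext j
    simp
  rw [h1, Finset.prod_image]
  intro a _ b _ h
  exact Fin.succAbove_right_injective h

/-- DHL TASK CubeDiv. The divergence of the flow `fl`.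
PROOF. Let `c : Fin (n+1) → Bool` and `Π(σ) = ∏ j : Fin (n+1), fac u σ (c j)`. The derivative of
`fac u σ b` in `σ` is `-u` if `b = true` and `u` if `b = false`, so
`Π'(σ) = ∑ e, (if c e = true then -u else u) * ∏ j ∈ univ.erase e, fac u σ (c j)`
(`HasDerivAt.finset_prod` / `HasDerivAt.fun_finset_prod`), and the product over `univ.erase e` is
`∏ j : Fin n, fac u σ (c (e.succAbove j))` (e.g. `Fin.image_succAbove_univ : univ.image
e.succAbove = {e}ᶜ` and `Finset.prod_image`). Integrate over `[0,1]`
(`intervalIntegral.integral_eq_sub_of_hasDerivAt`; all integrands are continuous, `fun_prop` or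
`continuous_finset_prod`):
`∑ e, (if c e = true then -u else u) * ∫ ∏ j : Fin n, ... = Π(1) - Π(0)`.
`Π(0) = wt u c` (`fac u 0 true = u`, `fac u 0 false = 1`) and
`Π(1) = 0` unless all `c j = false`, when it is `(1+u)^(n+1)` (`fac u 1 true = 0`).
Multiply by `-1 / KK n u`: the left side becomes the left side of the claim, and the right side is
`wt u c / KK n u` if `c` is not identically `false`, and `(1 - (1+u)^(n+1)) / KK n u = -1` if it
is. -/
lemma fl_div {u : ℝ} (hu : 0 < u) {n : ℕ} (c : Fin (n + 1) → Bool) :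
    ∑ e, (if c e = true then fl u (fun j => c (e.succAbove j))
        else - fl u (fun j => c (e.succAbove j))) =
      if c = (fun _ => false) then -1 else wt u c / KK n u := by
  have hK := KK_pos (n := n) hu
  have hder : ∀ σ ∈ Set.uIcc (0 : ℝ) 1, HasDerivAt (fun σ => ∏ j, fac u σ (c j))
      (∑ e, (if c e = true then -u else u) * ∏ j : Fin n, fac u σ (c (e.succAbove j))) σ := by
    intro σ _
    have h := HasDerivAt.fun_finsetProd (u := (univ : Finset (Fin (n + 1))))
      (f := fun j σ => fac u σ (c j)) (f' := fun j => if c j = true then -u else u) (x := σ)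
      (fun j _ => CubeDiv_deriv u (c j) σ)
    refine h.congr_deriv ?_
    refine Finset.sum_congr rfl fun e _ => ?_
    rw [smul_eq_mul, CubeDiv_erase e (fun j => fac u σ (c j)), mul_comm]
  have hc1 : ∀ e : Fin (n + 1), Continuous fun σ : ℝ =>
      (if c e = true then -u else u) * ∏ j : Fin n, fac u σ (c (e.succAbove j)) := by
    intro e
    exact continuous_const.mul (continuous_finsetProd _ fun j _ => CubeDiv_cont u _)
  have hftc := intervalIntegral.integral_eq_sub_of_hasDerivAt hder
    ((continuous_finsetSum _ fun e _ => hc1 e).intervalIntegrable 0 1)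
  rw [intervalIntegral.integral_finsetSum (fun e _ => (hc1 e).intervalIntegrable 0 1)] at hftc
  simp only [intervalIntegral.integral_const_mul] at hftc
  have hP0 : ∏ j, fac u 0 (c j) = wt u c := by
    unfold wt
    refine Finset.prod_congr rfl fun j _ => ?_
    unfold fac
    split_ifs <;> ring
  have hL : ∑ e, (if c e = true then fl u (fun j => c (e.succAbove j))
        else - fl u (fun j => c (e.succAbove j))) = -(1 / KK n u) *
      ∑ e, (if c e = true then -u else u) *
        ∫ σ in (0 : ℝ)..1, ∏ j : Fin n, fac u σ (c (e.succAbove j)) := by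
    rw [Finset.mul_sum]
    refine Finset.sum_congr rfl fun e _ => ?_
    unfold fl
    split_ifs <;> field_simp
  rw [hL, hftc, hP0]
  split_ifs with h
  · have hP1 : ∏ j, fac u 1 (c j) = (1 + u) ^ (n + 1) := by
      rw [h]
      simp [fac]
    have hw : wt u c = 1 := by
      rw [h]
      simp [wt]
    rw [hP1, hw]
    have : (1 + u) ^ (n + 1) - 1 = KK n u := rfl
    rw [this]
    field_simp
  · have hP1 : ∏ j, fac u 1 (c j) = 0 := by
      obtain ⟨j, hj⟩ : ∃ j, c j = true := by
        by_contra hcon
        apply h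
        funext j
        by_contra h2
        exact hcon ⟨j, by simpa using h2⟩
      apply Finset.prod_eq_zero (Finset.mem_univ j)
      rw [hj]
      simp [fac]
    rw [hP1]
    ring

end Pool.Agent.FKH
end

section

/-! The energy of the flow. -/

open Finset

namespace Pool.Agent.FKH

/-- DHL TASK CubeEn, part 1. The flow through the edges at the origin.
PROOF. All factors are `1 + u σ`, so the integral is `∫ (1 + u σ)^n = ((1+u)^(n+1) - 1)/((n+1)u)`
(antiderivative `(1 + u σ)^(n+1) / ((n+1) u)`, `intervalIntegral.integral_eq_sub_of_hasDerivAt`).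
-/
lemma fl_zero {u : ℝ} (hu : 0 < u) {n : ℕ} :
    fl u (fun _ : Fin n => false) = 1 / ((n : ℝ) + 1) := by
  have hK := KK_pos (n := n) hu
  have hn : (0 : ℝ) < (n : ℝ) + 1 := by positivity
  have hint : ∫ σ in (0 : ℝ)..1, ∏ _j : Fin n, fac u σ false = KK n u / (((n : ℝ) + 1) * u) := by
    have h1 : ∀ σ : ℝ, ∏ _j : Fin n, fac u σ false = (1 + u * σ) ^ n := by
      intro σ
      simp [fac]
    simp only [h1]
    have hder : ∀ σ ∈ Set.uIcc (0 : ℝ) 1,
        HasDerivAt (fun σ => (1 + u * σ) ^ (n + 1) / (((n : ℝ) + 1) * u)) ((1 + u * σ) ^ n) σ := by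
      intro σ _
      have h2 : HasDerivAt (fun σ : ℝ => 1 + u * σ) u σ := by
        simpa using ((hasDerivAt_id σ).const_mul u).const_add 1
      have h3 := (h2.pow (n + 1)).div_const (((n : ℝ) + 1) * u)
      refine h3.congr_deriv ?_
      rw [Nat.add_sub_cancel]
      push_cast
      field_simp
    rw [intervalIntegral.integral_eq_sub_of_hasDerivAt hder
      ((by fun_prop : Continuous fun σ : ℝ => (1 + u * σ) ^ n).intervalIntegrable 0 1)]
    unfold KK
    rw [mul_one, mul_zero, add_zero, one_pow, ← sub_div]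
  unfold fl
  rw [hint]
  field_simp

private lemma CubeEn_cont (u : ℝ) (b : Bool) : Continuous fun σ => fac u σ b := by
  cases b
  · simp only [fac, Bool.false_eq_true, if_false]
    fun_prop
  · simp only [fac, if_true]
    fun_prop

private lemma CubeEn_poly (n : ℕ) (a : ℕ → ℝ) :
    ∫ τ in (0 : ℝ)..1, ∑ k ∈ range (n + 1), a k * τ ^ k =
      ∑ k ∈ range (n + 1), a k / ((k : ℝ) + 1) := by
  rw [intervalIntegral.integral_finsetSum
    (fun k _ => (by fun_prop : Continuous fun τ : ℝ => a k * τ ^ k).intervalIntegrable 0 1)]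
  refine Finset.sum_congr rfl fun k _ => ?_
  rw [intervalIntegral.integral_const_mul, integral_pow]
  simp [div_eq_mul_inv]

private lemma CubeEn_sum {u : ℝ} (hu : 0 < u) {n : ℕ} (σ τ : ℝ) :
    ∑ ξ : Fin n → Bool, (∏ j, fac u σ (ξ j)) / wt u ξ * ∏ j, fac u τ (ξ j) =
      ∑ k ∈ range (n + 1), ((1 + u) ^ n * ((n.choose k : ℝ) * (u * σ) ^ k)) * τ ^ k := by
  have h1 : ∀ ξ : Fin n → Bool, (∏ j, fac u σ (ξ j)) / wt u ξ * ∏ j, fac u τ (ξ j) =
      ∏ j, (fac u σ (ξ j) / (if ξ j = true then u else 1) * fac u τ (ξ j)) := by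
    intro ξ
    unfold wt
    rw [← Finset.prod_div_distrib, ← Finset.prod_mul_distrib]
  simp only [h1]
  have h2 := (Finset.prod_univ_sum (fun _ : Fin n => (univ : Finset Bool))
    (fun _ b => fac u σ b / (if b = true then u else 1) * fac u τ b))
  rw [Fintype.piFinset_univ] at h2
  rw [← h2]
  simp only [Fintype.sum_bool, Finset.prod_const, Finset.card_univ, Fintype.card_fin, if_true,
    Bool.false_eq_true, if_false]
  have h3 : fac u σ true / u * fac u τ true + fac u σ false / 1 * fac u τ false =
      (1 + u) * (u * σ * τ + 1) := by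
    simp only [fac, if_true, Bool.false_eq_true, if_false]
    field_simp
    ring
  rw [h3, mul_pow, add_pow (u * σ * τ) 1 n, Finset.mul_sum]
  refine Finset.sum_congr rfl fun k _ => ?_
  rw [one_pow, mul_one, mul_pow (u * σ) τ]
  ring

/-- DHL TASK CubeEn, part 2. The energy of the flow.
PROOF. `(∫ ∏ fac u σ (ξ j))² = ∫∫ ∏ j, fac u σ (ξ j) * fac u τ (ξ j)`. Sum over `ξ` (finite sum
under the integrals) with the weight `(wt u ξ)⁻¹ = ∏ j, (if ξ j then u⁻¹ else 1)`:
`∑ ξ, ∏ j, fac u σ (ξ j) * fac u τ (ξ j) * (if ξ j then u⁻¹ else 1)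
  = ∏ j : Fin n, ∑ b : Bool, ...` (`Fintype.prod_sum` / `Finset.prod_univ_sum`)
  `= (u (1-σ)(1-τ) + (1+uσ)(1+uτ))^n = ((1+u)(1+uστ))^n`.
Then `∫∫ (1+uστ)^n = ∑ k, C(n,k) u^k ∫σ^k ∫τ^k = ∑ k, C(n,k) u^k/(k+1)² = SS n u` (`add_pow`,
`integral_pow`). -/
lemma fl_energy {u : ℝ} (hu : 0 < u) {n : ℕ} :
    ∑ ξ : Fin n → Bool, fl u ξ ^ 2 / wt u ξ = (u / KK n u) ^ 2 * (1 + u) ^ n * SS n u := by
  have hcP : ∀ ξ : Fin n → Bool, Continuous fun σ : ℝ => ∏ j, fac u σ (ξ j) := fun ξ =>
    continuous_finsetProd _ fun j _ => CubeEn_cont u _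
  set I : (Fin n → Bool) → ℝ := fun ξ => ∫ σ in (0 : ℝ)..1, ∏ j, fac u σ (ξ j) with hI
  have hin : ∀ σ : ℝ, ∑ ξ : Fin n → Bool, (∏ j, fac u σ (ξ j)) / wt u ξ * I ξ =
      ∑ k ∈ range (n + 1), ((1 + u) ^ n * ((n.choose k : ℝ) * u ^ k) / ((k : ℝ) + 1)) * σ ^ k := by
    intro σ
    have h1 : ∑ ξ : Fin n → Bool, (∏ j, fac u σ (ξ j)) / wt u ξ * I ξ =
        ∫ τ in (0 : ℝ)..1, ∑ ξ : Fin n → Bool,
          (∏ j, fac u σ (ξ j)) / wt u ξ * ∏ j, fac u τ (ξ j) := by
      have hc2 : ∀ ξ : Fin n → Bool, Continuous fun τ : ℝ =>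
          (∏ j, fac u σ (ξ j)) / wt u ξ * ∏ j, fac u τ (ξ j) := fun ξ =>
        continuous_const.mul (hcP ξ)
      rw [intervalIntegral.integral_finsetSum (fun ξ _ => (hc2 ξ).intervalIntegrable 0 1)]
      refine Finset.sum_congr rfl fun ξ _ => ?_
      rw [intervalIntegral.integral_const_mul]
    rw [h1]
    simp only [CubeEn_sum hu]
    rw [CubeEn_poly]
    refine Finset.sum_congr rfl fun k _ => ?_
    rw [mul_pow]
    ring
  have hout : ∑ ξ : Fin n → Bool, I ξ / wt u ξ * I ξ =
      ∑ k ∈ range (n + 1), ((1 + u) ^ n * ((n.choose k : ℝ) * u ^ k) / ((k : ℝ) + 1)) /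
        ((k : ℝ) + 1) := by
    have h1 : ∑ ξ : Fin n → Bool, I ξ / wt u ξ * I ξ = ∫ σ in (0 : ℝ)..1,
        ∑ ξ : Fin n → Bool, (∏ j, fac u σ (ξ j)) / wt u ξ * I ξ := by
      have hc2 : ∀ ξ : Fin n → Bool, Continuous fun σ : ℝ =>
          (∏ j, fac u σ (ξ j)) / wt u ξ * I ξ := fun ξ =>
        ((hcP ξ).div_const _).mul continuous_const
      rw [intervalIntegral.integral_finsetSum (fun ξ _ => (hc2 ξ).intervalIntegrable 0 1)]
      refine Finset.sum_congr rfl fun ξ _ => ?_
      rw [intervalIntegral.integral_mul_const, intervalIntegral.integral_div]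
    rw [h1]
    simp only [hin]
    rw [CubeEn_poly]
  have hL : ∑ ξ : Fin n → Bool, fl u ξ ^ 2 / wt u ξ =
      (u / KK n u) ^ 2 * ∑ ξ : Fin n → Bool, I ξ / wt u ξ * I ξ := by
    rw [Finset.mul_sum]
    refine Finset.sum_congr rfl fun ξ _ => ?_
    show (u / KK n u * I ξ) ^ 2 / wt u ξ = _
    ring
  rw [hL, hout, mul_assoc]
  congr 1
  unfold SS
  rw [Finset.mul_sum]
  refine Finset.sum_congr rfl fun k _ => ?_
  rw [div_div, ← pow_two]
  ring

end Pool.Agent.FKH
end

section

/-! The optimal inequality on the cube with modified conductances at the origin. -/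

open Finset

namespace Pool.Agent.FKH

/-- Thomson's principle for a flow on the cube which is the same in all directions. -/
lemma cube_thomson {n : ℕ} {ψ cd : (Fin n → Bool) → ℝ} {κ : (Fin (n + 1) → Bool) → ℝ}
    (hκ : ∀ c, ∑ e, (if c e = true then ψ (fun j => c (e.succAbove j))
      else - ψ (fun j => c (e.succAbove j))) = κ c) (hcd : ∀ ξ, 0 < cd ξ)
    (g : (Fin (n + 1) → Bool) → ℝ) :
    (∑ c, κ c * g c) ^ 2 ≤ (((n : ℝ) + 1) * ∑ ξ, ψ ξ ^ 2 / cd ξ) *
      ∑ e : Fin (n + 1), ∑ ξ, cd ξ *
        (g (Fin.insertNth e true ξ) - g (Fin.insertNth e false ξ)) ^ 2 := by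
  have h1 : ∑ c, κ c * g c = ∑ x : Fin (n + 1) × (Fin n → Bool),
      ψ x.2 * (g (Fin.insertNth x.1 true x.2) - g (Fin.insertNth x.1 false x.2)) := by
    have h2 : ∀ c, κ c * g c = ∑ e, (if c e = true then ψ (fun j => c (e.succAbove j))
        else - ψ (fun j => c (e.succAbove j))) * g c := by
      intro c
      rw [← hκ c, sum_mul]
    simp only [h2]
    rw [sum_comm, Fintype.sum_prod_type]
    refine sum_congr rfl fun e _ => ?_
    rw [sum_ins e, Fintype.sum_bool, ← sum_add_distrib]
    refine sum_congr rfl fun ξ _ => ?_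
    simp only [Fin.insertNth_apply_same, Fin.insertNth_apply_succAbove]
    simp
    ring
  rw [h1]
  have h3 := sum_sq_le_sum_mul_sum_of_sq_le_mul (univ : Finset (Fin (n + 1) × (Fin n → Bool)))
    (r := fun x => ψ x.2 *
      (g (Fin.insertNth x.1 true x.2) - g (Fin.insertNth x.1 false x.2)))
    (f := fun x => ψ x.2 ^ 2 / cd x.2)
    (g := fun x => cd x.2 *
      (g (Fin.insertNth x.1 true x.2) - g (Fin.insertNth x.1 false x.2)) ^ 2)
    (fun x _ => by have := hcd x.2; positivity)
    (fun x _ => mul_nonneg (hcd _).le (sq_nonneg _))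
    (fun x _ => by
      have := hcd x.2
      rw [le_iff_eq_or_lt]
      left
      field_simp)
  refine h3.trans (le_of_eq ?_)
  rw [Fintype.sum_prod_type, Fintype.sum_prod_type]
  congr 1
  simp

/-- The conductances: `Xb` belongs to the edges at the origin, `Xa` to the others. -/
noncomputable def cdn (u lam Xa Xb : ℝ) {n : ℕ} (ξ : Fin n → Bool) : ℝ :=
  if ξ = (fun _ => false) then Xb⁻¹ * par (lam * u) 1
  else Xa⁻¹ * par (lam * (u * wt u ξ)) (lam * wt u ξ)

lemma wt_zero (u : ℝ) (n : ℕ) : wt u (fun _ : Fin n => false) = 1 := by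
  simp [wt]

theorem cube_ineq {n : ℕ} {u lam Xa Xb : ℝ} (hu : 0 < u) (hl : 0 < lam) (ha : 0 < Xa)
    (hb : 0 < Xb) (g : (Fin (n + 1) → Bool) → ℝ) :
    par 1 (lam * KK n u) *
      (∑ c, (if c = (fun _ => false) then -1 else wt u c / KK n u) * g c) ^ 2 ≤
      ((1 + KK n u) / (1 + lam * KK n u) * ((dd n u - aa n u) * Xa +
        aa n u * (1 + lam * u) / (1 + u) * Xb)) *
      ∑ e : Fin (n + 1), ∑ ξ, cdn u lam Xa Xb ξ *
        (g (Fin.insertNth e true ξ) - g (Fin.insertNth e false ξ)) ^ 2 := by
  have hK : 0 < KK n u := KK_pos hu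
  have hcd : ∀ ξ : Fin n → Bool, 0 < cdn u lam Xa Xb ξ := by
    intro ξ
    unfold cdn
    have := wt_pos hu ξ
    split_ifs
    · exact mul_pos (inv_pos.mpr hb) (par_pos (by positivity) one_pos)
    · exact mul_pos (inv_pos.mpr ha) (par_pos (by positivity) (by positivity))
  have h1 := cube_thomson (fun c => fl_div hu c) hcd g
  have hE : ((n : ℝ) + 1) * ∑ ξ : Fin n → Bool, fl u ξ ^ 2 / cdn u lam Xa Xb ξ =
      ((n : ℝ) + 1) * (Xa * (1 + u) / (lam * u) * ((u / KK n u) ^ 2 * (1 + u) ^ n * SS n u) +
        (1 / ((n : ℝ) + 1)) ^ 2 * (Xb * (1 + lam * u) / (lam * u) -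
          Xa * (1 + u) / (lam * u))) := by
    congr 1
    have h2 : ∀ ξ : Fin n → Bool, fl u ξ ^ 2 / cdn u lam Xa Xb ξ =
        Xa * (1 + u) / (lam * u) * (fl u ξ ^ 2 / wt u ξ) +
          if ξ = (fun _ => false) then (1 / ((n : ℝ) + 1)) ^ 2 *
            (Xb * (1 + lam * u) / (lam * u) - Xa * (1 + u) / (lam * u)) else 0 := by
      intro ξ
      have hw := wt_pos hu ξ
      unfold cdn par
      split_ifs with h
      · rw [h, fl_zero hu, wt_zero]
        field_simp
        ring
      · field_simp
        ring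
    simp only [h2]
    rw [sum_add_distrib, ← mul_sum, fl_energy hu, sum_ite_eq']
    simp
  rw [hE] at h1
  have hP : 0 < par 1 (lam * KK n u) := par_pos one_pos (by positivity)
  refine (mul_le_mul_of_nonneg_left h1 hP.le).trans (le_of_eq ?_)
  rw [← mul_assoc]
  congr 1
  have hpow : (1 + u) ^ n * (1 + u) = 1 + KK n u := by
    unfold KK
    ring
  have hpow' : (1 + u) ^ n = (1 + KK n u) / (1 + u) := by
    rw [← hpow]
    field_simp
  rw [hpow']
  unfold par dd aa
  set K := KK n u
  have h3 : 0 < 1 + K := by positivity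
  have h4 : 0 < 1 + lam * K := by positivity
  field_simp
  ring

end Pool.Agent.FKH
end

section

/-! The crossing bit and the cluster weight of chains and bundles. -/

open Finset

namespace Pool.Agent.FKH

/-- DHL TASK Nets1, part 1: a bundle is crossed iff one of its edges is open.
PROOF. `Net.bit_eq_true`, `Net.Crossed`, `Net.reachable_iff` (connected iff all compatible
two-colourings agree; `Net.Compat G ω σ : ∀ e, ω e = true → σ (G.ends e).1 = σ (G.ends e).2`).
Compare `FKH.bit_zero` in `FKH/Level.lean`. -/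
lemma bundle_bit (r : ℕ) (c : Fin r → Bool) :
    (bundle r).bit c = true ↔ ∃ e, c e = true := by
  rw [Net.bit_eq_true, Net.Crossed, Net.reachable_iff]
  constructor
  · intro h
    by_contra hc
    have h1 := h (fun v => match v with
      | Sum.inl b => b
      | Sum.inr _ => true) (by
        intro e he
        exact absurd ⟨e, he⟩ hc)
    simp at h1
  · rintro ⟨e, he⟩ σ hσ
    exact hσ e he

/-- DHL TASK Nets1, part 2: all configurations of a bundle have the same cluster weight.
PROOF. The network has no interior vertices, so there is exactly one compatible colouring with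
both terminals `true`: `Net.cnt G ω true true = 1` and `Net.cnt_eq` gives
`numComp + bit = 2`. Copy the proof of `FKH.numComp_zero` in `FKH/Level.lean`. `Net.wb` is
`q ^ (numComp + bit.toNat) / q ^ 2`. -/
lemma bundle_wb (r : ℕ) {q : ℝ} (hq : 0 < q) (c : Fin r → Bool) : (bundle r).wb q c = 1 := by
  have h1 := Net.cnt_eq (bundle r) c true true
  have h2 : (bundle r).cnt c true true = 1 := by
    rw [Net.cnt, Net.cntAt, Nat.card_eq_one_iff_unique]
    constructor
    · constructor
      rintro ⟨σ, h1, h2, h3⟩ ⟨τ, h4, h5, h6⟩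
      apply Subtype.ext
      funext v
      rcases v with (b | i)
      · cases b
        · simp only [h2, h5]
        · simp only [h3, h6]
      · exact i.elim
    · exact ⟨⟨fun _ => true, fun _ _ => rfl, rfl, rfl⟩⟩
  rw [h2, if_pos (fun _ => rfl), mul_one, mul_one] at h1
  have h3 : (2 : ℕ) ^ 2 = 2 ^ ((bundle r).numComp c + ((bundle r).bit c).toNat) := by
    rw [← h1]
    norm_num
  have h4 : (bundle r).numComp c + ((bundle r).bit c).toNat = 2 :=
    (Nat.pow_right_injective le_rfl h3).symm
  unfold Net.wb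
  rw [h4]
  exact div_self (pow_pos hq 2).ne'

end Pool.Agent.FKH
end

section

/-! The constants of bundles and chains. -/

namespace Pool.Agent.FKH

/-- The constants of a bundle of `n + 1` parallel blocks of odds `u`. -/
noncomputable def parX (q : ℝ) (n : ℕ) (u : ℝ) (X : Bool → ℝ) : Bool → ℝ
  | true => dd n u * X true
  | false => (1 + KK n u) / (q + KK n u) *
      (q * (dd n u - aa n u) * X true + aa n u * (q + u) / (1 + u) * X false)

/-- The constants of a chain of `m + 1` blocks in series, `v = q / (odds of the blocks)`. -/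
noncomputable def serX (q : ℝ) (m : ℕ) (v : ℝ) (X : Bool → ℝ) : Bool → ℝ
  | true => (1 + KK m v) / (q + KK m v) *
      (q * (dd m v - aa m v) * X false + aa m v * (q + v) / (1 + v) * X true)
  | false => dd m v * X false

end Pool.Agent.FKH
end

section

/-! The induction step for parallel blocks. -/

open Finset

namespace Pool.Agent.FKH

lemma bundle_bit' (r : ℕ) (c : Fin r → Bool) :
    (bundle r).bit c = !(decide (c = fun _ => false)) := by
  cases h : (bundle r).bit c
  · have h1 : ¬ ∃ e, c e = true := by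
      rw [← bundle_bit, h]
      simp
    push Not at h1
    have h2 : c = fun _ => false := by
      funext e
      simpa using h1 e
    simp [h2]
  · have h1 := (bundle_bit r c).mp h
    obtain ⟨e, he⟩ := h1
    have h2 : ¬ c = fun _ => false := by
      intro h3
      rw [h3] at he
      simp at he
    simp [h2]

lemma wt_ins (u : ℝ) {n : ℕ} (e : Fin (n + 1)) (b : Bool) (ξ : Fin n → Bool) :
    wt u (Fin.insertNth e b ξ : Fin (n + 1) → Bool) = (if b = true then u else 1) * wt u ξ := by
  unfold wt
  exact prod_ins e (fun _ x => if x = true then u else 1) b ξ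

lemma ins_eq_const {n : ℕ} (e : Fin (n + 1)) (b a : Bool) (ξ : Fin n → Bool) :
    (Fin.insertNth e b ξ : Fin (n + 1) → Bool) = (fun _ => a) ↔ b = a ∧ ξ = fun _ => a := by
  constructor
  · intro h
    refine ⟨by simpa using congrFun h e, ?_⟩
    funext j
    simpa using congrFun h (e.succAbove j)
  · rintro ⟨rfl, rfl⟩
    funext j
    refine Fin.succAboveCases e ?_ ?_ j <;> simp

/-- The sum of the weights. -/
lemma sum_wt (u : ℝ) (m : ℕ) : ∑ c : Fin m → Bool, wt u c = (1 + u) ^ m := by
  unfold wt
  rw [← Fintype.prod_sum fun (_ : Fin m) (b : Bool) => if b = true then u else 1]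
  simp [add_comm]

section

variable {J F : Type} [Finite J] [Fintype F] [DecidableEq F]

lemma wt_scale (u : ℝ) (A : Bool → ℝ) (hA : A true = u * A false) {m : ℕ} (c : Fin m → Bool) :
    ∏ j, A (c j) = A false ^ m * wt u c := by
  unfold wt
  have h1 : A false ^ m = ∏ _j : Fin m, A false := by simp
  rw [h1, ← prod_mul_distrib]
  refine prod_congr rfl fun j _ => ?_
  cases c j
  · simp
  · simp [hA, mul_comm]

lemma bundle_aval (n : ℕ) (u a : ℝ) (b : Bool) :
    aval (fun c : Fin (n + 1) → Bool => a * wt u c) (bundle (n + 1)).bit b =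
      a * (if b = true then KK n u else 1) := by
  have h0 : ∀ c : Fin (n + 1) → Bool, (bundle (n + 1)).bit c = !(decide (c = fun _ => false)) :=
    bundle_bit' (n + 1)
  unfold aval
  have h1 : ∑ c : Fin (n + 1) → Bool,
      (if (bundle (n + 1)).bit c = false then a * wt u c else 0) = a := by
    have : ∀ c : Fin (n + 1) → Bool, (if (bundle (n + 1)).bit c = false then a * wt u c else 0) =
        if c = (fun _ => false) then a else 0 := by
      intro c
      rw [h0]
      by_cases hc : c = fun _ => false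
      · simp [hc, wt_zero]
      · simp [hc]
    simp only [this]
    rw [sum_ite_eq']
    simp
  cases b
  · rw [h1]
    simp
  · have h2 : ∑ c : Fin (n + 1) → Bool,
        ((if (bundle (n + 1)).bit c = true then a * wt u c else 0) +
          if (bundle (n + 1)).bit c = false then a * wt u c else 0) = a * (1 + u) ^ (n + 1) := by
      rw [← sum_wt, mul_sum]
      refine sum_congr rfl fun c _ => ?_
      cases (bundle (n + 1)).bit c <;> simp
    rw [sum_add_distrib, h1] at h2
    simp only [if_true]
    unfold KK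
    linarith

/-- Parallel composition: the odds. -/
lemma par_odds (G : Net J F) {p q u : ℝ} (hq : 0 < q) (hu : 0 < u) (n : ℕ)
    (hA : 0 < aval (G.uw p q) G.bit false)
    (hAu : aval (G.uw p q) G.bit true = u * aval (G.uw p q) G.bit false) (b : Bool) :
    aval (((bundle (n + 1)).subst G).uw p q) ((bundle (n + 1)).subst G).bit b =
      aval (G.uw p q) G.bit false ^ (n + 1) * (if b = true then KK n u else 1) := by
  have hA0 : ∀ b, 0 < aval (G.uw p q) G.bit b := by
    intro b
    cases b
    · exact hA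
    · rw [hAu]
      positivity
  rw [aval_subst (bundle (n + 1)) G p hq hA0]
  rw [← bundle_aval n u]
  unfold aval
  refine sum_congr rfl fun c _ => ?_
  have h1 := wt_scale u (aval (G.uw p q) G.bit) hAu c
  unfold aval at h1
  rw [h1, bundle_wb _ hq, one_mul]

/-- Parallel composition: the constants. -/
lemma par_BH2 (G : Net J F) {p q u : ℝ} (hp0 : 0 < p) (hp1 : p < 1) (hq : 0 < q) (hu : 0 < u)
    (n : ℕ) (hA : 0 < aval (G.uw p q) G.bit false)
    (hAu : aval (G.uw p q) G.bit true = u * aval (G.uw p q) G.bit false) {X : Bool → ℝ}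
    (hX : ∀ τ, 0 < X τ) (hG : BH2 q X (G.uw p q) G.bit (aval (G.uw p q) G.bit)) :
    BH2 q (parX q n u X) (((bundle (n + 1)).subst G).uw p q) ((bundle (n + 1)).subst G).bit
      (aval (((bundle (n + 1)).subst G).uw p q) ((bundle (n + 1)).subst G).bit) := by
  intro τ h
  set A := aval (G.uw p q) G.bit with hAdef
  have hA0 : ∀ b, 0 < A b := by
    intro b
    cases b
    · exact hA
    · rw [hAu]
      positivity
  set H := bundle (n + 1) with hH
  set ρ := rho q τ with hρ
  have hρ0 : 0 < ρ := rho_pos hq τ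
  set a := A false ^ (n + 1) with ha
  have ha0 : 0 < a := pow_pos hA _
  have hK : 0 < KK n u := KK_pos hu
  set g := cond (G.uw p q) G.bit A h with hg
  have hwb : ∀ c, H.wb q c = 1 := fun c => bundle_wb _ hq c
  have hbit : ∀ c, H.bit c = !(decide (c = fun _ => false)) := fun c => bundle_bit' _ c
  have hav : ∀ b, aval (fun c => a * wt u c) H.bit b = a * (if b = true then KK n u else 1) :=
    bundle_aval n u a
  have hV : (fun c => H.wb q c * ∏ j, A (c j)) = fun c => a * wt u c := by
    funext c
    rw [hwb, one_mul, wt_scale u A hAu c]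
  have hA' : ∀ b, aval ((H.subst G).uw p q) (H.subst G).bit b =
      a * (if b = true then KK n u else 1) := fun b => par_odds G hq hu n hA hAu b
  have hA'' : aval ((H.subst G).uw p q) (H.subst G).bit =
      aval (fun c => a * wt u c) H.bit := by
    funext b
    rw [hA', hav]
  -- the jump
  have hj : jump ((H.subst G).uw p q) (H.subst G).bit
      (aval ((H.subst G).uw p q) (H.subst G).bit) h =
      ∑ c : Fin (n + 1) → Bool,
        (if c = (fun _ => false) then -1 else wt u c / KK n u) * g c := by
    rw [jump_subst H G p hq hA0, ← hg, hV, hA'']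
    unfold jump
    refine sum_congr rfl fun c _ => ?_
    congr 1
    simp only [kern, hav, hbit]
    by_cases hc : c = fun _ => false
    · simp [hc, wt_zero, ha0.ne']
    · simp [hc]
      field_simp
  -- the cube inequality
  have h1 := cube_ineq (n := n) hu hρ0 (hX true) (hX τ) g
  -- the block inequality
  have h2 := block_ineq2 (n := n) (u := G.uw p q) (γ := G.bit) (A := A)
    (fun _ => rfl) hA0 (fun z => Net.uw_pos G hp0 hp1 hq z) hX hG
    (fun c => H.wb q c * if H.bit c = true then ρ else 1)
    (fun c => mul_pos (Net.wb_pos H hq c) (by split_ifs <;> positivity))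
    (fun e ξ => if ξ = (fun _ => false) then τ else true)
    (by
      intro e ξ
      simp only [hwb, hbit, one_mul, ins_eq_const]
      by_cases hξ : ξ = fun _ => false
      · simp [hξ, ← hρ]
      · simp [hξ, rho]) h
  have h3 : ∀ (e : Fin (n + 1)) (ξ : Fin n → Bool),
      (X (if ξ = (fun _ => false) then τ else true))⁻¹ *
        (par ((fun c => (H.wb q c * if H.bit c = true then ρ else 1) * ∏ j, A (c j))
          (Fin.insertNth e true ξ))
        ((fun c => (H.wb q c * if H.bit c = true then ρ else 1) * ∏ j, A (c j))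
          (Fin.insertNth e false ξ)) *
        (g (Fin.insertNth e true ξ) - g (Fin.insertNth e false ξ)) ^ 2) =
      a * (cdn u ρ (X true) (X τ) ξ *
        (g (Fin.insertNth e true ξ) - g (Fin.insertNth e false ξ)) ^ 2) := by
    intro e ξ
    simp only [hwb, hbit, one_mul, wt_scale u A hAu, ← ha, ins_eq_const, wt_ins]
    unfold cdn
    by_cases hξ : ξ = fun _ => false
    · simp only [hξ, wt_zero]
      simp
      rw [show ρ * (a * u) = a * (ρ * u) by ring, show (a : ℝ) = a * 1 by ring]
      rw [show a * 1 * (ρ * u) = a * (ρ * u) by ring, par_mul ha0.ne']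
      ring
    · simp [hξ]
      rw [show ρ * (a * (u * wt u ξ)) = a * (ρ * (u * wt u ξ)) by ring,
        show ρ * (a * wt u ξ) = a * (ρ * wt u ξ) by ring, par_mul ha0.ne']
      ring
  have h4 : a * ∑ e : Fin (n + 1), ∑ ξ, cdn u ρ (X true) (X τ) ξ *
        (g (Fin.insertNth e true ξ) - g (Fin.insertNth e false ξ)) ^ 2 ≤
      dir (fun z => (H.subst G).uw p q z * if (H.subst G).bit z = true then ρ else 1) h := by
    have h5 : (fun ω : Fin (n + 1) × F → Bool =>
        H.wb q (fun j => G.bit fun f => ω (j, f)) *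
          (if H.bit (fun j => G.bit fun f => ω (j, f)) = true then ρ else 1) *
          ∏ j, G.uw p q fun f => ω (j, f)) =
        fun ω => (H.subst G).uw p q ω * if (H.subst G).bit ω = true then ρ else 1 := by
      funext ω
      rw [Net.uw_subst H G p hq, Net.bit_subst]
      have hb : G.bits ω = fun j => G.bit fun f => ω (j, f) := rfl
      rw [hb]
      ring
    rw [h5] at h2
    refine le_trans (le_of_eq ?_) h2
    rw [mul_sum]
    refine sum_congr rfl fun e _ => ?_
    rw [mul_sum]
    refine sum_congr rfl fun ξ _ => ?_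
    exact (h3 e ξ).symm
  have hpar : par (aval ((H.subst G).uw p q) (H.subst G).bit false)
      (ρ * aval ((H.subst G).uw p q) (H.subst G).bit true) = a * par 1 (ρ * KK n u) := by
    rw [hA', hA']
    simp only [if_true, Bool.false_eq_true, if_false]
    rw [← par_mul ha0.ne']
    congr 1
    ring
  have hcoef : (1 + KK n u) / (1 + ρ * KK n u) * ((dd n u - aa n u) * X true +
      aa n u * (1 + ρ * u) / (1 + u) * X τ) = parX q n u X τ := by
    cases τ
    · simp only [hρ, rho, parX, Bool.false_eq_true, if_false]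
      have h5 : 0 < 1 + q⁻¹ * KK n u := by positivity
      have h6 : 0 < q + KK n u := by positivity
      have h7 : 1 + q⁻¹ * KK n u = (q + KK n u) / q := by
        field_simp
      have h8 : 1 + q⁻¹ * u = (q + u) / q := by
        field_simp
      rw [h7, h8]
      field_simp
    · simp only [hρ, rho, parX, if_true]
      have h5 : 0 < 1 + KK n u := by positivity
      have h6 : 0 < 1 + u := by positivity
      field_simp
      ring
  have hcn : 0 ≤ parX q n u X τ := by
    by_contra hneg
    push Not at hneg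
    -- test function: a contradiction is not needed, see below
    have h6 : 0 < par 1 (ρ * KK n u) := par_pos one_pos (by positivity)
    have h7 := h1
    rw [hcoef] at h7
    have h8 := cube_ineq (n := n) hu hρ0 (hX true) (hX τ)
      (fun c => if c = (fun _ => false) then -1 else 0)
    rw [hcoef] at h8
    have h9 : ∑ c : Fin (n + 1) → Bool, (if c = (fun _ => false) then -1 else wt u c / KK n u) *
        (if c = (fun _ => false) then (-1 : ℝ) else 0) = 1 := by
      have : ∀ c : Fin (n + 1) → Bool, (if c = (fun _ => false) then -1 else wt u c / KK n u) *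
        (if c = (fun _ => false) then (-1 : ℝ) else 0) =
          if c = (fun _ => false) then 1 else 0 := by
        intro c
        split_ifs <;> simp
      simp only [this]
      rw [sum_ite_eq']
      simp
    rw [h9] at h8
    have h10 : 0 ≤ ∑ e : Fin (n + 1), ∑ ξ : Fin n → Bool, cdn u ρ (X true) (X τ) ξ *
        ((fun c : Fin (n + 1) → Bool => if c = (fun _ => false) then (-1 : ℝ) else 0)
          (Fin.insertNth e true ξ) -
        (fun c : Fin (n + 1) → Bool => if c = (fun _ => false) then (-1 : ℝ) else 0)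
          (Fin.insertNth e false ξ)) ^ 2 := by
      refine sum_nonneg fun e _ => sum_nonneg fun ξ _ => mul_nonneg ?_ (sq_nonneg _)
      unfold cdn
      have := wt_pos hu ξ
      have hXt := hX true
      have hXτ := hX τ
      split_ifs
      · exact mul_nonneg (inv_pos.mpr hXτ).le (par_nonneg (by positivity) zero_le_one)
      · exact mul_nonneg (inv_pos.mpr hXt).le (par_nonneg (by positivity) (by positivity))
    nlinarith
  rw [hpar, hj]
  calc a * par 1 (ρ * KK n u) * (∑ c : Fin (n + 1) → Bool,
        (if c = (fun _ => false) then -1 else wt u c / KK n u) * g c) ^ 2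
      = a * (par 1 (ρ * KK n u) * (∑ c : Fin (n + 1) → Bool,
        (if c = (fun _ => false) then -1 else wt u c / KK n u) * g c) ^ 2) := by ring
    _ ≤ a * (parX q n u X τ * ∑ e : Fin (n + 1), ∑ ξ, cdn u ρ (X true) (X τ) ξ *
        (g (Fin.insertNth e true ξ) - g (Fin.insertNth e false ξ)) ^ 2) := by
          rw [hcoef] at h1
          exact mul_le_mul_of_nonneg_left h1 ha0.le
    _ = parX q n u X τ * (a * ∑ e : Fin (n + 1), ∑ ξ, cdn u ρ (X true) (X τ) ξ *
        (g (Fin.insertNth e true ξ) - g (Fin.insertNth e false ξ)) ^ 2) := by ring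
    _ ≤ _ := mul_le_mul_of_nonneg_left h4 hcn

end

end Pool.Agent.FKH
end

section

/-! The induction step for blocks in series. -/

open Finset

namespace Pool.Agent.FKH

/-- The complement of a configuration. -/
def flp {m : ℕ} (c : Fin m → Bool) : Fin m → Bool := fun j => !(c j)

lemma flp_flp {m : ℕ} (c : Fin m → Bool) : flp (flp c) = c := by
  funext j
  simp [flp]

/-- The complement as an equivalence. -/
def flpE (m : ℕ) : (Fin m → Bool) ≃ (Fin m → Bool) :=
  ⟨flp, flp, flp_flp, flp_flp⟩

lemma flp_eq {m : ℕ} (c : Fin m → Bool) (a : Bool) :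
    flp c = (fun _ => a) ↔ c = fun _ => !a := by
  constructor
  · intro h
    rw [← flp_flp c, h]
    rfl
  · intro h
    rw [h]
    funext j
    simp [flp]

lemma flp_ins {n : ℕ} (e : Fin (n + 1)) (b : Bool) (ξ : Fin n → Bool) :
    flp (Fin.insertNth e b ξ : Fin (n + 1) → Bool) = Fin.insertNth e (!b) (flp ξ) := by
  funext j
  refine Fin.succAboveCases e ?_ ?_ j
  · simp [flp]
  · intro i
    simp [flp]

lemma chain_bit' {m : ℕ} (c : Fin (m + 1) → Bool) :
    (chain (m + 1)).bit c = decide (c = fun _ => true) := by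
  have h1 := chain_bit (b := m + 1) (by omega) c
  by_cases hc : c = fun _ => true
  · rw [h1.mpr (by simp [hc])]
    simp [hc]
  · have h2 : (chain (m + 1)).bit c = false := by
      rw [← Bool.not_eq_true, h1]
      intro h
      exact hc (funext h)
    rw [h2]
    simp [hc]

/-- The weights of a chain. -/
lemma chain_scale {m : ℕ} {q v : ℝ} (hq : 0 < q) (A : Bool → ℝ)
    (hA : v * A true = q * A false) (c : Fin (m + 1) → Bool) :
    (chain (m + 1)).wb q c * ∏ j, A (c j) =
      A true ^ (m + 1) * (if c = (fun _ => true) then 1 else q⁻¹ * wt v (flp c)) := by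
  rw [chain_wb (b := m + 1) (by omega) hq]
  split_ifs with h
  · rw [h]
    simp
  · have h1 : (∏ j, (if c j = true then (1 : ℝ) else q)) * ∏ j, A (c j) =
        A true ^ (m + 1) * wt v (flp c) := by
      unfold wt flp
      have h2 : A true ^ (m + 1) = ∏ _j : Fin (m + 1), A true := by simp
      rw [h2, ← prod_mul_distrib, ← prod_mul_distrib]
      refine prod_congr rfl fun j _ => ?_
      cases c j
      · simp only [Bool.false_eq_true, if_false, Bool.not_false, if_true]
        linarith
      · simp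
    calc _ = q⁻¹ * ((∏ j, (if c j = true then (1 : ℝ) else q)) * ∏ j, A (c j)) := by ring
      _ = _ := by rw [h1]; ring

lemma chain_aval (m : ℕ) (q v a : ℝ) (b : Bool) :
    aval (fun c : Fin (m + 1) → Bool => a * (if c = (fun _ => true) then 1
      else q⁻¹ * wt v (flp c))) (chain (m + 1)).bit b =
      a * (if b = true then 1 else q⁻¹ * KK m v) := by
  unfold aval
  have h1 : ∑ c : Fin (m + 1) → Bool, (if (chain (m + 1)).bit c = true then
      a * (if c = (fun _ => true) then 1 else q⁻¹ * wt v (flp c)) else 0) = a := by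
    have : ∀ c : Fin (m + 1) → Bool, (if (chain (m + 1)).bit c = true then
      a * (if c = (fun _ => true) then 1 else q⁻¹ * wt v (flp c)) else 0) =
        if c = (fun _ => true) then a else 0 := by
      intro c
      rw [chain_bit']
      by_cases hc : c = fun _ => true
      · simp [hc]
      · simp [hc]
    simp only [this]
    rw [sum_ite_eq']
    simp
  cases b
  · have h2 : ∑ c : Fin (m + 1) → Bool, (if (chain (m + 1)).bit c = false then
        a * (if c = (fun _ => true) then 1 else q⁻¹ * wt v (flp c)) else 0) =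
        ∑ c : Fin (m + 1) → Bool, (a * q⁻¹ * wt v (flp c) -
          if c = (fun _ => true) then a * q⁻¹ else 0) := by
      refine sum_congr rfl fun c _ => ?_
      rw [chain_bit']
      by_cases hc : c = fun _ => true
      · have h3 : flp c = fun _ => false := by rw [flp_eq]; simpa using hc
        simp [hc]
        have h4 : flp (fun _ : Fin (m + 1) => true) = fun _ => false := by
          rw [← hc]; exact h3
        rw [h4, wt_zero]
        ring
      · simp [hc]
        ring
    rw [h2, sum_sub_distrib, sum_ite_eq', ← mul_sum]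
    have h3 : ∑ c : Fin (m + 1) → Bool, wt v (flp c) = (1 + v) ^ (m + 1) := by
      rw [← sum_wt]
      exact (flpE (m + 1)).sum_comp (fun c => wt v c)
    rw [h3]
    simp only [mem_univ, if_true, Bool.false_eq_true, if_false]
    unfold KK
    ring
  · rw [h1]
    simp

section

variable {J F : Type} [Finite J] [Fintype F] [DecidableEq F]

/-- Series composition: the masses. -/
lemma ser_odds (G : Net J F) {p q v : ℝ} (hq : 0 < q) (m : ℕ)
    (hA0 : ∀ b, 0 < aval (G.uw p q) G.bit b)
    (hAv : v * aval (G.uw p q) G.bit true = q * aval (G.uw p q) G.bit false) (b : Bool) :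
    aval (((chain (m + 1)).subst G).uw p q) ((chain (m + 1)).subst G).bit b =
      aval (G.uw p q) G.bit true ^ (m + 1) * (if b = true then 1 else q⁻¹ * KK m v) := by
  rw [aval_subst (chain (m + 1)) G p hq hA0]
  rw [← chain_aval m q v]
  unfold aval
  refine sum_congr rfl fun c _ => ?_
  have h1 := chain_scale hq (aval (G.uw p q) G.bit) hAv c
  unfold aval at h1
  rw [h1]

/-- Series composition: the constants. -/
lemma ser_BH2 (G : Net J F) {p q v : ℝ} (hp0 : 0 < p) (hp1 : p < 1) (hq : 0 < q) (hv : 0 < v)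
    (m : ℕ) (hA0 : ∀ b, 0 < aval (G.uw p q) G.bit b)
    (hAv : v * aval (G.uw p q) G.bit true = q * aval (G.uw p q) G.bit false) {X : Bool → ℝ}
    (hX : ∀ τ, 0 < X τ) (hG : BH2 q X (G.uw p q) G.bit (aval (G.uw p q) G.bit)) :
    BH2 q (serX q m v X) (((chain (m + 1)).subst G).uw p q) ((chain (m + 1)).subst G).bit
      (aval (((chain (m + 1)).subst G).uw p q) ((chain (m + 1)).subst G).bit) := by
  intro τ h
  set A := aval (G.uw p q) G.bit with hAdef
  set H := chain (m + 1) with hH
  set ρ := rho q τ with hρ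
  have hρ0 : 0 < ρ := rho_pos hq τ
  set a := A true ^ (m + 1) with ha
  have ha0 : 0 < a := pow_pos (hA0 _) _
  have hK : 0 < KK m v := KK_pos hv
  set g := cond (G.uw p q) G.bit A h with hg
  have hbit : ∀ c, H.bit c = decide (c = fun _ => true) := fun c => chain_bit' c
  have hsc : ∀ c, H.wb q c * ∏ j, A (c j) =
      a * (if c = (fun _ => true) then 1 else q⁻¹ * wt v (flp c)) := fun c =>
    chain_scale hq A hAv c
  have hav : ∀ b, aval (fun c : Fin (m + 1) → Bool => a * (if c = (fun _ => true) then 1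
      else q⁻¹ * wt v (flp c))) H.bit b = a * (if b = true then 1 else q⁻¹ * KK m v) :=
    chain_aval m q v a
  have hV : (fun c => H.wb q c * ∏ j, A (c j)) =
      fun c => a * (if c = (fun _ => true) then 1 else q⁻¹ * wt v (flp c)) := funext hsc
  have hA' : ∀ b, aval ((H.subst G).uw p q) (H.subst G).bit b =
      a * (if b = true then 1 else q⁻¹ * KK m v) := fun b => ser_odds G hq m hA0 hAv b
  have hA'' : aval ((H.subst G).uw p q) (H.subst G).bit =
      aval (fun c => a * (if c = (fun _ => true) then 1 else q⁻¹ * wt v (flp c))) H.bit := by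
    funext b
    rw [hA', hav]
  set lam := q⁻¹ / ρ with hlam
  have hlam0 : 0 < lam := by positivity
  have hρlam : ρ * lam = q⁻¹ := by
    rw [hlam]
    field_simp
  -- the jump
  have hj : jump ((H.subst G).uw p q) (H.subst G).bit
      (aval ((H.subst G).uw p q) (H.subst G).bit) h =
      - ∑ c : Fin (m + 1) → Bool,
        (if c = (fun _ => false) then -1 else wt v c / KK m v) * g (flp c) := by
    rw [jump_subst H G p hq hA0, ← hg, hV, hA'']
    rw [← (flpE (m + 1)).sum_comp (fun c : Fin (m + 1) → Bool =>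
      (if c = (fun _ => false) then -1 else wt v c / KK m v) * g (flp c)), ← sum_neg_distrib]
    unfold jump
    refine sum_congr rfl fun c _ => ?_
    have e1 : (flpE (m + 1)) c = flp c := rfl
    rw [e1, flp_flp, ← neg_mul]
    congr 1
    simp only [kern, hav, hbit, flp_eq]
    by_cases hc : c = fun _ => true
    · simp [hc, ha0.ne']
    · simp [hc]
      field_simp
  -- the cube inequality
  have h1 := cube_ineq (n := m) hv hlam0 (hX false) (hX τ) (fun c => g (flp c))
  -- the block inequality
  have h2 := block_ineq2 (n := m) (u := G.uw p q) (γ := G.bit) (A := A)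
    (fun _ => rfl) hA0 (fun z => Net.uw_pos G hp0 hp1 hq z) hX hG
    (fun c => H.wb q c * if H.bit c = true then ρ else 1)
    (fun c => mul_pos (Net.wb_pos H hq c) (by split_ifs <;> positivity))
    (fun e ξ => if ξ = (fun _ => true) then τ else false)
    (by
      intro e ξ
      have hw : ∀ c, H.wb q c =
          if c = (fun _ => true) then 1 else q⁻¹ * ∏ j, (if c j = true then 1 else q) :=
        fun c => chain_wb (by omega) hq c
      simp only [hw, hbit, ins_eq_const, prod_ins e (fun _ x => if x = true then (1 : ℝ) else q)]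
      by_cases hξ : ξ = fun _ => true
      · simp [hξ, ← hρ, hq.ne']
      · simp [hξ, rho, hq.ne']) h
  have h3 : ∀ (e : Fin (m + 1)) (ξ : Fin m → Bool),
      (X (if ξ = (fun _ => true) then τ else false))⁻¹ *
        (par ((fun c => (H.wb q c * if H.bit c = true then ρ else 1) * ∏ j, A (c j))
          (Fin.insertNth e true ξ))
        ((fun c => (H.wb q c * if H.bit c = true then ρ else 1) * ∏ j, A (c j))
          (Fin.insertNth e false ξ)) *
        (g (Fin.insertNth e true ξ) - g (Fin.insertNth e false ξ)) ^ 2) =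
      a * ρ * (cdn v lam (X false) (X τ) (flp ξ) *
        (g (flp (Fin.insertNth e true (flp ξ))) - g (flp (Fin.insertNth e false (flp ξ)))) ^ 2) := by
    intro e ξ
    have h5 : ∀ c, (H.wb q c * if H.bit c = true then ρ else 1) * ∏ j, A (c j) =
        a * ρ * (if c = (fun _ => true) then 1 else lam * wt v (flp c)) := by
      intro c
      have h6 : (H.wb q c * if H.bit c = true then ρ else 1) * ∏ j, A (c j) =
          (H.wb q c * ∏ j, A (c j)) * if H.bit c = true then ρ else 1 := by ring
      rw [h6, hsc, hbit]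
      by_cases hc : c = fun _ => true
      · simp [hc]
      · simp only [hc, if_false, decide_false, Bool.false_eq_true]
        rw [← hρlam]
        ring
    simp only [h5, flp_ins, flp_flp, ins_eq_const, wt_ins, Bool.not_true, Bool.not_false]
    have haρ : a * ρ ≠ 0 := by positivity
    rw [par_mul haρ]
    unfold cdn
    have h7 : (flp ξ = fun _ => false) ↔ ξ = fun _ => true := by
      rw [flp_eq]
      simp
    by_cases hξ : ξ = fun _ => true
    · have h8 : flp ξ = fun _ => false := h7.mpr hξ
      rw [if_pos h8, if_pos hξ]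
      have h9 : wt v (flp ξ) = 1 := by rw [h8, wt_zero]
      simp only [hξ] at h9 ⊢
      simp [h9]
      rw [par_comm 1 (lam * v)]
      ring
    · have h8 : ¬ flp ξ = fun _ => false := fun h => hξ (h7.mp h)
      rw [if_neg h8, if_neg hξ]
      simp [hξ]
      rw [par_comm (lam * wt v (flp ξ))]
      ring
  have h4 : a * ρ * ∑ e : Fin (m + 1), ∑ ξ, cdn v lam (X false) (X τ) ξ *
        (g (flp (Fin.insertNth e true ξ)) - g (flp (Fin.insertNth e false ξ))) ^ 2 ≤
      dir (fun z => (H.subst G).uw p q z * if (H.subst G).bit z = true then ρ else 1) h := by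
    have h5 : (fun ω : Fin (m + 1) × F → Bool =>
        H.wb q (fun j => G.bit fun f => ω (j, f)) *
          (if H.bit (fun j => G.bit fun f => ω (j, f)) = true then ρ else 1) *
          ∏ j, G.uw p q fun f => ω (j, f)) =
        fun ω => (H.subst G).uw p q ω * if (H.subst G).bit ω = true then ρ else 1 := by
      funext ω
      rw [Net.uw_subst H G p hq, Net.bit_subst]
      have hb : G.bits ω = fun j => G.bit fun f => ω (j, f) := rfl
      rw [hb]
      ring
    rw [h5] at h2
    refine le_trans (le_of_eq ?_) h2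
    rw [mul_sum]
    refine sum_congr rfl fun e _ => ?_
    rw [mul_sum]
    rw [← (flpE m).sum_comp]
    refine sum_congr rfl fun ξ _ => ?_
    exact (h3 e ξ).symm
  have hpar : par (aval ((H.subst G).uw p q) (H.subst G).bit false)
      (ρ * aval ((H.subst G).uw p q) (H.subst G).bit true) =
      a * ρ * par 1 (lam * KK m v) := by
    rw [hA', hA']
    simp only [if_true, Bool.false_eq_true, if_false]
    have haρ : a * ρ ≠ 0 := by positivity
    rw [← par_mul haρ, par_comm]
    congr 1
    · ring
    · rw [← hρlam]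
      ring
  have hcoef : (1 + KK m v) / (1 + lam * KK m v) * ((dd m v - aa m v) * X false +
      aa m v * (1 + lam * v) / (1 + v) * X τ) = serX q m v X τ := by
    cases τ
    · have h5 : lam = 1 := by
        rw [hlam, hρ]
        simp [rho, hq.ne']
      rw [h5]
      simp only [serX]
      have h6 : 0 < 1 + KK m v := by positivity
      have h7 : 0 < 1 + v := by positivity
      field_simp
      ring
    · have h5 : lam = q⁻¹ := by
        rw [hlam, hρ]
        simp [rho]
      rw [h5]
      simp only [serX]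
      have h6 : 0 < q + KK m v := by positivity
      have h7 : 1 + q⁻¹ * KK m v = (q + KK m v) / q := by
        field_simp
      have h8 : 1 + q⁻¹ * v = (q + v) / q := by
        field_simp
      rw [h7, h8]
      field_simp
  have hcn : 0 ≤ serX q m v X τ := by
    by_contra hneg
    push Not at hneg
    have h6 : 0 < par 1 (lam * KK m v) := par_pos one_pos (by positivity)
    have h8 := cube_ineq (n := m) hv hlam0 (hX false) (hX τ)
      (fun c => if c = (fun _ => false) then -1 else 0)
    rw [hcoef] at h8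
    have h9 : ∑ c : Fin (m + 1) → Bool, (if c = (fun _ => false) then -1 else wt v c / KK m v) *
        (if c = (fun _ => false) then (-1 : ℝ) else 0) = 1 := by
      have : ∀ c : Fin (m + 1) → Bool, (if c = (fun _ => false) then -1 else wt v c / KK m v) *
        (if c = (fun _ => false) then (-1 : ℝ) else 0) =
          if c = (fun _ => false) then 1 else 0 := by
        intro c
        split_ifs <;> simp
      simp only [this]
      rw [sum_ite_eq']
      simp
    rw [h9] at h8
    have h10 : 0 ≤ ∑ e : Fin (m + 1), ∑ ξ : Fin m → Bool, cdn v lam (X false) (X τ) ξ *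
        ((fun c : Fin (m + 1) → Bool => if c = (fun _ => false) then (-1 : ℝ) else 0)
          (Fin.insertNth e true ξ) -
        (fun c : Fin (m + 1) → Bool => if c = (fun _ => false) then (-1 : ℝ) else 0)
          (Fin.insertNth e false ξ)) ^ 2 := by
      refine sum_nonneg fun e _ => sum_nonneg fun ξ _ => mul_nonneg ?_ (sq_nonneg _)
      unfold cdn
      have := wt_pos hv ξ
      have hXf := hX false
      have hXτ := hX τ
      split_ifs
      · exact mul_nonneg (inv_pos.mpr hXτ).le (par_nonneg (by positivity) zero_le_one)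
      · exact mul_nonneg (inv_pos.mpr hXf).le (par_nonneg (by positivity) (by positivity))
    nlinarith
  rw [hpar, hj, neg_sq]
  calc a * ρ * par 1 (lam * KK m v) * (∑ c : Fin (m + 1) → Bool,
        (if c = (fun _ => false) then -1 else wt v c / KK m v) * g (flp c)) ^ 2
      = a * ρ * (par 1 (lam * KK m v) * (∑ c : Fin (m + 1) → Bool,
        (if c = (fun _ => false) then -1 else wt v c / KK m v) * g (flp c)) ^ 2) := by ring
    _ ≤ a * ρ * (serX q m v X τ * ∑ e : Fin (m + 1), ∑ ξ, cdn v lam (X false) (X τ) ξ *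
        (g (flp (Fin.insertNth e true ξ)) - g (flp (Fin.insertNth e false ξ))) ^ 2) := by
          rw [hcoef] at h1
          exact mul_le_mul_of_nonneg_left h1 (by positivity)
    _ = serX q m v X τ * (a * ρ * ∑ e : Fin (m + 1), ∑ ξ, cdn v lam (X false) (X τ) ξ *
        (g (flp (Fin.insertNth e true ξ)) - g (flp (Fin.insertNth e false ξ))) ^ 2) := by ring
    _ ≤ _ := mul_le_mul_of_nonneg_left h4 hcn

end

end Pool.Agent.FKH
end

section

/-! Change of the names of the edges; the diamond as a bundle of chains. -/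

open Finset

namespace Pool.Agent.FKH

section transport

variable {E E' : Type} [Fintype E] [DecidableEq E] [Fintype E'] [DecidableEq E']

/-- The configurations on `E` and on `E'`. -/
def confE (Φ : E ≃ E') : (E → Bool) ≃ (E' → Bool) := Equiv.arrowCongr Φ (Equiv.refl Bool)

omit [Fintype E] [DecidableEq E] [Fintype E'] [DecidableEq E'] in
lemma confE_comp (Φ : E ≃ E') (z : E → Bool) : confE Φ z ∘ Φ = z := by
  funext e
  simp [confE]

omit [Fintype E] [Fintype E'] in
lemma confE_update (Φ : E ≃ E') (z : E → Bool) (e : E) (b : Bool) :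
    Function.update (confE Φ z) (Φ e) b = confE Φ (Function.update z e b) := by
  funext f
  obtain ⟨f, rfl⟩ := Φ.surjective f
  by_cases h : f = e
  · subst h
    simp [confE]
  · have h2 : Φ f ≠ Φ e := fun h3 => h (Φ.injective h3)
    simp [confE, Function.update_of_ne h, Function.update_of_ne h2]

lemma sum_conf (Φ : E ≃ E') (φ : (E' → Bool) → ℝ) : ∑ z, φ z = ∑ z, φ (confE Φ z) :=
  ((confE Φ).sum_comp φ).symm

lemma dir_transport (Φ : E ≃ E') (w : (E → Bool) → ℝ) (g : (E' → Bool) → ℝ) :
    dir (fun z => w (z ∘ Φ)) g = dir w (fun z => g (confE Φ z)) := by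
  unfold dir
  rw [← Φ.sum_comp]
  refine sum_congr rfl fun e _ => ?_
  rw [sum_conf Φ]
  congr 1
  refine sum_congr rfl fun z _ => ?_
  simp only [pd, confE_update, confE_comp]

omit [DecidableEq E] [DecidableEq E'] in
lemma aval_transport [DecidableEq E] [DecidableEq E'] (Φ : E ≃ E') (u : (E → Bool) → ℝ)
    (γ : (E → Bool) → Bool) (b : Bool) :
    aval (fun z => u (z ∘ Φ)) (fun z => γ (z ∘ Φ)) b = aval u γ b := by
  unfold aval
  rw [sum_conf Φ]
  simp only [confE_comp]

lemma BH2_transport (Φ : E ≃ E') {q : ℝ} {X : Bool → ℝ} {u : (E → Bool) → ℝ}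
    {γ : (E → Bool) → Bool} {A : Bool → ℝ} (h : BH2 q X u γ A) :
    BH2 q X (fun z => u (z ∘ Φ)) (fun z => γ (z ∘ Φ)) A := by
  intro τ g
  have h1 := h τ (fun z => g (confE Φ z))
  have h2 : jump (fun z => u (z ∘ Φ)) (fun z => γ (z ∘ Φ)) A g =
      jump u γ A (fun z => g (confE Φ z)) := by
    unfold jump
    rw [sum_conf Φ]
    simp only [kern, confE_comp]
  rw [h2]
  have h3 := dir_transport Φ (fun z => u z * if γ z = true then rho q τ else 1) g
  rw [h3]
  exact h1

end transport

namespace Net

variable {I J F : Type}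

/-- `uw_subst` for a nonempty index set. -/
lemma uw_subst' [Finite I] [Finite J] [Fintype F] {k : ℕ} (hk : 0 < k) (H : Net I (Fin k))
    (G : Net J F) (p : ℝ) {q : ℝ} (hq : 0 < q) (ω : Fin k × F → Bool) :
    (H.subst G).uw p q ω = H.wb q (G.bits ω) * ∏ e, G.uw p q (fun f => ω (e, f)) := by
  obtain ⟨n, rfl⟩ : ∃ n, k = n + 1 := ⟨k - 1, by omega⟩
  exact uw_subst H G p hq ω

lemma uw_half [Fintype F] [Finite J] (G : Net J F) {q : ℝ} (ω : F → Bool) :
    G.uw (1 / 2) q ω = (1 / 2) ^ Fintype.card F * G.wb q ω := by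
  unfold uw weight wb
  have h1 : ∏ e, (if ω e = true then (1 / 2 : ℝ) else 1 - 1 / 2) = (1 / 2) ^ Fintype.card F := by
    have : ∀ e, (if ω e = true then (1 / 2 : ℝ) else 1 - 1 / 2) = 1 / 2 := by
      intro e
      split_ifs <;> norm_num
    simp only [this]
    simp
  rw [h1, pow_add]
  ring

/-- The cluster weight of a substituted network. -/
lemma wb_subst [Finite I] [Finite J] [Fintype F] {k : ℕ} (hk : 0 < k) (H : Net I (Fin k))
    (G : Net J F) {q : ℝ} (hq : 0 < q) (ω : Fin k × F → Bool) :
    (H.subst G).wb q ω = H.wb q (G.bits ω) * ∏ e, G.wb q (fun f => ω (e, f)) := by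
  have h1 := uw_subst' hk H G (1 / 2) hq ω
  have h2 := uw_half (H.subst G) (q := q) ω
  simp only [uw_half G] at h1
  have h3 : Fintype.card (Fin k × F) = Fintype.card F * k := by
    rw [Fintype.card_prod, Fintype.card_fin, mul_comm]
  have h2' : (H.subst G).uw (1 / 2) q ω = (1 / 2) ^ (Fintype.card F * k) * (H.subst G).wb q ω := by
    rw [← h3]
    exact h2
  rw [h2', prod_mul_distrib] at h1
  have h4 : ∏ _e : Fin k, (1 / 2 : ℝ) ^ Fintype.card F = (1 / 2) ^ (Fintype.card F * k) := by
    rw [prod_const, card_univ, Fintype.card_fin, ← pow_mul]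
  rw [h4] at h1
  have h5 : (0 : ℝ) < (1 / 2) ^ (Fintype.card F * k) := by positivity
  have h6 : (1 / 2 : ℝ) ^ (Fintype.card F * k) * (H.subst G).wb q ω =
      (1 / 2) ^ (Fintype.card F * k) * (H.wb q (G.bits ω) *
        ∏ e, G.wb q (fun f => ω (e, f))) := by
    rw [h1]
    ring
  exact mul_left_cancel₀ h5.ne' h6

end Net

section diamond

lemma diamond_openGraph (b r : ℕ) (c : Fin (r * b) → Bool) :
    (diamond b r).openGraph c =
      ((bundle r).subst (chain b)).openGraph (fun e => c (finProdFinEquiv e)) := by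
  unfold Net.openGraph
  congr 1
  funext x y
  apply propext
  constructor
  · rintro ⟨e, h1, h2⟩
    refine ⟨finProdFinEquiv.symm e, ?_, h2⟩
    show c (finProdFinEquiv (finProdFinEquiv.symm e)) = true
    rw [Equiv.apply_symm_apply]
    exact h1
  · rintro ⟨e, h1, h2⟩
    refine ⟨finProdFinEquiv e, h1, ?_⟩
    show ((bundle r).subst (chain b)).ends (finProdFinEquiv.symm (finProdFinEquiv e)) = (x, y)
    rw [Equiv.symm_apply_apply]
    exact h2

lemma diamond_bit (b r : ℕ) (c : Fin (r * b) → Bool) :
    (diamond b r).bit c = (bundle r).bit (fun i => (chain b).bit fun j =>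
      c (finProdFinEquiv (i, j))) := by
  have h1 : (diamond b r).bit c =
      ((bundle r).subst (chain b)).bit (fun e => c (finProdFinEquiv e)) := by
    rw [Bool.eq_iff_iff, Net.bit_eq_true, Net.bit_eq_true, Net.Crossed, Net.Crossed,
      diamond_openGraph]
  rw [h1, Net.bit_subst]
  rfl

lemma diamond_wb {b r : ℕ} (hr : 0 < r) {q : ℝ} (hq : 0 < q) (c : Fin (r * b) → Bool) :
    (diamond b r).wb q c = (bundle r).wb q (fun i => (chain b).bit fun j =>
      c (finProdFinEquiv (i, j))) * ∏ i, (chain b).wb q (fun j => c (finProdFinEquiv (i, j))) := by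
  have h1 : (diamond b r).wb q c =
      ((bundle r).subst (chain b)).wb q (fun e => c (finProdFinEquiv e)) := by
    have h2 : (diamond b r).bit c =
        ((bundle r).subst (chain b)).bit (fun e => c (finProdFinEquiv e)) := by
      rw [Bool.eq_iff_iff, Net.bit_eq_true, Net.bit_eq_true, Net.Crossed, Net.Crossed,
        diamond_openGraph]
    unfold Net.wb Net.numComp
    rw [h2, diamond_openGraph]
  rw [h1, Net.wb_subst hr _ _ hq]
  rfl

variable {J F : Type} [Finite J] [Fintype F] [DecidableEq F]

/-- The edges of the substituted diamond. -/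
def diaE (b r : ℕ) (F : Type) : Fin r × (Fin b × F) ≃ Fin (r * b) × F :=
  (Equiv.prodAssoc _ _ _).symm.trans (Equiv.prodCongr finProdFinEquiv (Equiv.refl F))

omit [Fintype F] [DecidableEq F] in
lemma diaE_apply (b r : ℕ) (i : Fin r) (j : Fin b) (f : F) :
    diaE b r F (i, (j, f)) = (finProdFinEquiv (i, j), f) := rfl

omit [Fintype F] [DecidableEq F] in
lemma diamond_subst_bit (b r : ℕ) (G : Net J F) (ω : Fin (r * b) × F → Bool) :
    ((diamond b r).subst G).bit ω =
      ((bundle r).subst ((chain b).subst G)).bit (ω ∘ diaE b r F) := by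
  rw [Net.bit_subst, Net.bit_subst, diamond_bit]
  congr 1
  funext i
  unfold Net.bits
  rw [Net.bit_subst]
  rfl

omit [DecidableEq F] in
lemma diamond_subst_uw {b r : ℕ} (hb : 0 < b) (hr : 0 < r) (G : Net J F) (p : ℝ) {q : ℝ}
    (hq : 0 < q) (ω : Fin (r * b) × F → Bool) :
    ((diamond b r).subst G).uw p q ω =
      ((bundle r).subst ((chain b).subst G)).uw p q (ω ∘ diaE b r F) := by
  rw [Net.uw_subst' (Nat.mul_pos hr hb) _ _ _ hq, Net.uw_subst' hr _ _ _ hq, diamond_wb hr hq]
  simp only [Net.uw_subst' hb (chain b) G p hq]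
  rw [prod_mul_distrib, mul_assoc]
  have h1 : (((chain b).subst G).bits (ω ∘ diaE b r F)) = fun i => (chain b).bit fun j =>
      G.bits ω (finProdFinEquiv (i, j)) := by
    funext i
    unfold Net.bits
    rw [Net.bit_subst]
    rfl
  rw [h1]
  congr 1
  congr 1
  rw [← finProdFinEquiv.prod_comp, Fintype.prod_prod_type]
  rfl

lemma diamond_aval {b r : ℕ} (hb : 0 < b) (hr : 0 < r) (G : Net J F) (p : ℝ) {q : ℝ}
    (hq : 0 < q) (β : Bool) :
    aval (((diamond b r).subst G).uw p q) ((diamond b r).subst G).bit β =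
      aval (((bundle r).subst ((chain b).subst G)).uw p q)
        ((bundle r).subst ((chain b).subst G)).bit β := by
  rw [← aval_transport (diaE b r F)]
  have h1 : ((diamond b r).subst G).uw p q =
      fun ω => ((bundle r).subst ((chain b).subst G)).uw p q (ω ∘ diaE b r F) :=
    funext fun ω => diamond_subst_uw hb hr G p hq ω
  have h2 : ((diamond b r).subst G).bit =
      fun ω => ((bundle r).subst ((chain b).subst G)).bit (ω ∘ diaE b r F) :=
    funext fun ω => diamond_subst_bit b r G ω
  rw [h1, h2]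

lemma diamond_BH2 {b r : ℕ} (hb : 0 < b) (hr : 0 < r) (G : Net J F) {p q : ℝ}
    (hq : 0 < q) {X : Bool → ℝ} (h : BH2 q X (((bundle r).subst ((chain b).subst G)).uw p q)
        ((bundle r).subst ((chain b).subst G)).bit
        (aval (((bundle r).subst ((chain b).subst G)).uw p q)
        ((bundle r).subst ((chain b).subst G)).bit)) :
    BH2 q X (((diamond b r).subst G).uw p q) ((diamond b r).subst G).bit
      (aval (((diamond b r).subst G).uw p q) ((diamond b r).subst G).bit) := by
  have h0 := BH2_transport (diaE b r F) h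
  have h1 : ((diamond b r).subst G).uw p q =
      fun ω => ((bundle r).subst ((chain b).subst G)).uw p q (ω ∘ diaE b r F) :=
    funext fun ω => diamond_subst_uw hb hr G p hq ω
  have h2 : ((diamond b r).subst G).bit =
      fun ω => ((bundle r).subst ((chain b).subst G)).bit (ω ∘ diaE b r F) :=
    funext fun ω => diamond_subst_bit b r G ω
  have h3 : aval (((diamond b r).subst G).uw p q) ((diamond b r).subst G).bit =
      aval (((bundle r).subst ((chain b).subst G)).uw p q)
        ((bundle r).subst ((chain b).subst G)).bit := funext fun β => diamond_aval hb hr G p hq β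
  rw [h3, h1, h2]
  exact h0

end diamond

end Pool.Agent.FKH
end

section

/-! The mean of `1/N` for a conditioned binomial variable. -/

open Finset

namespace Pool.Agent.FKH

/-- DHL TASK An2, part 1: the geometric sum behind `aa`.
PROOF. With `s = 1/(1+u)`: `1 + KK n u = (1+u)^(n+1) = s^(-(n+1))`, so
`aa n u = (1 - s^(n+1)) / ((n+1)(1 - s))`, and `∑ i ∈ range (n+1), s^i = (1 - s^(n+1))/(1-s)`
(`geom_sum_eq` or `mul_neg_geom_sum`). -/
lemma aa_eq {n : ℕ} {u : ℝ} (hu : 0 < u) :
    ((n : ℝ) + 1) * aa n u = ∑ i ∈ range (n + 1), (1 / (1 + u)) ^ i := by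
  have h1u : (0 : ℝ) < 1 + u := by linarith
  have hK : 1 + KK n u = (1 + u) ^ (n + 1) := by unfold KK; ring
  have hp : (0 : ℝ) < (1 + u) ^ (n + 1) := by positivity
  have hn : (0 : ℝ) < (n : ℝ) + 1 := by positivity
  have hg := mul_neg_geom_sum (1 / (1 + u)) (n + 1)
  have e1 : (1 : ℝ) - 1 / (1 + u) = u / (1 + u) := by field_simp; ring
  have e2 : (1 / (1 + u)) ^ (n + 1) = 1 / (1 + u) ^ (n + 1) := by rw [div_pow, one_pow]
  rw [e1, e2] at hg
  have hg2 : ∑ i ∈ range (n + 1), (1 / (1 + u)) ^ i =
      (1 - 1 / (1 + u) ^ (n + 1)) * ((1 + u) / u) := by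
    rw [← hg]
    field_simp
  rw [hg2]
  unfold aa
  rw [hK]
  have hKK : KK n u = (1 + u) ^ (n + 1) - 1 := rfl
  rw [hKK]
  field_simp

private lemma An2_a (n : ℕ) (u : ℝ) :
    ∑ k ∈ range (n + 1), (n.choose k : ℝ) * u ^ k = (1 + u) ^ n := by
  rw [add_comm 1 u, add_pow]
  refine sum_congr rfl fun k _ => ?_
  rw [one_pow]
  ring

private lemma An2_b (n : ℕ) (u : ℝ) :
    (1 + u) * ∑ k ∈ range (n + 1), (n.choose k : ℝ) * u ^ k * (k : ℝ) =
      (n : ℝ) * u * (1 + u) ^ n := by
  cases n with
  | zero => simp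
  | succ m =>
    rw [sum_range_succ']
    simp only [Nat.cast_zero, mul_zero, add_zero]
    have h : ∀ j ∈ range (m + 1), ((m + 1).choose (j + 1) : ℝ) * u ^ (j + 1) * ((j + 1 : ℕ) : ℝ)
        = ((m : ℝ) + 1) * u * ((m.choose j : ℝ) * u ^ j) := by
      intro j _
      have h1 : (((m + 1) * m.choose j : ℕ) : ℝ) = (((m + 1).choose (j + 1) * (j + 1) : ℕ) : ℝ) := by
        rw [Nat.add_one_mul_choose_eq]
      push_cast at h1
      push_cast
      calc ((m + 1).choose (j + 1) : ℝ) * u ^ (j + 1) * ((j : ℝ) + 1)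
          = (((m + 1).choose (j + 1) : ℝ) * ((j : ℝ) + 1)) * u ^ (j + 1) := by ring
        _ = (((m : ℝ) + 1) * (m.choose j : ℝ)) * u ^ (j + 1) := by rw [h1]
        _ = _ := by ring
    rw [sum_congr rfl h, ← mul_sum, An2_a]
    push_cast
    ring

private lemma An2_c (n : ℕ) (u : ℝ) :
    ((n : ℝ) + 1) * u * ∑ k ∈ range (n + 1), (n.choose k : ℝ) * u ^ k / ((k : ℝ) + 1) = KK n u := by
  have hA := An2_a (n + 1) u
  rw [sum_range_succ'] at hA
  simp only [Nat.choose_zero_right, Nat.cast_one, pow_zero, mul_one] at hA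
  unfold KK
  rw [← hA, add_sub_cancel_right, mul_sum]
  refine sum_congr rfl fun k _ => ?_
  have h1 : (((n + 1) * n.choose k : ℕ) : ℝ) = (((n + 1).choose (k + 1) * (k + 1) : ℕ) : ℝ) := by
    rw [Nat.add_one_mul_choose_eq]
  push_cast at h1
  have hk : ((k : ℝ) + 1) ≠ 0 := by positivity
  calc ((n : ℝ) + 1) * u * ((n.choose k : ℝ) * u ^ k / ((k : ℝ) + 1))
      = (((n : ℝ) + 1) * (n.choose k : ℝ)) * u ^ (k + 1) / ((k : ℝ) + 1) := by ring
    _ = (((n + 1).choose (k + 1) : ℝ) * ((k : ℝ) + 1)) * u ^ (k + 1) / ((k : ℝ) + 1) := by rw [h1]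
    _ = _ := by field_simp

/-- DHL TASK An2, part 2.
PROOF. Write `K = KK n u`, `A = aa n u`, `s = 1/(1+u)`, `z = s^(n+1) = 1/(1+K)`, `L = (n+1) u`, and
the weights `g k = C(n,k) u^k` for `k = 0..n`. Known sums (binomial theorem):
(a) `∑ g k = (1+u)^n = (1+K) s`;
(b) `∑ g k * (k+1) = (1+u)^n + n u (1+u)^(n-1)` (from `k C(n,k) = n C(n-1,k-1)`), which equals
    `(1+K)/L * (stuff)`; in the form needed: with `μ = L s... ` see below;
(c) `∑ g k / (k+1) = K / L` (from `C(n,k)/(k+1) = C(n+1,k+1)/(n+1)`).
The numbers `κ k = (L / K) * g k / (k+1)` (`k = 0..n`) are the probabilities of `N = k + 1`; they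
sum to `1` by (c); `∑ κ k (k+1) = (L/K) (1+u)^n = 1/A` by (a); and
`∑ κ k (k+1)² = (L/K) ∑ g k (k+1) = (1/A²) (1 + s A - z)` by (b)
(check: `A = K (1+u)/((1+K) L)`; `(L/K)((1+u)^n + n u (1+u)^(n-1))`, and
`n u = L - u`, so the sum is `(L/K) (1+u)^n (1 + (L-u)/(1+u)) = (1/A) (1+L)/(1+u)`, while
`(1/A²)(1 + sA - z) = (1/A)(s + (1-z)/A)`, `(1-z)/A = L/(1+u)`, `s = 1/(1+u)`: equal).
`dd n u = ∑ κ k / (k+1)`. For `N = k+1 ≥ 1`: `1/N = 2A - A² N + (1 - A N)²/N`.
* Dropping the square: `dd ≥ 2A - A² (1/A) = A`.
* `1/N ≤ 1/2 + (if N = 1 then 1/2 else 0)`, so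
  `dd ≤ 2A - A + (1/2) ∑ κ (1 - A N)² + (1/2) κ 0 (1 - A)²`, and
  `∑ κ (1 - A N)² = 1 - 2 + (1 + sA - z) = s A - z`, `κ 0 = L/K = z/(s A)`. -/
lemma dd_bounds {n : ℕ} {u : ℝ} (hu : 0 < u) {s z : ℝ} (hs : s = 1 / (1 + u))
    (hz : z = s ^ (n + 1)) :
    aa n u ≤ dd n u ∧
      dd n u ≤ aa n u + (s * aa n u - z) / 2 + z * (1 - aa n u) ^ 2 / (2 * s * aa n u) := by
  have h1u : (0 : ℝ) < 1 + u := by linarith
  have hKp : 0 < KK n u := KK_pos hu
  have hn : (0 : ℝ) < (n : ℝ) + 1 := by positivity
  have hK : (1 + u) ^ (n + 1) = 1 + KK n u := by unfold KK; ring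
  set K := KK n u with hKdef
  set L : ℝ := ((n : ℝ) + 1) * u with hL
  have hLp : 0 < L := by positivity
  have hApos : 0 < aa n u := by
    unfold aa
    positivity
  have hAeq : aa n u = K * (1 + u) / ((1 + K) * L) := rfl
  set A := aa n u with hA
  -- the weights
  set g : ℕ → ℝ := fun k => (n.choose k : ℝ) * u ^ k with hg
  have hg0 : ∀ k, 0 ≤ g k := fun k => by positivity
  have ha : ∑ k ∈ range (n + 1), g k = (1 + u) ^ n := An2_a n u
  have hb : (1 + u) * ∑ k ∈ range (n + 1), g k * (k : ℝ) = (n : ℝ) * u * (1 + u) ^ n := An2_b n u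
  have hc : L * ∑ k ∈ range (n + 1), g k / ((k : ℝ) + 1) = K := An2_c n u
  have hpn : (1 + u) ^ n = (1 + K) / (1 + u) := by
    rw [← hK, pow_succ]
    field_simp
  set κ : ℕ → ℝ := fun k => L / K * (g k / ((k : ℝ) + 1)) with hκ
  have hκ0 : ∀ k, 0 ≤ κ k := fun k => by
    have := hg0 k
    positivity
  have S0 : ∑ k ∈ range (n + 1), κ k = 1 := by
    rw [hκ, ← mul_sum]
    rw [div_mul_eq_mul_div, hc]
    exact div_self hKp.ne'
  have S1 : ∑ k ∈ range (n + 1), κ k * ((k : ℝ) + 1) = 1 / A := by
    have e : ∀ k ∈ range (n + 1), κ k * ((k : ℝ) + 1) = L / K * g k := by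
      intro k _
      have hk : ((k : ℝ) + 1) ≠ 0 := by positivity
      rw [hκ]
      field_simp
    rw [sum_congr rfl e, ← mul_sum, ha, hpn, hAeq]
    field_simp
  have S2 : ∑ k ∈ range (n + 1), κ k * ((k : ℝ) + 1) ^ 2 = 1 / A * ((1 + L) / (1 + u)) := by
    have e : ∀ k ∈ range (n + 1), κ k * ((k : ℝ) + 1) ^ 2 = L / K * (g k * (k : ℝ)) + L / K * g k := by
      intro k _
      have hk : ((k : ℝ) + 1) ≠ 0 := by positivity
      rw [hκ]
      field_simp
    have hb' : ∑ k ∈ range (n + 1), g k * (k : ℝ) = (n : ℝ) * u * (1 + u) ^ n / (1 + u) := by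
      rw [← hb]
      field_simp
    rw [sum_congr rfl e, sum_add_distrib, ← mul_sum, ← mul_sum, ha, hb', hpn, hAeq, hL]
    field_simp
    ring
  have hdd : dd n u = ∑ k ∈ range (n + 1), κ k * (1 / ((k : ℝ) + 1)) := by
    unfold dd SS
    rw [mul_div_right_comm, mul_sum]
    refine sum_congr rfl fun k _ => ?_
    have hk : ((k : ℝ) + 1) ≠ 0 := by positivity
    simp only [hκ, hg]
    rw [← hL, ← hKdef]
    field_simp
  have hsA : s * A = K / ((1 + K) * L) := by
    rw [hs, hAeq]
    field_simp
  have hz' : z = 1 / (1 + K) := by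
    rw [hz, hs, div_pow, one_pow, hK]
  have hsp : 0 < s := by rw [hs]; positivity
  have hκ00 : κ 0 = z / (s * A) := by
    rw [hsA, hz']
    simp only [hκ, hg]
    simp
    field_simp
  clear_value κ
  have hvar : ∑ k ∈ range (n + 1), κ k * (1 - A * ((k : ℝ) + 1)) ^ 2 = s * A - z := by
    have e : ∀ k ∈ range (n + 1), κ k * (1 - A * ((k : ℝ) + 1)) ^ 2 =
        κ k - 2 * A * (κ k * ((k : ℝ) + 1)) + A ^ 2 * (κ k * ((k : ℝ) + 1) ^ 2) := by
      intro k _
      ring
    rw [sum_congr rfl e, sum_add_distrib, sum_sub_distrib, ← mul_sum, ← mul_sum, S0, S1, S2]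
    have hAne := hApos.ne'
    have e2 : 1 - 2 * A * (1 / A) + A ^ 2 * (1 / A * ((1 + L) / (1 + u))) =
        A * ((1 + L) / (1 + u)) - 1 := by
      field_simp
      ring
    rw [e2, hz', hsA, hAeq]
    field_simp
    ring
  constructor
  · rw [hdd]
    have h1 : ∑ k ∈ range (n + 1), (2 * A * κ k - A ^ 2 * (κ k * ((k : ℝ) + 1))) ≤
        ∑ k ∈ range (n + 1), κ k * (1 / ((k : ℝ) + 1)) := by
      refine sum_le_sum fun k _ => ?_
      have hk : (0 : ℝ) < (k : ℝ) + 1 := by positivity
      have h2 : 2 * A - A ^ 2 * ((k : ℝ) + 1) ≤ 1 / ((k : ℝ) + 1) := by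
        rw [le_div_iff₀ hk]
        nlinarith [sq_nonneg (1 - A * ((k : ℝ) + 1))]
      nlinarith [mul_le_mul_of_nonneg_left h2 (hκ0 k)]
    rw [sum_sub_distrib, ← mul_sum, ← mul_sum, S0, S1] at h1
    have h3 : 2 * A * 1 - A ^ 2 * (1 / A) = A := by
      have hAne := hApos.ne'
      field_simp
      ring
    rw [h3] at h1
    exact h1
  · rw [hdd]
    have h1 : ∑ k ∈ range (n + 1), κ k * (1 / ((k : ℝ) + 1)) ≤
        ∑ k ∈ range (n + 1), ((2 * A * κ k - A ^ 2 * (κ k * ((k : ℝ) + 1))) +
          1 / 2 * (κ k * (1 - A * ((k : ℝ) + 1)) ^ 2) +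
          (if k = 0 then 1 / 2 * (κ 0 * (1 - A) ^ 2) else 0)) := by
      refine sum_le_sum fun k _ => ?_
      have hk : (0 : ℝ) < (k : ℝ) + 1 := by positivity
      have hid : 1 / ((k : ℝ) + 1) = 2 * A - A ^ 2 * ((k : ℝ) + 1) +
          (1 - A * ((k : ℝ) + 1)) ^ 2 * (1 / ((k : ℝ) + 1)) := by
        field_simp
        ring
      rcases Nat.eq_zero_or_pos k with rfl | hk0
      · simp
        nlinarith [hκ0 0]
      · have hk1 : k ≠ 0 := by omega
        simp only [hk1, if_false, add_zero]
        have hk2 : (1 : ℝ) ≤ (k : ℝ) := by exact_mod_cast hk0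
        have h4 : 1 / ((k : ℝ) + 1) ≤ 1 / 2 := one_div_le_one_div_of_le (by norm_num) (by linarith)
        have h5 : (1 - A * ((k : ℝ) + 1)) ^ 2 * (1 / ((k : ℝ) + 1)) ≤
            (1 - A * ((k : ℝ) + 1)) ^ 2 * (1 / 2) :=
          mul_le_mul_of_nonneg_left h4 (sq_nonneg _)
        have h6 : κ k * (1 / ((k : ℝ) + 1)) ≤
            κ k * (2 * A - A ^ 2 * ((k : ℝ) + 1) + (1 - A * ((k : ℝ) + 1)) ^ 2 * (1 / 2)) := by
          refine mul_le_mul_of_nonneg_left ?_ (hκ0 k)
          rw [hid]
          linarith
        refine h6.trans (le_of_eq ?_)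
        ring
    rw [sum_add_distrib, sum_add_distrib, sum_sub_distrib, ← mul_sum, ← mul_sum, ← mul_sum,
      S0, S1, hvar, sum_ite_eq'] at h1
    simp only [mem_range, Nat.zero_lt_succ, if_true] at h1
    refine h1.trans (le_of_eq ?_)
    rw [hκ00]
    have hAne := hApos.ne'
    have hsne := hsp.ne'
    field_simp
    ring

end Pool.Agent.FKH
end

section

/-! The main inequality. -/

open Finset

namespace Pool.Agent.FKH

/-- DHL TASK An6c. The case of at least three parallel edges.
PROOF. Put `c = √s`, `y = c^n ≤ c² = s` (`n ≥ 2`), `z = s^(n+1) = s y²`, `A = aa n u`,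
`f = s/(bz)`. By `aa_eq` and `geom_ge`, `geom_le`: `y ≤ A` and `3A ≤ 1 + y + y²`. By `dd_bounds`
`d - A ≤ (sA - z)/2 + z(1-A)²/(2sA) = QQ s y A`. The left side is
`(1+s)(d-A) + f (d - A) + f A ≤ (1+s+f) QQ s y A + A f < 1` by `two_var`
(`f ≤ s/(2z) = 1/(2y²)` and the second bound of `f_bounds`). -/
lemma main_three {n b : ℕ} (hn : 2 ≤ n) (hb : 2 ≤ b) {u s z : ℝ} (hu : 0 < u)
    (hs : s = 1 / (1 + u)) (hz : z = s ^ (n + 1))
    (h : ((1 + z) / (1 - z)) ^ b = (1 + s) / (1 - s)) :
    (1 + s) * (dd n u - aa n u) + dd n u * (s / (b * z)) < 1 := by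
  have hs0 : 0 < s := by rw [hs]; positivity
  have hs1 : s < 1 := by
    rw [hs, div_lt_one (by linarith)]
    linarith
  set c : ℝ := Real.sqrt s with hc
  have hc0 : 0 < c := Real.sqrt_pos.2 hs0
  have hc2 : c ^ 2 = s := Real.sq_sqrt hs0.le
  have hc1 : c < 1 := by
    rw [hc, Real.sqrt_lt' one_pos]
    linarith
  set y : ℝ := c ^ n with hy
  have hy0 : 0 < y := by positivity
  have hyy : y ^ 2 = s ^ n := by
    rw [hy, ← pow_mul, mul_comm, pow_mul, hc2]
  have hzy : z = s * y ^ 2 := by
    rw [hz, hyy, pow_succ]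
    ring
  have hys : y ≤ s := by
    rw [← hc2, hy]
    exact pow_le_pow_of_le_one hc0.le hc1.le hn
  have hz0 : 0 < z := by rw [hzy]; positivity
  have hz1 : z < 1 := by
    rw [hz]
    exact pow_lt_one₀ hs0.le hs1 (by omega)
  have hn1 : (0 : ℝ) < (n : ℝ) + 1 := by positivity
  have haa : ((n : ℝ) + 1) * aa n u = ∑ i ∈ range (n + 1), (c ^ 2) ^ i := by
    rw [aa_eq hu, hc2, hs]
  have hA0 : y ≤ aa n u := by
    have h1 := geom_ge hc0 n
    rw [← haa] at h1
    exact le_of_mul_le_mul_left h1 hn1
  have hA1 : 3 * aa n u ≤ 1 + y + y ^ 2 := by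
    have h1 := geom_le hc0 hc1 hn
    rw [← haa] at h1
    have h2 : ((n : ℝ) + 1) * (3 * aa n u) ≤ ((n : ℝ) + 1) * (1 + y + y ^ 2) := by
      linarith
    exact le_of_mul_le_mul_left h2 hn1
  have hApos : 0 < aa n u := lt_of_lt_of_le hy0 hA0
  obtain ⟨_, hd⟩ := dd_bounds hu hs hz
  have hQ : dd n u - aa n u ≤ QQ s y (aa n u) := by
    have h1 : (s * aa n u - z) / 2 + z * (1 - aa n u) ^ 2 / (2 * s * aa n u) =
        QQ s y (aa n u) := by
      unfold QQ
      rw [hzy]
      field_simp
    linarith
  obtain ⟨f1, f2⟩ := f_bounds hb hs0 hs1 hz0 hz1 h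
  set f : ℝ := s / (b * z) with hf
  have hb0 : (0 : ℝ) < b := by
    have : 0 < b := by omega
    exact_mod_cast this
  have hf0 : 0 < f := by rw [hf]; positivity
  have hf2 : f * (2 * y ^ 2) ≤ 1 := by
    have h1 : f * (2 * y ^ 2) ≤ s / (2 * z) * (2 * y ^ 2) :=
      mul_le_mul_of_nonneg_right f1 (by positivity)
    have h2 : s / (2 * z) * (2 * y ^ 2) = 1 := by
      rw [hzy]
      field_simp
    linarith
  have hf3 : f ≤ (3 - s ^ 2) * (3 - 2 * (s * y ^ 2) ^ 2) / (9 * (1 - (s * y ^ 2) ^ 2)) := by
    rw [← hzy]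
    exact f2
  have hmain := two_var hy0 hys hs1 hA0 hA1 hf0 hf2 hf3
  have h3 : (1 + s + f) * (dd n u - aa n u) ≤ (1 + s + f) * QQ s y (aa n u) :=
    mul_le_mul_of_nonneg_left hQ (by positivity)
  have h4 : (1 + s) * (dd n u - aa n u) + dd n u * f =
      (1 + s + f) * (dd n u - aa n u) + aa n u * f := by ring
  rw [h4]
  linarith

end Pool.Agent.FKH
end
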