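import Pool.Agent.Lib.MP_a14fda_pr.Mg.G004

section

/-! The energy of the flow and the block inequality for the bridge. -/

open Finset

namespace Pool.Agent.FKH

/-- The energy of an outer edge. -/
lemma energyP (s ρ : ℝ) (R : Bool → Bool → Bool → Bool → ℝ) (v : ℝ)
    (h : ∑ t : Bool, ∑ b : Bool, ∑ v : Bool, ∑ o : Bool, R t b v o = v)
    (Φ : (Fin 5 → Bool) → ℝ) (i j k l : Fin 5)
    (hΦ : ∀ c, Φ c = R (c i) (c j) (c k) (c l))
    (hs : ∀ R' : Bool → Bool → Bool → Bool → ℝ,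
      ∑ c : Fin 5 → Bool, R' (c i) (c j) (c k) (c l) =
        2 * ∑ t : Bool, ∑ b : Bool, ∑ v : Bool, ∑ o : Bool, R' t b v o) :
    1 / 2 * ∑ c, Φ c = v := by
  simp only [hΦ]
  rw [hs, ← h]
  ring

lemma sum0 (R : Bool → Bool → Bool → Bool → ℝ) :
    ∑ c : Fin 5 → Bool, R (c 1) (c 2) (c 3) (c 4) =
      2 * ∑ t : Bool, ∑ b : Bool, ∑ v : Bool, ∑ o : Bool, R t b v o := by
  rw [sum_five]
  simp only [Fintype.sum_bool, Matrix.cons_val]
  ring

lemma sum1 (R : Bool → Bool → Bool → Bool → ℝ) :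
    ∑ c : Fin 5 → Bool, R (c 0) (c 2) (c 4) (c 3) =
      2 * ∑ t : Bool, ∑ b : Bool, ∑ v : Bool, ∑ o : Bool, R t b v o := by
  rw [sum_five]
  simp only [Fintype.sum_bool, Matrix.cons_val]
  ring

lemma sum2 (R : Bool → Bool → Bool → Bool → ℝ) :
    ∑ c : Fin 5 → Bool, R (c 0) (c 1) (c 3) (c 4) =
      2 * ∑ t : Bool, ∑ b : Bool, ∑ v : Bool, ∑ o : Bool, R t b v o := by
  rw [sum_five]
  simp only [Fintype.sum_bool, Matrix.cons_val]
  ring

lemma sum3 (R : Bool → Bool → Bool → Bool → ℝ) :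
    ∑ c : Fin 5 → Bool, R (c 4) (c 2) (c 0) (c 1) =
      2 * ∑ t : Bool, ∑ b : Bool, ∑ v : Bool, ∑ o : Bool, R t b v o := by
  rw [sum_five]
  simp only [Fintype.sum_bool, Matrix.cons_val]
  ring

lemma sum4 (R : Bool → Bool → Bool → Bool → ℝ) :
    ∑ c : Fin 5 → Bool, R (c 3) (c 2) (c 1) (c 0) =
      2 * ∑ t : Bool, ∑ b : Bool, ∑ v : Bool, ∑ o : Bool, R t b v o := by
  rw [sum_five]
  simp only [Fintype.sum_bool, Matrix.cons_val]
  ring

lemma wR_symm (s ρ : ℝ) : ∀ a b c d e : Bool,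
    wR s ρ a b c d e = wR s ρ b a c e d ∧ wR s ρ a b c d e = wR s ρ d e c a b := by
  intro a b c d e
  cases a <;> cases b <;> cases c <;> cases d <;> cases e <;> simp [wR, wB, gB]

/-- The energy of an outer edge, free or wired. -/
noncomputable def RP (s ρ : ℝ) (t b v o : Bool) : ℝ :=
  flP s t b v o ^ 2 / par (wR s ρ true t b v o) (wR s ρ false t b v o)

/-- The energy of the middle edge. -/
noncomputable def RB (s ρ : ℝ) (a b c d : Bool) : ℝ :=
  flB s a b c d ^ 2 / par (wR s ρ a b true c d) (wR s ρ a b false c d)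

/-- The dual energy of an outer edge. -/
noncomputable def RPD (s ρ : ℝ) (t b v o : Bool) : ℝ :=
  flP s (!v) (!b) (!t) (!o) ^ 2 / par (wR s ρ true t b v o) (wR s ρ false t b v o)

/-- The dual energy of the middle edge. -/
noncomputable def RBD (s ρ : ℝ) (a b c d : Bool) : ℝ :=
  flB s (!a) (!c) (!b) (!d) ^ 2 / par (wR s ρ a b true c d) (wR s ρ a b false c d)

lemma par_wR (s ρ : ℝ) : ∀ t b v o : Bool,
    par (wR s ρ t true b o v) (wR s ρ t false b o v) =
      par (wR s ρ true t b v o) (wR s ρ false t b v o) ∧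
    par (wR s ρ v o b true t) (wR s ρ v o b false t) =
      par (wR s ρ true t b v o) (wR s ρ false t b v o) ∧
    par (wR s ρ o v b t true) (wR s ρ o v b t false) =
      par (wR s ρ true t b v o) (wR s ρ false t b v o) := by
  intro t b v o
  refine ⟨?_, ?_, ?_⟩
  · rw [(wR_symm s ρ true t b v o).1, (wR_symm s ρ false t b v o).1]
  · rw [(wR_symm s ρ true t b v o).2, (wR_symm s ρ false t b v o).2]
  · rw [(wR_symm s ρ o v b t true).2, (wR_symm s ρ o v b t false).2,
      (wR_symm s ρ t true b o v).1, (wR_symm s ρ t false b o v).1]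

lemma energy_split (s ρ : ℝ) :
    (∑ e : Fin 5, 1 / 2 * ∑ ω : Fin 5 → Bool, flow s e ω ^ 2 /
      par (wR s ρ (Function.update ω e true 0) (Function.update ω e true 1)
          (Function.update ω e true 2) (Function.update ω e true 3) (Function.update ω e true 4))
        (wR s ρ (Function.update ω e false 0) (Function.update ω e false 1)
          (Function.update ω e false 2) (Function.update ω e false 3)
          (Function.update ω e false 4))) =
      4 * (∑ t : Bool, ∑ b : Bool, ∑ v : Bool, ∑ o : Bool, RP s ρ t b v o) +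
        ∑ t : Bool, ∑ b : Bool, ∑ v : Bool, ∑ o : Bool, RB s ρ t b v o := by
  rw [Fin.sum_univ_five]
  rw [energyP s ρ (RP s ρ) _ rfl _ 1 2 3 4 (fun c => by simp [RP, flow]) sum0]
  rw [energyP s ρ (RP s ρ) _ rfl _ 0 2 4 3 (fun c => by
    simp only [RP, flow, Matrix.cons_val, ← (par_wR s ρ _ _ _ _).1]
    simp) sum1]
  rw [energyP s ρ (RB s ρ) _ rfl _ 0 1 3 4 (fun c => by simp [RB, flow]) sum2]
  rw [energyP s ρ (RP s ρ) _ rfl _ 4 2 0 1 (fun c => by
    simp only [RP, flow, Matrix.cons_val, ← (par_wR s ρ _ _ _ _).2.1]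
    simp) sum3]
  rw [energyP s ρ (RP s ρ) _ rfl _ 3 2 1 0 (fun c => by
    simp only [RP, flow, Matrix.cons_val, ← (par_wR s ρ _ _ _ _).2.2]
    simp) sum4]
  ring

lemma energy_splitD (s ρ : ℝ) :
    (∑ e : Fin 5, 1 / 2 * ∑ ω : Fin 5 → Bool, flowD s e ω ^ 2 /
      par (wR s ρ (Function.update ω e true 0) (Function.update ω e true 1)
          (Function.update ω e true 2) (Function.update ω e true 3) (Function.update ω e true 4))
        (wR s ρ (Function.update ω e false 0) (Function.update ω e false 1)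
          (Function.update ω e false 2) (Function.update ω e false 3)
          (Function.update ω e false 4))) =
      4 * (∑ t : Bool, ∑ b : Bool, ∑ v : Bool, ∑ o : Bool, RPD s ρ t b v o) +
        ∑ t : Bool, ∑ b : Bool, ∑ v : Bool, ∑ o : Bool, RBD s ρ t b v o := by
  rw [Fin.sum_univ_five]
  rw [energyP s ρ (RPD s ρ) _ rfl _ 1 2 3 4 (fun c => by simp [RPD, flowD]) sum0]
  rw [energyP s ρ (RPD s ρ) _ rfl _ 0 2 4 3 (fun c => by
    simp only [RPD, flowD, Matrix.cons_val, ← (par_wR s ρ _ _ _ _).1]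
    simp) sum1]
  rw [energyP s ρ (RBD s ρ) _ rfl _ 0 1 3 4 (fun c => by simp [RBD, flowD]) sum2]
  rw [energyP s ρ (RPD s ρ) _ rfl _ 4 2 0 1 (fun c => by
    simp only [RPD, flowD, Matrix.cons_val, ← (par_wR s ρ _ _ _ _).2.1]
    simp) sum3]
  rw [energyP s ρ (RPD s ρ) _ rfl _ 3 2 1 0 (fun c => by
    simp only [RPD, flowD, Matrix.cons_val, ← (par_wR s ρ _ _ _ _).2.2]
    simp) sum4]
  ring

lemma energy_one {s : ℝ} (hs : 0 < s) :
    4 * (∑ t : Bool, ∑ b : Bool, ∑ v : Bool, ∑ o : Bool, RP s 1 t b v o) +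
        ∑ t : Bool, ∑ b : Bool, ∑ v : Bool, ∑ o : Bool, RB s 1 t b v o =
      (1 + s) / s ^ 3 * enP s := by
  simp only [Fintype.sum_bool, RP, RB, wR, wB, gB, flP, flB, Bool.and_true, Bool.and_false,
    Bool.or_false, Bool.or_true, Bool.true_and, Bool.false_and, Bool.false_or, Bool.true_or,
    if_true, Bool.false_eq_true, if_false, mul_one, par_succ hs 2, par_succ hs 3, par_succ hs 4,
    par_comm (s ^ 2) (s ^ 3), par_comm (s ^ 3) (s ^ 4), par_comm (s ^ 4) (s ^ 5), enP]
  have h2 : 1 + s ≠ 0 := by positivity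
  field_simp
  ring

lemma energy_inv {s : ℝ} (hs : 0 < s) :
    4 * (∑ t : Bool, ∑ b : Bool, ∑ v : Bool, ∑ o : Bool, RPD s (s ^ 2)⁻¹ t b v o) +
        ∑ t : Bool, ∑ b : Bool, ∑ v : Bool, ∑ o : Bool, RBD s (s ^ 2)⁻¹ t b v o =
      (1 + s) / s ^ 2 * enP s := by
  have h2 : 1 + s ≠ 0 := by positivity
  have e3 : s ^ 3 * (s ^ 2)⁻¹ = s := by field_simp
  have e4 : s ^ 4 * (s ^ 2)⁻¹ = s ^ 2 := by field_simp
  have e5 : s ^ 5 * (s ^ 2)⁻¹ = s ^ 3 := by field_simp
  have p1 : par (s ^ 2) s = s ^ 2 / (1 + s) := by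
    have := par_succ hs 1
    simpa using this
  have p1' : par s (s ^ 2) = s ^ 2 / (1 + s) := by rw [par_comm, p1]
  simp only [Fintype.sum_bool, RPD, RBD, wR, wB, gB, flP, flB, Bool.and_true, Bool.and_false,
    Bool.or_false, Bool.or_true, Bool.true_and, Bool.false_and, Bool.false_or, Bool.true_or,
    Bool.not_true, Bool.not_false,
    if_true, Bool.false_eq_true, if_false, mul_one, e3, e4, e5, p1, p1',
    par_succ hs 2, par_succ hs 3, par_succ hs 4,
    par_comm (s ^ 2) (s ^ 3), par_comm (s ^ 3) (s ^ 4), par_comm (s ^ 4) (s ^ 5), enP]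
  field_simp
  ring

end Pool.Agent.FKH
end

section

/-! The block inequality for the bridge at the self-dual point. -/

open Finset

namespace Pool.Agent.FKH

lemma wB_pos {s : ℝ} (hs : 0 < s) (a b c d e : Bool) : 0 < wB s a b c d e := by
  cases a <;> cases b <;> cases c <;> cases d <;> cases e <;> simp only [wB] <;> positivity

lemma jump_bridge {s : ℝ} (hs : 0 < s) (g : (Fin 5 → Bool) → ℝ) :
    jump (bridge.vb s (s ^ 2)) bridge.bit (aval (bridge.vb s (s ^ 2)) bridge.bit) g =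
      (∑ c, tgt s (c 0) (c 1) (c 2) (c 3) (c 4) * g c) / (s ^ 2 + 7 * s + 8) := by
  unfold jump
  rw [sum_div]
  refine sum_congr rfl fun c _ => ?_
  simp only [kern, aval_bridge hs, bit_bridge, wB_eq hs, tgt]
  have hN : s ^ 2 + 7 * s + 8 ≠ 0 := by positivity
  cases gB (c 0) (c 1) (c 2) (c 3) (c 4)
  · simp only [Bool.false_eq_true, if_false, if_true]
    field_simp
    ring
  · simp only [if_true]
    simp
    field_simp

theorem BH_bridge {s : ℝ} (hs : 0 < s) :
    BH (s ^ 2) (enP s / (s ^ 2 + 7 * s + 8)) (bridge.vb s (s ^ 2)) bridge.bit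
      (aval (bridge.vb s (s ^ 2)) bridge.bit) := by
  intro ρ hρ g
  have hN : 0 < s ^ 2 + 7 * s + 8 := by positivity
  have hρ0 : 0 < ρ := by
    rcases hρ with rfl | rfl
    · norm_num
    · positivity
  have hw : ∀ c : Fin 5 → Bool, 0 < wR s ρ (c 0) (c 1) (c 2) (c 3) (c 4) := by
    intro c
    unfold wR
    refine mul_pos (wB_pos hs _ _ _ _ _) ?_
    split_ifs
    · exact hρ0
    · norm_num
  have hwe : (fun z => bridge.vb s (s ^ 2) z * if bridge.bit z = true then ρ else 1) =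
      fun c => wR s ρ (c 0) (c 1) (c 2) (c 3) (c 4) := by
    funext c
    rw [wB_eq hs, bit_bridge, wR]
  have hd : 0 ≤ dir (fun c : Fin 5 → Bool => wR s ρ (c 0) (c 1) (c 2) (c 3) (c 4)) g :=
    dir_nonneg (fun c => (hw c).le) _
  rw [hwe, jump_bridge hs, aval_bridge hs, aval_bridge hs]
  simp only [Bool.false_eq_true, if_false, if_true]
  have hs1 : 1 + s ≠ 0 := by positivity
  rcases hρ with rfl | rfl
  · have h1 := flow_bound hw (flow_update s) (div_flow hs) g
    rw [energy_split, energy_one hs] at h1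
    have h2 : par (s ^ 2 * (s ^ 2 + 7 * s + 8)) (1 * (s ^ 3 * (s ^ 2 + 7 * s + 8))) =
        (s ^ 2 + 7 * s + 8) * (s ^ 3 / (1 + s)) := by
      rw [one_mul, mul_comm (s ^ 2), mul_comm (s ^ 3), par_mul hN.ne', par_comm, par_succ hs 2]
    rw [h2, div_pow]
    calc _ = s ^ 3 / (1 + s) / (s ^ 2 + 7 * s + 8) *
          (∑ c : Fin 5 → Bool, tgt s (c 0) (c 1) (c 2) (c 3) (c 4) * g c) ^ 2 := by
          field_simp
      _ ≤ s ^ 3 / (1 + s) / (s ^ 2 + 7 * s + 8) * _ :=
          mul_le_mul_of_nonneg_left h1 (by positivity)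
      _ = _ := by
          field_simp
  · have h1 := flow_bound hw (flowD_update s) (div_flowD hs) g
    rw [energy_splitD, energy_inv hs] at h1
    have h2 : par (s ^ 2 * (s ^ 2 + 7 * s + 8)) ((s ^ 2)⁻¹ * (s ^ 3 * (s ^ 2 + 7 * s + 8))) =
        (s ^ 2 + 7 * s + 8) * (s ^ 2 / (1 + s)) := by
      have h3 : (s ^ 2)⁻¹ * (s ^ 3 * (s ^ 2 + 7 * s + 8)) = (s ^ 2 + 7 * s + 8) * s ^ 1 := by
        field_simp
      rw [h3, mul_comm (s ^ 2), par_mul hN.ne', par_succ hs 1]
    rw [h2, div_pow]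
    calc _ = s ^ 2 / (1 + s) / (s ^ 2 + 7 * s + 8) *
          (∑ c : Fin 5 → Bool, tgt s (c 0) (c 1) (c 2) (c 3) (c 4) * g c) ^ 2 := by
          field_simp
      _ ≤ s ^ 2 / (1 + s) / (s ^ 2 + 7 * s + 8) * _ :=
          mul_le_mul_of_nonneg_left h1 (by positivity)
      _ = _ := by
          field_simp

/-- The bridge is a critical gadget at the self-dual point, with contraction factor `99/100` for
all `0 < q ≤ 5/2`. -/
theorem critical_bridge {q : ℝ} (hq : 0 < q) (hq2 : q ≤ 5 / 2) :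
    Critical bridge (√q / (1 + √q)) q (99 / 100) := by
  set s := √q with hsdef
  have hs : 0 < s := Real.sqrt_pos.mpr hq
  have hsq : s ^ 2 = q := Real.sq_sqrt hq.le
  have h1s : 0 < 1 + s := by positivity
  have hx : s / (1 + s) / (1 - s / (1 + s)) = s := by
    have : 1 - s / (1 + s) = 1 / (1 + s) := by field_simp; ring
    rw [this]
    field_simp
  have hs2 : s ^ 2 ≤ 5 / 2 := by rw [hsq]; exact hq2
  have hs3 : s ≤ 1.582 := by nlinarith
  rw [← hsq]
  refine ⟨by positivity, ?_, by positivity, by norm_num, ?_, ?_, ?_⟩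
  · rw [div_lt_one h1s]
    linarith
  · rw [hx, aval_bridge hs]
    simp only [Bool.false_eq_true, if_false]
    positivity
  · rw [hx, aval_bridge hs, aval_bridge hs]
    simp only [Bool.false_eq_true, if_false, if_true]
    ring
  · rw [hx]
    intro ρ hρ g
    refine (BH_bridge hs ρ hρ g).trans (mul_le_mul_of_nonneg_right ?_ ?_)
    · rw [div_le_iff₀ (by positivity)]
      unfold enP
      nlinarith [mul_pos hs hs, mul_pos (mul_pos hs hs) hs, mul_nonneg hs.le (sub_nonneg.mpr hs2)]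
    · refine dir_nonneg (fun z => ?_) _
      rw [wB_eq hs]
      refine mul_nonneg (wB_pos hs _ _ _ _ _).le ?_
      rcases hρ with rfl | rfl <;> split_ifs <;> positivity

end Pool.Agent.FKH
end

section

/-! Noise sensitivity of the block crossings, uniformly in the volume. -/

open Finset

namespace Pool.Agent.FKH

section single

variable {I E : Type} [Fintype E] [DecidableEq E]

lemma bw_inv (G : Net I E) (p : ℝ) {q : ℝ} (hq : 0 < q) (ω : E → Bool) :
    bw (G.uw p q) G.bit q⁻¹ ω = G.weight p q ω / q ^ 2 := by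
  unfold bw Net.uw
  cases G.bit ω
  · simp
  · simp only [Bool.toNat_true, pow_one, if_true]
    field_simp

lemma fk_eq (G : Net I E) (p : ℝ) {q : ℝ} (hq : 0 < q) (ω : E → Bool) :
    G.fk p q ω = (∑ z, bw (G.uw p q) G.bit q⁻¹ z)⁻¹ * bw (G.uw p q) G.bit q⁻¹ ω := by
  have h1 : ∑ z, bw (G.uw p q) G.bit q⁻¹ z = (∑ z, G.weight p q z) / q ^ 2 := by
    rw [sum_div]
    exact sum_congr rfl fun z _ => bw_inv G p hq z
  rw [h1, bw_inv G p hq, Net.fk]
  have h2 : q ^ 2 ≠ 0 := by positivity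
  have h3 : ∀ a b : ℝ, a / b = (b / q ^ 2)⁻¹ * (a / q ^ 2) := by
    intro a b
    rw [inv_div]
    field_simp
  have h4 : ∀ i j : Fintype (E → Bool),
      G.weight p q ω / @Finset.sum _ _ _ (@Finset.univ _ i) (G.weight p q) =
      (@Finset.sum _ _ _ (@Finset.univ _ j) (G.weight p q) / q ^ 2)⁻¹ *
        (G.weight p q ω / q ^ 2) := by
    intro i j
    rw [Subsingleton.elim i j]
    exact h3 _ _
  exact h4 _ _

variable {G : Net I E} {p q : ℝ}

lemma mass_pos (hp0 : 0 < p) (hp1 : p < 1) (hq : 0 < q) :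
    0 < ∑ z, bw (G.uw p q) G.bit q⁻¹ z := by
  refine sum_pos (fun z _ => ?_) univ_nonempty
  rw [bw_inv G p hq]
  have := Net.weight_pos G hp0 hp1 hq z
  positivity

lemma fk_pos (hp0 : 0 < p) (hp1 : p < 1) (hq : 0 < q) (ω : E → Bool) : 0 < G.fk p q ω := by
  rw [fk_eq G p hq]
  refine mul_pos (inv_pos.mpr (mass_pos hp0 hp1 hq)) ?_
  rw [bw_inv G p hq]
  have := Net.weight_pos G hp0 hp1 hq ω
  positivity

lemma fk_sum (hp0 : 0 < p) (hp1 : p < 1) (hq : 0 < q) : ∑ ω, G.fk p q ω = 1 := by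
  simp only [fk_eq G p hq]
  rw [← mul_sum, inv_mul_cancel₀ (mass_pos hp0 hp1 hq).ne']

/-- The `H^{-1}` bound in the finite volume measure with free boundary conditions. -/
def HM (G : Net I E) (p q : ℝ) (f : (E → Bool) → ℝ) (L : ℝ) : Prop :=
  ∀ h : (E → Bool) → ℝ, |∑ ω, G.fk p q ω * (f ω * h ω) -
    (∑ ω, G.fk p q ω * f ω) * ∑ ω, G.fk p q ω * h ω| ≤ L * √(dir (G.fk p q) h)

lemma HM_lin {f g : (E → Bool) → ℝ} {L L' a c : ℝ} (hf : HM G p q f L) (hg : HM G p q g L')
    (ha : |a| ≤ 1) (hp0 : 0 < p) (hp1 : p < 1) (hq : 0 < q) :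
    HM G p q (fun ω => f ω + (c + a * g ω)) (L + L') := by
  intro h
  have h1 := hf h
  have h2 := hg h
  have hs := fk_sum (G := G) hp0 hp1 hq
  have h3 : ∑ ω, G.fk p q ω * ((f ω + (c + a * g ω)) * h ω) -
      (∑ ω, G.fk p q ω * (f ω + (c + a * g ω))) * ∑ ω, G.fk p q ω * h ω =
      (∑ ω, G.fk p q ω * (f ω * h ω) -
        (∑ ω, G.fk p q ω * f ω) * ∑ ω, G.fk p q ω * h ω) +
      a * (∑ ω, G.fk p q ω * (g ω * h ω) -
        (∑ ω, G.fk p q ω * g ω) * ∑ ω, G.fk p q ω * h ω) := by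
    have e1 : ∑ ω, G.fk p q ω * ((f ω + (c + a * g ω)) * h ω) =
        ∑ ω, G.fk p q ω * (f ω * h ω) + c * ∑ ω, G.fk p q ω * h ω +
          a * ∑ ω, G.fk p q ω * (g ω * h ω) := by
      rw [mul_sum, mul_sum, ← sum_add_distrib, ← sum_add_distrib]
      refine sum_congr rfl fun ω _ => ?_
      ring
    have e2 : ∑ ω, G.fk p q ω * (f ω + (c + a * g ω)) =
        ∑ ω, G.fk p q ω * f ω + c * ∑ ω, G.fk p q ω + a * ∑ ω, G.fk p q ω * g ω := by
      rw [mul_sum, mul_sum, ← sum_add_distrib, ← sum_add_distrib]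
      refine sum_congr rfl fun ω _ => ?_
      ring
    rw [e1, e2, hs]
    ring
  rw [h3, add_mul]
  refine (abs_add_le _ _).trans (add_le_add h1 ?_)
  rw [abs_mul]
  calc |a| * _ ≤ 1 * (L' * √(dir (G.fk p q) h)) :=
        mul_le_mul ha h2 (abs_nonneg _) zero_le_one
    _ = _ := one_mul _

lemma HM_of_MZ {K : ℝ} (hK : 0 ≤ K) {M : (E → Bool) → ℝ}
    (hM : MZ q K (G.uw p q) G.bit M) (hp0 : 0 < p) (hp1 : p < 1) (hq : 0 < q) :
    HM G p q M √K := by
  have hZ := mass_pos (G := G) hp0 hp1 hq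
  set Z := ∑ z, bw (G.uw p q) G.bit q⁻¹ z with hZd
  have key : ∀ h : (E → Bool) → ℝ,
      (∑ ω, G.fk p q ω * (M ω * h ω)) ^ 2 ≤ K * dir (G.fk p q) h := by
    intro h
    have h1 := hM q⁻¹ (Or.inr rfl) h
    have h2 : G.fk p q = fun ω => Z⁻¹ * bw (G.uw p q) G.bit q⁻¹ ω := by
      funext ω
      exact fk_eq G p hq ω
    rw [h2, dir_mul (inv_pos.mpr hZ).ne']
    have h3 : ∑ ω, Z⁻¹ * bw (G.uw p q) G.bit q⁻¹ ω * (M ω * h ω) =
        Z⁻¹ * ∑ ω, bw (G.uw p q) G.bit q⁻¹ ω * (M ω * h ω) := by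
      rw [mul_sum]
      refine sum_congr rfl fun ω _ => ?_
      ring
    rw [h3, mul_pow]
    have h1' : (∑ z, bw (G.uw p q) G.bit q⁻¹ z * (M z * h z)) ^ 2 ≤
        K * Z * dir (bw (G.uw p q) G.bit q⁻¹) h := h1
    calc _ ≤ Z⁻¹ ^ 2 * (K * Z * dir (bw (G.uw p q) G.bit q⁻¹) h) :=
          mul_le_mul_of_nonneg_left h1' (by positivity)
      _ = K * (Z⁻¹ * dir (bw (G.uw p q) G.bit q⁻¹) h) := by
          field_simp
      _ = _ := rfl
  intro h
  have h0 : ∑ ω, G.fk p q ω * M ω = 0 := by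
    have h1 := key (fun _ => 1)
    have h2 : dir (G.fk p q) (fun _ => 1) = 0 := by
      unfold dir pd
      simp
    rw [h2, mul_zero] at h1
    have h3 : (∑ ω, G.fk p q ω * (M ω * 1)) = 0 := by
      have := sq_nonneg (∑ ω, G.fk p q ω * (M ω * 1))
      exact pow_eq_zero_iff (two_ne_zero) |>.mp (le_antisymm h1 this)
    simpa using h3
  rw [h0, zero_mul, sub_zero, ← Real.sqrt_mul hK]
  exact Real.abs_le_sqrt (key h)

end single

section tower

variable {I : Type} [Finite I] {n : ℕ} {H : Net I (Fin (n + 1))} {p q θ : ℝ}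

lemma HM_top (hc : Critical H p q θ) (N : ℕ) :
    HM (H.lattice N) p q (H.lattice N).cross √(θ ^ N) := by
  obtain ⟨h1, h2, h3⟩ := levels hc N
  have hp0 := hc.hp0
  have hp1 := hc.hp1
  have hq := hc.hq
  set G := H.lattice N with hG
  set u := G.uw p q
  set A := aval u G.bit with hA
  have hA1 : 0 < A true := by
    rw [h2]
    have : 0 < 1 - p := by linarith
    positivity
  set ρ := q⁻¹ with hρ
  have hρ0 : 0 < ρ := inv_pos.mpr hq
  intro h
  have h4 := h3 ρ (Or.inr rfl) h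
  have hZ : ∑ z, bw u G.bit ρ z = A false + ρ * A true := by
    rw [hA]
    simp only [aval, mul_sum, ← sum_add_distrib]
    refine sum_congr rfl fun z _ => ?_
    unfold bw
    cases G.bit z <;> simp [mul_comm]
  have hZ0 : 0 < A false + ρ * A true := by positivity
  have hE : ∀ b : Bool, ∑ z, kern u G.bit A b z * h z =
      (∑ z, (if G.bit z = b then u z else 0) * h z) / A b := by
    intro b
    rw [sum_div]
    refine sum_congr rfl fun z _ => ?_
    rw [kern]
    ring
  set S1 := ∑ z, (if G.bit z = true then u z else 0) * h z with hS1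
  set S0 := ∑ z, (if G.bit z = false then u z else 0) * h z with hS0
  have hj : jump u G.bit A h = S1 / A true - S0 / A false := by
    unfold jump
    simp only [sub_mul, sum_sub_distrib]
    rw [hE, hE]
  have hfk : ∀ ω, G.fk p q ω = (A false + ρ * A true)⁻¹ *
      (u ω * if G.bit ω = true then ρ else 1) := by
    intro ω
    rw [fk_eq G p hq, ← hZ]
    rfl
  have e1 : ∑ ω, G.fk p q ω * (G.cross ω * h ω) = ρ * S1 / (A false + ρ * A true) := by
    simp only [hfk]
    rw [hS1, mul_sum, sum_div]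
    refine sum_congr rfl fun z _ => ?_
    rw [Net.cross_eq]
    split_ifs
    · field_simp
    · simp
  have e2 : ∑ ω, G.fk p q ω * G.cross ω = ρ * A true / (A false + ρ * A true) := by
    simp only [hfk]
    have hA2 : ρ * A true / (A false + ρ * A true) =
        ∑ z, ρ * (if G.bit z = true then u z else 0) / (A false + ρ * A true) := by
      rw [← sum_div, ← mul_sum]
      rfl
    rw [hA2]
    refine sum_congr rfl fun z _ => ?_
    rw [Net.cross_eq]
    split_ifs
    · field_simp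
    · simp
  have e3 : ∑ ω, G.fk p q ω * h ω = (S0 + ρ * S1) / (A false + ρ * A true) := by
    simp only [hfk]
    rw [hS1, hS0, mul_sum, ← sum_add_distrib, sum_div]
    refine sum_congr rfl fun z _ => ?_
    cases G.bit z
    · simp
      field_simp
    · simp
      field_simp
  have hcov : ∑ ω, G.fk p q ω * (G.cross ω * h ω) -
      (∑ ω, G.fk p q ω * G.cross ω) * ∑ ω, G.fk p q ω * h ω =
      par (A false) (ρ * A true) / (A false + ρ * A true) * jump u G.bit A h := by
    rw [e1, e2, e3, hj, par]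
    field_simp
    ring
  have hdir : dir (G.fk p q) h = (A false + ρ * A true)⁻¹ *
      dir (fun z => u z * if G.bit z = true then ρ else 1) h := by
    have h5 : G.fk p q = fun ω => (A false + ρ * A true)⁻¹ * bw u G.bit ρ ω := by
      funext ω
      exact hfk ω
    rw [h5, dir_mul (inv_pos.mpr hZ0).ne']
    rfl
  rw [hcov, ← Real.sqrt_mul (pow_nonneg hc.hθ N)]
  apply Real.abs_le_sqrt
  rw [hdir, mul_pow]
  set P := par (A false) (ρ * A true) with hP
  set D := dir (fun z => u z * if G.bit z = true then ρ else 1) h with hD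
  have hP0 : 0 < P := par_pos h1 (by positivity)
  have hPZ : P ≤ A false + ρ * A true := by
    rw [hP, par, div_le_iff₀ hZ0]
    have hb : 0 < ρ * A true := mul_pos hρ0 hA1
    have := mul_pos h1 hb
    have h6 := mul_pos h1 h1
    have h7 := mul_pos hb hb
    have h8 : (A false + ρ * A true) * (A false + ρ * A true) = A false * A false +
      2 * (A false * (ρ * A true)) + ρ * A true * (ρ * A true) := by ring
    rw [h8]
    linarith
  have hD0 : 0 ≤ θ ^ N * D := le_trans (by positivity) h4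
  calc (P / (A false + ρ * A true)) ^ 2 * jump u G.bit A h ^ 2 =
        P / (A false + ρ * A true) * ((A false + ρ * A true)⁻¹ *
          (P * jump u G.bit A h ^ 2)) := by ring
    _ ≤ 1 * ((A false + ρ * A true)⁻¹ * (θ ^ N * D)) := by
        refine mul_le_mul ((div_le_one hZ0).mpr hPZ)
          (mul_le_mul_of_nonneg_left h4 (inv_nonneg.mpr hZ0.le)) (by positivity) zero_le_one
    _ = _ := by ring

lemma IsBlock.le {E : Type} {k N : ℕ} {ι : LEdge E k → LEdge E N} (h : IsBlock E k N ι) :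
    k ≤ N := by
  induction h with
  | refl => exact le_rfl
  | step N ι e h ih => exact ih.trans (Nat.le_succ N)

lemma IsBlock.eq_id {E : Type} {k N : ℕ} {ι : LEdge E k → LEdge E N} (h : IsBlock E k N ι)
    (hkN : k = N) : HEq ι (id : LEdge E k → LEdge E k) := by
  induction h with
  | refl => rfl
  | step N ι e h ih =>
    have := h.le
    omega

lemma IsBlock.peel {E : Type} {k N : ℕ} {ι : LEdge E k → LEdge E N} (h : IsBlock E k N ι)
    (hkN : k < N) : ∃ (e : E) (κ : LEdge E (k + 1) → LEdge E N), IsBlock E (k + 1) N κ ∧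
      ∀ x : LEdge E k, ι x = κ (e, x) := by
  induction h with
  | refl => omega
  | step N ι e h ih =>
    rcases h.le.eq_or_lt with h1 | h1
    · subst h1
      have h2 := eq_of_heq (h.eq_id rfl)
      subst h2
      exact ⟨e, id, IsBlock.refl _, fun x => rfl⟩
    · obtain ⟨e', κ, hκ, h2⟩ := ih h1
      exact ⟨e', fun y => (e, κ y), IsBlock.step _ _ _ _ hκ, fun x => by
        show (e, ι x) = (e, κ (e', x))
        rw [h2]⟩

lemma MZ_block (hc : Critical H p q θ) {k : ℕ} {K : ℝ} (hK : 0 ≤ K)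
    {M : (LEdge (Fin (n + 1)) k → Bool) → ℝ}
    (hM : MZ q K ((H.lattice k).uw p q) (H.lattice k).bit M) {N : ℕ}
    {ι : LEdge (Fin (n + 1)) k → LEdge (Fin (n + 1)) N} (h : IsBlock (Fin (n + 1)) k N ι) :
    MZ q K ((H.lattice N).uw p q) (H.lattice N).bit (fun ω => M (ω ∘ ι)) := by
  induction h with
  | refl => exact hM
  | step N ι e h ih =>
    exact MZ_embed H (H.lattice N) hc.hp0 hc.hp1 hc.hq hK ih e

lemma MB_block (hc : Critical H p q θ) {k : ℕ} {a b : ℝ}
    {M : (LEdge (Fin (n + 1)) k → Bool) → ℝ}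
    (hM : MB q a b ((H.lattice k).uw p q) (H.lattice k).bit M) {N : ℕ}
    {ι : LEdge (Fin (n + 1)) k → LEdge (Fin (n + 1)) N} (h : IsBlock (Fin (n + 1)) k N ι) :
    MB q a b ((H.lattice N).uw p q) (H.lattice N).bit (fun ω => M (ω ∘ ι)) := by
  induction h with
  | refl => exact hM
  | step N ι e h ih =>
    exact MB_embed H (H.lattice N) hc.hp0 hc.hp1 hc.hq ih e

end tower

end Pool.Agent.FKH
end
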