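import Pool.Agent.Lib.MP_a14fda_pr.Mg.G005

section

/-! The weighted number of open edges is a slow observable when the sum of the squares of the
influences exceeds one. -/

open Finset

namespace Pool.Agent.FKH

/-- The crossing odds of the gadget are preserved. -/
structure FixedPt {I : Type} [Finite I] {n : ℕ} (H : Net I (Fin (n + 1))) (p q : ℝ) : Prop where
  hp0 : 0 < p
  hp1 : p < 1
  hq : 0 < q
  pos : 0 < aval (H.vb (p / (1 - p)) q) H.bit false
  fix : aval (H.vb (p / (1 - p)) q) H.bit true =
    p / (1 - p) * aval (H.vb (p / (1 - p)) q) H.bit false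

variable {I : Type} [Finite I] {n : ℕ} {H : Net I (Fin (n + 1))} {p q : ℝ}

lemma FixedPt.x_pos (hc : FixedPt H p q) : 0 < p / (1 - p) :=
  div_pos hc.hp0 (by linarith [hc.hp1])

lemma levels' (hc : FixedPt H p q) (k : ℕ) :
    0 < aval ((H.lattice k).uw p q) (H.lattice k).bit false ∧
    aval ((H.lattice k).uw p q) (H.lattice k).bit true =
      p / (1 - p) * aval ((H.lattice k).uw p q) (H.lattice k).bit false := by
  have hp1 : 0 < 1 - p := by linarith [hc.hp1]
  have hx := hc.x_pos
  induction k with
  | zero =>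
    refine ⟨?_, ?_⟩
    · rw [aval_zero H p hc.hq]
      simpa using hc.hp1
    · rw [aval_zero H p hc.hq, aval_zero H p hc.hq]
      simp only [if_true, Bool.false_eq_true, if_false]
      field_simp
  | succ k ih =>
    obtain ⟨h1, h2⟩ := ih
    have hA0 : ∀ b, 0 < aval ((H.lattice k).uw p q) (H.lattice k).bit b := by
      intro b
      cases b
      · exact h1
      · rw [h2]
        positivity
    have h4 := vb_scale H (p / (1 - p)) q _ h2
    have h5 : ∀ b, aval ((H.lattice (k + 1)).uw p q) (H.lattice (k + 1)).bit b =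
        aval ((H.lattice k).uw p q) (H.lattice k).bit false ^ (n + 1) *
          aval (H.vb (p / (1 - p)) q) H.bit b := by
      intro b
      have h6 := aval_subst H (H.lattice k) p hc.hq hA0 b
      have h7 : (∑ c, if H.bit c = b then H.wb q c *
          ∏ j, aval ((H.lattice k).uw p q) (H.lattice k).bit (c j) else 0) =
          aval (fun c => H.wb q c * ∏ j, aval ((H.lattice k).uw p q) (H.lattice k).bit (c j))
            H.bit b := rfl
      rw [h7, h4, aval_smul] at h6
      exact h6
    refine ⟨?_, ?_⟩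
    · rw [h5]
      exact mul_pos (pow_pos h1 _) hc.pos
    · rw [h5, h5, hc.fix]
      ring

lemma A_pos (hc : FixedPt H p q) (k : ℕ) (b : Bool) :
    0 < aval ((H.lattice k).uw p q) (H.lattice k).bit b := by
  obtain ⟨h1, h2⟩ := levels' hc k
  cases b
  · exact h1
  · rw [h2]
    exact mul_pos hc.x_pos h1

/-- Conditional expectation given the crossing bit at level `k`. -/
noncomputable def ce (H : Net I (Fin (n + 1))) (p q : ℝ) (k : ℕ) (b : Bool)
    (f : (LEdge (Fin (n + 1)) k → Bool) → ℝ) : ℝ :=
  ∑ z, kern ((H.lattice k).uw p q) (H.lattice k).bit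
    (aval ((H.lattice k).uw p q) (H.lattice k).bit) b z * f z

/-- Conditional expectation given the crossing bit of the gadget. -/
noncomputable def cb (H : Net I (Fin (n + 1))) (p q : ℝ) (b : Bool)
    (f : (Fin (n + 1) → Bool) → ℝ) : ℝ :=
  ∑ c, kern (H.vb (p / (1 - p)) q) H.bit (aval (H.vb (p / (1 - p)) q) H.bit) b c * f c

lemma ce_nonneg_kern (hc : FixedPt H p q) (k : ℕ) (b : Bool)
    (z : LEdge (Fin (n + 1)) k → Bool) :
    0 ≤ kern ((H.lattice k).uw p q) (H.lattice k).bit
      (aval ((H.lattice k).uw p q) (H.lattice k).bit) b z := by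
  unfold kern
  refine div_nonneg ?_ (A_pos hc k b).le
  split_ifs
  · exact (Net.uw_pos _ hc.hp0 hc.hp1 hc.hq z).le
  · exact le_rfl

lemma ce_one (hc : FixedPt H p q) (k : ℕ) (b : Bool) : ce H p q k b (fun _ => 1) = 1 := by
  unfold ce
  simp only [mul_one]
  exact sum_kern (fun _ => rfl) (A_pos hc k) b

lemma vA_pos (hc : FixedPt H p q) (b : Bool) :
    0 < aval (H.vb (p / (1 - p)) q) H.bit b := by
  cases b
  · exact hc.pos
  · rw [hc.fix]
    exact mul_pos hc.x_pos hc.pos

lemma cb_nonneg_kern (hc : FixedPt H p q) (b : Bool) (c : Fin (n + 1) → Bool) :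
    0 ≤ kern (H.vb (p / (1 - p)) q) H.bit (aval (H.vb (p / (1 - p)) q) H.bit) b c := by
  unfold kern
  refine div_nonneg ?_ (vA_pos hc b).le
  split_ifs
  · exact mul_nonneg (Net.wb_pos H hc.hq c).le (prod_nonneg fun j _ => by
      have := hc.x_pos
      split_ifs <;> positivity)
  · exact le_rfl

lemma cb_one (hc : FixedPt H p q) (b : Bool) : cb H p q b (fun _ => 1) = 1 := by
  unfold cb
  simp only [mul_one]
  exact sum_kern (fun _ => rfl) (vA_pos hc) b

/-- The conditional expectation at level `k + 1` through the bits. -/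
lemma ce_succ (hc : FixedPt H p q) (k : ℕ) (b : Bool)
    (f : (LEdge (Fin (n + 1)) (k + 1) → Bool) → ℝ) :
    ce H p q (k + 1) b f = cb H p q b
      (cond ((H.lattice k).uw p q) (H.lattice k).bit
        (aval ((H.lattice k).uw p q) (H.lattice k).bit) f) := by
  obtain ⟨h1, h2⟩ := levels' hc k
  have hA0 := A_pos hc k
  have h4 := vb_scale H (p / (1 - p)) q _ h2
  have h5 : aval ((H.lattice (k + 1)).uw p q) (H.lattice (k + 1)).bit b =
      aval ((H.lattice k).uw p q) (H.lattice k).bit false ^ (n + 1) *
        aval (H.vb (p / (1 - p)) q) H.bit b := by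
    have h6 := aval_subst H (H.lattice k) p hc.hq hA0 b
    have h7 : (∑ c, if H.bit c = b then H.wb q c *
        ∏ j, aval ((H.lattice k).uw p q) (H.lattice k).bit (c j) else 0) =
        aval (fun c => H.wb q c * ∏ j, aval ((H.lattice k).uw p q) (H.lattice k).bit (c j))
          H.bit b := rfl
    rw [h7, h4, aval_smul] at h6
    exact h6
  set a := aval ((H.lattice k).uw p q) (H.lattice k).bit false ^ (n + 1) with ha
  have ha0 : a ≠ 0 := (pow_pos h1 _).ne'
  have hB := (vA_pos hc b).ne'
  set B := aval (H.vb (p / (1 - p)) q) H.bit b with hBd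
  have t1 := tower (n := n) (u := (H.lattice k).uw p q) (γ := (H.lattice k).bit) hA0
    (fun c => (if H.bit c = b then H.wb q c else 0) / (a * B)) f
  unfold ce
  have h8 : ∀ Φ : (LEdge (Fin (n + 1)) (k + 1) → Bool) → ℝ, ∑ z, Φ z =
      ∑ η : Fin (n + 1) → LEdge (Fin (n + 1)) k → Bool, Φ (unc η) := fun Φ => sum_unc Φ
  rw [h8]
  calc _ = ∑ η : Fin (n + 1) → LEdge (Fin (n + 1)) k → Bool,
        (if H.bit (fun j => (H.lattice k).bit (η j)) = b then
          H.wb q (fun j => (H.lattice k).bit (η j)) else 0) / (a * B) *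
          (∏ j, (H.lattice k).uw p q (η j)) * f (unc η) := by
        refine sum_congr rfl fun η _ => ?_
        rw [kern, h5]
        have e1 : (H.lattice (k + 1)).bit (unc η) = H.bit (fun j => (H.lattice k).bit (η j)) :=
          Net.bit_subst H (H.lattice k) (unc η)
        have e2 : (H.lattice (k + 1)).uw p q (unc η) =
            H.wb q (fun j => (H.lattice k).bit (η j)) * ∏ j, (H.lattice k).uw p q (η j) :=
          Net.uw_subst H (H.lattice k) p hc.hq (unc η)
        rw [e1, e2]
        split_ifs
        · ring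
        · simp
    _ = _ := t1
    _ = _ := by
        rw [cb]
        refine sum_congr rfl fun c _ => ?_
        have e3 := congrFun h4 c
        rw [kern, ← hBd]
        split_ifs
        · calc _ = (H.wb q c * ∏ j, aval ((H.lattice k).uw p q) (H.lattice k).bit (c j)) /
              (a * B) * cond ((H.lattice k).uw p q) (H.lattice k).bit
                (aval ((H.lattice k).uw p q) (H.lattice k).bit) f c := by ring
            _ = _ := by
              rw [e3]
              field_simp
        · simp

/-- The conditional expectation of a product over the blocks. -/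
lemma cond_prod (H : Net I (Fin (n + 1))) (p q : ℝ) (k : ℕ)
    (g : Fin (n + 1) → (LEdge (Fin (n + 1)) k → Bool) → ℝ) (c : Fin (n + 1) → Bool) :
    cond ((H.lattice k).uw p q) (H.lattice k).bit
      (aval ((H.lattice k).uw p q) (H.lattice k).bit)
      (fun ω => ∏ j, g j fun f => ω (j, f)) c = ∏ j, ce H p q k (c j) (g j) := by
  unfold cond ce
  rw [Fintype.prod_sum]
  refine sum_congr rfl fun η _ => ?_
  rw [prod_mul_distrib]
  rfl

end Pool.Agent.FKH
end

section

/-! The slow observable. -/

open Finset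

namespace Pool.Agent.FKH

variable {I : Type} [Finite I] {n : ℕ} {H : Net I (Fin (n + 1))} {p q : ℝ}

lemma cond_two (hc : FixedPt H p q) (k : ℕ) (F G : (LEdge (Fin (n + 1)) k → Bool) → ℝ)
    (c : Fin (n + 1) → Bool) {e e' : Fin (n + 1)} (he : e ≠ e') :
    cond ((H.lattice k).uw p q) (H.lattice k).bit
      (aval ((H.lattice k).uw p q) (H.lattice k).bit)
      (fun ω => F (fun f => ω (e, f)) * G (fun f => ω (e', f))) c =
      ce H p q k (c e) F * ce H p q k (c e') G := by
  have h1 := cond_prod H p q k
    (fun j z => (if j = e then F z else 1) * (if j = e' then G z else 1)) c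
  have h2 : (fun ω : Fin (n + 1) × LEdge (Fin (n + 1)) k → Bool =>
      ∏ j, (fun (j : Fin (n + 1)) (z : LEdge (Fin (n + 1)) k → Bool) =>
        (if j = e then F z else 1) * (if j = e' then G z else 1)) j fun f => ω (j, f)) =
      fun ω => F (fun f => ω (e, f)) * G (fun f => ω (e', f)) := by
    funext ω
    simp only
    rw [prod_mul_distrib, prod_ite_eq', prod_ite_eq']
    simp
  rw [h2] at h1
  rw [h1]
  have h3 : ∀ j, ce H p q k (c j)
      (fun z => (if j = e then F z else 1) * (if j = e' then G z else 1)) =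
      (if j = e then ce H p q k (c j) F else 1) * (if j = e' then ce H p q k (c j) G else 1) := by
    intro j
    by_cases h4 : j = e
    · subst h4
      simp [he]
    · by_cases h5 : j = e'
      · subst h5
        simp [h4]
      · simp only [h4, h5, if_false, mul_one]
        exact ce_one hc k _
  simp only [h3]
  rw [prod_mul_distrib, prod_ite_eq', prod_ite_eq']
  simp

lemma cond_single (hc : FixedPt H p q) (k : ℕ) (F : (LEdge (Fin (n + 1)) k → Bool) → ℝ)
    (c : Fin (n + 1) → Bool) (e : Fin (n + 1)) :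
    cond ((H.lattice k).uw p q) (H.lattice k).bit
      (aval ((H.lattice k).uw p q) (H.lattice k).bit)
      (fun ω => F (fun f => ω (e, f))) c = ce H p q k (c e) F := by
  have h1 := cond_prod H p q k (fun j z => (if j = e then F z else 1)) c
  have h2 : (fun ω : Fin (n + 1) × LEdge (Fin (n + 1)) k → Bool =>
      ∏ j, (fun (j : Fin (n + 1)) (z : LEdge (Fin (n + 1)) k → Bool) =>
        (if j = e then F z else 1)) j fun f => ω (j, f)) =
      fun ω => F (fun f => ω (e, f)) := by
    funext ω
    simp only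
    rw [prod_ite_eq']
    simp
  rw [h2] at h1
  rw [h1]
  have h3 : ∀ j, ce H p q k (c j) (fun z => (if j = e then F z else 1)) =
      (if j = e then ce H p q k (c j) F else 1) := by
    intro j
    by_cases h4 : j = e
    · simp only [h4, if_true]
    · simp only [h4, if_false]
      exact ce_one hc k _
  simp only [h3]
  rw [prod_ite_eq']
  simp

lemma cond_add {k : ℕ} (u : (LEdge (Fin (n + 1)) k → Bool) → ℝ) (γ A)
    (f g : (Fin (n + 1) × LEdge (Fin (n + 1)) k → Bool) → ℝ) (c : Fin (n + 1) → Bool) :
    cond u γ A (fun ω => f ω + g ω) c = cond u γ A f c + cond u γ A g c := by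
  unfold cond
  rw [← sum_add_distrib]
  exact sum_congr rfl fun η _ => by ring

lemma cond_sum {k : ℕ} {ι : Type} (s : Finset ι) (u : (LEdge (Fin (n + 1)) k → Bool) → ℝ) (γ A)
    (f : ι → (Fin (n + 1) × LEdge (Fin (n + 1)) k → Bool) → ℝ) (c : Fin (n + 1) → Bool) :
    cond u γ A (fun ω => ∑ i ∈ s, f i ω) c = ∑ i ∈ s, cond u γ A (f i) c := by
  unfold cond
  rw [sum_comm]
  exact sum_congr rfl fun η _ => by rw [mul_sum]

lemma cond_smul {k : ℕ} (u : (LEdge (Fin (n + 1)) k → Bool) → ℝ) (γ A) (a : ℝ)
    (f : (Fin (n + 1) × LEdge (Fin (n + 1)) k → Bool) → ℝ) (c : Fin (n + 1) → Bool) :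
    cond u γ A (fun ω => a * f ω) c = a * cond u γ A f c := by
  unfold cond
  rw [mul_sum]
  exact sum_congr rfl fun η _ => by ring

/-- A function of the bits comes out of the conditional expectation. -/
lemma cond_bits (hc : FixedPt H p q) (k : ℕ) (m : (Fin (n + 1) → Bool) → ℝ)
    (f : (Fin (n + 1) × LEdge (Fin (n + 1)) k → Bool) → ℝ) (c : Fin (n + 1) → Bool) :
    cond ((H.lattice k).uw p q) (H.lattice k).bit
      (aval ((H.lattice k).uw p q) (H.lattice k).bit)
      (fun ω => m ((H.lattice k).bits ω) * f ω) c =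
    m c * cond ((H.lattice k).uw p q) (H.lattice k).bit
      (aval ((H.lattice k).uw p q) (H.lattice k).bit) f c := by
  have hA := A_pos hc k
  unfold cond
  rw [mul_sum]
  refine sum_congr rfl fun η _ => ?_
  have hb : (H.lattice k).bits (unc η) = fun j => (H.lattice k).bit (η j) := rfl
  simp only [hb]
  by_cases h : (fun j => (H.lattice k).bit (η j)) = c
  · rw [h]
    ring
  · have h0 : ∏ j, kern ((H.lattice k).uw p q) (H.lattice k).bit
        (aval ((H.lattice k).uw p q) (H.lattice k).bit) (c j) (η j) = 0 := by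
      have : ∃ j, (H.lattice k).bit (η j) ≠ c j := by
        by_contra hcon
        push Not at hcon
        exact h (funext hcon)
      obtain ⟨j, hj⟩ := this
      refine prod_eq_zero (mem_univ j) ?_
      rw [kern, if_neg hj, zero_div]
    rw [h0]
    ring

/-- The influence of the edge `e` of the gadget. -/
noncomputable def infl (H : Net I (Fin (n + 1))) (p q : ℝ) (e : Fin (n + 1)) : ℝ :=
  cb H p q true (fun c => if c e = true then 1 else 0) -
    cb H p q false (fun c => if c e = true then 1 else 0)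

/-- The slow observable: the weighted number of open edges. -/
noncomputable def slow (H : Net I (Fin (n + 1))) (p q : ℝ) :
    (k : ℕ) → (LEdge (Fin (n + 1)) k → Bool) → ℝ
  | 0 => fun ω => if ω () = true then 1 else 0
  | k + 1 => fun ω => ∑ e : Fin (n + 1), infl H p q e * slow H p q k (fun f => ω (e, f))

/-- The sum of the squares of the influences. -/
noncomputable def jsum (H : Net I (Fin (n + 1))) (p q : ℝ) : ℝ := ∑ e, infl H p q e ^ 2

/-- The mean of the slow observable given the crossing bit. -/
noncomputable def mu (H : Net I (Fin (n + 1))) (p q : ℝ) (k : ℕ) (b : Bool) : ℝ :=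
  ce H p q k b (slow H p q k)

lemma cb_add (b : Bool) (f g : (Fin (n + 1) → Bool) → ℝ) :
    cb H p q b (fun c => f c + g c) = cb H p q b f + cb H p q b g := by
  unfold cb
  rw [← sum_add_distrib]
  exact sum_congr rfl fun η _ => by ring

lemma cb_smul (b : Bool) (a : ℝ) (f : (Fin (n + 1) → Bool) → ℝ) :
    cb H p q b (fun c => a * f c) = a * cb H p q b f := by
  unfold cb
  rw [mul_sum]
  exact sum_congr rfl fun η _ => by ring

lemma cb_sum {ι : Type} (s : Finset ι) (b : Bool) (f : ι → (Fin (n + 1) → Bool) → ℝ) :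
    cb H p q b (fun c => ∑ i ∈ s, f i c) = ∑ i ∈ s, cb H p q b (f i) := by
  unfold cb
  rw [sum_comm]
  exact sum_congr rfl fun η _ => by rw [mul_sum]

lemma cb_const (hc : FixedPt H p q) (b : Bool) (a : ℝ) : cb H p q b (fun _ => a) = a := by
  have h := cb_smul (H := H) (p := p) (q := q) b a (fun _ => 1)
  rw [cb_one hc, mul_one] at h
  simpa using h

lemma cond_slow (hc : FixedPt H p q) (k : ℕ) (c : Fin (n + 1) → Bool) :
    cond ((H.lattice k).uw p q) (H.lattice k).bit
      (aval ((H.lattice k).uw p q) (H.lattice k).bit) (slow H p q (k + 1)) c =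
      ∑ e, infl H p q e * mu H p q k (c e) := by
  refine (cond_sum (k := k) univ _ _ _
    (fun e ω => infl H p q e * slow H p q k (fun f => ω (e, f))) c).trans ?_
  refine sum_congr rfl fun e _ => ?_
  refine (cond_smul (k := k) _ _ _ _ (fun ω => slow H p q k (fun f => ω (e, f))) c).trans ?_
  rw [cond_single hc]
  rfl

lemma mu_succ (hc : FixedPt H p q) (k : ℕ) (b : Bool) :
    mu H p q (k + 1) b = ∑ e, infl H p q e * (mu H p q k false +
      (mu H p q k true - mu H p q k false) *
        cb H p q b (fun c => if c e = true then 1 else 0)) := by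
  rw [mu, ce_succ hc]
  have h1 : cond ((H.lattice k).uw p q) (H.lattice k).bit
      (aval ((H.lattice k).uw p q) (H.lattice k).bit) (slow H p q (k + 1)) =
      fun c => ∑ e ∈ univ, infl H p q e * (mu H p q k false +
      (mu H p q k true - mu H p q k false) * (if c e = true then 1 else 0)) := by
    funext c
    rw [cond_slow hc]
    refine sum_congr rfl fun e _ => ?_
    cases c e <;> simp
  rw [h1, cb_sum]
  refine sum_congr rfl fun e _ => ?_
  rw [cb_smul, cb_add, cb_smul, cb_const hc]

lemma mu_diff (hc : FixedPt H p q) (k : ℕ) :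
    mu H p q k true - mu H p q k false = jsum H p q ^ k := by
  induction k with
  | zero =>
    have h0 : ∀ b, mu H p q 0 b = if b = true then 1 else 0 := by
      intro b
      unfold mu ce
      rw [sum_zero]
      simp only [kern, aval_zero H p hc.hq, bit_zero, uw_zero H p hc.hq, slow]
      have h1 : p ≠ 0 := hc.hp0.ne'
      cases b <;> simp [h1]
    rw [h0, h0, pow_zero]
    simp
  | succ k ih =>
    rw [mu_succ hc, mu_succ hc, ← sum_sub_distrib, pow_succ, ← ih, jsum, mul_sum]
    refine sum_congr rfl fun e _ => ?_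
    rw [infl]
    ring

end Pool.Agent.FKH
end

section

/-! The variance of the slow observable given the crossing bit. -/

open Finset

namespace Pool.Agent.FKH

variable {I : Type} [Finite I] {n : ℕ} {H : Net I (Fin (n + 1))} {p q : ℝ}

/-- The slow observable minus its conditional mean. -/
noncomputable def tee (H : Net I (Fin (n + 1))) (p q : ℝ) (k : ℕ)
    (ω : LEdge (Fin (n + 1)) k → Bool) : ℝ :=
  slow H p q k ω - mu H p q k ((H.lattice k).bit ω)

/-- The conditional variance. -/
noncomputable def vee (H : Net I (Fin (n + 1))) (p q : ℝ) (k : ℕ) (b : Bool) : ℝ :=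
  ce H p q k b (fun ω => tee H p q k ω ^ 2)

lemma ce_bit (k : ℕ) (b : Bool) (m : Bool → ℝ) (f : (LEdge (Fin (n + 1)) k → Bool) → ℝ) :
    ce H p q k b (fun ω => m ((H.lattice k).bit ω) * f ω) = m b * ce H p q k b f := by
  unfold ce
  rw [mul_sum]
  refine sum_congr rfl fun z _ => ?_
  unfold kern
  split_ifs with h
  · simp only [h]
    ring
  · simp

lemma ce_add (k : ℕ) (b : Bool) (f g : (LEdge (Fin (n + 1)) k → Bool) → ℝ) :
    ce H p q k b (fun ω => f ω + g ω) = ce H p q k b f + ce H p q k b g := by
  unfold ce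
  rw [← sum_add_distrib]
  exact sum_congr rfl fun η _ => by ring

lemma ce_smul (k : ℕ) (b : Bool) (a : ℝ) (f : (LEdge (Fin (n + 1)) k → Bool) → ℝ) :
    ce H p q k b (fun ω => a * f ω) = a * ce H p q k b f := by
  unfold ce
  rw [mul_sum]
  exact sum_congr rfl fun η _ => by ring

lemma ce_fun_bit (hc : FixedPt H p q) (k : ℕ) (b : Bool) (m : Bool → ℝ) :
    ce H p q k b (fun ω => m ((H.lattice k).bit ω)) = m b := by
  have h := ce_bit (H := H) (p := p) (q := q) k b m (fun _ => 1)
  rw [ce_one hc, mul_one] at h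
  simpa using h

lemma ce_tee (hc : FixedPt H p q) (k : ℕ) (b : Bool) : ce H p q k b (tee H p q k) = 0 := by
  have h1 : tee H p q k = fun ω => slow H p q k ω +
      (fun b => -mu H p q k b) ((H.lattice k).bit ω) := by
    funext ω
    simp only [tee]
    ring
  have h2 := ce_fun_bit hc k b (fun b => -mu H p q k b)
  rw [h1, ce_add, h2, mu]
  ring

lemma cb_le (hc : FixedPt H p q) (b : Bool) {f : (Fin (n + 1) → Bool) → ℝ} {a : ℝ}
    (h : ∀ c, f c ≤ a) : cb H p q b f ≤ a := by
  have h1 : cb H p q b f ≤ cb H p q b (fun _ => a) := by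
    unfold cb
    exact sum_le_sum fun c _ => mul_le_mul_of_nonneg_left (h c) (cb_nonneg_kern hc b c)
  rwa [cb_const hc] at h1

lemma le_cb (hc : FixedPt H p q) (b : Bool) {f : (Fin (n + 1) → Bool) → ℝ} {a : ℝ}
    (h : ∀ c, a ≤ f c) : a ≤ cb H p q b f := by
  have h1 : cb H p q b (fun _ => a) ≤ cb H p q b f := by
    unfold cb
    exact sum_le_sum fun c _ => mul_le_mul_of_nonneg_left (h c) (cb_nonneg_kern hc b c)
  rwa [cb_const hc] at h1

/-- The fluctuation of the mean of the slow observable at the next level. -/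
noncomputable def emm (H : Net I (Fin (n + 1))) (p q : ℝ) (k : ℕ) (c : Fin (n + 1) → Bool) : ℝ :=
  ∑ e, infl H p q e * mu H p q k (c e) - mu H p q (k + 1) (H.bit c)

/-- The sum of the absolute values of the influences. -/
noncomputable def labs (H : Net I (Fin (n + 1))) (p q : ℝ) : ℝ := ∑ e, |infl H p q e|

lemma labs_nonneg : 0 ≤ labs H p q := sum_nonneg fun _ _ => abs_nonneg _

lemma jsum_nonneg : 0 ≤ jsum H p q := sum_nonneg fun _ _ => sq_nonneg _

lemma abs_emm_le (hc : FixedPt H p q) (k : ℕ) (c : Fin (n + 1) → Bool) :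
    |emm H p q k c| ≤ labs H p q * jsum H p q ^ k := by
  have h1 : emm H p q k c = ∑ e, infl H p q e * (jsum H p q ^ k *
      ((if c e = true then 1 else 0) -
        cb H p q (H.bit c) (fun c => if c e = true then 1 else 0))) := by
    rw [emm, mu_succ hc, ← sum_sub_distrib, ← mu_diff hc]
    refine sum_congr rfl fun e _ => ?_
    cases c e
    · simp only [Bool.false_eq_true, if_false]
      ring
    · simp only [if_true]
      ring
  have hJ : 0 ≤ jsum H p q ^ k := pow_nonneg jsum_nonneg k
  rw [h1, labs, sum_mul]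
  refine (abs_sum_le_sum_abs _ _).trans (sum_le_sum fun e _ => ?_)
  rw [abs_mul]
  refine mul_le_mul_of_nonneg_left ?_ (abs_nonneg _)
  rw [abs_mul, abs_of_nonneg hJ]
  have h2 : cb H p q (H.bit c) (fun c => if c e = true then (1 : ℝ) else 0) ≤ 1 :=
    cb_le hc _ fun c => by split_ifs <;> norm_num
  have h3 : 0 ≤ cb H p q (H.bit c) (fun c => if c e = true then (1 : ℝ) else 0) :=
    le_cb hc _ fun c => by split_ifs <;> norm_num
  have h4 : |(if c e = true then (1 : ℝ) else 0) -
      cb H p q (H.bit c) (fun c => if c e = true then 1 else 0)| ≤ 1 := by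
    rw [abs_le]
    constructor <;> split_ifs <;> linarith
  calc jsum H p q ^ k * _ ≤ jsum H p q ^ k * 1 := mul_le_mul_of_nonneg_left h4 hJ
    _ = _ := mul_one _

lemma tee_succ (k : ℕ) (ω : LEdge (Fin (n + 1)) (k + 1) → Bool) :
    tee H p q (k + 1) ω = ∑ e : Fin (n + 1), infl H p q e * tee H p q k (fun f => ω (e, f)) +
      emm H p q k ((H.lattice k).bits ω) := by
  have hb : (H.lattice (k + 1)).bit ω = H.bit ((H.lattice k).bits ω) :=
    Net.bit_subst H (H.lattice k) ω
  have hs : slow H p q (k + 1) ω =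
      ∑ e : Fin (n + 1), infl H p q e * slow H p q k (fun f => ω (e, f)) := rfl
  rw [tee, hb, hs, emm]
  simp only [tee, mul_sub, sum_sub_distrib]
  have hb2 : ∀ e, (H.lattice k).bits ω e = (H.lattice k).bit (fun f => ω (e, f)) := fun _ => rfl
  simp only [hb2]
  ring

lemma cond_tee (hc : FixedPt H p q) (k : ℕ) (c : Fin (n + 1) → Bool) :
    cond ((H.lattice k).uw p q) (H.lattice k).bit
      (aval ((H.lattice k).uw p q) (H.lattice k).bit)
      (fun ω => tee H p q (k + 1) ω ^ 2) c =
      ∑ e, infl H p q e ^ 2 * vee H p q k (c e) + emm H p q k c ^ 2 := by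
  set T : Fin (n + 1) → (Fin (n + 1) × LEdge (Fin (n + 1)) k → Bool) → ℝ :=
    fun e ω => tee H p q k (fun f => ω (e, f)) with hT
  have h1 : (fun ω : Fin (n + 1) × LEdge (Fin (n + 1)) k → Bool => tee H p q (k + 1) ω ^ 2) =
      fun ω => ((∑ e ∈ univ, ∑ e' ∈ univ, infl H p q e * infl H p q e' * (T e ω * T e' ω)) +
        2 * (emm H p q k ((H.lattice k).bits ω) * ∑ e ∈ univ, infl H p q e * T e ω)) +
        (fun c => emm H p q k c ^ 2) ((H.lattice k).bits ω) * 1 := by
    funext ω
    rw [tee_succ]
    have h2 : (∑ e, infl H p q e * tee H p q k (fun f => ω (e, f))) ^ 2 =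
        ∑ e ∈ univ, ∑ e' ∈ univ, infl H p q e * infl H p q e' * (T e ω * T e' ω) := by
      rw [pow_two, sum_mul_sum]
      refine sum_congr rfl fun e _ => sum_congr rfl fun e' _ => ?_
      simp only [hT]
      ring
    rw [← h2]
    simp only [hT]
    ring
  rw [h1]
  have hadd := cond_add (k := k) ((H.lattice k).uw p q) (H.lattice k).bit
    (aval ((H.lattice k).uw p q) (H.lattice k).bit)
    (fun ω => ((∑ e ∈ univ, ∑ e' ∈ univ, infl H p q e * infl H p q e' * (T e ω * T e' ω)) +
        2 * (emm H p q k ((H.lattice k).bits ω) * ∑ e ∈ univ, infl H p q e * T e ω)))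
    (fun ω => (fun c => emm H p q k c ^ 2) ((H.lattice k).bits ω) * 1) c
  rw [hadd]
  have hadd2 := cond_add (k := k) ((H.lattice k).uw p q) (H.lattice k).bit
    (aval ((H.lattice k).uw p q) (H.lattice k).bit)
    (fun ω => (∑ e ∈ univ, ∑ e' ∈ univ, infl H p q e * infl H p q e' * (T e ω * T e' ω)))
    (fun ω => 2 * (emm H p q k ((H.lattice k).bits ω) * ∑ e ∈ univ, infl H p q e * T e ω)) c
  rw [hadd2]
  have hone : cond ((H.lattice k).uw p q) (H.lattice k).bit
      (aval ((H.lattice k).uw p q) (H.lattice k).bit)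
      (fun _ : Fin (n + 1) × LEdge (Fin (n + 1)) k → Bool => (1 : ℝ)) c = 1 := by
    have := cond_single hc k (fun _ => 1) c 0
    rw [ce_one hc] at this
    exact this
  have h3 := cond_bits hc k (fun c => emm H p q k c ^ 2) (fun _ => 1) c
  rw [h3, hone, mul_one]
  have hsing : ∀ e, cond ((H.lattice k).uw p q) (H.lattice k).bit
      (aval ((H.lattice k).uw p q) (H.lattice k).bit) (T e) c = 0 := by
    intro e
    have := cond_single hc k (tee H p q k) c e
    rw [ce_tee hc] at this
    exact this
  have h4 := cond_smul (k := k) ((H.lattice k).uw p q) (H.lattice k).bit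
    (aval ((H.lattice k).uw p q) (H.lattice k).bit) 2
    (fun ω => emm H p q k ((H.lattice k).bits ω) * ∑ e ∈ univ, infl H p q e * T e ω) c
  have h5 := cond_bits hc k (emm H p q k) (fun ω => ∑ e ∈ univ, infl H p q e * T e ω) c
  have h6 := cond_sum (k := k) univ ((H.lattice k).uw p q) (H.lattice k).bit
    (aval ((H.lattice k).uw p q) (H.lattice k).bit) (fun e ω => infl H p q e * T e ω) c
  have h7 : ∀ e, cond ((H.lattice k).uw p q) (H.lattice k).bit
      (aval ((H.lattice k).uw p q) (H.lattice k).bit) (fun ω => infl H p q e * T e ω) c = 0 := by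
    intro e
    rw [cond_smul, hsing, mul_zero]
  simp only [h7, sum_const_zero] at h6
  rw [h4, h5, h6, mul_zero, mul_zero, add_zero]
  congr 1
  have h8 := cond_sum (k := k) univ ((H.lattice k).uw p q) (H.lattice k).bit
    (aval ((H.lattice k).uw p q) (H.lattice k).bit)
    (fun e ω => ∑ e' ∈ univ, infl H p q e * infl H p q e' * (T e ω * T e' ω)) c
  rw [h8]
  refine sum_congr rfl fun e _ => ?_
  have h9 := cond_sum (k := k) univ ((H.lattice k).uw p q) (H.lattice k).bit
    (aval ((H.lattice k).uw p q) (H.lattice k).bit)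
    (fun e' ω => infl H p q e * infl H p q e' * (T e ω * T e' ω)) c
  rw [h9]
  rw [sum_eq_single e]
  · rw [cond_smul]
    have h10 := cond_single hc k (fun ω => tee H p q k ω ^ 2) c e
    have h11 : (fun ω => T e ω * T e ω) =
        fun ω : Fin (n + 1) × LEdge (Fin (n + 1)) k → Bool =>
          (fun ω => tee H p q k ω ^ 2) (fun f => ω (e, f)) := by
      funext ω
      simp only [hT]
      ring
    rw [h11, h10, vee]
    ring
  · intro e' _ he
    rw [cond_smul]
    have h10 := cond_two hc k (tee H p q k) (tee H p q k) c (e := e) (e' := e') he.symm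
    rw [ce_tee hc, zero_mul] at h10
    have h11 : cond ((H.lattice k).uw p q) (H.lattice k).bit
      (aval ((H.lattice k).uw p q) (H.lattice k).bit) (fun ω => T e ω * T e' ω) c = 0 := h10
    rw [h11, mul_zero]
  · intro h
    exact absurd (mem_univ e) h

lemma vee_zero (hc : FixedPt H p q) (b : Bool) : vee H p q 0 b = 0 := by
  have h0 : ∀ b, mu H p q 0 b = if b = true then 1 else 0 := by
    intro b
    unfold mu ce
    rw [sum_zero]
    simp only [kern, aval_zero H p hc.hq, bit_zero, uw_zero H p hc.hq, slow]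
    have h1 : p ≠ 0 := hc.hp0.ne'
    cases b <;> simp [h1]
  have h1 : (fun ω => tee H p q 0 ω ^ 2) = fun _ : LEdge (Fin (n + 1)) 0 → Bool => (0 : ℝ) := by
    funext ω
    rw [tee, h0, bit_zero, slow]
    simp
  rw [vee, h1]
  simp [ce]

/-- The conditional variance grows at most like the square of the jump of the mean. -/
lemma vee_le (hc : FixedPt H p q) (hJ : 1 < jsum H p q) (k : ℕ) (b : Bool) :
    vee H p q k b ≤ labs H p q ^ 2 / (jsum H p q * (jsum H p q - 1)) *
      (jsum H p q ^ k) ^ 2 := by
  set J := jsum H p q with hJd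
  have hJ0 : 0 < J := by linarith
  have hJ1 : 0 < J - 1 := by linarith
  induction k generalizing b with
  | zero =>
    rw [vee_zero hc]
    positivity
  | succ k ih =>
    set C := labs H p q ^ 2 / (J * (J - 1)) with hC
    have h1 : vee H p q (k + 1) b = cb H p q b (fun c =>
        ∑ e, infl H p q e ^ 2 * vee H p q k (c e) + emm H p q k c ^ 2) := by
      rw [vee, ce_succ hc]
      congr 1
      funext c
      exact cond_tee hc k c
    rw [h1]
    refine cb_le hc b fun c => ?_
    have h2 : ∑ e, infl H p q e ^ 2 * vee H p q k (c e) ≤ J * (C * (J ^ k) ^ 2) := by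
      rw [hJd, jsum, sum_mul]
      exact sum_le_sum fun e _ => mul_le_mul_of_nonneg_left (ih (c e)) (sq_nonneg _)
    have h3 : emm H p q k c ^ 2 ≤ (labs H p q * J ^ k) ^ 2 := by
      rw [← sq_abs]
      exact pow_le_pow_left₀ (abs_nonneg _) (abs_emm_le hc k c) 2
    have h4 : J * (C * (J ^ k) ^ 2) + (labs H p q * J ^ k) ^ 2 = C * (J ^ (k + 1)) ^ 2 := by
      have h5 : labs H p q ^ 2 = C * (J * (J - 1)) := by
        rw [hC]
        field_simp
      rw [mul_pow, h5, pow_succ]
      ring
    linarith

end Pool.Agent.FKH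
end

section

/-! The crossing of a block stays correlated for a long time when the sum of the squares of the
influences exceeds one. -/

open Finset

namespace Pool.Agent.FKH

section lin

variable {E : Type} [Fintype E] [DecidableEq E]

/-- The increments of `h` are the constants `a`. -/
def Inc (h : (E → Bool) → ℝ) (a : E → ℝ) : Prop :=
  ∀ x ω, h (Function.update ω x true) - h (Function.update ω x false) = a x

lemma par_le_quarter {a b : ℝ} (ha : 0 < a) (hb : 0 < b) : par a b ≤ (a + b) / 4 := by
  unfold par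
  rw [div_le_div_iff₀ (by positivity) (by norm_num)]
  nlinarith [sq_nonneg (a - b)]

lemma dir_le_inc {w : (E → Bool) → ℝ} (hw : ∀ ω, 0 < w ω) {h : (E → Bool) → ℝ} {a : E → ℝ}
    (ha : Inc h a) : dir w h ≤ 1 / 4 * (∑ ω, w ω) * ∑ x, a x ^ 2 := by
  unfold dir
  rw [mul_sum]
  refine sum_le_sum fun x _ => ?_
  have h1 : ∑ ω, pd w h x ω ≤ ∑ ω, (w (Function.update ω x true) +
      w (Function.update ω x false)) / 4 * a x ^ 2 := by
    refine sum_le_sum fun ω _ => ?_
    rw [pd, ha x ω]
    exact mul_le_mul_of_nonneg_right (par_le_quarter (hw _) (hw _)) (sq_nonneg _)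
  have h2 : ∑ ω, (w (Function.update ω x true) +
      w (Function.update ω x false)) / 4 * a x ^ 2 = 1 / 2 * (∑ ω, w ω) * a x ^ 2 := by
    rw [sum_pair x w, ← sum_mul, ← sum_div]
    ring
  rw [h2] at h1
  linarith

end lin

variable {I : Type} [Finite I] {n : ℕ} {H : Net I (Fin (n + 1))} {p q : ℝ}

omit [Finite I] in
lemma slow_inc (H : Net I (Fin (n + 1))) (p q : ℝ) (k : ℕ) :
    ∃ a : LEdge (Fin (n + 1)) k → ℝ, Inc (slow H p q k) a ∧ ∑ x, a x ^ 2 = jsum H p q ^ k := by
  induction k with
  | zero =>
    refine ⟨fun _ => 1, ?_, ?_⟩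
    · intro x ω
      cases x
      simp only [slow]
      have h1 : ∀ b, Function.update ω () b () = b := fun b => Function.update_self _ _ _
      rw [h1, h1]
      simp
    · rw [pow_zero]
      have h3 : ∀ φ : LEdge (Fin (n + 1)) 0 → ℝ, ∑ e, φ e = φ () :=
        fun φ => Fintype.sum_unique (ι := Unit) φ
      rw [h3]
      norm_num
  | succ k ih =>
    obtain ⟨a, ha, hs⟩ := ih
    refine ⟨fun x => infl H p q x.1 * a x.2, ?_, ?_⟩
    · rintro ⟨e, f⟩ ω
      simp only [slow]
      rw [← sum_sub_distrib, sum_eq_single e]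
      · have h1 : ∀ b, (fun g => Function.update ω (e, f) b (e, g)) =
            Function.update (fun g => ω (e, g)) f b := by
          intro b
          funext g
          by_cases hg : g = f
          · subst hg
            simp
          · rw [Function.update_of_ne hg, Function.update_of_ne]
            intro hcon
            exact hg (Prod.mk.inj hcon).2
        rw [h1, h1, ← mul_sub, ha f]
      · intro e' _ he
        have h1 : ∀ b, (fun g => Function.update ω (e, f) b (e', g)) = fun g => ω (e', g) := by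
          intro b
          funext g
          rw [Function.update_of_ne]
          intro hcon
          exact he (Prod.mk.inj hcon).1
        rw [h1, h1, sub_self]
      · intro h
        exact absurd (mem_univ e) h
    · have h1 : ∀ φ : LEdge (Fin (n + 1)) (k + 1) → ℝ, ∑ x, φ x =
          ∑ e : Fin (n + 1), ∑ f : LEdge (Fin (n + 1)) k, φ (e, f) :=
        fun φ => Fintype.sum_prod_type φ
      rw [h1]
      simp only [mul_pow]
      simp only [← mul_sum, hs]
      rw [← sum_mul, pow_succ, jsum]
      ring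

lemma block_inc {k N : ℕ} {ι : LEdge (Fin (n + 1)) k → LEdge (Fin (n + 1)) N}
    (hι : IsBlock (Fin (n + 1)) k N ι) {F : (LEdge (Fin (n + 1)) k → Bool) → ℝ} {D : ℝ}
    (hF : ∃ a : LEdge (Fin (n + 1)) k → ℝ, Inc F a ∧ ∑ x, a x ^ 2 = D) :
    ∃ a : LEdge (Fin (n + 1)) N → ℝ, Inc (fun ω => F (ω ∘ ι)) a ∧ ∑ x, a x ^ 2 = D := by
  induction hι with
  | refl => exact hF
  | step N ι e h ih =>
    obtain ⟨a, ha, hs⟩ := ih
    refine ⟨fun x => if x.1 = e then a x.2 else 0, ?_, ?_⟩
    · rintro ⟨e', f⟩ ω
      have h0 : ∀ η : LEdge (Fin (n + 1)) (N + 1) → Bool,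
          (η ∘ fun x => (e, ι x)) = (fun g => η (e, g)) ∘ ι := fun _ => rfl
      simp only [h0]
      by_cases he : e' = e
      · subst he
        have h1 : ∀ b, (fun g => Function.update ω (e', f) b (e', g)) =
            Function.update (fun g => ω (e', g)) f b := by
          intro b
          funext g
          by_cases hg : g = f
          · subst hg
            simp
          · rw [Function.update_of_ne hg, Function.update_of_ne]
            intro hcon
            exact hg (Prod.mk.inj hcon).2
        rw [h1, h1, if_pos rfl]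
        exact ha f _
      · have h1 : ∀ b, (fun g => Function.update ω (e', f) b (e, g)) = fun g => ω (e, g) := by
          intro b
          funext g
          rw [Function.update_of_ne]
          intro hcon
          exact he (Prod.mk.inj hcon).1.symm
        rw [h1, h1, if_neg he, sub_self]
    · have h1 : ∀ φ : LEdge (Fin (n + 1)) (N + 1) → ℝ, ∑ x, φ x =
          ∑ e : Fin (n + 1), ∑ f : LEdge (Fin (n + 1)) N, φ (e, f) :=
        fun φ => Fintype.sum_prod_type φ
      rw [h1, sum_eq_single e]
      · simp only [if_true]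
        exact hs
      · intro e' _ he
        simp [he]
      · intro h
        exact absurd (mem_univ e) h

lemma MB_block' (hp0 : 0 < p) (hp1 : p < 1) (hq : 0 < q) {k : ℕ} {a b : ℝ}
    {M : (LEdge (Fin (n + 1)) k → Bool) → ℝ}
    (hM : MB q a b ((H.lattice k).uw p q) (H.lattice k).bit M) {N : ℕ}
    {ι : LEdge (Fin (n + 1)) k → LEdge (Fin (n + 1)) N} (h : IsBlock (Fin (n + 1)) k N ι) :
    MB q a b ((H.lattice N).uw p q) (H.lattice N).bit (fun ω => M (ω ∘ ι)) := by
  induction h with
  | refl => exact hM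
  | step N ι e h ih =>
    exact MB_embed H (H.lattice N) hp0 hp1 hq ih e

lemma fk_mean_of_MB (hp0 : 0 < p) (hp1 : p < 1) (hq : 0 < q) {N : ℕ} {a b : ℝ}
    {M : (LEdge (Fin (n + 1)) N → Bool) → ℝ}
    (hM : MB q a b ((H.lattice N).uw p q) (H.lattice N).bit M) :
    a ≤ ∑ ω, (H.lattice N).fk p q ω * M ω ∧ ∑ ω, (H.lattice N).fk p q ω * M ω ≤ b := by
  have h2 := hM q⁻¹ (Or.inr rfl)
  have hZ := mass_pos (G := H.lattice N) hp0 hp1 hq
  have h3 : ∑ ω, (H.lattice N).fk p q ω * M ω =
      (∑ z, bw ((H.lattice N).uw p q) (H.lattice N).bit q⁻¹ z * M z) /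
        ∑ z, bw ((H.lattice N).uw p q) (H.lattice N).bit q⁻¹ z := by
    simp only [fk_eq (H.lattice N) p hq]
    rw [sum_div]
    refine sum_congr rfl fun ω _ => ?_
    field_simp
  rw [h3, le_div_iff₀ hZ, div_le_iff₀ hZ]
  exact h2

lemma bw_split {F : Type} [Fintype F] [DecidableEq F] (u : (F → Bool) → ℝ)
    (γ : (F → Bool) → Bool) (ρ : ℝ) (Φ : (F → Bool) → ℝ) :
    ∑ z, bw u γ ρ z * Φ z = ∑ z, (if γ z = false then u z else 0) * Φ z +
      ρ * ∑ z, (if γ z = true then u z else 0) * Φ z := by
  rw [mul_sum, ← sum_add_distrib]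
  refine sum_congr rfl fun z _ => ?_
  unfold bw
  cases γ z
  · simp
  · simp
    ring

/-- The block measure given its bit does not depend on the outside. -/
lemma block_mean (hc : FixedPt H p q) {k N : ℕ}
    {ι : LEdge (Fin (n + 1)) k → LEdge (Fin (n + 1)) N} (hι : IsBlock (Fin (n + 1)) k N ι)
    (F : (LEdge (Fin (n + 1)) k → Bool) → ℝ) :
    ∑ ω, (H.lattice N).fk p q ω * F (ω ∘ ι) =
      ∑ ω, (H.lattice N).fk p q ω * ce H p q k ((H.lattice k).bit (ω ∘ ι)) F := by
  have h1 : MB q 0 0 ((H.lattice k).uw p q) (H.lattice k).bit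
      (fun z => F z - ce H p q k ((H.lattice k).bit z) F) := by
    intro ρ hρ
    have h2 : ∑ z, bw ((H.lattice k).uw p q) (H.lattice k).bit ρ z *
        (F z - ce H p q k ((H.lattice k).bit z) F) = 0 := by
      rw [bw_split]
      have h3 : ∀ b : Bool, ∑ z, (if (H.lattice k).bit z = b then (H.lattice k).uw p q z else 0) *
          (F z - ce H p q k ((H.lattice k).bit z) F) = 0 := by
        intro b
        have hA := (A_pos hc k b).ne'
        have h4 : ∀ z, (if (H.lattice k).bit z = b then (H.lattice k).uw p q z else 0) *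
            (F z - ce H p q k ((H.lattice k).bit z) F) =
            aval ((H.lattice k).uw p q) (H.lattice k).bit b *
              (kern ((H.lattice k).uw p q) (H.lattice k).bit
                (aval ((H.lattice k).uw p q) (H.lattice k).bit) b z * F z) -
            (if (H.lattice k).bit z = b then (H.lattice k).uw p q z else 0) *
              ce H p q k b F := by
          intro z
          unfold kern
          split_ifs with h
          · rw [h]
            field_simp
          · simp
        simp only [h4, sum_sub_distrib, ← mul_sum, ← sum_mul]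
        have h5 : ∑ z, (if (H.lattice k).bit z = b then (H.lattice k).uw p q z else 0) =
          aval ((H.lattice k).uw p q) (H.lattice k).bit b := rfl
        rw [h5]
        unfold ce
        ring
      rw [h3, h3]
      ring
    rw [h2]
    simp
  have h2 := fk_mean_of_MB hc.hp0 hc.hp1 hc.hq (MB_block' hc.hp0 hc.hp1 hc.hq h1 hι)
  have h3 : ∑ ω, (H.lattice N).fk p q ω *
      (F (ω ∘ ι) - ce H p q k ((H.lattice k).bit (ω ∘ ι)) F) = 0 := le_antisymm h2.2 h2.1
  simp only [mul_sub, sum_sub_distrib] at h3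
  linarith

end Pool.Agent.FKH
end

section

/-! The crossing of a block stays correlated for a long time: conclusion. -/

open Finset

namespace Pool.Agent.FKH

section abs

variable {E : Type} [Fintype E] [DecidableEq E] {π : (E → Bool) → ℝ}

lemma ip_cs (hπ : ∀ ω, 0 < π ω) (f g : (E → Bool) → ℝ) :
    ip π f g ^ 2 ≤ ip π f f * ip π g g := by
  unfold ip
  refine sum_sq_le_sum_mul_sum_of_sq_le_mul univ (fun ω _ => ?_) (fun ω _ => ?_) fun ω _ => ?_
  · exact mul_nonneg (hπ ω).le (mul_self_nonneg _)
  · exact mul_nonneg (hπ ω).le (mul_self_nonneg _)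
  · exact le_of_eq (by ring)

lemma norm_sub_evolve (hπ : ∀ ω, 0 < π ω) (h : (E → Bool) → ℝ) {s : ℝ} (hs : 0 ≤ s) :
    ip π (fun ω => h ω - evolve π s h ω) (fun ω => h ω - evolve π s h ω) ≤
      2 * s * dir π h := by
  have h1 := norm_le_dir hπ h hs
  have h2 := dir_le_norm hπ h hs
  have h3 := ip_evolve_half hπ h s
  have h4 : 0 ≤ s * dir π (evolve π s h) :=
    mul_nonneg hs (dir_nonneg (fun ω => (hπ ω).le) _)
  have h5 : ip π (fun ω => h ω - evolve π s h ω) (fun ω => h ω - evolve π s h ω) =
      ip π h h - 2 * ip π h (evolve π s h) + ip π (evolve π s h) (evolve π s h) := by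
    simp only [ip]
    rw [mul_sum, ← sum_sub_distrib, ← sum_add_distrib]
    refine sum_congr rfl fun ω _ => ?_
    ring
  rw [h5, h3]
  linarith

/-- Lower bound for the autocovariance from a slow observable. -/
lemma autoCov_ge (hπ : ∀ ω, 0 < π ω) (h1 : ∑ ω, π ω = 1) (f h : (E → Bool) → ℝ)
    (hf0 : ∀ ω, 0 ≤ f ω) (hf1 : ∀ ω, f ω ≤ 1) {a B D : ℝ} (ha : 0 < a)
    (hcov : a ≤ ip π f h - ip π (fun _ => 1) f * ip π (fun _ => 1) h)
    (hB : 0 < B) (hhB : ip π h h ≤ B) (hD : dir π h ≤ D) {t : ℝ} (ht : 0 ≤ t)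
    (htD : t * D ≤ a ^ 2 / 4) : a ^ 2 / (4 * B) ≤ autoCov π t f := by
  rw [autoCov_eq hπ h1]
  set c := ip π (fun _ => 1) f with hc
  have hc0 : 0 ≤ c := sum_nonneg fun ω _ => mul_nonneg (hπ ω).le (by
    rw [one_mul]
    exact hf0 ω)
  have hc1 : c ≤ 1 := by
    rw [hc, ip]
    refine le_trans (sum_le_sum fun ω _ => ?_) h1.le
    rw [one_mul]
    exact mul_le_of_le_one_right (hπ ω).le (hf1 ω)
  set g : (E → Bool) → ℝ := fun ω => f ω - c with hg
  have hgg : ip π g g ≤ 1 := by
    rw [ip]
    refine le_trans (sum_le_sum fun ω _ => mul_le_of_le_one_right (hπ ω).le ?_) h1.le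
    have h2 := hf0 ω
    have h3 := hf1 ω
    simp only [hg]
    nlinarith
  have hgh : ip π g h = ip π f h - c * ip π (fun _ => 1) h := by
    simp only [ip, hg]
    rw [mul_sum, ← sum_sub_distrib]
    refine sum_congr rfl fun ω _ => ?_
    ring
  have hah : a ≤ ip π g h := by
    rw [hgh]
    exact hcov
  rw [ip_evolve_half hπ]
  set u := evolve π (t / 2) g with hu
  have h2 : ip π u h = ip π g (evolve π (t / 2) h) := (ip_evolve hπ g h (t / 2)).symm
  set d := ip π g (fun ω => h ω - evolve π (t / 2) h ω) with hd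
  have h3 : ip π g (evolve π (t / 2) h) = ip π g h - d := by
    simp only [ip, hd]
    rw [← sum_sub_distrib]
    refine sum_congr rfl fun ω _ => ?_
    ring
  have h4 : d ^ 2 ≤ a ^ 2 / 4 := by
    have h5 := ip_cs hπ g (fun ω => h ω - evolve π (t / 2) h ω)
    have h6 := norm_sub_evolve hπ h (s := t / 2) (by linarith)
    have h7 : 2 * (t / 2) * dir π h ≤ t * D := by
      have : 2 * (t / 2) * dir π h = t * dir π h := by ring
      rw [this]
      exact mul_le_mul_of_nonneg_left hD ht
    have h8 := ip_self_nonneg hπ (fun ω => h ω - evolve π (t / 2) h ω)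
    calc d ^ 2 ≤ ip π g g * _ := h5
      _ ≤ 1 * _ := mul_le_mul_of_nonneg_right hgg h8
      _ ≤ a ^ 2 / 4 := by
        rw [one_mul]
        linarith
  have h5 : d ≤ a / 2 := by
    have h6 : d ^ 2 ≤ (a / 2) ^ 2 := by
      have : (a / 2) ^ 2 = a ^ 2 / 4 := by ring
      rw [this]
      exact h4
    have h7 := abs_le_of_sq_le_sq h6 (by linarith)
    exact (abs_le.mp h7).2
  have h6 : a / 2 ≤ ip π u h := by
    rw [h2, h3]
    linarith
  have h7 := ip_cs hπ u h
  have h8 := ip_self_nonneg hπ u
  have h9 : ip π u u * ip π h h ≤ ip π u u * B := mul_le_mul_of_nonneg_left hhB h8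
  have h10 : (a / 2) ^ 2 ≤ ip π u h ^ 2 := pow_le_pow_left₀ (by linarith) h6 2
  rw [div_le_iff₀ (by positivity)]
  nlinarith

end abs

variable {I : Type} [Finite I] {n : ℕ} {H : Net I (Fin (n + 1))} {p q : ℝ}

lemma fixed_bounds (hc : FixedPt H p q) {a b : ℝ}
    (hab : ∀ ρ : ℝ, (ρ = 1 ∨ ρ = q⁻¹) → a ≤ ρ * (p / (1 - p)) / (1 + ρ * (p / (1 - p))) ∧
      ρ * (p / (1 - p)) / (1 + ρ * (p / (1 - p))) ≤ b)
    (k N : ℕ) (ι : LEdge (Fin (n + 1)) k → LEdge (Fin (n + 1)) N)
    (hι : IsBlock (Fin (n + 1)) k N ι) :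
    a ≤ ∑ ω, (H.lattice N).fk p q ω * (H.lattice k).cross (ω ∘ ι) ∧
      ∑ ω, (H.lattice N).fk p q ω * (H.lattice k).cross (ω ∘ ι) ≤ b := by
  have hx : 0 < p / (1 - p) := hc.x_pos
  set x := p / (1 - p) with hxd
  obtain ⟨l1, l2⟩ := levels' hc k
  have h1 : MB q a b ((H.lattice k).uw p q) (H.lattice k).bit (H.lattice k).cross := by
    intro ρ hρ
    have hρ0 : 0 < ρ := by
      have := hc.hq
      rcases hρ with rfl | rfl <;> positivity
    set u := (H.lattice k).uw p q
    set γ := (H.lattice k).bit
    have hZ : ∑ z, bw u γ ρ z = (1 + ρ * x) * aval u γ false := by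
      have h2 : ∑ z, bw u γ ρ z = aval u γ false + ρ * aval u γ true := by
        simp only [aval, mul_sum, ← sum_add_distrib]
        refine sum_congr rfl fun z _ => ?_
        unfold bw
        cases γ z <;> simp [mul_comm]
      rw [h2, l2]
      ring
    have hS : ∑ z, bw u γ ρ z * (H.lattice k).cross z = ρ * x * aval u γ false := by
      have h2 : ∑ z, bw u γ ρ z * (H.lattice k).cross z = ρ * aval u γ true := by
        simp only [aval, mul_sum]
        refine sum_congr rfl fun z _ => ?_
        rw [Net.cross_eq]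
        unfold bw
        split_ifs <;> simp_all [mul_comm]
      rw [h2, l2]
      ring
    obtain ⟨h3, h4⟩ := hab ρ hρ
    have h5 : 0 < 1 + ρ * x := by positivity
    rw [le_div_iff₀ h5] at h3
    rw [div_le_iff₀ h5] at h4
    rw [hZ, hS]
    constructor <;> nlinarith
  exact fk_mean_of_MB hc.hp0 hc.hp1 hc.hq (MB_block' hc.hp0 hc.hp1 hc.hq h1 hι)

lemma mean_bit (hc : FixedPt H p q) {k N : ℕ}
    (ι : LEdge (Fin (n + 1)) k → LEdge (Fin (n + 1)) N) (m : Bool → ℝ) :
    ∑ ω, (H.lattice N).fk p q ω * m ((H.lattice k).bit (ω ∘ ι)) =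
      m false + (m true - m false) *
        ∑ ω, (H.lattice N).fk p q ω * (H.lattice k).cross (ω ∘ ι) := by
  have h1 := fk_sum (G := H.lattice N) hc.hp0 hc.hp1 hc.hq
  have h2 : ∀ ω, (H.lattice N).fk p q ω * m ((H.lattice k).bit (ω ∘ ι)) =
      m false * (H.lattice N).fk p q ω + (m true - m false) *
        ((H.lattice N).fk p q ω * (H.lattice k).cross (ω ∘ ι)) := by
    intro ω
    rw [Net.cross_eq]
    cases (H.lattice k).bit (ω ∘ ι)
    · simp
      ring
    · simp
      ring
  simp only [h2, sum_add_distrib, ← mul_sum, h1, mul_one]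

/-- The crossing events of the blocks stay correlated up to a time which is exponential in the
level, when the sum of the squares of the influences exceeds one. -/
theorem stay (hc : FixedPt H p q) (hJ : 1 < jsum H p q) :
    ∃ c : ℝ, 0 < c ∧ ∀ (k N : ℕ) (ι : LEdge (Fin (n + 1)) k → LEdge (Fin (n + 1)) N),
      IsBlock (Fin (n + 1)) k N ι → ∀ t : ℝ, 0 ≤ t → t ≤ c * jsum H p q ^ k →
      c ≤ autoCov ((H.lattice N).fk p q) t (fun ω => (H.lattice k).cross (ω ∘ ι)) := by
  set J := jsum H p q with hJd
  have hJ0 : 0 < J := by linarith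
  have hJ1 : 0 < J - 1 := by linarith
  have hx := hc.x_pos
  set x := p / (1 - p) with hxd
  have hq := hc.hq
  have hqx : 0 < q⁻¹ * x := by positivity
  set lo := min (x / (1 + x)) (q⁻¹ * x / (1 + q⁻¹ * x)) with hlo
  set hi := max (x / (1 + x)) (q⁻¹ * x / (1 + q⁻¹ * x)) with hhi
  have hlo0 : 0 < lo := lt_min (by positivity) (by positivity)
  have hhi1 : hi < 1 := max_lt ((div_lt_one (by positivity)).mpr (by linarith))
    ((div_lt_one (by positivity)).mpr (by linarith))
  set κ := lo * (1 - hi) with hκ
  have hκ0 : 0 < κ := mul_pos hlo0 (by linarith)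
  set C1 := labs H p q ^ 2 / (J * (J - 1)) with hC1
  have hC10 : 0 ≤ C1 := by positivity
  refine ⟨κ ^ 2 / (4 * (C1 + 1)), by positivity, fun k N ι hι t ht htk => ?_⟩
  set π := (H.lattice N).fk p q with hπd
  have hπ : ∀ ω, 0 < π ω := fun ω => fk_pos hc.hp0 hc.hp1 hc.hq ω
  have hπ1 : ∑ ω, π ω = 1 := fk_sum hc.hp0 hc.hp1 hc.hq
  set f : (LEdge (Fin (n + 1)) N → Bool) → ℝ := fun ω => (H.lattice k).cross (ω ∘ ι) with hf
  set h : (LEdge (Fin (n + 1)) N → Bool) → ℝ :=
    fun ω => slow H p q k (ω ∘ ι) - mu H p q k false with hh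
  set θ := ∑ ω, π ω * f ω with hθ
  have hJk : 0 < J ^ k := pow_pos hJ0 k
  have hbd := fixed_bounds hc (a := lo) (b := hi) (by
    intro ρ hρ
    rcases hρ with rfl | rfl
    · rw [one_mul]
      exact ⟨min_le_left _ _, le_max_left _ _⟩
    · exact ⟨min_le_right _ _, le_max_right _ _⟩) k N ι hι
  have hκθ : κ ≤ θ * (1 - θ) := by
    have h1 : lo ≤ θ := hbd.1
    have h2 : θ ≤ hi := hbd.2
    exact mul_le_mul h1 (by linarith) (by linarith) (by linarith)
  have hΔ : mu H p q k true - mu H p q k false = J ^ k := mu_diff hc k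
  -- the means
  have e1 : ip π (fun _ => 1) h = J ^ k * θ := by
    have h1 := block_mean hc hι (fun z => slow H p q k z - mu H p q k false)
    have h2 : ∀ b, ce H p q k b (fun z => slow H p q k z - mu H p q k false) =
        mu H p q k b - mu H p q k false := by
      intro b
      have h3 := ce_add (H := H) (p := p) (q := q) k b (slow H p q k)
        (fun _ => -mu H p q k false)
      have h4 := ce_fun_bit hc k b (fun _ => -mu H p q k false)
      rw [h4] at h3
      simpa [sub_eq_add_neg, mu] using h3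
    simp only [h2] at h1
    rw [mean_bit hc ι (fun b => mu H p q k b - mu H p q k false)] at h1
    simp only [ip, one_mul]
    rw [← hΔ]
    calc _ = ∑ ω, (H.lattice N).fk p q ω * (fun z => slow H p q k z - mu H p q k false)
          (ω ∘ ι) := rfl
      _ = _ := h1
      _ = _ := by
          rw [hθ]
          simp only [sub_self, sub_zero, zero_add]
          rfl
  have e2 : ip π f h = J ^ k * θ := by
    have h1 := block_mean hc hι
      (fun z => (fun b => if b = true then (1 : ℝ) else 0) ((H.lattice k).bit z) *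
        (slow H p q k z - mu H p q k false))
    have h2 : ∀ b, ce H p q k b
        (fun z => (fun b => if b = true then (1 : ℝ) else 0) ((H.lattice k).bit z) *
          (slow H p q k z - mu H p q k false)) =
        (if b = true then (1 : ℝ) else 0) * (mu H p q k b - mu H p q k false) := by
      intro b
      have h3 := ce_add (H := H) (p := p) (q := q) k b (slow H p q k)
        (fun _ => -mu H p q k false)
      have h4 := ce_fun_bit hc k b (fun _ => -mu H p q k false)
      rw [h4] at h3
      have h5 := ce_bit (H := H) (p := p) (q := q) k b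
        (fun b => if b = true then (1 : ℝ) else 0)
        (fun z => slow H p q k z - mu H p q k false)
      have h7 : ce H p q k b (fun z => slow H p q k z - mu H p q k false) =
          mu H p q k b - mu H p q k false := by
        simpa [sub_eq_add_neg, mu] using h3
      rw [h5, h7]
    simp only [h2] at h1
    have h6 := mean_bit hc ι
      (fun b => (if b = true then (1 : ℝ) else 0) * (mu H p q k b - mu H p q k false))
    simp only [ip]
    rw [← hΔ]
    calc _ = ∑ ω, (H.lattice N).fk p q ω *
          ((if (H.lattice k).bit (ω ∘ ι) = true then (1 : ℝ) else 0) *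
            (slow H p q k (ω ∘ ι) - mu H p q k false)) := by
          refine sum_congr rfl fun ω _ => ?_
          simp only [hf, hh, Net.cross_eq]
          rfl
      _ = _ := h1
      _ = _ := h6
      _ = _ := by
          rw [hθ]
          simp only [Bool.false_eq_true, if_false, if_true, zero_mul, one_mul, sub_zero,
            zero_add]
          rfl
  have e3 : ip π h h ≤ (C1 + 1) * (J ^ k) ^ 2 := by
    have h1 := block_mean hc hι (fun z => (slow H p q k z - mu H p q k false) ^ 2)
    have h2 : ∀ b, ce H p q k b (fun z => (slow H p q k z - mu H p q k false) ^ 2) ≤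
        (C1 + 1) * (J ^ k) ^ 2 := by
      intro b
      have h3 : (fun z => (slow H p q k z - mu H p q k false) ^ 2) =
          fun z => (fun z => tee H p q k z ^ 2) z +
            ((fun z => (fun b => 2 * (mu H p q k b - mu H p q k false)) ((H.lattice k).bit z) *
              tee H p q k z) z +
            (fun b => (mu H p q k b - mu H p q k false) ^ 2) ((H.lattice k).bit z)) := by
        funext z
        simp only [tee]
        ring
      rw [h3, ce_add, ce_add]
      have h4 := ce_bit (H := H) (p := p) (q := q) k b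
        (fun b => 2 * (mu H p q k b - mu H p q k false)) (tee H p q k)
      have h5 := ce_fun_bit hc k b (fun b => (mu H p q k b - mu H p q k false) ^ 2)
      rw [h4, ce_tee hc, h5, mul_zero, zero_add]
      have h6 := vee_le hc hJ k b
      have h7 : (mu H p q k b - mu H p q k false) ^ 2 ≤ (J ^ k) ^ 2 := by
        cases b
        · rw [sub_self, zero_pow two_ne_zero]
          positivity
        · rw [hΔ]
      have h8 : ce H p q k b (fun z => tee H p q k z ^ 2) = vee H p q k b := rfl
      rw [h8]
      calc _ ≤ C1 * (J ^ k) ^ 2 + (J ^ k) ^ 2 := add_le_add h6 h7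
        _ = _ := by ring
    calc ip π h h = ∑ ω, (H.lattice N).fk p q ω *
          (fun z => (slow H p q k z - mu H p q k false) ^ 2) (ω ∘ ι) := by
          simp only [ip, hh]
          refine sum_congr rfl fun ω _ => ?_
          rw [pow_two]
      _ = _ := h1
      _ ≤ ∑ ω, π ω * ((C1 + 1) * (J ^ k) ^ 2) :=
          sum_le_sum fun ω _ => mul_le_mul_of_nonneg_left (h2 _) (hπ ω).le
      _ = _ := by rw [← sum_mul, hπ1, one_mul]
  have e4 : dir π h ≤ 1 / 4 * J ^ k := by
    obtain ⟨a, ha, hs⟩ := block_inc hι (slow_inc H p q k)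
    have ha' : Inc h a := by
      intro x ω
      have := ha x ω
      simp only [hh]
      rw [← this]
      ring
    have h1 := dir_le_inc hπ ha'
    rw [hπ1, hs, mul_one] at h1
    exact h1
  have hf0 : ∀ ω, 0 ≤ f ω := by
    intro ω
    simp only [hf, Net.cross_eq]
    split_ifs <;> norm_num
  have hf1 : ∀ ω, f ω ≤ 1 := by
    intro ω
    simp only [hf, Net.cross_eq]
    split_ifs <;> norm_num
  have hθ' : ip π (fun _ => 1) f = θ := by
    simp only [ip, one_mul]
    rfl
  have h1 := autoCov_ge hπ hπ1 f h hf0 hf1 (a := κ * J ^ k) (B := (C1 + 1) * (J ^ k) ^ 2)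
    (D := 1 / 4 * J ^ k) (by positivity) (by
      rw [e1, e2, hθ']
      calc κ * J ^ k ≤ θ * (1 - θ) * J ^ k := mul_le_mul_of_nonneg_right hκθ hJk.le
        _ = _ := by ring) (by positivity) e3 e4 ht (by
      have h2 : κ ^ 2 / (4 * (C1 + 1)) ≤ κ ^ 2 := by
        rw [div_le_iff₀ (by positivity)]
        nlinarith [sq_nonneg κ, mul_nonneg (sq_nonneg κ) hC10]
      calc t * (1 / 4 * J ^ k) ≤ κ ^ 2 * J ^ k * (1 / 4 * J ^ k) :=
            mul_le_mul_of_nonneg_right
              (htk.trans (mul_le_mul_of_nonneg_right h2 hJk.le)) (by positivity)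
        _ = _ := by ring)
  refine le_trans (le_of_eq ?_) h1
  have hJk' := hJk.ne'
  field_simp

end Pool.Agent.FKH
end
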